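import Pool.Agent.Lib.H48K.Defs

/-!
# H48K, chunk C: the two rules are computable
-/

open MeasureTheory Set Filter

namespace H48K

variable {a b s t M L : ℕ → ℕ}

/-- C1. Finite sums of a computable function are computable. -/
theorem computable_sum {α : Type*} [Primcodable α] {F : α → ℕ → ℕ} {n : α → ℕ}
    (hF : Computable₂ F) (hn : Computable n) :
    Computable fun x => ∑ i ∈ Finset.range (n x), F x i := by
  have hh : Computable₂ (fun (x : α) (p : ℕ × ℕ) => p.2 + F x p.1) := by
    have h1 : Computable (fun q : α × (ℕ × ℕ) => q.2.2) := Computable.snd.comp Computable.snd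
    have h2 : Computable (fun q : α × (ℕ × ℕ) => F q.1 q.2.1) :=
      hF.comp Computable.fst (Computable.fst.comp Computable.snd)
    exact (Primrec.nat_add.to_comp.comp h1 h2 : Computable (fun q : α × (ℕ × ℕ) => q.2.2 + F q.1 q.2.1)).to₂
  have h3 := Computable.nat_rec hn (Computable.const (α := α) (0 : ℕ)) hh
  refine h3.of_eq fun x => ?_
  generalize n x = k
  induction k with
  | zero => simp
  | succ k ih =>
    rw [Finset.sum_range_succ, ← ih]

theorem computable_u (hL : Computable L) : Computable (u L) := by
  have hF : Computable₂ (fun (_ : ℕ) (m : ℕ) => L m + 1) :=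
    (Computable.succ.comp (hL.comp Computable.snd) : Computable (fun q : ℕ × ℕ => L q.2 + 1)).to₂
  exact computable_sum hF Computable.id

theorem computable_blk (hL : Computable L) : Computable (blk L) := by
  have hF : Computable₂ (fun (k : ℕ) (n : ℕ) => if u L (n + 1) ≤ k then 1 else 0) := by
    have h1 : Computable (fun q : ℕ × ℕ => decide (u L (q.2 + 1) ≤ q.1)) :=
      (Primrec.nat_le.decide.to_comp.comp
        ((computable_u hL).comp (Computable.succ.comp Computable.snd)) Computable.fst)
    have h2 : Computable (fun q : ℕ × ℕ => bif decide (u L (q.2 + 1) ≤ q.1) then (1 : ℕ) else 0) :=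
      Computable.cond h1 (Computable.const 1) (Computable.const 0)
    have h3 : Computable (fun q : ℕ × ℕ => if u L (q.2 + 1) ≤ q.1 then (1 : ℕ) else 0) := by
      refine h2.of_eq fun q => ?_
      by_cases h : u L (q.2 + 1) ≤ q.1 <;> simp [h]
    exact h3.to₂
  have h4 := computable_sum hF Computable.id
  refine h4.of_eq fun k => ?_
  unfold blk
  rw [Finset.card_filter]
  rfl

/-- C2. The first rule is computable. -/
theorem computable_f1 (hs : Computable s) (ht : Computable t) (hL : Computable L) :
    Computable (f1 s t L) := by
  have hlen : Computable (fun v : List Bool => v.length) := Primrec.list_length.to_comp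
  have hb : Computable (fun v : List Bool => blk L v.length) := (computable_blk hL).comp hlen
  have hu : Computable (fun v : List Bool => u L (blk L v.length)) := (computable_u hL).comp hb
  have hsb : Computable (fun v : List Bool => s (blk L v.length)) := hs.comp hb
  have htb : Computable (fun v : List Bool => t (blk L v.length)) := ht.comp hb
  have hd : Computable (fun v : List Bool => v.length - u L (blk L v.length)) :=
    Primrec.nat_sub.to_comp.comp hlen hu
  have hg : Computable (fun v : List Bool => v.getD (u L (blk L v.length)) false) :=
    (Primrec.list_getD false).to_comp.comp Computable.id hu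
  have hc : Computable (fun v : List Bool => decide (v.length = u L (blk L v.length))) :=
    Primrec.eq.decide.to_comp.comp hlen hu
  have h1 : Computable (fun v : List Bool => (s (blk L v.length), true)) :=
    hsb.pair (Computable.const true)
  have h2 : Computable (fun v : List Bool =>
      (s (blk L v.length) + (v.length - u L (blk L v.length)), true)) :=
    (Primrec.nat_add.to_comp.comp hsb hd).pair (Computable.const true)
  have h3 : Computable (fun v : List Bool =>
      (t (blk L v.length) + (v.length - u L (blk L v.length)) - 1, true)) :=
    (Primrec.nat_sub.to_comp.comp (Primrec.nat_add.to_comp.comp htb hd)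
      (Computable.const 1)).pair (Computable.const true)
  have h4 := Computable.cond hc h1 (Computable.cond hg h2 h3)
  refine h4.of_eq fun v => ?_
  unfold f1
  by_cases hA : v.length = u L (blk L v.length)
  · rw [if_pos hA, decide_eq_true hA]
    rfl
  · rw [if_neg hA, decide_eq_false hA]
    cases hB : v.getD (u L (blk L v.length)) false
    · simp
    · simp

end H48K
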