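import Pool.Agent.Lib.H48K.C

/-!
# H48K, chunk C2: the second rule is computable
-/

open MeasureTheory Set Filter

namespace H48K

variable {a b s t M L : ℕ → ℕ}

section

variable {α : Type*} [Primcodable α]

private theorem c2_add {f g : α → ℕ} (hf : Computable f) (hg : Computable g) :
    Computable fun x => f x + g x :=
  Primrec.nat_add.to_comp.comp hf hg

private theorem c2_sub {f g : α → ℕ} (hf : Computable f) (hg : Computable g) :
    Computable fun x => f x - g x :=
  Primrec.nat_sub.to_comp.comp hf hg

private theorem c2_mul {f g : α → ℕ} (hf : Computable f) (hg : Computable g) :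
    Computable fun x => f x * g x :=
  Primrec.nat_mul.to_comp.comp hf hg

private theorem c2_div {f g : α → ℕ} (hf : Computable f) (hg : Computable g) :
    Computable fun x => f x / g x :=
  Primrec.nat_div.to_comp.comp hf hg

private theorem c2_pow {f g : α → ℕ} (hf : Computable f) (hg : Computable g) :
    Computable fun x => f x ^ g x := by
  have h : Primrec₂ ((· ^ ·) : ℕ → ℕ → ℕ) := Primrec₂.unpaired'.1 Nat.Primrec.pow
  exact h.to_comp.comp hf hg

private theorem c2_lt {f g : α → ℕ} (hf : Computable f) (hg : Computable g) :
    Computable fun x => decide (f x < g x) :=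
  Primrec.nat_lt.decide.to_comp.comp hf hg

private theorem c2_beq {f g : α → Bool} (hf : Computable f) (hg : Computable g) :
    Computable fun x => decide (f x = g x) :=
  (Primrec.eq (α := Bool)).decide.to_comp.comp hf hg

private theorem c2_ite {β : Type*} [Primcodable β] {p : α → Prop} [DecidablePred p] {f g : α → β}
    (hp : Computable fun x => decide (p x)) (hf : Computable f) (hg : Computable g) :
    Computable fun x => if p x then f x else g x := by
  refine (Computable.cond hp hf hg).of_eq fun x => ?_
  by_cases h : p x <;> simp [h]

private theorem c2_e (ha : Computable a) (hb : Computable b) {i : α → ℕ} (hi : Computable i) :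
    Computable fun x => e a b (i x) := by
  unfold e
  exact c2_add (c2_sub (c2_mul (Computable.const 2) (ha.comp hi)) (hb.comp hi))
    (c2_sub (hb.comp hi) (c2_mul (Computable.const 2) (ha.comp hi)))

private theorem c2_w (ha : Computable a) (hb : Computable b) {m i : α → ℕ} (hm : Computable m)
    (hi : Computable i) : Computable fun x => w a b (m x) (i x) := by
  unfold w
  exact c2_div (c2_mul (c2_pow (Computable.const 2) hm) (c2_e ha hb hi))
    (c2_mul (Computable.const 2) (hb.comp hi))

private theorem c2_SS (ha : Computable a) (hb : Computable b) {m r l : α → ℕ} (hm : Computable m)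
    (hr : Computable r) (hl : Computable l) : Computable fun x => SS a b (m x) (r x) (l x) := by
  unfold SS
  refine computable_sum (F := fun x i => w a b (m x) (r x + i) ^ 2) ?_ hl
  exact c2_pow (α := α × ℕ) (c2_w ha hb (hm.comp Computable.fst)
    (c2_add (hr.comp Computable.fst) Computable.snd)) (Computable.const 2)

private theorem c2_WW (ha : Computable a) (hb : Computable b) {m r l : α → ℕ} (hm : Computable m)
    (hr : Computable r) (hl : Computable l) : Computable fun x => WW a b (m x) (r x) (l x) := by
  unfold WW
  refine computable_sum (F := fun x i => w a b (m x) (r x + i)) ?_ hl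
  exact c2_w (α := α × ℕ) ha hb (hm.comp Computable.fst)
    (c2_add (hr.comp Computable.fst) Computable.snd)

private theorem c2_AG (ha : Computable a) (hb : Computable b) {m r l : α → ℕ} (hm : Computable m)
    (hr : Computable r) (hl : Computable l) {y : α → ℕ → Bool} (hy : Computable₂ y) :
    Computable fun x => AG a b (m x) (r x) (l x) (y x) := by
  unfold AG
  refine computable_sum (F := fun x i =>
    if y x i = decide (b (r x + i) < 2 * a (r x + i)) then w a b (m x) (r x + i) else 0) ?_ hl
  have hri : Computable fun p : α × ℕ => r p.1 + p.2 :=
    c2_add (hr.comp Computable.fst) Computable.snd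
  exact c2_ite (α := α × ℕ) (c2_beq hy (c2_lt (hb.comp hri)
    (c2_mul (Computable.const 2) (ha.comp hri)))) (c2_w ha hb (hm.comp Computable.fst) hri)
    (Computable.const 0)

private theorem c2_dec (ha : Computable a) (hb : Computable b) {m r l : α → ℕ} (hm : Computable m)
    (hr : Computable r) (hl : Computable l) {y : α → ℕ → Bool} (hy : Computable₂ y) :
    Computable fun x => dec a b (m x) (r x) (l x) (y x) := by
  unfold dec
  exact c2_lt (c2_add (c2_SS ha hb hm hr hl)
    (c2_mul (c2_pow (Computable.const 2) hm) (c2_WW ha hb hm hr hl)))
    (c2_mul (c2_pow (Computable.const 2) (c2_add hm (Computable.const 1)))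
      (c2_AG ha hb hm hr hl hy))

end

/-- C3. The second rule is computable. -/
theorem computable_f2 (ha : Computable a) (hb : Computable b) (hs : Computable s)
    (hM : Computable M) (hL : Computable L) : Computable (f2 a b s M L) := by
  have hlen : Computable fun v : List Bool => v.length := Primrec.list_length.to_comp
  have hB : Computable fun v : List Bool => blk L v.length := (computable_blk hL).comp hlen
  have hu : Computable fun v : List Bool => u L (blk L v.length) := (computable_u hL).comp hB
  have hu1 : Computable fun v : List Bool => u L (blk L v.length + 1) :=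
    (computable_u hL).comp (c2_add hB (Computable.const 1))
  have hl1 : Computable fun v : List Bool => v.length + 1 := c2_add hlen (Computable.const 1)
  have hy : Computable₂ fun (v : List Bool) (i : ℕ) =>
      v.getD (u L (blk L v.length) + i) false := by
    have h1 : Computable fun p : List Bool × ℕ => u L (blk L p.1.length) + p.2 :=
      c2_add (hu.comp Computable.fst) Computable.snd
    exact (Primrec.list_getD false).to_comp.comp (Computable.fst (α := List Bool) (β := ℕ)) h1
  have hd : Computable fun v : List Bool =>
      dec a b (M (blk L v.length)) (s (blk L v.length) + 1) (L (blk L v.length))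
        (fun i => v.getD (u L (blk L v.length) + i) false) :=
    c2_dec ha hb (hM.comp hB) (c2_add (hs.comp hB) (Computable.const 1)) (hL.comp hB) hy
  exact c2_ite (c2_lt hl1 hu1) (hl1.pair (Computable.const false)) (hu.pair hd)

end H48K
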