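import Mathlib
import Pool.Agent.Lib.H69K.KL

/-!
# H48K: closure of KL-stochasticity under KL-selection for product measures: definitions

`H69K.mu p` is the product of the Bernoulli measures with probabilities `p n` of the value `true`.
-/

open MeasureTheory Set Filter

namespace H48K

/-- The rule `f` selects from `X` the infinite sequence `B`. -/
def Sel (f : List Bool →. ℕ × Bool) (X B : ℕ → Bool) : Prop :=
  ∃ pos : ℕ → ℕ, ∃ sel : ℕ → Bool,
    (∀ k : ℕ, f (List.ofFn (fun i : Fin k => X (pos i))) = Part.some (pos k, sel k)) ∧
    Function.Injective pos ∧ Set.Infinite {k : ℕ | sel k = true} ∧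
    ∀ j : ℕ, B j = X (pos (Nat.nth (fun k => sel k = true) j))

/-- The law of large numbers. -/
def LLN (B : ℕ → Bool) : Prop :=
  Tendsto (fun m : ℕ => (((Finset.range m).filter (fun j => B j = true)).card : ℝ) / (m : ℝ))
    atTop (nhds (1 / 2))

/-- KL-stochastic sequences. -/
def KLStochastic (X : ℕ → Bool) : Prop :=
  ∀ f : List Bool →. ℕ × Bool, Partrec f → ∀ B : ℕ → Bool, Sel f X B → LLN B

/-- `B` is selected from `X` by a partial computable rule. -/
def Step (X B : ℕ → Bool) : Prop := ∃ f : List Bool →. ℕ × Bool, Partrec f ∧ Sel f X B

/-- The fair coin. -/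
noncomputable def fair : ℕ → unitInterval := fun _ => ⟨1 / 2, by constructor <;> norm_num⟩

/-- The cylinder set of the words in `V`. -/
def E (m : ℕ) (V : Set (Fin m → Bool)) : Set (ℕ → Bool) := {X | (fun i : Fin m => X i) ∈ V}

section

variable (a b : ℕ → ℕ)

/-- `e i = |2 a i - b i|`. -/
def e (i : ℕ) : ℕ := (2 * a i - b i) + (b i - 2 * a i)

/-- The weight: the integer part of `2^M |a i / b i - 1/2|`. -/
def w (M i : ℕ) : ℕ := 2 ^ M * e a b i / (2 * b i)

/-- The sum of the squares of the weights at the places `r, .., r + L - 1`. -/
def SS (M r L : ℕ) : ℕ := ∑ i ∈ Finset.range L, w a b M (r + i) ^ 2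

/-- The sum of the weights at the places `r, .., r + L - 1`. -/
def WW (M r L : ℕ) : ℕ := ∑ i ∈ Finset.range L, w a b M (r + i)

/-- The sum of the weights of the places `r + i`, `i < L`, at which the bit `y i` is the more probable
one. -/
def AG (M r L : ℕ) (y : ℕ → Bool) : ℕ :=
  ∑ i ∈ Finset.range L, if y i = decide (b (r + i) < 2 * a (r + i)) then w a b M (r + i) else 0

/-- The decision: the bits `y i`, `i < L`, agree sufficiently with the places `r + i`. -/
def dec (M r L : ℕ) (y : ℕ → Bool) : Bool :=
  decide (SS a b M r L + 2 ^ M * WW a b M r L < 2 ^ (M + 1) * AG a b M r L y)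

/-- A plan: in the block `n` the header place is `s n`, the first region is
`s n + 1, .., s n + L n`, the second region is `t n, .., t n + L n - 1`, and the weights have the
scale `2^(M n)`. -/
structure Plan (s t M L : ℕ → ℕ) : Prop where
  le : ∀ n, s n + 1 + L n ≤ t n
  succ : ∀ n, s (n + 1) = t n + L n
  big : ∀ n, 64 * (n + 1) * 4 ^ M n ≤ SS a b (M n) (s n + 1) (L n)
  small : ∀ n, ∀ i < L n, e a b (t n + i) * 2 ^ (M n + 1) ≤ b (t n + i)

variable (s t M L : ℕ → ℕ)

/-- The start of the block `n` in the selected sequence. -/
def u (n : ℕ) : ℕ := ∑ m ∈ Finset.range n, (L m + 1)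

/-- The block to which the place `k` of the selected sequence belongs. -/
def blk (k : ℕ) : ℕ := ((Finset.range k).filter (fun n => u L (n + 1) ≤ k)).card

/-- The first rule: in block `n` it reads the header and then, if the header is `true`, the first
region, and otherwise the second region; all is selected. -/
def f1 (v : List Bool) : ℕ × Bool :=
  if v.length = u L (blk L v.length) then (s (blk L v.length), true)
  else if v.getD (u L (blk L v.length)) false then
    (s (blk L v.length) + (v.length - u L (blk L v.length)), true)
  else (t (blk L v.length) + (v.length - u L (blk L v.length)) - 1, true)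

/-- The second rule: in block `n` it reads first the `L n` bits after the header and then the header;
the header is selected if the decision is positive. -/
def f2 (v : List Bool) : ℕ × Bool :=
  if v.length + 1 < u L (blk L v.length + 1) then (v.length + 1, false)
  else (u L (blk L v.length),
    dec a b (M (blk L v.length)) (s (blk L v.length) + 1) (L (blk L v.length))
      (fun i => v.getD (u L (blk L v.length) + i) false))

/-- The sequence selected by `f1` from `X`. -/
def BB (X : ℕ → Bool) (k : ℕ) : Bool :=
  if k = u L (blk L k) then X (s (blk L k))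
  else if X (s (blk L k)) then X (s (blk L k) + (k - u L (blk L k)))
  else X (t (blk L k) + (k - u L (blk L k)) - 1)

/-- The bits of the region chosen in the block `n`. -/
def reg (X : ℕ → Bool) (n i : ℕ) : Bool :=
  if X (s n) then X (s n + 1 + i) else X (t n + i)

/-- The decision in the block `n`. -/
def D (X : ℕ → Bool) (n : ℕ) : Bool := dec a b (M n) (s n + 1) (L n) (reg s t X n)

end

end H48K
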