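import Pool.Agent.Lib.H48K.Defs

/-!
# H48K, part 2: definitions (supermartingales, biases for a given order function)
-/

open MeasureTheory Set Filter H69K

namespace H48K

/-- Supermartingales for the fair coin. -/
def SuperM (d : List Bool → ℝ) : Prop :=
  (∀ v, 0 ≤ d v) ∧ ∀ v, d (v ++ [true]) + d (v ++ [false]) ≤ 2 * d v

/-- The first `n` bits. -/
def pre (X : ℕ → Bool) (n : ℕ) : List Bool := List.ofFn (fun i : Fin n => X i)

/-- The product `∏_(i < n) (1 + 4 (p i - 1/2)^2)`. -/
noncomputable def QQ (p : ℕ → ℝ) (n : ℕ) : ℝ := ∏ i ∈ Finset.range n, (1 + 4 * (p i - 1 / 2) ^ 2)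

/-- The number of the blocks which begin at a place `≤ n`, for block starts `I 0 < I 1 < ..`. -/
def KK (I : ℕ → ℕ) (n : ℕ) : ℕ := ((Finset.range (n + 1)).filter (fun k => I k ≤ n)).card

/-- The numerator: the block `k` consists of the `(k + 1)^2` places from `I k` on, the
probability is `1/2 + 1/(4 (k+1))` there and `1/2` at the other places. -/
def aa (I : ℕ → ℕ) (n : ℕ) : ℕ :=
  if KK I n = 0 then 1 else if n < I (KK I n - 1) + KK I n ^ 2 then 2 * KK I n + 1 else 1

/-- The denominator. -/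
def bb (I : ℕ → ℕ) (n : ℕ) : ℕ :=
  if KK I n = 0 then 2 else if n < I (KK I n - 1) + KK I n ^ 2 then 4 * KK I n else 2

/-- Admissible block starts for `h`. -/
structure Starts (h I : ℕ → ℕ) : Prop where
  gap : ∀ k, I k + (k + 1) ^ 2 ≤ I (k + 1)
  big : ∀ k, 2 ^ (k + 1) ≤ h (I k)

end H48K
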