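import Pool.Agent.Lib.H48K.Defs2

/-!
# H48K, part 3: definitions (Martin-Löf tests, runs of rules on finite words)
-/

open MeasureTheory Set Filter H69K

namespace H48K

/-- Sequences for which the law of large numbers holds for the selections by total computable rules. -/
def KLT (X : ℕ → Bool) : Prop :=
  ∀ f : List Bool → ℕ × Bool, Computable f → ∀ B : ℕ → Bool,
    Sel (fun v => Part.some (f v)) X B → LLN B

theorem KLStochastic.toT {X : ℕ → Bool} (h : KLStochastic X) : KLT X :=
  fun f hf B hB => h _ (show Partrec fun v => Part.some (f v) from hf) B hB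

/-- The sequences which begin with `w`. -/
def Cy (w : List Bool) : Set (ℕ → Bool) := {X | pre X w.length = w}

/-- The open set given by a set of words. -/
def Op (V : Set (List Bool)) : Set (ℕ → Bool) := ⋃ w ∈ V, Cy w

/-- Martin-Löf tests for the measure `ν`: uniformly recursively enumerable sets of words `W m` such that the
open set given by `W m` has measure at most `2^(-m)`. -/
def Test (ν : Measure (ℕ → Bool)) (W : ℕ → Set (List Bool)) : Prop :=
  REPred (fun x : ℕ × List Bool => x.2 ∈ W x.1) ∧ ∀ m, ν (Op (W m)) ≤ (2⁻¹ : ENNReal) ^ m

/-- Martin-Löf random sequences for the measure `ν`. -/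
def Random (ν : Measure (ℕ → Bool)) (X : ℕ → Bool) : Prop :=
  ∀ W : ℕ → Set (List Bool), Test ν W → ∃ m, X ∉ Op (W m)

/-- The bits seen at the places of the trace `l` (last step first) of a run on the word `w`, in the order
of the run. -/
def rd (w : List Bool) (l : List (ℕ × Bool)) : List Bool := (l.map fun x => w.getD x.1 false).reverse

/-- One more step, if the new place is in the word and not yet in the trace. -/
def nxt (w : List Bool) (l : List (ℕ × Bool)) (x : ℕ × Bool) : Option (List (ℕ × Bool)) :=
  if x.1 < w.length ∧ ∀ y ∈ l, y.1 ≠ x.1 then some (x :: l) else none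

/-- The trace (last step first) of the first `k` steps of the run of `f` on the finite word `w`;
undefined if a value of `f` is undefined or if a place is outside of the word or repeated. -/
def run (f : List Bool →. ℕ × Bool) (w : List Bool) : ℕ → Part (List (ℕ × Bool))
  | 0 => Part.some []
  | k + 1 => (run f w k).bind fun l => (f (rd w l)).bind fun x => (nxt w l x : Part (List (ℕ × Bool)))

/-- The trace of an infinite run. -/
def tr (pos : ℕ → ℕ) (sel : ℕ → Bool) : ℕ → List (ℕ × Bool)
  | 0 => []
  | k + 1 => (pos k, sel k) :: tr pos sel k

/-- The selected word, in the order of the run. -/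
def sw (w : List Bool) (l : List (ℕ × Bool)) : List Bool :=
  ((l.filter fun x => x.2).map fun x => w.getD x.1 false).reverse

/-- The number of the selected bits. -/
def nsel (l : List (ℕ × Bool)) : ℕ := (l.filter fun x => x.2).length

/-- The number of the selected bits with the value `b`. -/
def nval (w : List Bool) (l : List (ℕ × Bool)) (b : Bool) : ℕ :=
  (l.filter fun x => x.2 && (w.getD x.1 false == b)).length

/-- The words of the test for the law of large numbers: at some step of the run of `f` on `w` at least
`N (m+1)` bits have been selected, and a portion `≥ 1/2 + 1/(j+1)` of them has one value. -/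
def WL (f : List Bool →. ℕ × Bool) (j N m : ℕ) : Set (List Bool) :=
  {w | ∃ k, ∃ l ∈ run f w k, N * (m + 1) ≤ nsel l ∧
    ((j + 3) * nsel l ≤ 2 * (j + 1) * nval w l true ∨
      (j + 3) * nsel l ≤ 2 * (j + 1) * nval w l false)}

/-- The words for which some selected word is in `V`. -/
def WP (f : List Bool →. ℕ × Bool) (V : Set (List Bool)) : Set (List Bool) :=
  {w | ∃ k, ∃ l ∈ run f w k, sw w l ∈ V}

/-- The words of the test for the decisions. -/
def WD (a b s t M L : ℕ → ℕ) (m : ℕ) : Set (List Bool) :=
  {w | ∃ n, m + 2 ≤ n ∧ t n + L n ≤ w.length ∧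
    (dec a b (M n) (s n + 1) (L n) (fun i => w.getD (s n + 1 + i) false) = false ∨
      dec a b (M n) (s n + 1) (L n) (fun i => w.getD (t n + i) false) = true)}

/-- The event that the first `m` selected bits deviate (only the first `K` places need to be
different). -/
def EvL (p : ℕ → unitInterval) (g : List Bool → ℕ) (c : List Bool → Bool) (l : ℝ) (m : ℕ) :
    Set (ℕ → Bool) :=
  {X | ∃ K, cnt c (hist g X K) = m ∧ (∀ i < K, g (hist g X i) ∉ used g (hist g X i)) ∧
    2 * l ^ 2 * m ≤ l * DD p g c (hist g X K)}

end H48K
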