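import Pool.Agent.Lib.H48K.Defs3

/-!
# H48K, part 5: definitions for arbitrary computable measures
-/

open MeasureTheory Set Filter H69K

namespace H48K

/-- The measure `ν` has the computable rational values `m w / d |w|` on the cylinders. -/
structure CompMeas (ν : Measure (ℕ → Bool)) (m : List Bool → ℕ) (d : ℕ → ℕ) : Prop where
  cm : Computable m
  cd : Computable d
  pos : ∀ n, 0 < d n
  val : ∀ w : List Bool, ν (Cy w) = (m w : ENNReal) / (d w.length : ENNReal)

/-- The bits at the places `t, .., t + L - 1`. -/
def seg (X : ℕ → Bool) (t L : ℕ) : List Bool := List.ofFn (fun i : Fin L => X (t + i))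

/-- The likelihood test: `ν (v 1 y) / ν (v 1) > 2^K 2^(-|y|)`. -/
def ps (m : List Bool → ℕ) (d : ℕ → ℕ) (K : ℕ) (v y : List Bool) : Bool :=
  decide (2 ^ K * m (v ++ [true]) * d (v.length + 1 + y.length) <
    m (v ++ true :: y) * d (v.length + 1) * 2 ^ y.length)

/-- The first error event: the natural continuation after a header `true` does not pass the test. -/
def ER1 (m : List Bool → ℕ) (d : ℕ → ℕ) (K s L : ℕ) : Set (ℕ → Bool) :=
  {X | X s = true ∧ ps m d K (pre X s) (seg X (s + 1) L) = false}

/-- The second error event: the far segment after a header `false` passes the test. -/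
def ER2 (m : List Bool → ℕ) (d : ℕ → ℕ) (K s L t : ℕ) : Set (ℕ → Bool) :=
  {X | X s = false ∧ ps m d K (pre X s) (seg X t L) = true}

/-- The word number `i` of the length `n`. -/
def wd (n i : ℕ) : List Bool := (List.range n).map fun k => i.testBit k

/-- The numerator of the measure of `ER1`, with the denominator `d (s + 1 + L)`. -/
def n1 (m : List Bool → ℕ) (d : ℕ → ℕ) (K s L : ℕ) : ℕ :=
  ∑ i ∈ Finset.range (2 ^ (s + 1 + L)),
    if (wd (s + 1 + L) i).getD s false = true ∧
      ps m d K ((wd (s + 1 + L) i).take s) ((wd (s + 1 + L) i).drop (s + 1)) = false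
    then m (wd (s + 1 + L) i) else 0

/-- The numerator of the measure of `ER2`, with the denominator `d (t + L)`. -/
def n2 (m : List Bool → ℕ) (d : ℕ → ℕ) (K s L t : ℕ) : ℕ :=
  ∑ i ∈ Finset.range (2 ^ (t + L)),
    if (wd (t + L) i).getD s false = false ∧
      ps m d K ((wd (t + L) i).take s) ((wd (t + L) i).drop t) = true
    then m (wd (t + L) i) else 0

/-- The stage `n` from the place `s` on may use the length `L` and the far segment at `t`. -/
def okP (m : List Bool → ℕ) (d : ℕ → ℕ) (n s L t : ℕ) : Bool :=
  decide (s + 1 + L ≤ t) && (decide (n1 m d (n + 1) s L * 2 ^ n ≤ d (s + 1 + L)) &&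
    decide (n2 m d (n + 1) s L t * 2 ^ n ≤ d (t + L)))

/-- A plan: the stage `n` consists of the places `s n, .., s (n+1) - 1 = t n + L n - 1`. -/
structure Plan2 (m : List Bool → ℕ) (d s t L : ℕ → ℕ) : Prop where
  zero : s 0 = 0
  succ : ∀ n, s (n + 1) = t n + L n
  ok : ∀ n, okP m d n (s n) (L n) (t n) = true

section

variable (m : List Bool → ℕ) (d s t L : ℕ → ℕ)

/-- The stage of the place `k`. -/
def bk (k : ℕ) : ℕ := ((Finset.range k).filter (fun n => s (n + 1) ≤ k)).card

/-- The first rule: in the stage `n` it reads the header at `s n`; if it is `true` it reads all the other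
places of the stage in their order, if it is `false` first the `L n` places from `t n` on and then the others
in their order; all is selected. -/
def f3 (v : List Bool) : ℕ × Bool :=
  if v.length = s (bk s v.length) ∨ v.getD (s (bk s v.length)) false = true then (v.length, true)
  else if v.length < s (bk s v.length) + 1 + L (bk s v.length) then
    (t (bk s v.length) + (v.length - s (bk s v.length) - 1), true)
  else (v.length - L (bk s v.length), true)

/-- The sequence selected by `f3` from `X`. -/
def B3 (X : ℕ → Bool) (k : ℕ) : Bool :=
  if k = s (bk s k) ∨ X (s (bk s k)) = true then X k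
  else if k < s (bk s k) + 1 + L (bk s k) then X (t (bk s k) + (k - s (bk s k) - 1))
  else X (k - L (bk s k))

/-- The bit `B k` from the history `w` of the second rule. -/
def gB (w : List Bool) (k : ℕ) : Bool :=
  if k = s (bk s k) then w.getD (k + L (bk s k)) false
  else if k ≤ s (bk s k) + L (bk s k) then w.getD (k - 1) false
  else w.getD k false

/-- The bit `X x` from the history `w` of the second rule. -/
def rX (w : List Bool) (x : ℕ) : Bool :=
  if x = s (bk s x) ∨ gB s L w (s (bk s x)) = true then gB s L w x
  else if x < t (bk s x) then gB s L w (x + L (bk s x))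
  else gB s L w (x - t (bk s x) + s (bk s x) + 1)

/-- The second rule: in the stage `n` it reads the `L n` places after the header, then the header, which is selected
if the `L n` bits pass the test, then the other places of the stage. -/
def g3 (w : List Bool) : ℕ × Bool :=
  if w.length < s (bk s w.length) + L (bk s w.length) then (w.length + 1, false)
  else if w.length = s (bk s w.length) + L (bk s w.length) then
    (s (bk s w.length), ps m d (bk s w.length + 1)
      ((List.range (s (bk s w.length))).map (rX s t L w))
      ((List.range (L (bk s w.length))).map fun i => w.getD (s (bk s w.length) + i) false))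
  else (w.length, false)

/-- The decision in the stage `n`. -/
def D3 (X : ℕ → Bool) (n : ℕ) : Bool :=
  ps m d (n + 1) (pre X (s n)) (if X (s n) = true then seg X (s n + 1) (L n) else seg X (t n) (L n))

end

end H48K
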