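import Pool.Agent.Lib.H48K.Defs5

/-!
# H48K, part 6: definitions for mixed computable measures
-/

open MeasureTheory Set Filter H69K

namespace H48K

/-- The sequences along which the likelihood ratio of `ν` tends to infinity. -/
def Sr (ν : Measure (ℕ → Bool)) : Set (ℕ → Bool) :=
  {X | ∀ C : ℕ, ∀ᶠ n in atTop, (C : ENNReal) * (2⁻¹ : ENNReal) ^ n < ν (Cy (pre X n))}

/-- The sequences with the right frequencies of blocks. -/
def GG : Set (ℕ → Bool) :=
  {X | ∀ t L : ℕ, 0 < L → ∀ w : List Bool, w.length = L →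
    Tendsto (fun M : ℕ => (((Finset.range M).filter
      (fun i => seg X (t + i * L) L = w)).card : ℝ) / (M : ℝ)) atTop (nhds ((1 / 2) ^ L))}

/-- Stages without the error condition. -/
structure Plan0 (s t L : ℕ → ℕ) : Prop where
  zero : s 0 = 0
  succ : ∀ n, s (n + 1) = t n + L n
  gap : ∀ n, s n + 1 + L n ≤ t n

/-- The condition with the constant error bound `1/r`. -/
def okQ (m : List Bool → ℕ) (d : ℕ → ℕ) (r n s L t : ℕ) : Bool :=
  decide (s + 1 + L ≤ t) && (decide (n < r) || (decide (n1 m d (n + 1) s L * r ≤ d (s + 1 + L)) &&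
    decide (n2 m d (n + 1) s L t * r ≤ d (t + L))))

/-- The number of the errors of the decisions in the stages `i < n`. -/
def errs (m : List Bool → ℕ) (d s t L : ℕ → ℕ) (X : ℕ → Bool) (n : ℕ) : ℕ :=
  ((Finset.range n).filter (fun i => D3 m d s t L X i ≠ X (s i))).card

end H48K
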