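import Pool.Agent.Lib.H48K.Defs6

/-!
# H48K, part 7: definitions for real-valued computable measures
-/

open MeasureTheory Set Filter H69K

namespace H48K

/-- Computable measures: the values on the cylinders are computable reals, uniformly. -/
def CompReal (ν : Measure (ℕ → Bool)) : Prop :=
  ∃ r : List Bool → ℕ → ℕ, Computable₂ r ∧
    ∀ w k, |ν.real (Cy w) - (r w k : ℝ) / 2 ^ k| ≤ 1 / 2 ^ k

/-- The mean of `ν` and the fair measure on cylinders. -/
noncomputable def rho (ν : Measure (ℕ → Bool)) (w : List Bool) : ℝ :=
  (ν.real (Cy w) + (1 / 2) ^ w.length) / 2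

/-- The denominators. -/
def BB7 (n : ℕ) : ℕ := 2 ^ (2 * n + 12)

/-- The factor of the bit `i` of the word `w` (numerator, for the conditional probabilities `A v / BB7 |v|` of
`true` after `v`). -/
def fac (A : List Bool → ℕ) (w : List Bool) (i : ℕ) : ℕ :=
  if w.getD i false = true then A (w.take i) else BB7 i - A (w.take i)

/-- The numerators of the cylinders. -/
def mm (A : List Bool → ℕ) (w : List Bool) : ℕ := ∏ i ∈ Finset.range w.length, fac A w i

/-- The denominators of the cylinders. -/
def dd (n : ℕ) : ℕ := ∏ i ∈ Finset.range n, BB7 i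

end H48K
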