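import Pool.Agent.Lib.H48K.Defs7

/-!
# H48K, part 8: definitions for plans with approximations
-/

open MeasureTheory Set Filter H69K

namespace H48K

/-- Approximate numerator of the measure of `ER1`, with the denominator `2^k`. -/
def r1 (r : List Bool → ℕ → ℕ) (m : List Bool → ℕ) (d : ℕ → ℕ) (K s L k : ℕ) : ℕ :=
  ∑ i ∈ Finset.range (2 ^ (s + 1 + L)),
    if (wd (s + 1 + L) i).getD s false = true ∧
      ps m d K ((wd (s + 1 + L) i).take s) ((wd (s + 1 + L) i).drop (s + 1)) = false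
    then r (wd (s + 1 + L) i) k else 0

/-- Approximate numerator of the measure of `ER2`, with the denominator `2^k`. -/
def r2 (r : List Bool → ℕ → ℕ) (m : List Bool → ℕ) (d : ℕ → ℕ) (K s L t k : ℕ) : ℕ :=
  ∑ i ∈ Finset.range (2 ^ (t + L)),
    if (wd (t + L) i).getD s false = false ∧
      ps m d K ((wd (t + L) i).take s) ((wd (t + L) i).drop t) = true
    then r (wd (t + L) i) k else 0

/-- The condition for the stage `n`. -/
def okR (r : List Bool → ℕ → ℕ) (m : List Bool → ℕ) (d : ℕ → ℕ) (n s L t k : ℕ) : Bool :=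
  decide (s + 1 + L ≤ t) &&
    (decide ((r1 r m d (n + 1) s L k + 2 ^ (s + 1 + L)) * 2 ^ n ≤ 2 ^ k) &&
      decide ((r2 r m d (n + 1) s L t k + 2 ^ (t + L)) * 2 ^ n ≤ 2 ^ k))

end H48K
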