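import Pool.Agent.Lib.H48K.Defs3

/-!
# H48K, chunk E1: the run on finite words is partial computable
-/

open Set Filter

namespace H48K

/-- E1a. The bits seen are computable from the word and the trace (`Primrec.list_map`, `Primrec.list_getD`,
`Primrec.list_reverse`). -/
theorem computable_rd : Computable₂ rd := by
  have h : Primrec fun a : List Bool × List (ℕ × Bool) =>
      (a.2.map fun x => a.1.getD x.1 false).reverse := by
    refine Primrec.list_reverse.comp (Primrec.list_map Primrec.snd ?_)
    exact (Primrec.list_getD false).comp (Primrec.fst.comp Primrec.fst)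
      (Primrec.fst.comp Primrec.snd)
  exact h.to_comp

/-- E1b. `(w, l, x) ↦ nxt w l x` is computable (bounded quantifier over a list: `PrimrecPred.forall_mem_list` or
by a fold, or by the length of the filtered list). -/
theorem computable_nxt :
    Computable fun x : (List Bool × List (ℕ × Bool)) × (ℕ × Bool) => nxt x.1.1 x.1.2 x.2 := by
  have hR : PrimrecRel fun (y : ℕ × Bool) (b : ℕ × Bool) => y.1 ≠ b.1 :=
    PrimrecPred.not (Primrec.eq.comp (Primrec.fst.comp Primrec.fst) (Primrec.fst.comp Primrec.snd))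
  have h1 : PrimrecPred fun x : (List Bool × List (ℕ × Bool)) × (ℕ × Bool) =>
      ∀ y ∈ x.1.2, y.1 ≠ x.2.1 :=
    hR.forall_mem_list.comp (Primrec.snd.comp Primrec.fst) Primrec.snd
  have h2 : PrimrecPred fun x : (List Bool × List (ℕ × Bool)) × (ℕ × Bool) =>
      x.2.1 < x.1.1.length :=
    Primrec.nat_lt.comp (Primrec.fst.comp Primrec.snd)
      (Primrec.list_length.comp (Primrec.fst.comp Primrec.fst))
  have h : Primrec fun x : (List Bool × List (ℕ × Bool)) × (ℕ × Bool) =>
      if x.2.1 < x.1.1.length ∧ ∀ y ∈ x.1.2, y.1 ≠ x.2.1 then some (x.2 :: x.1.2) else none :=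
    Primrec.ite (h2.and h1)
      (Primrec.option_some.comp (Primrec.list_cons.comp Primrec.snd (Primrec.snd.comp Primrec.fst)))
      (Primrec.const none)
  exact h.to_comp

private theorem e1_bind {f : List Bool →. ℕ × Bool} (hf : Partrec f)
    (R : List Bool → List (ℕ × Bool) → List Bool) (hR : Computable₂ R)
    (N : List Bool → List (ℕ × Bool) → ℕ × Bool → Option (List (ℕ × Bool)))
    (hN : Computable fun x : (List Bool × List (ℕ × Bool)) × (ℕ × Bool) => N x.1.1 x.1.2 x.2) :
    Partrec fun q : (List Bool × ℕ) × (ℕ × List (ℕ × Bool)) =>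
      (f (R q.1.1 q.2.2)).bind fun y => (Part.ofOption (N q.1.1 q.2.2 y)) := by
  have e1 : Computable fun q : (List Bool × ℕ) × (ℕ × List (ℕ × Bool)) => R q.1.1 q.2.2 :=
    hR.comp (Computable.fst.comp Computable.fst) (Computable.snd.comp Computable.snd)
  have e2 : Computable fun q : ((List Bool × ℕ) × (ℕ × List (ℕ × Bool))) × (ℕ × Bool) =>
      N q.1.1.1 q.1.2.2 q.2 := by
    have a1 : Computable fun q : ((List Bool × ℕ) × (ℕ × List (ℕ × Bool))) × (ℕ × Bool) =>
        q.1.1.1 := Computable.fst.comp (Computable.fst.comp Computable.fst)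
    have a2 : Computable fun q : ((List Bool × ℕ) × (ℕ × List (ℕ × Bool))) × (ℕ × Bool) =>
        q.1.2.2 := Computable.snd.comp (Computable.snd.comp Computable.fst)
    have a3 : Computable fun q : ((List Bool × ℕ) × (ℕ × List (ℕ × Bool))) × (ℕ × Bool) =>
        (((q.1.1.1, q.1.2.2), q.2) : (List Bool × List (ℕ × Bool)) × (ℕ × Bool)) :=
      (a1.pair a2).pair Computable.snd
    have h := hN.comp a3
    exact h
  have e3 : Partrec fun q : ((List Bool × ℕ) × (ℕ × List (ℕ × Bool))) × (ℕ × Bool) =>
      (Part.ofOption (N q.1.1.1 q.1.2.2 q.2)) := e2.ofOption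
  have e4 : Partrec₂ fun (q : (List Bool × ℕ) × (ℕ × List (ℕ × Bool))) (y : ℕ × Bool) =>
      (Part.ofOption (N q.1.1 q.2.2 y)) := e3.to₂
  exact Partrec.bind (hf.comp e1) e4

private theorem e1_rec (F : List Bool → List (ℕ × Bool) →. List (ℕ × Bool))
    (hF : Partrec fun q : (List Bool × ℕ) × (ℕ × List (ℕ × Bool)) => F q.1.1 q.2.2) :
    Partrec fun x : List Bool × ℕ => (Nat.rec (Part.some [])
      (fun _ IH => IH.bind fun l => F x.1 l) x.2 : Part (List (ℕ × Bool))) := by
  have hg : Partrec fun _ : List Bool × ℕ => Part.some ([] : List (ℕ × Bool)) :=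
    Computable.const ([] : List (ℕ × Bool))
  have hh : Partrec₂ fun (x : List Bool × ℕ) (q : ℕ × List (ℕ × Bool)) => F x.1 q.2 := hF.to₂
  exact Partrec.nat_rec Computable.snd hg hh

/-- E1c. `Partrec.nat_rec`, `Computable.ofOption`, `Partrec.bind`. -/
theorem partrec_run {f : List Bool →. ℕ × Bool} (hf : Partrec f) :
    Partrec fun x : List Bool × ℕ => run f x.1 x.2 := by
  have h := e1_rec (fun w l => (f (rd w l)).bind fun y => (Part.ofOption (nxt w l y)))
    (e1_bind hf rd computable_rd nxt computable_nxt)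
  refine h.of_eq fun x => ?_
  obtain ⟨w, k⟩ := x
  dsimp only
  induction k with
  | zero => rfl
  | succ k ih =>
    simp only [run]
    rw [← ih]

end H48K
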