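import Pool.Agent.Lib.H48K.E1

/-!
# H48K, chunk E2: closure of recursively enumerable predicates under existential quantifiers
-/

open Set Filter

namespace H48K

/-- E2a. Dovetailing: `∃ k, P (a, k)` holds iff `∃ s`, the evaluation of a code for `P` on `(a, s.unpair.1)` stops within
`s.unpair.2` steps (`Nat.Partrec.Code.evaln`, `Nat.Partrec.Code.evaln_prim`, `Nat.Partrec.Code.evaln_complete`,
`Nat.Partrec.Code.exists_code`), and `Partrec.rfind` of a computable predicate. (Alternatively
`Partrec.merge` or `Nat.Partrec.Code.rfind'`.) -/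
theorem re_exists {α : Type*} [Primcodable α] {P : α × ℕ → Prop} (hP : REPred P) :
    REPred fun a => ∃ k, P (a, k) := by
  obtain ⟨c, hc⟩ := Nat.Partrec.Code.exists_code.1 hP
  have hdom : ∀ x : α × ℕ, P x ↔ ∃ s y, y ∈ Nat.Partrec.Code.evaln s c (Encodable.encode x) := by
    intro x
    have h1 : P x ↔ (Nat.Partrec.Code.eval c (Encodable.encode x)).Dom := by
      rw [hc]
      simp [Part.dom_iff_mem]
    rw [h1, Part.dom_iff_mem]
    constructor
    · rintro ⟨y, hy⟩
      obtain ⟨s, hs⟩ := Nat.Partrec.Code.evaln_complete.1 hy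
      exact ⟨s, y, hs⟩
    · rintro ⟨s, y, hy⟩
      exact ⟨y, Nat.Partrec.Code.evaln_sound hy⟩
  have hcomp : Computable₂ fun (a : α) (n : ℕ) =>
      Nat.Partrec.Code.evaln n.unpair.2 c (Encodable.encode (a, n.unpair.1)) := by
    have hun : Computable fun x : α × ℕ => x.2.unpair := Computable.unpair.comp Computable.snd
    have h1 : Computable fun x : α × ℕ => ((x.2.unpair.2, c), Encodable.encode (x.1, x.2.unpair.1)) :=
      ((Computable.snd.comp hun).pair (Computable.const c)).pair
        (Computable.encode.comp (Computable.fst.pair (Computable.fst.comp hun)))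
    exact Nat.Partrec.Code.primrec_evaln.to_comp.comp h1
  refine (Partrec.rfindOpt hcomp).dom_re.of_eq fun a => ?_
  rw [Nat.rfindOpt_dom]
  constructor
  · rintro ⟨n, y, hy⟩
    exact ⟨_, (hdom _).2 ⟨_, y, hy⟩⟩
  · rintro ⟨k, hk⟩
    obtain ⟨s, y, hy⟩ := (hdom _).1 hk
    exact ⟨Nat.pair k s, y, by simpa using hy⟩

/-- E2b. From `partrec_run` and `re_exists`: for fixed `k` the predicate is the domain of
`(run f w k).bind fun l => (assert P)`. -/
theorem re_run {f : List Bool →. ℕ × Bool} (hf : Partrec f) {α : Type*} [Primcodable α]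
    {P : α × (List Bool × List (ℕ × Bool)) → Prop} (hP : REPred P) :
    REPred fun x : α × List Bool => ∃ k, ∃ l ∈ run f x.2 k, P (x.1, x.2, l) := by
  have h1 : Partrec fun x : (α × List Bool) × ℕ => (run f x.1.2 x.2).bind fun l =>
      Part.assert (P (x.1.1, x.1.2, l)) fun _ => Part.some () := by
    have h2 : Partrec fun x : (α × List Bool) × ℕ => run f x.1.2 x.2 :=
      (partrec_run hf).comp ((Computable.snd.comp Computable.fst).pair Computable.snd)
    have h3 : Computable fun y : ((α × List Bool) × ℕ) × List (ℕ × Bool) =>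
        (y.1.1.1, y.1.1.2, y.2) :=
      (Computable.fst.comp (Computable.fst.comp Computable.fst)).pair
        ((Computable.snd.comp (Computable.fst.comp Computable.fst)).pair Computable.snd)
    have h4 : Partrec₂ fun (x : (α × List Bool) × ℕ) (l : List (ℕ × Bool)) =>
        Part.assert (P (x.1.1, x.1.2, l)) fun _ => Part.some () := hP.comp h3
    exact h2.bind h4
  refine re_exists (P := fun x : (α × List Bool) × ℕ => ∃ l ∈ run f x.1.2 x.2,
    P (x.1.1, x.1.2, l)) (h1.dom_re.of_eq fun x => ?_)
  simp [Part.dom_iff_mem]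

end H48K
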