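import Pool.Agent.Lib.H48K.Defs3

/-!
# H48K, chunk E3: the infinite run gives runs on finite words
-/

open Set Filter

namespace H48K

variable {f : List Bool →. ℕ × Bool} {X : ℕ → Bool} {pos : ℕ → ℕ} {sel : ℕ → Bool}

private theorem getD_pre (X : ℕ → Bool) {n i : ℕ} (h : i < n) : (pre X n).getD i false = X i := by
  unfold pre
  rw [List.getD_eq_getElem?_getD, List.getElem?_ofFn]
  simp [h]

private theorem length_pre (X : ℕ → Bool) (n : ℕ) : (pre X n).length = n := by
  simp [pre]

private theorem rd_tr (k n : ℕ) (hn : ∀ i < k, pos i < n) :
    rd (pre X n) (tr pos sel k) = List.ofFn (fun i : Fin k => X (pos i)) := by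
  induction k with
  | zero => simp [tr, rd]
  | succ k ih =>
    have h1 := ih (fun i hi => hn i (Nat.lt_succ_of_lt hi))
    have h2 : rd (pre X n) (tr pos sel (k + 1)) =
        rd (pre X n) (tr pos sel k) ++ [(pre X n).getD (pos k) false] := by
      simp [tr, rd]
    rw [h2, h1, getD_pre X (hn k (Nat.lt_succ_self k)), List.ofFn_succ', List.concat_eq_append]
    simp

private theorem mem_tr {k : ℕ} {y : ℕ × Bool} (h : y ∈ tr pos sel k) :
    ∃ i < k, y = (pos i, sel i) := by
  induction k with
  | zero => simp [tr] at h
  | succ k ih =>
    simp only [tr, List.mem_cons] at h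
    rcases h with h | h
    · exact ⟨k, Nat.lt_succ_self k, h⟩
    · obtain ⟨i, hi, h⟩ := ih h
      exact ⟨i, Nat.lt_succ_of_lt hi, h⟩

/-- E3a. If all places `pos i`, `i < k`, are `< n`, the trace of the infinite run is the trace on the first
`n` bits. -/
theorem tr_mem_run
    (hrun : ∀ k : ℕ, f (List.ofFn (fun i : Fin k => X (pos i))) = Part.some (pos k, sel k))
    (hinj : Function.Injective pos) (k n : ℕ) (hn : ∀ i < k, pos i < n) :
    tr pos sel k ∈ run f (pre X n) k := by
  induction k with
  | zero => simp [run, tr]
  | succ k ih =>
    have h1 := ih (fun i hi => hn i (Nat.lt_succ_of_lt hi))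
    simp only [run, Part.mem_bind_iff]
    refine ⟨_, h1, (pos k, sel k), ?_, ?_⟩
    · rw [rd_tr k n (fun i hi => hn i (Nat.lt_succ_of_lt hi)), hrun k]
      exact Part.mem_some _
    · have h2 : nxt (pre X n) (tr pos sel k) (pos k, sel k) = some (tr pos sel (k + 1)) := by
        unfold nxt
        rw [if_pos]
        · rfl
        · refine ⟨?_, ?_⟩
          · rw [length_pre]
            exact hn k (Nat.lt_succ_self k)
          · intro y hy h3
            obtain ⟨i, hi, rfl⟩ := mem_tr hy
            exact absurd (hinj h3) (Nat.ne_of_lt hi)
      rw [h2]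
      simp

/-- E3b. The number of the selected bits. -/
theorem nsel_tr (pos : ℕ → ℕ) (sel : ℕ → Bool) (k : ℕ) :
    nsel (tr pos sel k) = Nat.count (fun i => sel i = true) k := by
  induction k with
  | zero => simp [nsel, tr]
  | succ k ih =>
    rw [Nat.count_succ, ← ih]
    unfold nsel
    by_cases h : sel k = true
    · simp [tr, h]
    · simp [tr, h]

private theorem filter_tr (pos : ℕ → ℕ) (sel : ℕ → Bool) (k : ℕ) :
    (tr pos sel k).filter (fun x => x.2) =
      ((List.range (Nat.count (fun i => sel i = true) k)).map
        (fun j => (pos (Nat.nth (fun k => sel k = true) j), true))).reverse := by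
  induction k with
  | zero => simp [tr]
  | succ k ih =>
    rw [Nat.count_succ]
    by_cases h : sel k = true
    · rw [if_pos h, List.range_succ, List.map_append, List.reverse_append, ← ih]
      have h2 : Nat.nth (fun k => sel k = true) (Nat.count (fun i => sel i = true) k) = k :=
        Nat.nth_count (p := fun k => sel k = true) h
      simp [tr, h, h2]
    · rw [if_neg h]
      have h2 : (tr pos sel (k + 1)).filter (fun x => x.2) =
          (tr pos sel k).filter (fun x => x.2) := by
        simp [tr, h]
      rw [h2, ih]
      rfl

/-- E3c. The number of the selected bits with value `b` when `m` bits have been selected. -/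
theorem nval_tr (hinf : Set.Infinite {k : ℕ | sel k = true}) (m n : ℕ) (b : Bool)
    (hn : ∀ i < Nat.nth (fun k => sel k = true) m, pos i < n) :
    nval (pre X n) (tr pos sel (Nat.nth (fun k => sel k = true) m)) b =
      ((Finset.range m).filter
        (fun j => X (pos (Nat.nth (fun k => sel k = true) j)) = b)).card := by
  have hc : Nat.count (fun i => sel i = true) (Nat.nth (fun k => sel k = true) m) = m :=
    Nat.count_nth_of_infinite (p := fun k => sel k = true) hinf m
  have h1 : nval (pre X n) (tr pos sel (Nat.nth (fun k => sel k = true) m)) b =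
      (((tr pos sel (Nat.nth (fun k => sel k = true) m)).filter (fun x => x.2)).filter
        (fun x => (pre X n).getD x.1 false == b)).length := by
    unfold nval
    rw [List.filter_filter]
    congr 1
    apply List.filter_congr
    intro x _
    exact Bool.and_comm _ _
  rw [h1, filter_tr, hc, List.filter_reverse, List.length_reverse, List.filter_map,
    List.length_map]
  have h2 : (List.range m).filter ((fun x : ℕ × Bool => (pre X n).getD x.1 false == b) ∘
      (fun j => (pos (Nat.nth (fun k => sel k = true) j), true))) =
      (List.range m).filter (fun j => decide (X (pos (Nat.nth (fun k => sel k = true) j)) = b)) := by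
    apply List.filter_congr
    intro j hj
    rw [List.mem_range] at hj
    have h3 : pos (Nat.nth (fun k => sel k = true) j) < n :=
      hn _ (Nat.nth_strictMono hinf hj)
    simp only [Function.comp_apply, getD_pre X h3]
    rfl
  rw [h2]
  rfl

/-- E3d. The selected word when `m` bits have been selected. -/
theorem sw_tr (hinf : Set.Infinite {k : ℕ | sel k = true}) (m n : ℕ)
    (hn : ∀ i < Nat.nth (fun k => sel k = true) m, pos i < n) :
    sw (pre X n) (tr pos sel (Nat.nth (fun k => sel k = true) m)) =
      pre (fun j => X (pos (Nat.nth (fun k => sel k = true) j))) m := by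
  have hc : Nat.count (fun i => sel i = true) (Nat.nth (fun k => sel k = true) m) = m :=
    Nat.count_nth_of_infinite (p := fun k => sel k = true) hinf m
  unfold sw
  rw [filter_tr, hc, List.map_reverse, List.reverse_reverse, List.map_map]
  apply List.ext_getElem
  · simp [pre]
  · intro j h1 h2
    have hj : j < m := by simpa [pre] using h2
    have h3 : pos (Nat.nth (fun k => sel k = true) j) < n :=
      hn _ (Nat.nth_strictMono hinf hj)
    have h4 := getD_pre X h3
    simp only [List.getElem_map, List.getElem_range, Function.comp_apply]
    rw [h4]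
    simp [pre]

end H48K
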