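import Pool.Agent.Lib.H48K.Defs3

/-!
# H48K, chunk E4: a run on a finite word is a run in the sense of `H69K`
-/

open MeasureTheory Set Filter H69K

namespace H48K

private theorem E4_succ {f : List Bool →. ℕ × Bool} {w : List Bool} {k : ℕ} {l' : List (ℕ × Bool)}
    (h : l' ∈ run f w (k + 1)) : ∃ l ∈ run f w k, ∃ x ∈ f (rd w l), x.1 < w.length ∧
      (∀ y ∈ l, y.1 ≠ x.1) ∧ l' = x :: l := by
  have h' : l' ∈ (run f w k).bind fun l => (f (rd w l)).bind fun x => (nxt w l x : Part (List (ℕ × Bool))) := h
  obtain ⟨l, hl, h1⟩ := Part.mem_bind_iff.1 h'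
  obtain ⟨x, hx, h2⟩ := Part.mem_bind_iff.1 h1
  have h3 : l' ∈ nxt w l x := Part.mem_ofOption.1 h2
  unfold nxt at h3
  split_ifs at h3 with hc
  · exact ⟨l, hl, x, hx, hc.1, hc.2, (Option.mem_some_iff.1 h3).symm⟩
  · exact absurd h3 (by simp)

private theorem E4_len (X : ℕ → Bool) (n : ℕ) : (pre X n).length = n := by
  unfold pre
  rw [List.length_ofFn]

private theorem E4_get (X : ℕ → Bool) {n i : ℕ} (hi : i < n) : (pre X n).getD i false = X i := by
  unfold pre
  rw [List.getD_eq_getElem _ _ (by rw [List.length_ofFn]; exact hi), List.getElem_ofFn]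

private theorem E4_rd {X : ℕ → Bool} {n : ℕ} {l : List (ℕ × Bool)} (h : ∀ x ∈ l, x.1 < n) :
    rd (pre X n) l = (l.map fun x => X x.1).reverse := by
  unfold rd
  rw [List.map_congr_left fun x hx => E4_get X (h x hx)]

private theorem E4_tot {f : List Bool →. ℕ × Bool} {w : List Bool} {x : ℕ × Bool} (h : x ∈ f w) : tot f w = x :=
  tot_eq (Part.eq_some_iff.2 h)

private theorem E4_nsel (w : List Bool) (l : List (ℕ × Bool)) : nsel l = nval w l true + nval w l false := by
  unfold nsel nval
  induction l with
  | nil => rfl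
  | cons x l ih =>
    obtain ⟨i, b⟩ := x
    cases b
    · simpa using ih
    · cases hb : w.getD i false
      · simp only [List.filter_cons, hb, Bool.and_false, Bool.and_true, Bool.true_and, if_true, List.length_cons]
        simp only [List.getD_eq_getElem?_getD] at hb ih ⊢
        simp [ih]
        try omega
      · simp only [List.filter_cons, hb, Bool.and_false, Bool.and_true, Bool.true_and, if_true, List.length_cons]
        simp only [List.getD_eq_getElem?_getD] at hb ih ⊢
        simp [ih]
        try omega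

private theorem E4_inv (p : ℕ → unitInterval) (f : List Bool →. ℕ × Bool) (X : ℕ → Bool) (n k : ℕ) :
    ∀ l : List (ℕ × Bool), l ∈ run f (pre X n) k →
      l.length = k ∧ hist (gf f) X k = l.map (fun x => X x.1) ∧
      (∀ i < k, gf f (hist (gf f) X i) ∉ used (gf f) (hist (gf f) X i)) ∧
      (l.map Prod.fst).Nodup ∧ (∀ x ∈ l, x.1 < n) ∧
      used (gf f) (hist (gf f) X k) = (l.map Prod.fst).toFinset ∧
      cnt (cf f) (hist (gf f) X k) = nsel l ∧
      DD p (gf f) (cf f) (hist (gf f) X k) =
        (nval (pre X n) l true : ℝ) - ((l.filter fun x => x.2).map fun x => (p x.1 : ℝ)).sum := by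
  induction k with
  | zero =>
    intro l hl
    have h0 : l = [] := Part.mem_some_iff.1 hl
    subst h0
    refine ⟨rfl, rfl, fun i hi => absurd hi (Nat.not_lt_zero i), List.nodup_nil, fun x hx => by simp at hx, rfl, rfl, ?_⟩
    simp [hist, DD, nval]
  | succ k ih =>
    intro l' hl'
    obtain ⟨l, hl, x, hx, hx1, hx2, rfl⟩ := E4_succ hl'
    obtain ⟨i1, i2, i3, i4, i5, i6, i7, i8⟩ := ih l hl
    rw [E4_len] at hx1
    rw [E4_rd i5, ← i2] at hx
    have hg : gf f (hist (gf f) X k) = x.1 := by
      unfold gf
      exact congrArg Prod.fst (E4_tot hx)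
    have hc : cf f (hist (gf f) X k) = x.2 := by
      unfold cf
      exact congrArg Prod.snd (E4_tot hx)
    have hx3 : x.1 ∉ l.map Prod.fst := by
      intro h
      obtain ⟨y, hy, hy'⟩ := List.mem_map.1 h
      exact hx2 y hy hy'
    have hh : hist (gf f) X (k + 1) = X x.1 :: hist (gf f) X k := by
      rw [hist, hg]
    refine ⟨by rw [List.length_cons, i1], ?_, ?_, ?_, ?_, ?_, ?_, ?_⟩
    · rw [hh, i2, List.map_cons]
    · intro i hi
      rcases Nat.lt_succ_iff_lt_or_eq.1 hi with h | h
      · exact i3 i h
      · rw [h, hg, i6, List.mem_toFinset]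
        exact hx3
    · rw [List.map_cons, List.nodup_cons]
      exact ⟨hx3, i4⟩
    · intro y hy
      rcases List.mem_cons.1 hy with h | h
      · rw [h]
        exact hx1
      · exact i5 y h
    · rw [hh, used, i6, hg, List.map_cons, List.toFinset_cons]
    · rw [hh, cnt, i7, hc]
      unfold nsel
      rw [List.filter_cons]
      by_cases hb : x.2 = true
      · rw [if_pos hb, if_pos hb, List.length_cons]
      · rw [if_neg hb, if_neg hb, add_zero]
    · rw [hh, DD, i8, hc, hg]
      unfold nval
      rw [List.filter_cons, List.filter_cons, E4_get X hx1]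
      by_cases hb : x.2 = true
      · rw [if_pos hb, if_pos hb, List.map_cons, List.sum_cons, hb]
        cases hX : X x.1
        · simp [val]
          ring
        · simp [val]
          ring
      · have hb' : x.2 = false := by simpa using hb
        rw [if_neg hb, if_neg hb, hb']
        simp

/-- E4a. For a trace `l` of the run of `f` on the first `n` bits of `X`: it has `k` steps, the history of `H69K` for
`gf f` is the list of the bits of `X` at its places, the places are different (and so the first `k`
places are fresh) and `< n`. -/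
theorem run_hist (f : List Bool →. ℕ × Bool) (X : ℕ → Bool) (n k : ℕ) (l : List (ℕ × Bool))
    (hl : l ∈ run f (pre X n) k) :
    l.length = k ∧ hist (gf f) X k = l.map (fun x => X x.1) ∧
      (∀ i < k, gf f (hist (gf f) X i) ∉ used (gf f) (hist (gf f) X i)) ∧
      (l.map Prod.fst).Nodup ∧ ∀ x ∈ l, x.1 < n := by
  obtain ⟨i1, i2, i3, i4, i5, -, -, -⟩ := E4_inv (fun _ => 0) f X n k l hl
  exact ⟨i1, i2, i3, i4, i5⟩

/-- E4b. The counts. -/
theorem run_cnt (f : List Bool →. ℕ × Bool) (X : ℕ → Bool) (n k : ℕ) (l : List (ℕ × Bool))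
    (hl : l ∈ run f (pre X n) k) :
    cnt (cf f) (hist (gf f) X k) = nsel l ∧ nsel l = nval (pre X n) l true + nval (pre X n) l false := by
  obtain ⟨-, -, -, -, -, -, i7, -⟩ := E4_inv (fun _ => 0) f X n k l hl
  exact ⟨i7, E4_nsel _ l⟩

/-- E4c. The sum of the centred selected bits. -/
theorem run_DD (p : ℕ → unitInterval) (f : List Bool →. ℕ × Bool) (X : ℕ → Bool) (n k : ℕ)
    (l : List (ℕ × Bool)) (hl : l ∈ run f (pre X n) k) :
    DD p (gf f) (cf f) (hist (gf f) X k) =
      (nval (pre X n) l true : ℝ) - ((l.filter fun x => x.2).map fun x => (p x.1 : ℝ)).sum := by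
  obtain ⟨-, -, -, -, -, -, -, i8⟩ := E4_inv p f X n k l hl
  exact i8

/-- E4d. Earlier traces: for `k' ≤ k` the last `k'` entries of the list are the trace after `k'` steps. -/
theorem run_drop (f : List Bool →. ℕ × Bool) (w : List Bool) (k k' : ℕ) (hk : k' ≤ k)
    (l : List (ℕ × Bool)) (hl : l ∈ run f w k) : l.drop (k - k') ∈ run f w k' := by
  induction k generalizing l with
  | zero =>
    have h0 : k' = 0 := Nat.le_zero.1 hk
    subst h0
    simpa using hl
  | succ k ih =>
    rcases Nat.eq_or_lt_of_le hk with h | h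
    · rw [h, Nat.sub_self, List.drop_zero]
      exact hl
    · obtain ⟨l0, hl0, x, -, -, -, rfl⟩ := E4_succ hl
      have h1 : k + 1 - k' = (k - k') + 1 := by omega
      rw [h1, List.drop_succ_cons]
      exact ih (by omega) l0 hl0

end H48K
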