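import Pool.Agent.Lib.H48K.Defs

/-!
# H48K, chunk G1: the Chernoff bound
-/

open MeasureTheory Set Filter H69K

namespace H48K

theorem G1_used (x : ℕ) (r : List Bool) :
    ∀ i ∈ used (fun r : List Bool => x + r.length) r, i < x + r.length := by
  induction r with
  | nil =>
    intro i hi
    simp [used] at hi
  | cons b r ih =>
    intro i hi
    rw [used, Finset.mem_insert] at hi
    rw [List.length_cons]
    rcases hi with rfl | hi
    · omega
    · have := ih i hi
      omega

/-- G1. Chernoff's bound for weighted sums of the bits at the places `x, .., x + L - 1`.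
Proof: `H69K.markov` with `g r = x + r.length`, `φ r b = l (r.length) (val b - p) - (l (r.length))^2` (`H69K.mgf_le`),
`k = L`. -/
theorem chernoff (p : ℕ → unitInterval) (x L : ℕ) (l : ℕ → ℝ) (hl : ∀ i < L, |l i| ≤ 1) (c : ℝ) :
    mu p {X | c ≤ ∑ i ∈ Finset.range L, (l i * (val (X (x + i)) - (p (x + i) : ℝ)) - l i ^ 2)} ≤
      ENNReal.ofReal (Real.exp (-c)) := by
  classical
  set g : List Bool → ℕ := fun r => x + r.length with hg
  set φ : List Bool → Bool → ℝ := fun r b =>
    if r.length < L then l r.length * (val b - (p (x + r.length) : ℝ)) - l r.length ^ 2 else 0 with hφ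
  have hgood : Good p g φ := by
    intro r
    by_cases hr : r.length < L
    · left
      refine ⟨fun h => lt_irrefl _ (G1_used x r _ h), ?_⟩
      have h1 := mgf_le (p (x + r.length)) (l r.length) (hl _ hr)
      simp only [hφ, hg, if_pos hr, val, if_true, Bool.false_eq_true, if_false]
      exact h1
    · right
      simp only [hφ, if_neg hr, and_self]
  have hsum : ∀ (X : ℕ → Bool) (k : ℕ), k ≤ L → FF φ (hist g X k) =
      ∑ i ∈ Finset.range k, (l i * (val (X (x + i)) - (p (x + i) : ℝ)) - l i ^ 2) := by
    intro X k
    induction k with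
    | zero =>
      intro _
      simp [hist, FF]
    | succ k ih =>
      intro hk
      rw [hist, FF, ih (by omega), Finset.sum_range_succ]
      congr 1
      simp only [hφ, hg, length_hist]
      rw [if_pos (by omega)]
  have h := markov p g φ hgood L c
  have hset : {X | c ≤ FF φ (hist g X L)} =
      {X | c ≤ ∑ i ∈ Finset.range L, (l i * (val (X (x + i)) - (p (x + i) : ℝ)) - l i ^ 2)} := by
    ext X
    rw [Set.mem_setOf_eq, Set.mem_setOf_eq, hsum X L le_rfl]
  rw [hset] at h
  exact h

end H48K
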