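import Pool.Agent.Lib.H48K.P
import Pool.Agent.Lib.H48K.G1

/-!
# H48K, chunk G2: the error in the first region
-/

open MeasureTheory Set Filter H69K

namespace H48K

variable {a b s t M L : ℕ → ℕ} {p : ℕ → unitInterval}

/-- The sign of the bias. -/
private noncomputable def tau (a b : ℕ → ℕ) (i : ℕ) : ℝ := if b i < 2 * a i then 1 else -1

private theorem tau_sq (a b : ℕ → ℕ) (i : ℕ) : tau a b i ^ 2 = 1 := by
  unfold tau
  split_ifs <;> norm_num

private theorem tau_bias (hb0 : ∀ n, 0 < b n) (i : ℕ) :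
    tau a b i * ((a i : ℝ) / b i - 1 / 2) = |(a i : ℝ) / b i - 1 / 2| := by
  have hb : (0 : ℝ) < b i := by exact_mod_cast hb0 i
  unfold tau
  split_ifs with h
  · have h1 : (b i : ℝ) < 2 * a i := by exact_mod_cast h
    have h2 : 0 ≤ (a i : ℝ) / b i - 1 / 2 := by
      rw [sub_nonneg, le_div_iff₀ hb]
      linarith
    rw [abs_of_nonneg h2, one_mul]
  · have h1 : 2 * (a i : ℝ) ≤ b i := by exact_mod_cast not_lt.1 h
    have h2 : (a i : ℝ) / b i - 1 / 2 ≤ 0 := by
      rw [sub_nonpos, div_le_iff₀ hb]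
      linarith
    rw [abs_of_nonpos h2, neg_one_mul]

/-- The agreement in terms of the signs. -/
private theorem ag_eq (a b : ℕ → ℕ) (m r l : ℕ) (y : ℕ → Bool) :
    2 * (AG a b m r l y : ℝ) = (WW a b m r l : ℝ) +
      ∑ i ∈ Finset.range l, tau a b (r + i) * (w a b m (r + i) : ℝ) * (2 * val (y i) - 1) := by
  unfold AG WW
  push_cast
  rw [Finset.mul_sum, ← Finset.sum_add_distrib]
  refine Finset.sum_congr rfl fun i _ => ?_
  unfold tau
  by_cases h : b (r + i) < 2 * a (r + i)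
  · cases hy : y i <;> simp [h, val] <;> ring
  · cases hy : y i <;> simp [h, val] <;> ring

/-- G2. In the first region the decision is positive except with probability `exp (-4 (n+1))`.
`S + 2^M W < 2^(M+1) AG` means `S < 2^M Z`, `Z = ∑ τ_i w_i (2 val - 1)`, `τ_i = ±1` the sign of the bias. If it
fails then `∑ l_i (val - p) ≥ 4^(-M) S / 8`, `l_i = - τ_i w_i 2^(-M) / 4` (as `∑ τ_i w_i (2 p - 1) = 2 ∑ w_i |bias| ≥
2 2^(-M) S`), and `∑ l_i^2 = 4^(-M) S / 16`; apply `chernoff` with `c = 4^(-M) S / 16 ≥ 4 (n+1)`. -/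
theorem err1 (hP : Plan a b s t M L) (hb0 : ∀ n, 0 < b n) (hp : ∀ n, (p n : ℝ) = (a n : ℝ) / b n)
    (n : ℕ) :
    mu p {X | dec a b (M n) (s n + 1) (L n) (fun i => X (s n + 1 + i)) = false} ≤
      ENNReal.ofReal (Real.exp (-(n + 1))) := by
  set m := M n with hm
  set r := s n + 1 with hr
  set k := L n with hk
  have h2 : (0 : ℝ) < 2 ^ m := by positivity
  set l : ℕ → ℝ := fun i => - tau a b (r + i) * (w a b m (r + i) : ℝ) / (4 * 2 ^ m) with hl
  set S : ℝ := (SS a b m r k : ℝ) with hS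
  have hSsum : S = ∑ i ∈ Finset.range k, (w a b m (r + i) : ℝ) ^ 2 := by
    rw [hS]
    unfold SS
    push_cast
    rfl
  have hl1 : ∀ i < k, |l i| ≤ 1 := by
    intro i _
    have h3 := w_le (a := a) (b := b) hb0 m (r + i)
    have h4 : |(a (r + i) : ℝ) / b (r + i) - 1 / 2| ≤ 1 / 2 := by
      rw [← hp]
      have := (p (r + i)).2.1
      have := (p (r + i)).2.2
      rw [abs_le]
      constructor <;> linarith
    have h5 : (w a b m (r + i) : ℝ) ≤ 2 ^ m := by
      have h6 : (2 : ℝ) ^ m * |(a (r + i) : ℝ) / b (r + i) - 1 / 2| ≤ 2 ^ m * (1 / 2) :=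
        mul_le_mul_of_nonneg_left h4 h2.le
      linarith
    have h6 : |tau a b (r + i)| = 1 := by
      unfold tau
      split_ifs <;> norm_num
    have h7 : |l i| = (w a b m (r + i) : ℝ) / (4 * 2 ^ m) := by
      simp only [hl]
      rw [abs_div, abs_mul, abs_neg, h6, one_mul, abs_of_nonneg (by positivity : (0 : ℝ) ≤ (w a b m (r + i) : ℝ)),
        abs_of_pos (by positivity : (0 : ℝ) < 4 * 2 ^ m)]
    rw [h7, div_le_one (by positivity)]
    linarith
  have key : {X : ℕ → Bool | dec a b m r k (fun i => X (r + i)) = false} ⊆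
      {X | S / (16 * 4 ^ m) ≤
        ∑ i ∈ Finset.range k, (l i * (val (X (r + i)) - (p (r + i) : ℝ)) - l i ^ 2)} := by
    intro X hX
    rw [Set.mem_setOf_eq] at hX ⊢
    unfold dec at hX
    rw [decide_eq_false_iff_not, not_lt] at hX
    have h3 : (2 : ℝ) ^ (m + 1) * (AG a b m r k (fun i => X (r + i)) : ℝ) ≤
        S + 2 ^ m * (WW a b m r k : ℝ) := by
      rw [hS]
      exact_mod_cast hX
    have h4 := ag_eq a b m r k (fun i => X (r + i))
    set Z : ℝ := ∑ i ∈ Finset.range k, tau a b (r + i) * (w a b m (r + i) : ℝ) *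
      (2 * val (X (r + i)) - 1) with hZ
    have h5 : (2 : ℝ) ^ m * Z ≤ S := by
      have h6 : (2 : ℝ) ^ (m + 1) * (AG a b m r k (fun i => X (r + i)) : ℝ) =
          2 ^ m * ((WW a b m r k : ℝ) + Z) := by
        rw [← h4, pow_succ]
        ring
      rw [h6] at h3
      linarith
    have h7 : 2 / 2 ^ m * S ≤ ∑ i ∈ Finset.range k, tau a b (r + i) * (w a b m (r + i) : ℝ) *
        (2 * (p (r + i) : ℝ) - 1) := by
      rw [hSsum, Finset.mul_sum]
      refine Finset.sum_le_sum fun i _ => ?_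
      have h8 := w_le (a := a) (b := b) hb0 m (r + i)
      have h9 := tau_bias (a := a) (b := b) hb0 (r + i)
      have h10 : tau a b (r + i) * (w a b m (r + i) : ℝ) * (2 * (p (r + i) : ℝ) - 1) =
          2 * (w a b m (r + i) : ℝ) * |(a (r + i) : ℝ) / b (r + i) - 1 / 2| := by
        rw [← h9, hp]
        ring
      rw [h10]
      have h11 : (w a b m (r + i) : ℝ) / 2 ^ m ≤ |(a (r + i) : ℝ) / b (r + i) - 1 / 2| := by
        rw [div_le_iff₀ h2]
        linarith
      have h12 : (0 : ℝ) ≤ 2 * (w a b m (r + i) : ℝ) := by positivity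
      calc 2 / 2 ^ m * (w a b m (r + i) : ℝ) ^ 2
          = 2 * (w a b m (r + i) : ℝ) * ((w a b m (r + i) : ℝ) / 2 ^ m) := by ring
        _ ≤ _ := mul_le_mul_of_nonneg_left h11 h12
    have h13 : Z = ∑ i ∈ Finset.range k, tau a b (r + i) * (w a b m (r + i) : ℝ) *
        (2 * (p (r + i) : ℝ) - 1) -
        8 * 2 ^ m * ∑ i ∈ Finset.range k, l i * (val (X (r + i)) - (p (r + i) : ℝ)) := by
      rw [hZ, Finset.mul_sum, ← Finset.sum_sub_distrib]
      refine Finset.sum_congr rfl fun i _ => ?_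
      simp only [hl]
      field_simp
      ring
    have h14 : ∑ i ∈ Finset.range k, l i ^ 2 = S / (16 * 4 ^ m) := by
      rw [hSsum, Finset.sum_div]
      refine Finset.sum_congr rfl fun i _ => ?_
      simp only [hl]
      have h15 : (4 : ℝ) ^ m = 2 ^ m * 2 ^ m := by
        rw [← mul_pow]
        norm_num
      rw [h15, div_pow, mul_pow, neg_sq, tau_sq]
      field_simp
      ring
    rw [Finset.sum_sub_distrib, h14]
    set Y : ℝ := ∑ i ∈ Finset.range k, l i * (val (X (r + i)) - (p (r + i) : ℝ)) with hY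
    have h16 : (4 : ℝ) ^ m = 2 ^ m * 2 ^ m := by
      rw [← mul_pow]
      norm_num
    have h17 : S / 2 ^ m ≤ 8 * 2 ^ m * Y := by
      have h18 : Z ≤ S / 2 ^ m := by
        rw [le_div_iff₀ h2]
        linarith
      have h19 : 2 / 2 ^ m * S = 2 * (S / 2 ^ m) := by ring
      rw [h19] at h7
      linarith
    have h20 : S / (8 * 4 ^ m) ≤ Y := by
      rw [div_le_iff₀ (by positivity)]
      rw [div_le_iff₀ h2] at h17
      rw [h16]
      linarith
    have h21 : S / (8 * 4 ^ m) = S / (16 * 4 ^ m) + S / (16 * 4 ^ m) := by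
      field_simp
      ring
    linarith
  refine le_trans (measure_mono key) (le_trans (chernoff p r k l hl1 _) ?_)
  apply ENNReal.ofReal_le_ofReal
  rw [Real.exp_le_exp, neg_le_neg_iff, le_div_iff₀ (by positivity)]
  have h3 : ((64 * (n + 1) * 4 ^ M n : ℕ) : ℝ) ≤ S := by
    rw [hS]
    exact_mod_cast hP.big n
  push_cast at h3
  rw [← hm] at h3
  have h4 : (0 : ℝ) ≤ ((n : ℝ) + 1) * 4 ^ m := by positivity
  nlinarith

end H48K
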