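import Pool.Agent.Lib.H48K.P
import Pool.Agent.Lib.H48K.G1

/-!
# H48K, chunk G3: the error in the second region
-/

open MeasureTheory Set Filter H69K

namespace H48K

variable {a b s t M L : ℕ → ℕ} {p : ℕ → unitInterval}

/-- the sign of the bias at the place `j` -/
private noncomputable def sg (a b : ℕ → ℕ) (j : ℕ) : ℝ := if b j < 2 * a j then 1 else -1

private theorem abs_sg (j : ℕ) : |sg a b j| = 1 := by
  unfold sg
  split_ifs <;> norm_num

private theorem ag_eq (M r L : ℕ) (y : ℕ → Bool) :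
    2 * ((AG a b M r L y : ℕ) : ℝ) - ((WW a b M r L : ℕ) : ℝ) =
      ∑ i ∈ Finset.range L, (w a b M (r + i) : ℝ) * sg a b (r + i) * (2 * val (y i) - 1) := by
  unfold AG WW
  push_cast
  rw [Finset.mul_sum, ← Finset.sum_sub_distrib]
  refine Finset.sum_congr rfl fun i _ => ?_
  unfold sg val
  by_cases h : b (r + i) < 2 * a (r + i)
  · cases hy : y i <;> simp [h] <;> ring
  · cases hy : y i <;> simp [h] <;> ring

/-- G3. In the second region the decision is negative except with probability `exp (-(n+1))`.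
`∑ τ_i w_i (2 p_(t+i) - 1)` is at most `2 ∑ w_i |bias (t+i)| ≤ 2^(-M) S / 2` (`small`, `e_eq`, and `w_i ≤ w_i^2`), so if
the decision is positive then `∑ τ_i w_i (val - p) ≥ 2^(-M) S / 4`; `chernoff` with `l_i = τ_i w_i 2^(-M) / 8`,
`c = 4^(-M) S / 64`. -/
theorem err2 (hP : Plan a b s t M L) (hb0 : ∀ n, 0 < b n) (hp : ∀ n, (p n : ℝ) = (a n : ℝ) / b n)
    (n : ℕ) :
    mu p {X | dec a b (M n) (s n + 1) (L n) (fun i => X (t n + i)) = true} ≤
      ENNReal.ofReal (Real.exp (-(n + 1))) := by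
  have hL : ∀ i < L n, |(fun i => sg a b (s n + 1 + i) * (w a b (M n) (s n + 1 + i) : ℝ) / (8 * 2 ^ M n)) i| ≤ 1 := by
    intro i _
    have h2 : (0 : ℝ) < 2 ^ M n := by positivity
    have hw0 : (0 : ℝ) ≤ (w a b (M n) (s n + 1 + i) : ℝ) := Nat.cast_nonneg _
    have hb : |(a (s n + 1 + i) : ℝ) / b (s n + 1 + i) - 1 / 2| ≤ 1 / 2 := by
      rw [← hp, abs_le]
      have h3 := (p (s n + 1 + i)).2.1
      have h4 := (p (s n + 1 + i)).2.2
      constructor <;> linarith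
    have hw := w_le (a := a) (b := b) hb0 (M n) (s n + 1 + i)
    have hw2 : (w a b (M n) (s n + 1 + i) : ℝ) ≤ 2 ^ M n := by
      refine hw.trans ?_
      nlinarith
    simp only
    rw [abs_div, abs_mul, abs_sg, one_mul, abs_of_nonneg hw0, abs_of_pos (by positivity : (0 : ℝ) < 8 * 2 ^ M n),
      div_le_one (by positivity)]
    linarith
  refine le_trans (measure_mono ?_) (chernoff p (t n) (L n) _ hL (n + 1 : ℝ))
  intro X hX
  rw [Set.mem_setOf_eq] at hX ⊢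
  unfold dec at hX
  rw [decide_eq_true_eq] at hX
  have h2 : (0 : ℝ) < 2 ^ M n := by positivity
  have hX' : ((SS a b (M n) (s n + 1) (L n) : ℕ) : ℝ) +
      2 ^ M n * ((WW a b (M n) (s n + 1) (L n) : ℕ) : ℝ) <
      2 ^ (M n + 1) * ((AG a b (M n) (s n + 1) (L n) (fun i => X (t n + i)) : ℕ) : ℝ) := by
    exact_mod_cast hX
  have hag := ag_eq (a := a) (b := b) (M n) (s n + 1) (L n) (fun i => X (t n + i))
  have hbig : (64 : ℝ) * (n + 1) * 4 ^ M n ≤ ((SS a b (M n) (s n + 1) (L n) : ℕ) : ℝ) := by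
    exact_mod_cast hP.big n
  obtain ⟨Z, hZ⟩ : ∃ Z : ℝ, Z = ∑ i ∈ Finset.range (L n), sg a b (s n + 1 + i) *
      (w a b (M n) (s n + 1 + i) : ℝ) * (val (X (t n + i)) - (p (t n + i) : ℝ)) := ⟨_, rfl⟩
  have hsplit : ∑ i ∈ Finset.range (L n), (w a b (M n) (s n + 1 + i) : ℝ) * sg a b (s n + 1 + i) *
      (2 * val (X (t n + i)) - 1) = 2 * Z + ∑ i ∈ Finset.range (L n),
        (w a b (M n) (s n + 1 + i) : ℝ) * sg a b (s n + 1 + i) * (2 * (p (t n + i) : ℝ) - 1) := by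
    rw [hZ, Finset.mul_sum, ← Finset.sum_add_distrib]
    refine Finset.sum_congr rfl fun i _ => ?_
    ring
  have hsmall : (∑ i ∈ Finset.range (L n), (w a b (M n) (s n + 1 + i) : ℝ) * sg a b (s n + 1 + i) *
      (2 * (p (t n + i) : ℝ) - 1)) * (2 * 2 ^ M n) ≤ ((SS a b (M n) (s n + 1) (L n) : ℕ) : ℝ) := by
    unfold SS
    push_cast
    rw [Finset.sum_mul]
    refine Finset.sum_le_sum fun i hi => ?_
    have hi' := Finset.mem_range.1 hi
    have hbt : (0 : ℝ) < b (t n + i) := by exact_mod_cast hb0 (t n + i)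
    have hs := hP.small n i hi'
    have hs' : ((e a b (t n + i) : ℕ) : ℝ) * 2 ^ (M n + 1) ≤ b (t n + i) := by exact_mod_cast hs
    rw [e_eq hb0, ← hp] at hs'
    have hbias : |2 * (p (t n + i) : ℝ) - 1| * (2 * 2 ^ M n) ≤ 1 := by
      have h3 : |2 * (p (t n + i) : ℝ) - 1| = 2 * |(p (t n + i) : ℝ) - 1 / 2| := by
        rw [← abs_two, ← abs_mul, abs_two]
        congr 1
        ring
      rw [h3]
      rw [pow_succ] at hs'
      have h4 : (b (t n + i) : ℝ) * (2 * |(p (t n + i) : ℝ) - 1 / 2| * (2 * 2 ^ M n)) ≤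
          b (t n + i) * 1 := by linarith
      exact le_of_mul_le_mul_left h4 hbt
    have hw0 : (0 : ℝ) ≤ (w a b (M n) (s n + 1 + i) : ℝ) := Nat.cast_nonneg _
    have hww : (w a b (M n) (s n + 1 + i) : ℝ) ≤ (w a b (M n) (s n + 1 + i) : ℝ) ^ 2 := by
      have : w a b (M n) (s n + 1 + i) ≤ w a b (M n) (s n + 1 + i) ^ 2 := by
        rw [sq]
        exact Nat.le_mul_self _
      exact_mod_cast this
    have habs : (w a b (M n) (s n + 1 + i) : ℝ) * sg a b (s n + 1 + i) * (2 * (p (t n + i) : ℝ) - 1) *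
        (2 * 2 ^ M n) ≤ (w a b (M n) (s n + 1 + i) : ℝ) * (|2 * (p (t n + i) : ℝ) - 1| * (2 * 2 ^ M n)) := by
      have h5 : sg a b (s n + 1 + i) * (2 * (p (t n + i) : ℝ) - 1) ≤ |2 * (p (t n + i) : ℝ) - 1| := by
        refine (le_abs_self _).trans ?_
        rw [abs_mul, abs_sg, one_mul]
      have h6 : (0 : ℝ) ≤ (w a b (M n) (s n + 1 + i) : ℝ) * (2 * 2 ^ M n) := by positivity
      nlinarith [mul_le_mul_of_nonneg_left h5 h6]
    refine habs.trans (le_trans ?_ hww)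
    nlinarith
  have hfin : ∑ i ∈ Finset.range (L n), ((fun i => sg a b (s n + 1 + i) * (w a b (M n) (s n + 1 + i) : ℝ) /
      (8 * 2 ^ M n)) i * (val (X (t n + i)) - (p (t n + i) : ℝ)) -
      (fun i => sg a b (s n + 1 + i) * (w a b (M n) (s n + 1 + i) : ℝ) / (8 * 2 ^ M n)) i ^ 2) =
      Z / (8 * 2 ^ M n) - ((SS a b (M n) (s n + 1) (L n) : ℕ) : ℝ) / (8 * 2 ^ M n) ^ 2 := by
    unfold SS
    push_cast
    rw [hZ, Finset.sum_div, Finset.sum_div, ← Finset.sum_sub_distrib]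
    refine Finset.sum_congr rfl fun i _ => ?_
    have h7 : sg a b (s n + 1 + i) ^ 2 = 1 := by
      rw [← sq_abs, abs_sg, one_pow]
    rw [div_pow, mul_pow, h7]
    ring
  rw [hfin]
  obtain ⟨S, hS⟩ : ∃ S : ℝ, S = ((SS a b (M n) (s n + 1) (L n) : ℕ) : ℝ) := ⟨_, rfl⟩
  rw [← hS] at hX' hbig hsmall ⊢
  obtain ⟨q, hq⟩ : ∃ q : ℝ, q = 2 ^ M n := ⟨_, rfl⟩
  have h4q : (4 : ℝ) ^ M n = q * q := by
    rw [hq, ← mul_pow]
    norm_num
  rw [h4q] at hbig
  rw [pow_succ, ← hq] at hX'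
  rw [← hq] at h2 hsmall ⊢
  rw [hsplit] at hag
  have hZ4 : S < 4 * q * Z := by nlinarith
  rw [show Z / (8 * q) - S / (8 * q) ^ 2 = (8 * q * Z - S) / (64 * (q * q)) by
    field_simp
    ring, le_div_iff₀ (by positivity)]
  nlinarith

end H48K
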