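import Pool.Agent.Lib.H48K.R

/-!
# H48K, chunk G5: the first rule reads the places in increasing order and selects all of them
-/

open Set Filter

namespace H48K

variable {a b s t M L : ℕ → ℕ}

private theorem g5_u_succ (L : ℕ → ℕ) (n : ℕ) : u L (n + 1) = u L n + (L n + 1) := by
  unfold u
  rw [Finset.sum_range_succ]

theorem f1_sel (v : List Bool) : (f1 s t L v).2 = true := by
  unfold f1
  split_ifs <;> rfl

/-- The first rule reads the places in increasing order. -/
theorem f1_mono (hP : Plan a b s t M L) (v : List Bool) (x : Bool) :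
    (f1 s t L v).1 < (f1 s t L (v ++ [x])).1 := by
  obtain ⟨k, hk⟩ : ∃ k, k = v.length := ⟨_, rfl⟩
  obtain ⟨n, hn⟩ : ∃ n, n = blk L k := ⟨_, rfl⟩
  have hb := blk_spec L k
  rw [← hn, g5_u_succ] at hb
  have hle := hP.le n
  have hsucc := hP.succ n
  have hlen : (v ++ [x]).length = k + 1 := by
    rw [List.length_append, ← hk]
    rfl
  have hv : (f1 s t L v).1 ≤ t n + (k - u L n) - 1 ∨ (f1 s t L v).1 = s n := by
    unfold f1
    rw [← hk, ← hn]
    split_ifs with h1 h2
    · exact Or.inr rfl
    · left
      show s n + (k - u L n) ≤ t n + (k - u L n) - 1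
      omega
    · exact Or.inl le_rfl
  by_cases hlast : k + 1 < u L (n + 1)
  · have hb1 : blk L (k + 1) = n := blk_eq L (by omega) hlast
    unfold f1
    rw [hlen, hb1, ← hk, ← hn]
    rw [if_neg (by omega : ¬ k + 1 = u L n)]
    by_cases h1 : k = u L n
    · rw [if_pos h1]
      split_ifs
      · show s n < s n + (k + 1 - u L n)
        omega
      · show s n < t n + (k + 1 - u L n) - 1
        omega
    · rw [if_neg h1]
      have hget : (v ++ [x]).getD (u L n) false = v.getD (u L n) false := by
        rw [List.getD_append _ _ _ _ (by omega)]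
      rw [hget]
      split_ifs
      · show s n + (k - u L n) < s n + (k + 1 - u L n)
        omega
      · show t n + (k - u L n) - 1 < t n + (k + 1 - u L n) - 1
        omega
  · have hku : k + 1 = u L (n + 1) := by
      rw [g5_u_succ] at hlast ⊢
      omega
    have hb1 : blk L (k + 1) = n + 1 := by
      apply blk_eq L (le_of_eq hku.symm)
      rw [g5_u_succ L (n + 1)]
      omega
    have h2 : (f1 s t L (v ++ [x])).1 = s (n + 1) := by
      unfold f1
      rw [hlen, hb1, if_pos hku]
    rw [h2, hsucc]
    rw [g5_u_succ] at hku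
    rcases hv with h | h
    · omega
    · omega

end H48K
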