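import Pool.Agent.Lib.H48K.P

/-!
# H48K, chunk P6: the computable plan
-/

open MeasureTheory Set Filter

namespace H48K

variable {a b : ℕ → ℕ}

section

variable {α : Type*} [Primcodable α]

private theorem P6_search {c : α → ℕ → Bool} (hc : Computable₂ c)
    (h : ∀ x, ∃ n, c x n = true) : ∃ g : α → ℕ, Computable g ∧ ∀ x, c x (g x) = true := by
  refine ⟨fun x => Nat.find (h x), ?_, fun x => Nat.find_spec (h x)⟩
  have h1 : Partrec fun x : α => Nat.rfind fun n => Part.some (c x n) := Partrec.rfind hc.partrec₂
  refine h1.of_eq_tot fun x => Nat.mem_rfind.2 ⟨?_, fun {m} hm => ?_⟩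
  · rw [Nat.find_spec (h x)]
    exact Part.mem_some _
  · have h2 := Nat.find_min (h x) hm
    rw [Bool.not_eq_true] at h2
    rw [h2]
    exact Part.mem_some _

private theorem P6_add {f g : α → ℕ} (hf : Computable f) (hg : Computable g) : Computable fun x => f x + g x :=
  Primrec.nat_add.to_comp.comp hf hg

private theorem P6_sub {f g : α → ℕ} (hf : Computable f) (hg : Computable g) : Computable fun x => f x - g x :=
  Primrec.nat_sub.to_comp.comp hf hg

private theorem P6_mul {f g : α → ℕ} (hf : Computable f) (hg : Computable g) : Computable fun x => f x * g x :=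
  Primrec.nat_mul.to_comp.comp hf hg

private theorem P6_div {f g : α → ℕ} (hf : Computable f) (hg : Computable g) : Computable fun x => f x / g x :=
  Primrec.nat_div.to_comp.comp hf hg

private theorem P6_le {f g : α → ℕ} (hf : Computable f) (hg : Computable g) :
    Computable fun x => decide (f x ≤ g x) :=
  Primrec.nat_le.decide.to_comp.comp hf hg

private theorem P6_and {f g : α → Bool} (hf : Computable f) (hg : Computable g) : Computable fun x => f x && g x :=
  Primrec.and.to_comp.comp hf hg

private theorem P6_pow (c : ℕ) {f : α → ℕ} (hf : Computable f) : Computable fun x => c ^ f x := by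
  have h : Computable fun x : α => Nat.rec (motive := fun _ => ℕ) 1 (fun y IH => c * IH) (f x) := by
    refine Computable.nat_rec (h := fun _ q => c * q.2) hf (Computable.const 1) ?_
    exact P6_mul (Computable.const c) (Computable.snd.comp Computable.snd)
  refine h.of_eq fun x => ?_
  induction f x with
  | zero => rfl
  | succ n ih =>
    show c * _ = c ^ (n + 1)
    rw [ih, pow_succ, mul_comm]

private theorem P6_sum {f : α → ℕ} {h : α → ℕ → ℕ} (hf : Computable f) (hh : Computable₂ h) :
    Computable fun x => ∑ i ∈ Finset.range (f x), h x i := by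
  have h1 : Computable fun x : α => Nat.rec (motive := fun _ => ℕ) 0 (fun y IH => IH + h x y) (f x) := by
    refine Computable.nat_rec (h := fun x q => q.2 + h x q.1) hf (Computable.const 0) ?_
    exact P6_add (Computable.snd.comp Computable.snd)
      (hh.comp Computable.fst (Computable.fst.comp Computable.snd))
  refine h1.of_eq fun x => ?_
  induction f x with
  | zero => rfl
  | succ n ih =>
    rw [Finset.sum_range_succ]
    show _ + h x n = _
    rw [ih]

private theorem P6_all {f : α → ℕ} {c : α → ℕ → Bool} (hf : Computable f) (hc : Computable₂ c) :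
    ∃ d : α → Bool, Computable d ∧ ∀ x, d x = true ↔ ∀ i < f x, c x i = true := by
  refine ⟨fun x => Nat.rec (motive := fun _ => Bool) true (fun y IH => IH && c x y) (f x), ?_, fun x => ?_⟩
  · refine Computable.nat_rec (h := fun x q => q.2 && c x q.1) hf (Computable.const true) ?_
    exact P6_and (Computable.snd.comp Computable.snd)
      (hc.comp Computable.fst (Computable.fst.comp Computable.snd))
  · show (Nat.rec (motive := fun _ => Bool) true (fun y IH => IH && c x y) (f x)) = true ↔
      ∀ i < f x, c x i = true
    induction f x with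
    | zero => exact ⟨fun _ i hi => absurd hi (Nat.not_lt_zero i), fun _ => rfl⟩
    | succ n ih =>
      show (_ && c x n) = true ↔ _
      rw [Bool.and_eq_true, ih]
      constructor
      · rintro ⟨h1, h2⟩ i hi
        rcases Nat.lt_succ_iff_lt_or_eq.1 hi with h3 | h3
        · exact h1 i h3
        · rw [h3]; exact h2
      · intro h1
        exact ⟨fun i hi => h1 i (Nat.lt_succ_of_lt hi), h1 n (Nat.lt_succ_self n)⟩

private theorem P6_e (ha : Computable a) (hb : Computable b) {f : α → ℕ} (hf : Computable f) :
    Computable fun x => e a b (f x) := by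
  have h1 : Computable fun x => 2 * a (f x) := P6_mul (Computable.const 2) (ha.comp hf)
  have h2 : Computable fun x => b (f x) := hb.comp hf
  exact P6_add (P6_sub h1 h2) (P6_sub h2 h1)

private theorem P6_w (ha : Computable a) (hb : Computable b) {m f : α → ℕ} (hm : Computable m)
    (hf : Computable f) : Computable fun x => w a b (m x) (f x) := by
  have h2 : Computable fun x => b (f x) := hb.comp hf
  exact P6_div (P6_mul (P6_pow 2 hm) (P6_e ha hb hf)) (P6_mul (Computable.const 2) h2)

private theorem P6_SS (ha : Computable a) (hb : Computable b) {m r l : α → ℕ} (hm : Computable m)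
    (hr : Computable r) (hl : Computable l) : Computable fun x => SS a b (m x) (r x) (l x) := by
  have h1 : Computable fun q : α × ℕ => w a b (m q.1) (r q.1 + q.2) :=
    P6_w ha hb (hm.comp Computable.fst) (P6_add (hr.comp Computable.fst) Computable.snd)
  have h2 : Computable₂ fun (x : α) (i : ℕ) => w a b (m x) (r x + i) * w a b (m x) (r x + i) := P6_mul h1 h1
  refine (P6_sum hl h2).of_eq fun x => ?_
  unfold SS
  exact Finset.sum_congr rfl fun i _ => (sq _).symm

end

/-- P6. The computable plan: the searches for `(M, L)` (coded by `Nat.pair`) and for `t` by `Nat.rfind`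
(`Partrec.rfind`, total by `exists_big`, `exists_small`; the conditions are decidable with computable
decision: finite sums by `Computable.nat_rec`), then the recursion for `s` by `Computable.nat_rec`. -/
theorem exists_plan (ha : Computable a) (hb : Computable b)
    (hab : ∀ n, a n ≤ b n) (hb0 : ∀ n, 0 < b n)
    (hlim : Tendsto (fun n => (a n : ℝ) / b n) atTop (nhds (1 / 2)))
    (hns : ¬ Summable fun n => ((a n : ℝ) / b n - 1 / 2) ^ 2) :
    ∃ s t M L : ℕ → ℕ, Computable s ∧ Computable t ∧ Computable M ∧ Computable L ∧
      Plan a b s t M L := by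
  classical
  -- the search for the first region
  have c1 : Computable₂ fun (p : ℕ × ℕ) (q : ℕ) =>
      decide (64 * (p.1 + 1) * 4 ^ q.unpair.1 ≤ SS a b q.unpair.1 (p.2 + 1) q.unpair.2) := by
    have x1 : Computable fun z : (ℕ × ℕ) × ℕ => z.1.1 := Computable.fst.comp Computable.fst
    have x2 : Computable fun z : (ℕ × ℕ) × ℕ => z.1.2 := Computable.snd.comp Computable.fst
    have x3 : Computable fun z : (ℕ × ℕ) × ℕ => z.2.unpair.1 :=
      Computable.fst.comp (Computable.unpair.comp Computable.snd)
    have x4 : Computable fun z : (ℕ × ℕ) × ℕ => z.2.unpair.2 :=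
      Computable.snd.comp (Computable.unpair.comp Computable.snd)
    exact P6_le (P6_mul (P6_mul (Computable.const 64) (P6_add x1 (Computable.const 1))) (P6_pow 4 x3))
      (P6_SS ha hb x3 (P6_add x2 (Computable.const 1)) x4)
  obtain ⟨g1, hg1, hg1'⟩ := P6_search c1 (by
    rintro ⟨n, σ⟩
    obtain ⟨M, L, h⟩ := exists_big hab hb0 hns (σ + 1) (64 * (n + 1))
    refine ⟨Nat.pair M L, ?_⟩
    rw [Nat.unpair_pair]
    exact decide_eq_true h)
  -- the search for the second region
  obtain ⟨d, hd, hd'⟩ := P6_all (α := (ℕ × ℕ) × ℕ) (f := fun z => z.1.1.unpair.2)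
    (c := fun z i => decide (e a b (z.2 + i) * 2 ^ (z.1.1.unpair.1 + 1) ≤ b (z.2 + i)))
    (Computable.snd.comp (Computable.unpair.comp (Computable.fst.comp Computable.fst))) (by
      have x1 : Computable fun z : ((ℕ × ℕ) × ℕ) × ℕ => z.1.2 + z.2 :=
        P6_add (Computable.snd.comp Computable.fst) Computable.snd
      have x2 : Computable fun z : ((ℕ × ℕ) × ℕ) × ℕ => z.1.1.1.unpair.1 :=
        Computable.fst.comp (Computable.unpair.comp (Computable.fst.comp (Computable.fst.comp Computable.fst)))
      exact P6_le (P6_mul (P6_e ha hb x1) (P6_pow 2 (P6_add x2 (Computable.const 1)))) (hb.comp x1))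
  have c2 : Computable₂ fun (p : ℕ × ℕ) (t : ℕ) => decide (p.2 ≤ t) && d (p, t) := by
    exact P6_and (P6_le (Computable.snd.comp Computable.fst) Computable.snd) hd
  obtain ⟨g2, hg2, hg2'⟩ := P6_search c2 (by
    rintro ⟨q, r⟩
    obtain ⟨t, h1, h2⟩ := exists_small hb0 hlim q.unpair.1 q.unpair.2 r
    refine ⟨t, ?_⟩
    rw [Bool.and_eq_true]
    exact ⟨decide_eq_true h1, (hd' _).2 fun i hi => decide_eq_true (h2 i hi)⟩)
  -- the next block
  set F : ℕ → ℕ → ℕ := fun n σ =>
    g2 (g1 (n, σ), σ + 1 + (g1 (n, σ)).unpair.2) + (g1 (n, σ)).unpair.2 with hF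
  have hFc : Computable fun z : ℕ × ℕ => F z.1 z.2 := by
    have y1 : Computable fun z : ℕ × ℕ => g1 (z.1, z.2) := hg1
    have y2 : Computable fun z : ℕ × ℕ => (g1 (z.1, z.2)).unpair.2 :=
      Computable.snd.comp (Computable.unpair.comp y1)
    exact P6_add (hg2.comp (y1.pair (P6_add (P6_add Computable.snd (Computable.const 1)) y2))) y2
  set s : ℕ → ℕ := fun n => Nat.rec (motive := fun _ => ℕ) 0 (fun y IH => F y IH) n with hs
  have hsc : Computable s := by
    refine Computable.nat_rec (h := fun _ q => F q.1 q.2) Computable.id (Computable.const 0) ?_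
    exact hFc.comp Computable.snd
  have hss : ∀ n, s (n + 1) = F n (s n) := fun n => rfl
  have hml : Computable fun n => g1 (n, s n) := hg1.comp (Computable.id.pair hsc)
  have hMc : Computable fun n => (g1 (n, s n)).unpair.1 := Computable.fst.comp (Computable.unpair.comp hml)
  have hLc : Computable fun n => (g1 (n, s n)).unpair.2 := Computable.snd.comp (Computable.unpair.comp hml)
  have htc : Computable fun n => g2 (g1 (n, s n), s n + 1 + (g1 (n, s n)).unpair.2) :=
    hg2.comp (hml.pair (P6_add (P6_add hsc (Computable.const 1)) hLc))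
  refine ⟨s, fun n => g2 (g1 (n, s n), s n + 1 + (g1 (n, s n)).unpair.2), fun n => (g1 (n, s n)).unpair.1,
    fun n => (g1 (n, s n)).unpair.2, hsc, htc, hMc, hLc, ⟨fun n => ?_, fun n => ?_, fun n => ?_, fun n i hi => ?_⟩⟩
  · have h1 := hg2' (g1 (n, s n), s n + 1 + (g1 (n, s n)).unpair.2)
    rw [Bool.and_eq_true] at h1
    exact of_decide_eq_true h1.1
  · exact hss n
  · exact of_decide_eq_true (hg1' (n, s n))
  · have h1 := hg2' (g1 (n, s n), s n + 1 + (g1 (n, s n)).unpair.2)
    rw [Bool.and_eq_true] at h1
    exact of_decide_eq_true ((hd' _).1 h1.2 i hi)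

end H48K
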