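import Pool.Agent.Lib.H48K.R

/-!
# H48K, chunk R2: the run of the second rule
-/

open MeasureTheory Set Filter

namespace H48K

variable {a b s t M L : ℕ → ℕ}

private theorem r2_u_succ (L : ℕ → ℕ) (n : ℕ) : u L (n + 1) = u L n + (L n + 1) := by
  unfold u
  rw [Finset.sum_range_succ]

private theorem r2_u_mono (L : ℕ → ℕ) : StrictMono (u L) := by
  apply strictMono_nat_of_lt_succ
  intro n
  rw [r2_u_succ]
  omega

private theorem r2_dec_congr (M r l : ℕ) (y y' : ℕ → Bool) (h : ∀ i < l, y i = y' i) :
    dec a b M r l y = dec a b M r l y' := by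
  have h1 : AG a b M r l y = AG a b M r l y' := by
    unfold AG
    apply Finset.sum_congr rfl
    intro i hi
    rw [h i (Finset.mem_range.mp hi)]
  unfold dec
  rw [h1]

private theorem r2_BB_head (X : ℕ → Bool) (n : ℕ) : BB s t L X (u L n) = X (s n) := by
  have hb : blk L (u L n) = n := blk_eq L le_rfl (r2_u_mono L (Nat.lt_succ_self n))
  unfold BB
  rw [hb, if_pos rfl]

private theorem r2_BB_reg (X : ℕ → Bool) (n i : ℕ) (hi : i < L n) :
    BB s t L X (u L n + i + 1) = reg s t X n i := by
  have hs := r2_u_succ L n
  have hb : blk L (u L n + i + 1) = n := blk_eq L (by omega) (by omega)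
  unfold BB
  rw [hb, if_neg (by omega)]
  unfold reg
  have e1 : s n + (u L n + i + 1 - u L n) = s n + 1 + i := by omega
  have e2 : t n + (u L n + i + 1 - u L n) - 1 = t n + i := by omega
  rw [e1, e2]

/-- R3. The run of the second rule on `BB X`: at the step `k = u n + j` the place `k + 1` is inspected if `j < L n`
(not selected) and the place `u n` if `j = L n`, selected iff `D X n`. So if `D X n` holds infinitely
often and `D X n = X (s n)` for all large `n`, then an infinite sequence is selected which is
`true` from some place on. -/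
theorem sel_f2 (hP : Plan a b s t M L) (X : ℕ → Bool)
    (hinf : Set.Infinite {n | D a b s t M L X n = true})
    (hev : ∀ᶠ n in atTop, D a b s t M L X n = X (s n)) :
    ∃ C : ℕ → Bool, Sel (fun v => Part.some (f2 a b s M L v)) (BB s t L X) C ∧
      ∀ᶠ j in atTop, C j = true := by
  classical
  obtain ⟨pos, hpos⟩ : ∃ pos : ℕ → ℕ, ∀ k, pos k =
      if k + 1 < u L (blk L k + 1) then k + 1 else u L (blk L k) := ⟨_, fun _ => rfl⟩
  obtain ⟨sel, hsel⟩ : ∃ sel : ℕ → Bool, ∀ k, sel k =
      if k + 1 < u L (blk L k + 1) then false else D a b s t M L X (blk L k) := ⟨_, fun _ => rfl⟩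
  have hselT : ∀ k, sel k = true → ¬ (k + 1 < u L (blk L k + 1)) ∧
      D a b s t M L X (blk L k) = true := by
    intro k hk
    rw [hsel] at hk
    by_cases h : k + 1 < u L (blk L k + 1)
    · rw [if_pos h] at hk
      exact absurd hk (by decide)
    · rw [if_neg h] at hk
      exact ⟨h, hk⟩
  have hlast : ∀ n, blk L (u L n + L n) = n := by
    intro n
    have hs := r2_u_succ L n
    exact blk_eq L (by omega) (by omega)
  have hselL : ∀ n, sel (u L n + L n) = D a b s t M L X n := by
    intro n
    have hs := r2_u_succ L n
    rw [hsel, hlast, if_neg (by omega)]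
  have hInfSel : Set.Infinite {k : ℕ | sel k = true} := by
    have hinj : Function.Injective (fun n => u L n + L n) := by
      intro n m hnm
      have h1 : blk L (u L n + L n) = blk L (u L m + L m) := congrArg (blk L) hnm
      rw [hlast, hlast] at h1
      exact h1
    have h2 := hinf.image (hinj.injOn)
    apply h2.mono
    rintro _ ⟨n, hn, rfl⟩
    show sel (u L n + L n) = true
    rw [hselL]
    exact hn
  refine ⟨fun j => BB s t L X (pos (Nat.nth (fun k => sel k = true) j)),
    ⟨pos, sel, ?_, ?_, hInfSel, fun _ => rfl⟩, ?_⟩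
  · intro k
    have hlen : (List.ofFn (fun i : Fin k => BB s t L X (pos i))).length = k := List.length_ofFn
    have hb := blk_spec L k
    refine congrArg Part.some ?_
    unfold f2
    rw [hlen, hpos, hsel]
    by_cases h : k + 1 < u L (blk L k + 1)
    · rw [if_pos h, if_pos h, if_pos h]
    · rw [if_neg h, if_neg h, if_neg h]
      have hs := r2_u_succ L (blk L k)
      have hk : k = u L (blk L k) + L (blk L k) := by omega
      unfold D
      refine Prod.ext rfl ?_
      apply r2_dec_congr
      intro i hi
      have hik : u L (blk L k) + i < k := by omega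
      rw [List.getD_eq_getElem _ _ (by rw [hlen]; exact hik), List.getElem_ofFn]
      show BB s t L X (pos (u L (blk L k) + i)) = _
      have hbi : blk L (u L (blk L k) + i) = blk L k := blk_eq L (by omega) (by omega)
      rw [hpos (u L (blk L k) + i), hbi, if_pos (by omega)]
      exact r2_BB_reg X (blk L k) i hi
  · intro k k' hkk
    have hb := blk_spec L k
    have hb' := blk_spec L k'
    have hr : ∀ k, blk L (pos k) = blk L k := by
      intro k
      have hb := blk_spec L k
      have hs := r2_u_succ L (blk L k)
      rw [hpos]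
      by_cases h : k + 1 < u L (blk L k + 1)
      · rw [if_pos h]
        exact blk_eq L (by omega) h
      · rw [if_neg h]
        exact blk_eq L le_rfl (by omega)
    have hbb : blk L k = blk L k' := by
      rw [← hr k, ← hr k', hkk]
    rw [hpos k, hpos k', hbb] at hkk
    rw [hbb] at hb
    by_cases h : k + 1 < u L (blk L k' + 1)
    · by_cases h' : k' + 1 < u L (blk L k' + 1)
      · rw [if_pos h, if_pos h'] at hkk
        omega
      · rw [if_pos h, if_neg h'] at hkk
        omega
    · by_cases h' : k' + 1 < u L (blk L k' + 1)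
      · rw [if_neg h, if_pos h'] at hkk
        omega
      · omega
  · obtain ⟨N0, hN0⟩ := eventually_atTop.mp hev
    rw [eventually_atTop]
    refine ⟨u L N0, fun j hj => ?_⟩
    have hk : sel (Nat.nth (fun k => sel k = true) j) = true :=
      Nat.nth_mem_of_infinite hInfSel j
    have hjk : j ≤ Nat.nth (fun k => sel k = true) j :=
      (Nat.nth_strictMono hInfSel).id_le j
    obtain ⟨k, hkd⟩ : ∃ k, k = Nat.nth (fun k => sel k = true) j := ⟨_, rfl⟩
    show BB s t L X (pos (Nat.nth (fun k => sel k = true) j)) = true
    rw [← hkd] at hk hjk ⊢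
    obtain ⟨h1, h2⟩ := hselT k hk
    have hb := blk_spec L k
    have hN : N0 ≤ blk L k := by
      by_contra hc
      have h3 : u L (blk L k + 1) ≤ u L N0 := (r2_u_mono L).monotone (by omega)
      omega
    rw [hpos, if_neg h1, r2_BB_head, ← hN0 _ hN]
    exact h2

end H48K
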