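import Pool.Agent.Lib.H48K.Defs

/-!
# H48K, chunk S1: the first selected bits
-/

open MeasureTheory Set Filter H69K

namespace H48K

open Classical in
/-- The exponent used in `sel_word`. -/
private noncomputable def s1phi (g : List Bool → ℕ) (c : List Bool → Bool) (m : ℕ) (w : ℕ → Bool)
    (θ : ℝ) (r : List Bool) (b : Bool) : ℝ :=
  if g r ∉ used g r ∧ c r = true ∧ cnt c r < m then
    (if b = w (cnt c r) then Real.log (2 - θ) else Real.log θ) else 0

private theorem s1_q (n : ℕ) (b : Bool) : q (fair n) b = 1 / 2 := by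
  unfold q fair
  cases b
  · simp only [Bool.false_eq_true, if_false]
    norm_num
  · simp only [if_true]

private theorem s1_good (g : List Bool → ℕ) (c : List Bool → Bool) (m : ℕ) (w : ℕ → Bool)
    (θ : ℝ) (h0 : 0 < θ) (h1 : θ < 1) : Good fair g (s1phi g c m w θ) := by
  intro r
  by_cases h : g r ∉ used g r ∧ c r = true ∧ cnt c r < m
  · left
    refine ⟨h.1, ?_⟩
    unfold s1phi
    rw [if_pos h, if_pos h, s1_q, s1_q]
    have h2 : (0 : ℝ) < 2 - θ := by linarith
    cases hw : w (cnt c r)
    · rw [if_neg (by decide), if_pos rfl, Real.exp_log h0, Real.exp_log h2]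
      linarith
    · rw [if_pos rfl, if_neg (by decide), Real.exp_log h0, Real.exp_log h2]
      linarith
  · right
    unfold s1phi
    exact ⟨if_neg h, if_neg h⟩

private theorem s1_FF (f : List Bool →. ℕ × Bool) (m : ℕ) (w : ℕ → Bool) (θ : ℝ)
    {X B : ℕ → Bool} {pos : ℕ → ℕ} {sel : ℕ → Bool}
    (hrun : ∀ k : ℕ, f (List.ofFn (fun i : Fin k => X (pos i))) = Part.some (pos k, sel k))
    (hinj : Function.Injective pos)
    (hB : ∀ j : ℕ, B j = X (pos (Nat.nth (fun k => sel k = true) j)))
    (hw : ∀ j < m, B j = w j) (k : ℕ) :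
    FF (s1phi (gf f) (cf f) m w θ) (hist (gf f) X k) =
      ((min (Nat.count (fun i => sel i = true) k) m : ℕ) : ℝ) * Real.log (2 - θ) := by
  induction k with
  | zero => simp [hist, FF]
  | succ k ih =>
    rw [hist, FF, ih, Nat.count_succ]
    have hf := fresh_run hrun hinj k
    have hcnt := cnt_run hrun k
    have hcf := cf_run hrun k
    have hgf := gf_run hrun k
    by_cases hs : sel k = true
    · by_cases hm : Nat.count (fun i => sel i = true) k < m
      · have h1 : Nat.nth (fun i => sel i = true) (Nat.count (fun i => sel i = true) k) = k :=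
          Nat.nth_count (p := fun i => sel i = true) hs
        have h2 : X (pos k) = w (Nat.count (fun i => sel i = true) k) := by
          rw [← hw _ hm, hB, h1]
        unfold s1phi
        rw [if_pos ⟨hf, by rw [hcf]; exact hs, by rw [hcnt]; exact hm⟩, hgf, hcnt, if_pos h2,
          if_pos hs, min_eq_left hm.le, min_eq_left (by omega)]
        push_cast
        ring
      · unfold s1phi
        rw [if_neg (fun h => hm (by rw [← hcnt]; exact h.2.2)), if_pos hs,
          min_eq_right (by omega), min_eq_right (by omega), add_zero]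
    · unfold s1phi
      rw [if_neg (fun h => hs (by rw [← hcf]; exact h.2.1)), if_neg hs, add_zero, add_zero]

/-- S1. The first `m` selected bits are `v` with probability at most `2^(-m)`.
Proof: let `g = gf f`, `c = cf f` (`H69K.KL`: `hist_run`, `gf_run`, `cf_run`, `fresh_run`, `cnt_run`; reversed lists).
For `0 < θ < 1` let `φ r b = log (2 - θ)` if `g r ∉ used g r`, `c r`, `j := cnt c r < m` and `b = v j`,
`φ r b = log θ` if the same holds with `b ≠ v j`, and `0` in the other cases. `Good fair g φ` (equality `1/2 (2 - θ) +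
1/2 θ = 1`), and on the event `FF φ (hist g X k) = m log (2 - θ)` for all large `k`, so as in
`H69K.measure_Ev_le` (monotone union of intersections and `markov`) the outer measure is at most
`(2 - θ)^(-m)`; let `θ` tend to `0`. -/
theorem sel_word (f : List Bool →. ℕ × Bool) (m : ℕ) (v : Fin m → Bool) :
    mu fair {X | ∃ B : ℕ → Bool, (∀ i : Fin m, B i = v i) ∧ Sel f X B} ≤ (2⁻¹ : ENNReal) ^ m := by
  classical
  set w : ℕ → Bool := fun j => if h : j < m then v ⟨j, h⟩ else false with hw
  have key : ∀ θ : ℝ, 0 < θ → θ < 1 →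
      mu fair {X | ∃ B : ℕ → Bool, (∀ i : Fin m, B i = v i) ∧ Sel f X B} ≤
        ENNReal.ofReal ((2 - θ)⁻¹ ^ m) := by
    intro θ h0 h1
    set E : ℕ → Set (ℕ → Bool) :=
      fun k => {X | (m : ℝ) * Real.log (2 - θ) ≤
        FF (s1phi (gf f) (cf f) m w θ) (hist (gf f) X k)} with hE
    have hsub : {X | ∃ B : ℕ → Bool, (∀ i : Fin m, B i = v i) ∧ Sel f X B} ⊆
        ⋃ K, ⋂ k ∈ Set.Ici K, E k := by
      rintro X ⟨B, hBv, pos, sel, hrun, hinj, hinf, hB⟩
      rw [Set.mem_iUnion]
      refine ⟨Nat.nth (fun k => sel k = true) m, ?_⟩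
      rw [Set.mem_iInter₂]
      intro k hk
      show (m : ℝ) * Real.log (2 - θ) ≤ FF (s1phi (gf f) (cf f) m w θ) (hist (gf f) X k)
      have hBw : ∀ j < m, B j = w j := by
        intro j hj
        rw [hw]
        simp only [dif_pos hj]
        exact hBv ⟨j, hj⟩
      rw [s1_FF f m w θ hrun hinj hB hBw k]
      have h2 : m ≤ Nat.count (fun k => sel k = true) k := by
        have h3 := Nat.count_monotone (fun k => sel k = true) (Set.mem_Ici.1 hk)
        rwa [Nat.count_nth_of_infinite hinf] at h3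
      rw [min_eq_right h2]
    have hmono : Monotone fun K => ⋂ k ∈ Set.Ici K, E k := by
      intro a b hab X hX
      rw [Set.mem_iInter₂] at hX ⊢
      intro k hk
      exact hX k (le_trans hab hk)
    have h2 : (0 : ℝ) < 2 - θ := by linarith
    have hexp : Real.exp (-((m : ℝ) * Real.log (2 - θ))) = (2 - θ)⁻¹ ^ m := by
      rw [← mul_neg, Real.exp_nat_mul, Real.exp_neg, Real.exp_log h2]
    calc mu fair {X | ∃ B : ℕ → Bool, (∀ i : Fin m, B i = v i) ∧ Sel f X B}
        ≤ mu fair (⋃ K, ⋂ k ∈ Set.Ici K, E k) := measure_mono hsub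
      _ = ⨆ K, mu fair (⋂ k ∈ Set.Ici K, E k) := hmono.measure_iUnion
      _ ≤ ENNReal.ofReal (Real.exp (-((m : ℝ) * Real.log (2 - θ)))) := by
          refine iSup_le fun K => ?_
          refine le_trans (measure_mono (Set.iInter₂_subset K (Set.mem_Ici.2 le_rfl))) ?_
          exact markov fair (gf f) _ (s1_good (gf f) (cf f) m w θ h0 h1) K _
      _ = ENNReal.ofReal ((2 - θ)⁻¹ ^ m) := by rw [hexp]
  have hlim : Tendsto (fun θ : ℝ => ENNReal.ofReal ((2 - θ)⁻¹ ^ m)) (nhdsWithin 0 (Set.Ioi 0))
      (nhds (ENNReal.ofReal ((2 - 0)⁻¹ ^ m))) := by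
    apply ENNReal.tendsto_ofReal
    have hc : ContinuousAt (fun θ : ℝ => (2 - θ)⁻¹ ^ m) 0 := by
      apply ContinuousAt.pow
      apply ContinuousAt.inv₀
      · exact continuousAt_const.sub continuousAt_id
      · norm_num
    exact hc.tendsto.mono_left nhdsWithin_le_nhds
  have hval : ENNReal.ofReal ((2 - 0 : ℝ)⁻¹ ^ m) = (2⁻¹ : ENNReal) ^ m := by
    rw [sub_zero, ENNReal.ofReal_pow (by norm_num), ENNReal.ofReal_inv_of_pos (by norm_num)]
    norm_num
  rw [← hval]
  refine ge_of_tendsto hlim ?_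
  have h3 : Set.Ioo (0 : ℝ) 1 ∈ nhdsWithin (0 : ℝ) (Set.Ioi 0) :=
    Ioo_mem_nhdsGT (by norm_num)
  filter_upwards [h3] with θ hθ
  exact key θ hθ.1 hθ.2

end H48K
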