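import Pool.Agent.Lib.H48K.O
import Pool.Agent.Lib.H48K.S1

/-!
# H48K, chunk S2: the selected sequence avoids null sets of the fair measure
-/

open MeasureTheory Set Filter H69K

namespace H48K

private theorem s2_q (n : ℕ) (b : Bool) : q (fair n) b = 1 / 2 := by
  unfold q fair
  cases b
  · simp only [Bool.false_eq_true, if_false]
    norm_num
  · simp only [if_true]

private theorem s2_word (m : ℕ) (v : Fin m → Bool) :
    mu fair {X : ℕ → Bool | (fun i : Fin m => X i) = v} = (2⁻¹ : ENNReal) ^ m := by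
  classical
  set w : ℕ → Bool := fun j => if h : j < m then v ⟨j, h⟩ else false with hw
  have h1 : {X : ℕ → Bool | (fun i : Fin m => X i) = v} =
      Set.pi (Finset.range m) (fun i => ({w i} : Set Bool)) := by
    ext X
    constructor
    · intro h i hi
      have hi' : i < m := Finset.mem_range.1 (Finset.mem_coe.1 hi)
      rw [Set.mem_singleton_iff, hw]
      simp only [dif_pos hi']
      exact congrFun h ⟨i, hi'⟩
    · intro h
      funext i
      have h2 := h (i : ℕ) (Finset.mem_coe.2 (Finset.mem_range.2 i.2))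
      rw [Set.mem_singleton_iff, hw] at h2
      simp only [dif_pos i.2] at h2
      exact h2
  have h2 : ENNReal.ofReal (1 / 2) = (2⁻¹ : ENNReal) := by
    rw [one_div, ENNReal.ofReal_inv_of_pos (by norm_num)]
    norm_num
  rw [h1]
  unfold mu
  rw [Measure.infinitePi_pi _ (fun i _ => measurableSet_singleton _)]
  rw [Finset.prod_congr rfl (fun i _ => by rw [bern_singleton, s2_q, h2]), Finset.prod_const,
    Finset.card_range]

/-- S2. The fair measure of a cylinder set. -/
theorem fair_E (m : ℕ) (V : Set (Fin m → Bool)) [Fintype V] :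
    mu fair (E m V) = (Fintype.card V : ENNReal) * (2⁻¹ : ENNReal) ^ m := by
  classical
  have h1 : E m V = ⋃ v ∈ V.toFinset, {X : ℕ → Bool | (fun i : Fin m => X i) = v} := by
    ext X
    simp only [E, Set.mem_iUnion, Set.mem_setOf_eq, Set.mem_toFinset, exists_prop]
    constructor
    · intro h
      exact ⟨_, h, rfl⟩
    · rintro ⟨v, hv, h⟩
      rw [h]
      exact hv
  have hm : ∀ v : Fin m → Bool, MeasurableSet {X : ℕ → Bool | (fun i : Fin m => X i) = v} := by
    intro v
    have : {X : ℕ → Bool | (fun i : Fin m => X i) = v} = ⋂ i : Fin m, {X : ℕ → Bool | X i = v i} := by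
      ext X
      rw [Set.mem_iInter]
      exact funext_iff
    rw [this]
    exact MeasurableSet.iInter fun i => measurableSet_coord _ _
  rw [h1, measure_biUnion_finset]
  · rw [Finset.sum_congr rfl (fun v _ => s2_word m v), Finset.sum_const, nsmul_eq_mul,
      Set.toFinset_card]
  · intro v _ w _ hvw
    rw [Function.onFun, Set.disjoint_left]
    intro X h2 h3
    exact hvw (h2.symm.trans h3)
  · intro v _
    exact hm v

/-- S3. The sequence selected by `f` avoids null sets (`null_of_cyl` with `nu = lam = mu fair`,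
`Ev B = {X | Sel f X B}`, `sel_word` summed over the words of `V`, `fair_E`). -/
theorem sel_null (f : List Bool →. ℕ × Bool) (N : Set (ℕ → Bool)) (hN : mu fair N = 0) :
    mu fair {X | ∃ B ∈ N, Sel f X B} = 0 := by
  classical
  refine null_of_cyl (mu fair) (mu fair) (fun B => {X | Sel f X B}) ?_ N hN
  intro m V
  have hsub : {X : ℕ → Bool | ∃ B ∈ E m V, X ∈ (fun B => {X | Sel f X B}) B} ⊆
      ⋃ v ∈ V.toFinset, {X : ℕ → Bool | ∃ B : ℕ → Bool, (∀ i : Fin m, B i = v i) ∧ Sel f X B} := by
    rintro X ⟨B, hB, hX⟩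
    rw [Set.mem_iUnion₂]
    exact ⟨fun i : Fin m => B i, Set.mem_toFinset.2 hB, B, fun i => rfl, hX⟩
  calc mu fair {X : ℕ → Bool | ∃ B ∈ E m V, X ∈ (fun B => {X | Sel f X B}) B}
      ≤ mu fair (⋃ v ∈ V.toFinset,
          {X : ℕ → Bool | ∃ B : ℕ → Bool, (∀ i : Fin m, B i = v i) ∧ Sel f X B}) :=
        measure_mono hsub
    _ ≤ ∑ v ∈ V.toFinset, mu fair
          {X : ℕ → Bool | ∃ B : ℕ → Bool, (∀ i : Fin m, B i = v i) ∧ Sel f X B} :=
        measure_biUnion_finset_le _ _
    _ ≤ ∑ v ∈ V.toFinset, (2⁻¹ : ENNReal) ^ m := Finset.sum_le_sum fun v _ => sel_word f m v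
    _ = mu fair (E m V) := by
        rw [fair_E, Finset.sum_const, nsmul_eq_mul, Set.toFinset_card]

/-- The property `Q n`: everything reached in `n` steps is KL-stochastic. -/
private def s2Q : ℕ → (ℕ → Bool) → Prop
  | 0 => KLStochastic
  | n + 1 => fun X => ∀ B, Step X B → s2Q n B

private theorem s2_zero : ∀ᵐ X ∂(mu fair), KLStochastic X := by
  have hp : Tendsto (fun n => (fair n : ℝ)) atTop (nhds (1 / 2)) := tendsto_const_nhds
  filter_upwards [ae_KL fair hp] with X hX f hf B hB
  obtain ⟨pos, sel, hrun, hinj, hinf, hB⟩ := hB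
  have h := hX f hf pos sel hrun hinj hinf
  unfold LLN
  refine h.congr fun m => ?_
  congr 2
  congr 1
  refine Finset.filter_congr fun j _ => ?_
  rw [hB]

private theorem s2_step (Q : (ℕ → Bool) → Prop) (hQ : ∀ᵐ X ∂(mu fair), Q X) :
    ∀ᵐ X ∂(mu fair), ∀ B, Step X B → Q B := by
  have h : ∀ᵐ X ∂(mu fair), ∀ f ∈ {f : List Bool →. ℕ × Bool | Partrec f}, ∀ B, Sel f X B → Q B := by
    refine (ae_ball_iff countable_rules).2 fun f _ => ?_
    have h1 := sel_null f {X | ¬ Q X} (ae_iff.1 hQ)
    rw [ae_iff]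
    refine measure_mono_null ?_ h1
    intro X hX
    rw [Set.mem_setOf_eq] at hX
    push Not at hX
    obtain ⟨B, hB, hQB⟩ := hX
    exact ⟨B, hQB, hB⟩
  filter_upwards [h] with X hX B hB
  obtain ⟨f, hf, hs⟩ := hB
  exact hX f hf B hs

private theorem s2_all (n : ℕ) : ∀ᵐ X ∂(mu fair), s2Q n X := by
  induction n with
  | zero => exact s2_zero
  | succ n ih => exact s2_step _ ih

private theorem s2_chain {X B : ℕ → Bool} (hB : Relation.ReflTransGen Step X B) :
    ∃ n, s2Q n X → KLStochastic B := by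
  induction hB using Relation.ReflTransGen.head_induction_on with
  | refl => exact ⟨0, fun h => h⟩
  | head hstep _ ih =>
    obtain ⟨n, hn⟩ := ih
    exact ⟨n + 1, fun h => hn (h _ hstep)⟩

/-- S4. Hereditary form (countably many rules: `H69K.countable_rules`; induction on the number of steps:
if `∀ᵐ X, Q X` then `∀ᵐ X, ∀ f, Partrec f → ∀ B, Sel f X B → Q B`; start with `H69K.ae_KL fair`, which is
`KLStochastic` after unfolding `KLf` and `Sel`). -/
theorem fair_hered :
    ∀ᵐ X ∂(mu fair), ∀ B : ℕ → Bool, Relation.ReflTransGen Step X B → KLStochastic B := by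
  filter_upwards [ae_all_iff.2 s2_all] with X hX B hB
  obtain ⟨n, hn⟩ := s2_chain hB
  exact hn (hX n)

end H48K
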