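import Pool.Agent.Lib.H48K.K
import Pool.Agent.Lib.H48K.S2
import Pool.Agent.Lib.H48K.C2
import Pool.Agent.Lib.H48K.P6
import Pool.Agent.Lib.H48K.R2
import Pool.Agent.Lib.H48K.G2
import Pool.Agent.Lib.H48K.G3
import Pool.Agent.Lib.H48K.G5

/-!
# H48K, chunk F: the dichotomy
-/

open MeasureTheory Set Filter H69K

namespace H48K

variable {a b s t M L : ℕ → ℕ} {p : ℕ → unitInterval}

/-- G4. Almost surely the decision is the header for all large `n` (Borel-Cantelli). -/
theorem ae_dec (hP : Plan a b s t M L) (hb0 : ∀ n, 0 < b n)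
    (hp : ∀ n, (p n : ℝ) = (a n : ℝ) / b n) :
    ∀ᵐ X ∂(mu p), ∀ᶠ n in atTop, D a b s t M L X n = X (s n) := by
  have hsum : ∑' n : ℕ, ENNReal.ofReal (Real.exp (-((n : ℝ) + 1))) ≠ ⊤ := by
    have h2 : Summable fun n : ℕ => Real.exp (-((n : ℝ) + 1)) := by
      have h3 : (fun n : ℕ => Real.exp (-((n : ℝ) + 1))) =
          fun n : ℕ => Real.exp (-1) * Real.exp (-1) ^ n := by
        funext n
        rw [← Real.exp_nat_mul, ← Real.exp_add]
        congr 1
        ring
      rw [h3]
      apply Summable.mul_left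
      apply summable_geometric_of_lt_one (Real.exp_pos _).le
      rw [Real.exp_lt_one_iff]
      norm_num
    rw [← ENNReal.ofReal_tsum_of_nonneg (fun m => (Real.exp_pos _).le) h2]
    exact ENNReal.ofReal_ne_top
  have e1 : ∑' n : ℕ, mu p {X | dec a b (M n) (s n + 1) (L n) (fun i => X (s n + 1 + i)) = false} ≤
      ∑' n : ℕ, ENNReal.ofReal (Real.exp (-((n : ℝ) + 1))) :=
    ENNReal.tsum_le_tsum fun n => err1 hP hb0 hp n
  have e2 : ∑' n : ℕ, mu p {X | dec a b (M n) (s n + 1) (L n) (fun i => X (t n + i)) = true} ≤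
      ∑' n : ℕ, ENNReal.ofReal (Real.exp (-((n : ℝ) + 1))) :=
    ENNReal.tsum_le_tsum fun n => err2 hP hb0 hp n
  have h1 := ae_eventually_notMem (ne_top_of_le_ne_top hsum e1)
  have h2 := ae_eventually_notMem (ne_top_of_le_ne_top hsum e2)
  filter_upwards [h1, h2] with X hX1 hX2
  filter_upwards [hX1, hX2] with n hn1 hn2
  unfold D
  cases hx : X (s n) with
  | true =>
    have h3 : reg s t X n = fun i => X (s n + 1 + i) := by
      funext i
      unfold reg
      rw [if_pos hx]
    rw [h3]
    by_contra hcon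
    rw [Bool.not_eq_true] at hcon
    exact hn1 hcon
  | false =>
    have h3 : reg s t X n = fun i => X (t n + i) := by
      funext i
      unfold reg
      rw [if_neg (by rw [hx]; exact Bool.false_ne_true)]
    rw [h3]
    by_contra hcon
    rw [Bool.not_eq_false] at hcon
    exact hn2 hcon

theorem kl_iff (X : ℕ → Bool) :
    KLStochastic X ↔ ∀ f : List Bool →. ℕ × Bool, Partrec f → KLf f X := by
  constructor
  · intro h f hf pos sel hrun hinj hinf
    exact h f hf _ ⟨pos, sel, hrun, hinj, hinf, fun _ => rfl⟩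
  · rintro h f hf B ⟨pos, sel, hrun, hinj, hinf, hB⟩
    have h1 := h f hf pos sel hrun hinj hinf
    have h2 : B = fun j => X (pos (Nat.nth (fun k => sel k = true) j)) := funext hB
    rw [h2]
    exact h1

/-- Almost surely infinitely many headers are `true` (the rule `v ↦ (s v.length, true)`). -/
theorem ae_headers (hlim : Tendsto (fun n => (p n : ℝ)) atTop (nhds (1 / 2)))
    (hinj : Function.Injective s) :
    ∀ᵐ X ∂(mu p), Set.Infinite {n | X (s n) = true} := by
  filter_upwards [ae_KLf p hlim (fun v => Part.some (s v.length, true))] with X hX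
  have h1 := hX s (fun _ => true) (fun k => by simp) hinj (by simpa using Set.infinite_univ)
  have h2 : ∀ j, Nat.nth (fun k : ℕ => (fun _ : ℕ => true) k = true) j = j := by
    intro j
    have : (fun k : ℕ => (fun _ : ℕ => true) k = true) = fun _ => True := by
      funext k
      simp
    rw [this]
    exact Nat.nth_true j
  by_contra hfin
  rw [Set.not_infinite] at hfin
  obtain ⟨N, hN⟩ := hfin.bddAbove
  have h3 : ∀ m : ℕ, (((Finset.range m).filter
      (fun j => X (s (Nat.nth (fun k : ℕ => (fun _ : ℕ => true) k = true) j)) = true)).card : ℝ) ≤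
        (N : ℝ) + 1 := by
    intro m
    have h4 : (Finset.range m).filter
        (fun j => X (s (Nat.nth (fun k : ℕ => (fun _ : ℕ => true) k = true) j)) = true) ⊆
          Finset.range (N + 1) := by
      intro j hj
      rw [Finset.mem_filter, h2] at hj
      rw [Finset.mem_range]
      have := hN hj.2
      omega
    have h5 := Finset.card_le_card h4
    rw [Finset.card_range] at h5
    exact_mod_cast h5
  have h4 : Tendsto (fun m : ℕ => ((N : ℝ) + 1) / (m : ℝ)) atTop (nhds 0) :=
    tendsto_const_div_atTop_nhds_zero_nat _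
  have h5 := le_of_tendsto_of_tendsto' h1 h4 fun m => by
    by_cases hm : m = 0
    · subst hm
      simp
    · exact div_le_div_of_nonneg_right (h3 m) (Nat.cast_nonneg m)
  norm_num at h5

theorem dichotomy (ha : Computable a) (hb : Computable b) (hab : ∀ n, a n ≤ b n)
    (hb0 : ∀ n, 0 < b n) (hp : ∀ n, (p n : ℝ) = (a n : ℝ) / b n)
    (hlim : Tendsto (fun n => (p n : ℝ)) atTop (nhds (1 / 2))) :
    (∀ᵐ X ∂(mu p), KLStochastic X) ∧
    ((Summable fun n => ((p n : ℝ) - 1 / 2) ^ 2) →
      ∀ᵐ X ∂(mu p), ∀ B : ℕ → Bool, Relation.ReflTransGen Step X B → KLStochastic B) ∧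
    ((¬ Summable fun n => ((p n : ℝ) - 1 / 2) ^ 2) →
      ∃ f g : List Bool → ℕ × Bool, Computable f ∧ Computable g ∧
        (∀ v x, (f v).2 = true ∧ (f v).1 < (f (v ++ [x])).1) ∧
        ∀ᵐ X ∂(mu p), ∃ B C : ℕ → Bool, Sel (fun v => Part.some (f v)) X B ∧
          Sel (fun v => Part.some (g v)) B C ∧ ∀ᶠ j in atTop, C j = true) := by
  refine ⟨?_, ?_, ?_⟩
  · filter_upwards [ae_KL p hlim] with X hX
    exact (kl_iff X).2 hX
  · intro hsum
    exact (ac_fair p hsum).ae_le fair_hered
  · intro hns
    have hp' : (fun n => (p n : ℝ)) = fun n => (a n : ℝ) / b n := funext hp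
    have hlim' : Tendsto (fun n => (a n : ℝ) / b n) atTop (nhds (1 / 2)) := by
      rw [← hp']
      exact hlim
    have hns' : ¬ Summable fun n => ((a n : ℝ) / b n - 1 / 2) ^ 2 := by
      have : (fun n => ((a n : ℝ) / b n - 1 / 2) ^ 2) = fun n => ((p n : ℝ) - 1 / 2) ^ 2 := by
        funext n
        rw [hp]
      rw [this]
      exact hns
    obtain ⟨s, t, M, L, hs, ht, hM, hL, hP⟩ := exists_plan ha hb hab hb0 hlim' hns'
    refine ⟨f1 s t L, f2 a b s M L, computable_f1 hs ht hL, computable_f2 ha hb hs hM hL,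
      fun v x => ⟨f1_sel v, f1_mono hP v x⟩, ?_⟩
    have hmono : StrictMono s := by
      apply strictMono_nat_of_lt_succ
      intro n
      have h1 := hP.le n
      have h2 := hP.succ n
      omega
    filter_upwards [ae_dec hP hb0 hp, ae_headers (s := s) hlim hmono.injective] with X hX1 hX2
    have hinf : Set.Infinite {n | D a b s t M L X n = true} := by
      intro hfin
      apply hX2
      obtain ⟨N, hN⟩ := eventually_atTop.1 hX1
      refine (hfin.union (Set.finite_lt_nat N)).subset ?_
      intro n hn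
      by_cases h : n < N
      · exact Or.inr h
      · left
        have h1 := hN n (not_lt.1 h)
        show D a b s t M L X n = true
        rw [h1]
        exact hn
    obtain ⟨C, hC1, hC2⟩ := sel_f2 hP X hinf hX1
    exact ⟨BB s t L X, C, sel_f1 hP X, hC1, hC2⟩

end H48K
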