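import Pool.Agent.Lib.H48K.Defs2

/-!
# H48K, chunk H1: computable block starts for a given order function
-/

open Filter

namespace H48K

private theorem H1_search {α : Type*} [Primcodable α] {c : α → ℕ → Bool} (hc : Computable₂ c)
    (h : ∀ x, ∃ n, c x n = true) : ∃ g : α → ℕ, Computable g ∧ ∀ x, c x (g x) = true := by
  refine ⟨fun x => Nat.find (h x), ?_, fun x => Nat.find_spec (h x)⟩
  have h1 : Partrec fun x : α => Nat.rfind fun n => Part.some (c x n) := Partrec.rfind hc.partrec₂
  refine h1.of_eq_tot fun x => Nat.mem_rfind.2 ⟨?_, fun {m} hm => ?_⟩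
  · rw [Nat.find_spec (h x)]
    exact Part.mem_some _
  · have h2 := Nat.find_min (h x) hm
    rw [Bool.not_eq_true] at h2
    rw [h2]
    exact Part.mem_some _

private theorem H1_pow {α : Type*} [Primcodable α] {f : α → ℕ} (hf : Computable f) :
    Computable fun x => 2 ^ f x := by
  have h : Computable fun x : α => Nat.rec (motive := fun _ => ℕ) 1 (fun y IH => 2 * IH) (f x) := by
    refine Computable.nat_rec (h := fun _ q => 2 * q.2) hf (Computable.const 1) ?_
    exact Primrec.nat_mul.to_comp.comp (Computable.const 2) (Computable.snd.comp Computable.snd)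
  refine h.of_eq fun x => ?_
  induction f x with
  | zero => rfl
  | succ n ih =>
    show 2 * _ = 2 ^ (n + 1)
    rw [ih, pow_succ, mul_comm]

/-- H1. `I 0` = the first `x` with `2 ≤ h x`, `I (k+1)` = the first `x ≥ I k + (k+1)^2` with `2^(k+2) ≤ h x`
(`Partrec.rfind`, `Computable.nat_rec`; compare `Lib/H48K/P6.lean`, which is proved). -/
theorem exists_starts (h : ℕ → ℕ) (hc : Computable h) (hu : Tendsto h atTop atTop) :
    ∃ I : ℕ → ℕ, Computable I ∧ Starts h I := by
  classical
  have c1 : Computable₂ fun (p : ℕ × ℕ) (x : ℕ) =>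
      decide (p.2 ≤ x) && decide (2 ^ (p.1 + 1) ≤ h x) := by
    have x1 : Computable fun z : (ℕ × ℕ) × ℕ => z.1.1 := Computable.fst.comp Computable.fst
    have x2 : Computable fun z : (ℕ × ℕ) × ℕ => z.1.2 := Computable.snd.comp Computable.fst
    have x3 : Computable fun z : (ℕ × ℕ) × ℕ => z.2 := Computable.snd
    have y1 : Computable fun z : (ℕ × ℕ) × ℕ => decide (z.1.2 ≤ z.2) :=
      Primrec.nat_le.decide.to_comp.comp x2 x3
    have y2 : Computable fun z : (ℕ × ℕ) × ℕ => decide (2 ^ (z.1.1 + 1) ≤ h z.2) :=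
      Primrec.nat_le.decide.to_comp.comp
        (H1_pow (Primrec.nat_add.to_comp.comp x1 (Computable.const 1))) (hc.comp x3)
    exact Primrec.and.to_comp.comp y1 y2
  obtain ⟨g, hg, hg'⟩ := H1_search c1 (by
    rintro ⟨k, σ⟩
    obtain ⟨x, hx1, hx2⟩ := ((hu.eventually_ge_atTop (2 ^ (k + 1))).and (eventually_ge_atTop σ)).exists
    exact ⟨x, by simp [hx1, hx2]⟩)
  have hg2 : ∀ k σ, σ ≤ g (k, σ) ∧ 2 ^ (k + 1) ≤ h (g (k, σ)) := by
    intro k σ
    have := hg' (k, σ)
    simpa using this
  let I : ℕ → ℕ := fun n => Nat.rec (motive := fun _ => ℕ) (g (0, 0))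
    (fun y IH => g (y + 1, IH + (y + 1) * (y + 1))) n
  have hI : Computable I := by
    refine Computable.nat_rec (h := fun _ q => g (q.1 + 1, q.2 + (q.1 + 1) * (q.1 + 1)))
      Computable.id (Computable.const _) ?_
    have z1 : Computable fun p : ℕ × (ℕ × ℕ) => p.2.1 + 1 :=
      Primrec.nat_add.to_comp.comp (Computable.fst.comp Computable.snd) (Computable.const 1)
    have z2 : Computable fun p : ℕ × (ℕ × ℕ) => p.2.2 + (p.2.1 + 1) * (p.2.1 + 1) :=
      Primrec.nat_add.to_comp.comp (Computable.snd.comp Computable.snd)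
        (Primrec.nat_mul.to_comp.comp z1 z1)
    exact hg.comp (z1.pair z2)
  refine ⟨I, hI, ⟨fun k => ?_, fun k => ?_⟩⟩
  · show I k + (k + 1) ^ 2 ≤ g (k + 1, I k + (k + 1) * (k + 1))
    have := (hg2 (k + 1) (I k + (k + 1) * (k + 1))).1
    rw [sq]
    exact this
  · cases k with
    | zero => exact (hg2 0 0).2
    | succ k => exact (hg2 (k + 1) (I k + (k + 1) * (k + 1))).2

end H48K
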