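import Pool.Agent.Lib.H48K.Defs2
import Pool.Agent.Lib.H48K.C

/-!
# H48K, chunk H2: the numerators and denominators are computable
-/

open Filter

namespace H48K

theorem computable_KK {I : ℕ → ℕ} (hI : Computable I) : Computable (KK I) := by
  have hF : Computable₂ (fun (n : ℕ) (k : ℕ) => if I k ≤ n then 1 else 0) := by
    have h1 : Computable (fun q : ℕ × ℕ => decide (I q.2 ≤ q.1)) :=
      (Primrec.nat_le.decide.to_comp.comp (hI.comp Computable.snd) Computable.fst)
    have h2 : Computable (fun q : ℕ × ℕ => bif decide (I q.2 ≤ q.1) then (1 : ℕ) else 0) :=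
      Computable.cond h1 (Computable.const 1) (Computable.const 0)
    have h3 : Computable (fun q : ℕ × ℕ => if I q.2 ≤ q.1 then (1 : ℕ) else 0) := by
      refine h2.of_eq fun q => ?_
      by_cases h : I q.2 ≤ q.1 <;> simp [h]
    exact h3.to₂
  have h4 := computable_sum hF Computable.succ
  refine h4.of_eq fun k => ?_
  unfold KK
  rw [Finset.card_filter]

theorem H2_cases {I : ℕ → ℕ} (hI : Computable I) {z1 z2 : ℕ} {f : ℕ → ℕ} (hf : Computable f) :
    Computable (fun n => if KK I n = 0 then z1 else
      if n < I (KK I n - 1) + KK I n ^ 2 then f (KK I n) else z2) := by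
  have hK := computable_KK hI
  have hI1 : Computable (fun n => I (KK I n - 1)) :=
    hI.comp (Primrec.nat_sub.to_comp.comp hK (Computable.const 1))
  have hs : Computable (fun n => I (KK I n - 1) + KK I n * KK I n) :=
    Primrec.nat_add.to_comp.comp hI1 (Primrec.nat_mul.to_comp.comp hK hK)
  have hc1 : Computable (fun n => decide (KK I n = 0)) :=
    Primrec.eq.decide.to_comp.comp hK (Computable.const 0)
  have hc2 : Computable (fun n => decide (n < I (KK I n - 1) + KK I n * KK I n)) :=
    Primrec.nat_lt.decide.to_comp.comp Computable.id hs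
  have h := Computable.cond hc1 (Computable.const z1)
    (Computable.cond hc2 (hf.comp hK) (Computable.const z2))
  refine h.of_eq fun n => ?_
  rw [pow_two]
  by_cases hA : KK I n = 0
  · rw [if_pos hA, decide_eq_true hA]
    rfl
  · rw [if_neg hA, decide_eq_false hA]
    by_cases hB : n < I (KK I n - 1) + KK I n * KK I n
    · rw [if_pos hB, decide_eq_true hB]
      rfl
    · rw [if_neg hB, decide_eq_false hB]
      rfl

theorem computable_aa {I : ℕ → ℕ} (hI : Computable I) : Computable (aa I) := by
  have hf : Computable (fun k : ℕ => 2 * k + 1) :=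
    Computable.succ.comp (Primrec.nat_mul.to_comp.comp (Computable.const 2) Computable.id)
  exact H2_cases hI hf

theorem computable_bb {I : ℕ → ℕ} (hI : Computable I) : Computable (bb I) := by
  have hf : Computable (fun k : ℕ => 4 * k) :=
    Primrec.nat_mul.to_comp.comp (Computable.const 4) Computable.id
  exact H2_cases hI hf

end H48K
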