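import Pool.Agent.Lib.H48K.H3

/-!
# H48K, chunk H4: the product of the blocks is at most the order function
-/

open Filter

namespace H48K

private theorem h4_fac {h I : ℕ → ℕ} (hI : Starts h I) {k i : ℕ} (h1 : I k ≤ i)
    (h2 : i < I (k + 1)) :
    1 + 4 * ((aa I i : ℝ) / bb I i - 1 / 2) ^ 2 =
      if i < I k + (k + 1) ^ 2 then 1 + 1 / (4 * ((k : ℝ) + 1) ^ 2) else 1 := by
  have hK : KK I i = k + 1 := KK_eq hI h1 h2
  unfold aa bb
  rw [hK, if_neg (Nat.succ_ne_zero k), if_neg (Nat.succ_ne_zero k), Nat.add_sub_cancel]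
  split_ifs with h3
  · have hk : (0 : ℝ) < (k : ℝ) + 1 := by positivity
    push_cast
    field_simp
    ring
  · norm_num

private theorem h4_zero {h I : ℕ → ℕ} (hI : Starts h I) {i : ℕ} (h1 : i < I 0) :
    1 + 4 * ((aa I i : ℝ) / bb I i - 1 / 2) ^ 2 = 1 := by
  have hK : KK I i = 0 := KK_zero hI h1
  unfold aa bb
  rw [if_pos hK, if_pos hK]
  norm_num

private theorem h4_exp (N : ℕ) (hN : 0 < N) : (1 + 1 / (4 * (N : ℝ))) ^ N ≤ 2 := by
  have hN' : (0 : ℝ) < N := by exact_mod_cast hN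
  have h1 : 1 + 1 / (4 * (N : ℝ)) ≤ Real.exp (1 / (4 * (N : ℝ))) := by
    have := Real.add_one_le_exp (1 / (4 * (N : ℝ)))
    linarith
  have h2 : (1 + 1 / (4 * (N : ℝ))) ^ N ≤ Real.exp (1 / (4 * (N : ℝ))) ^ N :=
    pow_le_pow_left₀ (by positivity) h1 N
  have h3 : Real.exp (1 / (4 * (N : ℝ))) ^ N = Real.exp (1 / 4) := by
    rw [← Real.exp_nat_mul]
    congr 1
    field_simp
  have h4 : Real.exp (1 / 4) ≤ 2 := by
    have h5 := Real.one_sub_le_exp_neg (1 / 4)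
    have h6 : Real.exp (-(1 / 4)) * Real.exp (1 / 4) = 1 := by
      rw [← Real.exp_add]
      norm_num
    have h7 : (0 : ℝ) < Real.exp (1 / 4) := Real.exp_pos _
    nlinarith
  calc (1 + 1 / (4 * (N : ℝ))) ^ N ≤ Real.exp (1 / (4 * (N : ℝ))) ^ N := h2
    _ = Real.exp (1 / 4) := h3
    _ ≤ 2 := h4

private theorem h4_block {h I : ℕ → ℕ} (hI : Starts h I) {k n : ℕ} (h1 : I k ≤ n)
    (h2 : n ≤ I (k + 1)) :
    ∏ i ∈ Finset.Ico (I k) n, (1 + 4 * ((aa I i : ℝ) / bb I i - 1 / 2) ^ 2) ≤ 2 := by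
  have e1 : ∏ i ∈ Finset.Ico (I k) n, (1 + 4 * ((aa I i : ℝ) / bb I i - 1 / 2) ^ 2) =
      ∏ i ∈ Finset.Ico (I k) n,
        (if i < I k + (k + 1) ^ 2 then 1 + 1 / (4 * ((k : ℝ) + 1) ^ 2) else 1) := by
    refine Finset.prod_congr rfl fun i hi => ?_
    obtain ⟨h3, h4⟩ := Finset.mem_Ico.1 hi
    exact h4_fac hI h3 (h4.trans_le h2)
  rw [e1, Finset.prod_ite, Finset.prod_const, Finset.prod_const_one, mul_one]
  have hc : ((Finset.Ico (I k) n).filter fun i => i < I k + (k + 1) ^ 2).card ≤ (k + 1) ^ 2 := by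
    calc ((Finset.Ico (I k) n).filter fun i => i < I k + (k + 1) ^ 2).card
        ≤ (Finset.Ico (I k) (I k + (k + 1) ^ 2)).card := by
          refine Finset.card_le_card fun i hi => ?_
          obtain ⟨h3, h4⟩ := Finset.mem_filter.1 hi
          exact Finset.mem_Ico.2 ⟨(Finset.mem_Ico.1 h3).1, h4⟩
      _ = (k + 1) ^ 2 := by
          rw [Nat.card_Ico, Nat.add_sub_cancel_left]
  have h5 : (1 : ℝ) ≤ 1 + 1 / (4 * ((k : ℝ) + 1) ^ 2) := by
    have : (0 : ℝ) ≤ 1 / (4 * ((k : ℝ) + 1) ^ 2) := by positivity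
    linarith
  have h6 := h4_exp ((k + 1) ^ 2) (by positivity)
  push_cast at h6
  exact (pow_le_pow_right₀ h5 hc).trans h6

private theorem h4_split {I : ℕ → ℕ} {k n : ℕ} (h1 : I k ≤ n) (p : ℕ → ℝ) :
    QQ p n = QQ p (I k) * ∏ i ∈ Finset.Ico (I k) n, (1 + 4 * (p i - 1 / 2) ^ 2) := by
  unfold QQ
  rw [Finset.prod_range_mul_prod_Ico _ h1]

private theorem h4_QQ_nonneg (p : ℕ → ℝ) (n : ℕ) : 0 ≤ QQ p n :=
  Finset.prod_nonneg fun i _ => by positivity

private theorem h4_start {h I : ℕ → ℕ} (hI : Starts h I) (k : ℕ) :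
    QQ (fun n => (aa I n : ℝ) / bb I n) (I k) ≤ 2 ^ k := by
  induction k with
  | zero =>
    unfold QQ
    rw [Finset.prod_congr rfl fun i hi => h4_zero hI (Finset.mem_range.1 hi), Finset.prod_const_one,
      pow_zero]
  | succ k ih =>
    have h1 : I k ≤ I (k + 1) := (Nat.le_add_right _ _).trans (hI.gap k)
    rw [h4_split (k := k) h1, pow_succ]
    exact mul_le_mul ih (h4_block hI h1 le_rfl)
      (Finset.prod_nonneg fun i _ => by positivity) (by positivity)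

/-- H4. For `I k < n ≤ I (k+1)` the product is at most `2^(k+1)` (every block contributes at most
`(1 + 1/(4 (k+1)^2))^((k+1)^2) ≤ exp (1/4) ≤ 2`; all other factors are `1`), and `2^(k+1) ≤ h (I k) ≤ h n`. -/
theorem QQ_le {h I : ℕ → ℕ} (hm : Monotone h) (hI : Starts h I) {n : ℕ} (hn : I 0 < n) :
    QQ (fun n => (aa I n : ℝ) / bb I n) n ≤ h n := by
  have hk : ∀ k, k ≤ I k := by
    intro k
    induction k with
    | zero => exact Nat.zero_le _
    | succ k ih =>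
      have h1 := hI.gap k
      have h2 : 1 ≤ (k + 1) ^ 2 := Nat.one_le_pow _ _ (Nat.succ_pos k)
      omega
  have hex : ∃ k, n ≤ I (k + 1) := ⟨n, (Nat.le_succ n).trans (hk (n + 1))⟩
  classical
  obtain ⟨k, hk1, hk2⟩ : ∃ k, I k < n ∧ n ≤ I (k + 1) := by
    refine ⟨Nat.find hex, ?_, Nat.find_spec hex⟩
    rcases Nat.eq_zero_or_pos (Nat.find hex) with h0 | h0
    · rw [h0]
      exact hn
    · have h1 := Nat.find_min hex (Nat.sub_lt h0 Nat.one_pos)
      rw [Nat.sub_add_cancel h0] at h1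
      exact not_le.1 h1
  have h1 : QQ (fun n => (aa I n : ℝ) / bb I n) n ≤ 2 ^ k * 2 := by
    rw [h4_split (k := k) hk1.le]
    exact mul_le_mul (h4_start hI k) (h4_block hI hk1.le hk2)
      (Finset.prod_nonneg fun i _ => by positivity) (by positivity)
  have h2 : 2 ^ (k + 1) ≤ h n := (hI.big k).trans (hm hk1.le)
  have h3 : (2 : ℝ) ^ k * 2 = ((2 ^ (k + 1) : ℕ) : ℝ) := by
    push_cast
    ring
  rw [h3] at h1
  exact h1.trans (by exact_mod_cast h2)

end H48K
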