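import Pool.Agent.Lib.H48K.V1

/-!
# H48K, chunk V2: fair supermartingales along sequences random for a product measure
-/

open MeasureTheory Set Filter H69K

namespace H48K

/-- The likelihood ratio, for reversed lists. -/
private noncomputable def lk (p : ℕ → unitInterval) : List Bool → ℝ
  | [] => 1
  | b :: r => lk p r * (2 * q (p r.length) b)

private theorem q_pos (p : ℕ → unitInterval) (hp : ∀ n, 0 < (p n : ℝ) ∧ (p n : ℝ) < 1) (n : ℕ) (b : Bool) :
    0 < q (p n) b := by
  unfold q
  have h := hp n
  cases b
  · simp only [Bool.false_eq_true, if_false]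
    linarith [h.2]
  · simp only [if_true]
    exact h.1

private theorem lk_pos (p : ℕ → unitInterval) (hp : ∀ n, 0 < (p n : ℝ) ∧ (p n : ℝ) < 1) (r : List Bool) :
    0 < lk p r := by
  induction r with
  | nil => exact one_pos
  | cons b r ih => exact mul_pos ih (mul_pos two_pos (q_pos p hp _ b))

private theorem QQ_pos (p : ℕ → ℝ) (n : ℕ) : 0 < QQ p n := by
  unfold QQ
  exact Finset.prod_pos fun i _ => by positivity

private theorem hist_len (X : ℕ → Bool) (k : ℕ) : (hist List.length X k).reverse = pre X k := by
  induction k with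
  | zero => rfl
  | succ k ih =>
    rw [hist, List.reverse_cons, ih, length_hist]
    unfold pre
    rw [List.ofFn_succ_last]
    rfl

/-- V2. Proof: `ville` for `M1 r = d r.reverse / lk r` and for `M2 r = lk r / QQ p r.length`, where
`lk [] = 1`, `lk (b :: r) = lk r * (2 * q (p r.length) b) > 0`:
`q lk' = ..`: the first is a supermartingale since `∑_b q d(..b) / (lk * 2 q) = ∑_b d(..b) / (2 lk)`, the second is a
martingale since `2 p^2 + 2 (1-p)^2 = 1 + 4 (p - 1/2)^2`. -/
theorem super_bound (p : ℕ → unitInterval) (hp : ∀ n, 0 < (p n : ℝ) ∧ (p n : ℝ) < 1)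
    (d : List Bool → ℝ) (hd : SuperM d) :
    ∀ᵐ X ∂(mu p), ∃ C : ℝ, ∀ n, d (pre X n) ≤ C * QQ (fun n => (p n : ℝ)) n := by
  have h1 := ville p (fun r => d r.reverse / lk p r)
    (fun r => div_nonneg (hd.1 _) (lk_pos p hp r).le) (by
      intro r
      have hl := lk_pos p hp r
      have hq1 := q_pos p hp r.length true
      have hq0 := q_pos p hp r.length false
      have e1 : q (p r.length) true * (d (true :: r).reverse / lk p (true :: r)) =
          d (r.reverse ++ [true]) / (2 * lk p r) := by
        rw [List.reverse_cons, lk]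
        field_simp
      have e0 : q (p r.length) false * (d (false :: r).reverse / lk p (false :: r)) =
          d (r.reverse ++ [false]) / (2 * lk p r) := by
        rw [List.reverse_cons, lk]
        field_simp
      show q (p r.length) true * (d (true :: r).reverse / lk p (true :: r)) +
        q (p r.length) false * (d (false :: r).reverse / lk p (false :: r)) ≤ d r.reverse / lk p r
      rw [e1, e0, ← add_div, div_le_div_iff₀ (by positivity) hl]
      have h := hd.2 r.reverse
      calc (d (r.reverse ++ [true]) + d (r.reverse ++ [false])) * lk p r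
          ≤ (2 * d r.reverse) * lk p r := mul_le_mul_of_nonneg_right h hl.le
        _ = d r.reverse * (2 * lk p r) := by ring)
  have h2 := ville p (fun r => lk p r / QQ (fun n => (p n : ℝ)) r.length)
    (fun r => div_nonneg (lk_pos p hp r).le (QQ_pos _ _).le) (by
      intro r
      have hl := lk_pos p hp r
      have hQ := QQ_pos (fun n => (p n : ℝ)) r.length
      have hQs : QQ (fun n => (p n : ℝ)) (r.length + 1) =
          QQ (fun n => (p n : ℝ)) r.length * (1 + 4 * ((p r.length : ℝ) - 1 / 2) ^ 2) := by
        unfold QQ
        rw [Finset.prod_range_succ]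
      have hc : (0 : ℝ) < 1 + 4 * ((p r.length : ℝ) - 1 / 2) ^ 2 := by positivity
      have hq1 : q (p r.length) true = (p r.length : ℝ) := by
        unfold q
        simp
      have hq0 : q (p r.length) false = 1 - (p r.length : ℝ) := by
        unfold q
        simp
      show q (p r.length) true * (lk p (true :: r) / QQ (fun n => (p n : ℝ)) (true :: r).length) +
        q (p r.length) false * (lk p (false :: r) / QQ (fun n => (p n : ℝ)) (false :: r).length) ≤
          lk p r / QQ (fun n => (p n : ℝ)) r.length
      rw [List.length_cons, List.length_cons, lk, lk, hQs, hq1, hq0]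
      apply le_of_eq
      field_simp
      ring)
  filter_upwards [h1, h2] with X hX1 hX2
  obtain ⟨C1, hC1⟩ := hX1
  obtain ⟨C2, hC2⟩ := hX2
  refine ⟨C1 * C2, fun n => ?_⟩
  have hl := lk_pos p hp (hist List.length X n)
  have hQ := QQ_pos (fun n => (p n : ℝ)) n
  have a0 : 0 ≤ C1 := by
    have h := hC1 0
    exact le_trans (div_nonneg (hd.1 _) (lk_pos p hp _).le) h
  have a1 : d (pre X n) ≤ C1 * lk p (hist List.length X n) := by
    have h := hC1 n
    rw [div_le_iff₀ hl, hist_len] at h
    exact h
  have a2 : lk p (hist List.length X n) ≤ C2 * QQ (fun n => (p n : ℝ)) n := by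
    have h := hC2 n
    rw [length_hist, div_le_iff₀ hQ] at h
    exact h
  calc d (pre X n) ≤ C1 * lk p (hist List.length X n) := a1
    _ ≤ C1 * (C2 * QQ (fun n => (p n : ℝ)) n) := mul_le_mul_of_nonneg_left a2 a0
    _ = C1 * C2 * QQ (fun n => (p n : ℝ)) n := by ring

end H48K
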