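import Pool.Agent.Lib.H48K.F
import Pool.Agent.Lib.H48K.V2
import Pool.Agent.Lib.H48K.H1
import Pool.Agent.Lib.H48K.H2
import Pool.Agent.Lib.H48K.H4

/-!
# H48K, chunk F2: failures of the closure near randomness
-/

open MeasureTheory Set Filter H69K

namespace H48K

/-- For every computable order function `h` there are two total computable rules such that for every
countable family of supermartingales some KL-stochastic sequence, on which every supermartingale of
the family is eventually at most `h`, is turned by the two rules into an eventually constant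
sequence. -/
theorem close (h : ℕ → ℕ) (hc : Computable h) (hm : Monotone h) (hu : Tendsto h atTop atTop) :
    ∃ f g : List Bool → ℕ × Bool, Computable f ∧ Computable g ∧
      (∀ v x, (f v).2 = true ∧ (f v).1 < (f (v ++ [x])).1) ∧
      ∀ d : ℕ → List Bool → ℝ, (∀ i, SuperM (d i)) →
        ∃ X : ℕ → Bool, KLStochastic X ∧ (∀ i, ∀ᶠ n in atTop, d i (pre X n) ≤ h n) ∧
          ∃ B C : ℕ → Bool, Sel (fun v => Part.some (f v)) X B ∧
            Sel (fun v => Part.some (g v)) B C ∧ ∀ᶠ j in atTop, C j = true := by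
  have hc' : Computable fun n => Nat.sqrt (h n) := Primrec.nat_sqrt.to_comp.comp hc
  have hm' : Monotone fun n => Nat.sqrt (h n) := fun x y hxy => Nat.sqrt_le_sqrt (hm hxy)
  have hu' : Tendsto (fun n => Nat.sqrt (h n)) atTop atTop := by
    rw [tendsto_atTop]
    intro b
    filter_upwards [tendsto_atTop.1 hu (b * b)] with n hn
    exact Nat.le_sqrt.2 hn
  obtain ⟨I, hI, hS⟩ := exists_starts _ hc' hu'
  have hbpos : ∀ n, 0 < bb I n := fun n => lt_trans (aa_pos I n) (aa_lt I n)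
  have hq0 : ∀ n, 0 < (aa I n : ℝ) / bb I n := fun n =>
    div_pos (Nat.cast_pos.2 (aa_pos I n)) (Nat.cast_pos.2 (hbpos n))
  have hq1 : ∀ n, (aa I n : ℝ) / bb I n < 1 := fun n => by
    rw [div_lt_one (Nat.cast_pos.2 (hbpos n))]
    exact_mod_cast aa_lt I n
  let p : ℕ → unitInterval := fun n => ⟨(aa I n : ℝ) / bb I n, (hq0 n).le, (hq1 n).le⟩
  have hp : ∀ n, (p n : ℝ) = (aa I n : ℝ) / bb I n := fun n => rfl
  have hlim : Tendsto (fun n => (p n : ℝ)) atTop (nhds (1 / 2)) := tendsto_ab hS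
  have hns : ¬ Summable fun n => ((p n : ℝ) - 1 / 2) ^ 2 := not_summable_ab hS
  obtain ⟨hst, -, h3⟩ := dichotomy (computable_aa hI) (computable_bb hI) (fun n => (aa_lt I n).le)
    hbpos hp hlim
  obtain ⟨f, g, hf, hg, hfm, hfg⟩ := h3 hns
  refine ⟨f, g, hf, hg, hfm, fun d hd => ?_⟩
  have hsup : ∀ᵐ X ∂(mu p), ∀ i, ∃ C : ℝ, ∀ n, d i (pre X n) ≤ C * QQ (fun n => (p n : ℝ)) n :=
    ae_all_iff.2 fun i => super_bound p (fun n => ⟨hq0 n, hq1 n⟩) (d i) (hd i)
  have hne : (mu p) ≠ 0 := IsProbabilityMeasure.ne_zero _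
  have hex := (hst.and (hfg.and hsup))
  have : (ae (mu p)).NeBot := ae_neBot.2 hne
  obtain ⟨X, hX1, hX2, hX3⟩ := hex.exists
  refine ⟨X, hX1, fun i => ?_, hX2⟩
  obtain ⟨C, hC⟩ := hX3 i
  obtain ⟨N, hN⟩ := exists_nat_ge C
  filter_upwards [tendsto_atTop.1 hu' N, eventually_gt_atTop (I 0)] with n h1 h2
  have h4 : QQ (fun n => (p n : ℝ)) n ≤ ((Nat.sqrt (h n) : ℕ) : ℝ) := QQ_le hm' hS h2
  have h5 : 0 ≤ QQ (fun n => (p n : ℝ)) n := by
    unfold QQ
    exact Finset.prod_nonneg fun i _ => by positivity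
  calc d i (pre X n) ≤ C * QQ (fun n => (p n : ℝ)) n := hC n
    _ ≤ (N : ℝ) * QQ (fun n => (p n : ℝ)) n := mul_le_mul_of_nonneg_right hN h5
    _ ≤ ((Nat.sqrt (h n) : ℕ) : ℝ) * ((Nat.sqrt (h n) : ℕ) : ℝ) := by
        apply mul_le_mul _ h4 h5 (Nat.cast_nonneg _)
        exact_mod_cast h1
    _ ≤ (h n : ℝ) := by exact_mod_cast Nat.sqrt_le (h n)

end H48K
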