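import Pool.Agent.Lib.H48K.Defs3

/-!
# H48K, chunk M1: the deviation event with local freshness
-/

open MeasureTheory Set Filter H69K

namespace H48K

private theorem m1_FF_of_le (p : ℕ → unitInterval) (g : List Bool → ℕ) (c : List Bool → Bool) (m : ℕ)
    (l : ℝ) (X : ℕ → Bool) (k : ℕ) (hX : ∀ i < k, g (hist g X i) ∉ used g (hist g X i))
    (hk : cnt c (hist g X k) ≤ m) :
    FF (phi p g c m l) (hist g X k) =
      l * DD p g c (hist g X k) - l ^ 2 * (cnt c (hist g X k) : ℝ) := by
  induction k with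
  | zero => simp [hist, FF, DD, cnt]
  | succ k ih =>
    have hfr := hX k (Nat.lt_succ_self k)
    rw [hist, FF, DD, cnt]
    rw [hist, cnt] at hk
    rw [ih (fun i hi => hX i (Nat.lt_succ_of_lt hi)) (by omega)]
    by_cases hc : c (hist g X k) = true
    · rw [if_pos hc] at hk
      rw [if_pos hc, if_pos hc]
      unfold phi
      rw [if_pos ⟨hfr, hc, by omega⟩]
      push_cast
      ring
    · rw [if_neg hc, if_neg hc]
      unfold phi
      rw [if_neg fun h => hc h.2.1]
      push_cast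
      ring

/-- M1. As `H69K.measure_Ev_le` (the proofs of `H69K.FF_of_le` and `H69K.FF_const` use the freshness only for the
steps before `K`). -/
theorem measure_EvL_le (p : ℕ → unitInterval) (g : List Bool → ℕ) (c : List Bool → Bool) (l : ℝ)
    (hl : |l| ≤ 1) (m : ℕ) :
    mu p (EvL p g c l m) ≤ ENNReal.ofReal (Real.exp (-(l ^ 2 * m))) := by
  set E : ℕ → Set (ℕ → Bool) := fun k => {X | l ^ 2 * m ≤ FF (phi p g c m l) (hist g X k)}
    with hE
  have h1 : EvL p g c l m ⊆ ⋃ K, ⋂ k ∈ Set.Ici K, E k := by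
    rintro X ⟨K, hK, hf, hD⟩
    rw [Set.mem_iUnion]
    refine ⟨K, ?_⟩
    rw [Set.mem_iInter₂]
    intro k hk
    show l ^ 2 * m ≤ FF (phi p g c m l) (hist g X k)
    rw [FF_const p g c m l X hK hk, m1_FF_of_le p g c m l X K hf hK.le, hK]
    linarith
  have h2 : Monotone fun K => ⋂ k ∈ Set.Ici K, E k := by
    intro a b hab X hX
    rw [Set.mem_iInter₂] at hX ⊢
    intro k hk
    exact hX k (le_trans hab hk)
  calc mu p (EvL p g c l m) ≤ mu p (⋃ K, ⋂ k ∈ Set.Ici K, E k) := measure_mono h1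
    _ = ⨆ K, mu p (⋂ k ∈ Set.Ici K, E k) := h2.measure_iUnion
    _ ≤ ENNReal.ofReal (Real.exp (-(l ^ 2 * m))) := by
        refine iSup_le fun K => ?_
        refine le_trans (measure_mono (Set.iInter₂_subset K (Set.mem_Ici.2 le_rfl))) ?_
        exact markov p g _ (phi_good p g c m l hl) K _

end H48K
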