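import Pool.Agent.Lib.H48K.E4
import Pool.Agent.Lib.H48K.M1

/-!
# H48K, chunk TA: the measure of the test for the law of large numbers
-/

open MeasureTheory Set Filter H69K

namespace H48K

/-- The union of the deviation events from some place on. -/
private theorem ta_union (p : ℕ → unitInterval) (g : List Bool → ℕ) (c : List Bool → Bool) (l : ℝ)
    (hl : |l| ≤ 1) (hl0 : l ≠ 0) :
    ∃ N : ℕ, ∀ m, mu p (⋃ i : ℕ, EvL p g c l (N * (m + 1) + i)) ≤ (2⁻¹ : ENNReal) ^ m := by
  set r : ℝ := Real.exp (-(l ^ 2)) with hr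
  have hr0 : 0 < r := Real.exp_pos _
  have hr1 : r < 1 := by
    rw [hr, Real.exp_lt_one_iff]
    have : 0 < l ^ 2 := by positivity
    linarith
  obtain ⟨N, hN⟩ := exists_pow_lt_of_lt_one (show (0 : ℝ) < (1 - r) / 2 by linarith) hr1
  refine ⟨N, fun m => ?_⟩
  have hpow : ∀ n : ℕ, Real.exp (-(l ^ 2 * n)) = r ^ n := by
    intro n
    rw [hr, ← Real.exp_nat_mul]
    congr 1
    ring
  have hgeo : HasSum (fun i : ℕ => r ^ (N * (m + 1) + i)) (r ^ (N * (m + 1)) * (1 - r)⁻¹) := by
    have := (hasSum_geometric_of_lt_one hr0.le hr1).mul_left (r ^ (N * (m + 1)))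
    simpa [pow_add] using this
  have hfin : r ^ (N * (m + 1)) * (1 - r)⁻¹ ≤ (2⁻¹ : ℝ) ^ m := by
    have h1 : r ^ (N * (m + 1)) = (r ^ N) ^ m * r ^ N := by
      rw [← pow_mul, ← pow_add]
      congr 1
    have h2 : (r ^ N) ^ m ≤ (2⁻¹ : ℝ) ^ m := by
      apply pow_le_pow_left₀ (by positivity)
      linarith
    have h3 : (0 : ℝ) < 1 - r := by linarith
    rw [h1, mul_assoc]
    have h4 : r ^ N * (1 - r)⁻¹ ≤ 1 := by
      rw [← div_eq_mul_inv, div_le_one h3]
      linarith
    calc (r ^ N) ^ m * (r ^ N * (1 - r)⁻¹) ≤ (r ^ N) ^ m * 1 :=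
          mul_le_mul_of_nonneg_left h4 (by positivity)
      _ ≤ (2⁻¹ : ℝ) ^ m := by rw [mul_one]; exact h2
  calc mu p (⋃ i : ℕ, EvL p g c l (N * (m + 1) + i))
      ≤ ∑' i : ℕ, mu p (EvL p g c l (N * (m + 1) + i)) := measure_iUnion_le _
    _ ≤ ∑' i : ℕ, ENNReal.ofReal (r ^ (N * (m + 1) + i)) := by
        refine ENNReal.tsum_le_tsum fun i => ?_
        rw [← hpow]
        exact measure_EvL_le p g c l hl _
    _ = ENNReal.ofReal (∑' i : ℕ, r ^ (N * (m + 1) + i)) :=
        (ENNReal.ofReal_tsum_of_nonneg (fun i => by positivity) hgeo.summable).symm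
    _ = ENNReal.ofReal (r ^ (N * (m + 1)) * (1 - r)⁻¹) := by rw [hgeo.tsum_eq]
    _ ≤ ENNReal.ofReal ((2⁻¹ : ℝ) ^ m) := ENNReal.ofReal_le_ofReal hfin
    _ = (2⁻¹ : ENNReal) ^ m := by
        rw [ENNReal.ofReal_pow (by norm_num), ENNReal.ofReal_inv_of_pos (by norm_num)]
        norm_num

/-- The number of the different places below `n0`. -/
private theorem ta_cnt (l : List (ℕ × Bool)) (h : (l.map Prod.fst).Nodup) (n0 : ℕ) :
    (l.filter fun x => decide (x.1 < n0)).length ≤ n0 := by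
  have h1 : ((l.filter fun x => decide (x.1 < n0)).map Prod.fst).Nodup :=
    h.sublist (List.filter_sublist.map _)
  have h2 : ((l.filter fun x => decide (x.1 < n0)).map Prod.fst).toFinset ⊆ Finset.range n0 := by
    intro i hi
    rw [List.mem_toFinset, List.mem_map] at hi
    obtain ⟨x, hx, rfl⟩ := hi
    rw [Finset.mem_range]
    exact of_decide_eq_true (List.mem_filter.1 hx).2
  have h3 := Finset.card_le_card h2
  rw [List.toFinset_card_of_nodup h1, List.length_map, Finset.card_range] at h3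
  exact h3

/-- The sum of the probabilities of the selected places. -/
private theorem ta_sum (p : ℕ → unitInterval) (δ : ℝ) (n0 : ℕ) (hδ : 0 ≤ δ)
    (hp : ∀ n, n0 ≤ n → |(p n : ℝ) - 1 / 2| ≤ δ) (l : List (ℕ × Bool)) :
    |((l.filter fun x => x.2).map fun x => (p x.1 : ℝ)).sum - (nsel l : ℝ) / 2| ≤
      δ * nsel l + ((l.filter fun x => decide (x.1 < n0)).length : ℝ) := by
  induction l with
  | nil => simp [nsel]
  | cons x l ih =>
    unfold nsel at ih ⊢
    have hx0 : 0 ≤ (p x.1 : ℝ) := (p x.1).2.1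
    have hx1 : (p x.1 : ℝ) ≤ 1 := (p x.1).2.2
    have hlen : ((l.filter fun x => decide (x.1 < n0)).length : ℝ) ≤
        (((x :: l).filter fun x => decide (x.1 < n0)).length : ℝ) := by
      rw [List.filter_cons]
      split_ifs
      · rw [List.length_cons]
        push_cast
        linarith
      · exact le_refl _
    by_cases hb : x.2 = true
    · have hf : (x :: l).filter (fun x => x.2) = x :: l.filter (fun x => x.2) := by
        rw [List.filter_cons, if_pos hb]
      rw [hf, List.map_cons, List.sum_cons, List.length_cons]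
      push_cast
      have h1 : |(p x.1 : ℝ) - 1 / 2| ≤ δ + ((((x :: l).filter fun x => decide (x.1 < n0)).length : ℝ) -
          ((l.filter fun x => decide (x.1 < n0)).length : ℝ)) := by
        by_cases hn : x.1 < n0
        · rw [List.filter_cons, if_pos (decide_eq_true hn), List.length_cons]
          push_cast
          rw [abs_le]
          constructor <;> linarith
        · have := hp x.1 (not_lt.1 hn)
          linarith
      rw [abs_le] at h1 ih ⊢
      constructor <;> linarith [h1.1, h1.2, ih.1, ih.2]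
    · have hf : (x :: l).filter (fun x => x.2) = l.filter (fun x => x.2) := by
        rw [List.filter_cons, if_neg hb]
      rw [hf]
      exact le_trans ih (by linarith)

/-- TA. Let `ε = 1/(j+1)`, `n0` such that `|p n - 1/2| ≤ ε/2` for `n ≥ n0`, `c = nsel l ≥ N (m+1)` with `N ≥ 4 n0/ε`. If the ones
are `≥ (1/2 + ε) c` then `DD ≥ ε c - n0 - ε c/2 ≥ ε c/4` (`run_DD`, different places), so
`X ∈ EvL p (gf f) (cf f) (ε/8) c`; if the zeros are, then `- DD ≥ ε c/4` and `X ∈ EvL .. (-ε/8) c`. Sum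
`measure_EvL_le` over `c ≥ N (m+1)`: `2 r^(N (m+1))/(1 - r) ≤ 2^(-m)`, `r = exp (-ε^2/64)`, if `r^N ≤ (1-r)/4`. -/
theorem exists_WL (p : ℕ → unitInterval) (hp : Tendsto (fun n => (p n : ℝ)) atTop (nhds (1 / 2)))
    (f : List Bool →. ℕ × Bool) (j : ℕ) :
    ∃ N : ℕ, ∀ m, mu p (Op (WL f j N m)) ≤ (2⁻¹ : ENNReal) ^ m := by
  set ε : ℝ := 1 / ((j : ℝ) + 1) with hε
  have hj : (0 : ℝ) < (j : ℝ) + 1 := by positivity
  have hε0 : 0 < ε := by positivity
  have hε1 : ε ≤ 1 := by
    rw [hε, div_le_one hj]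
    have : (0 : ℝ) ≤ j := Nat.cast_nonneg j
    linarith
  have hεj : ε * ((j : ℝ) + 1) = 1 := by
    rw [hε]
    field_simp
  have hev : ∀ᶠ n in atTop, |(p n : ℝ) - 1 / 2| ≤ ε / 2 := by
    have h := (Metric.tendsto_nhds.1 hp) (ε / 2) (by positivity)
    exact h.mono fun n hn => by
      rw [Real.dist_eq] at hn
      exact hn.le
  obtain ⟨n0, hn0⟩ := eventually_atTop.1 hev
  obtain ⟨N1, hN1⟩ := ta_union p (gf f) (cf f) (ε / 8)
    (by rw [abs_of_pos (by positivity)]; linarith) (by positivity)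
  obtain ⟨N2, hN2⟩ := ta_union p (gf f) (cf f) (-(ε / 8))
    (by rw [abs_neg, abs_of_pos (by positivity)]; linarith)
    (by have : (0 : ℝ) < ε / 8 := by positivity
        linarith)
  refine ⟨2 * N1 + 2 * N2 + 4 * n0 * (j + 1), fun m => ?_⟩
  set N : ℕ := 2 * N1 + 2 * N2 + 4 * n0 * (j + 1) with hN
  have hsub : Op (WL f j N m) ⊆ (⋃ i : ℕ, EvL p (gf f) (cf f) (ε / 8) (N1 * (m + 1 + 1) + i)) ∪
      (⋃ i : ℕ, EvL p (gf f) (cf f) (-(ε / 8)) (N2 * (m + 1 + 1) + i)) := by
    intro X hX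
    unfold Op at hX
    rw [Set.mem_iUnion₂] at hX
    obtain ⟨w, ⟨k, l, hl, h1, h2⟩, hw⟩ := hX
    have hw' : pre X w.length = w := hw
    rw [← hw'] at hl h2
    set n := w.length with hn
    clear_value n
    obtain ⟨q1, q2, q3, q4, q5⟩ := run_hist f X n k l hl
    obtain ⟨c1, c2⟩ := run_cnt f X n k l hl
    have hD := run_DD p f X n k l hl
    have hs := ta_sum p (ε / 2) n0 (by positivity) hn0 l
    have hc := ta_cnt l q4 n0
    have hc' : ((l.filter fun x => decide (x.1 < n0)).length : ℝ) ≤ n0 := by exact_mod_cast hc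
    have hns : (0 : ℝ) ≤ nsel l := Nat.cast_nonneg _
    have hA : N ≤ nsel l := le_trans (Nat.le_mul_of_pos_right N (Nat.succ_pos m)) h1
    have hB : 4 * n0 * (j + 1) ≤ nsel l := le_trans (by omega) hA
    have hB' : 4 * (n0 : ℝ) * ((j : ℝ) + 1) ≤ nsel l := by exact_mod_cast hB
    have hC : 4 * (n0 : ℝ) ≤ ε * nsel l := by
      have h := mul_le_mul_of_nonneg_left hB' hε0.le
      have h3 : ε * (4 * (n0 : ℝ) * ((j : ℝ) + 1)) = 4 * n0 := by
        calc ε * (4 * (n0 : ℝ) * ((j : ℝ) + 1)) = (ε * ((j : ℝ) + 1)) * (4 * n0) := by ring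
          _ = 4 * n0 := by rw [hεj, one_mul]
      rw [h3] at h
      exact h
    have key : ∀ b : Bool, (j + 3) * nsel l ≤ 2 * (j + 1) * nval (pre X n) l b →
        (1 + 2 * ε) * nsel l ≤ 2 * (nval (pre X n) l b : ℝ) := by
      intro b hb
      have hb' : ((j : ℝ) + 3) * nsel l ≤ 2 * ((j : ℝ) + 1) * nval (pre X n) l b := by exact_mod_cast hb
      have h4 := mul_le_mul_of_nonneg_left hb' hε0.le
      have h5 : ε * (2 * ((j : ℝ) + 1) * nval (pre X n) l b) = 2 * nval (pre X n) l b := by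
        calc ε * (2 * ((j : ℝ) + 1) * nval (pre X n) l b)
            = (ε * ((j : ℝ) + 1)) * (2 * nval (pre X n) l b) := by ring
          _ = 2 * nval (pre X n) l b := by rw [hεj, one_mul]
      have h6 : ε * (((j : ℝ) + 3) * nsel l) = (1 + 2 * ε) * nsel l := by
        calc ε * (((j : ℝ) + 3) * nsel l) = (ε * ((j : ℝ) + 1)) * nsel l + 2 * ε * nsel l := by ring
          _ = (1 + 2 * ε) * nsel l := by rw [hεj]; ring
      rw [h5, h6] at h4
      exact h4
    rw [abs_le] at hs
    rcases h2 with h2 | h2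
    · left
      rw [Set.mem_iUnion]
      have hle : N1 * (m + 1 + 1) ≤ nsel l := by
        refine le_trans ?_ h1
        have : N1 * (m + 1 + 1) ≤ 2 * N1 * (m + 1) := by nlinarith
        refine le_trans this ?_
        exact Nat.mul_le_mul_right _ (by omega)
      refine ⟨nsel l - N1 * (m + 1 + 1), ?_⟩
      have he : N1 * (m + 1 + 1) + (nsel l - N1 * (m + 1 + 1)) = nsel l := by omega
      rw [he]
      refine ⟨k, c1, q3, ?_⟩
      rw [hD]
      have h3 := key true h2
      have h7 : ε / 4 * nsel l ≤ (nval (pre X n) l true : ℝ) -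
          ((l.filter fun x => x.2).map fun x => (p x.1 : ℝ)).sum := by
        linarith [hs.1, hs.2]
      have h8 := mul_le_mul_of_nonneg_left h7 (show (0 : ℝ) ≤ ε / 8 by positivity)
      nlinarith [h8]
    · right
      rw [Set.mem_iUnion]
      have hle : N2 * (m + 1 + 1) ≤ nsel l := by
        refine le_trans ?_ h1
        have : N2 * (m + 1 + 1) ≤ 2 * N2 * (m + 1) := by nlinarith
        refine le_trans this ?_
        exact Nat.mul_le_mul_right _ (by omega)
      refine ⟨nsel l - N2 * (m + 1 + 1), ?_⟩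
      have he : N2 * (m + 1 + 1) + (nsel l - N2 * (m + 1 + 1)) = nsel l := by omega
      rw [he]
      refine ⟨k, c1, q3, ?_⟩
      rw [hD]
      have h3 := key false h2
      have c2' : (nsel l : ℝ) = nval (pre X n) l true + nval (pre X n) l false := by
        exact_mod_cast c2
      have h7 : (nval (pre X n) l true : ℝ) -
          ((l.filter fun x => x.2).map fun x => (p x.1 : ℝ)).sum ≤ -(ε / 4 * nsel l) := by
        linarith [hs.1, hs.2]
      have h8 := mul_le_mul_of_nonneg_left h7 (show (0 : ℝ) ≤ ε / 8 by positivity)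
      nlinarith [h8]
  calc mu p (Op (WL f j N m))
      ≤ mu p ((⋃ i : ℕ, EvL p (gf f) (cf f) (ε / 8) (N1 * (m + 1 + 1) + i)) ∪
        (⋃ i : ℕ, EvL p (gf f) (cf f) (-(ε / 8)) (N2 * (m + 1 + 1) + i))) := measure_mono hsub
    _ ≤ mu p (⋃ i : ℕ, EvL p (gf f) (cf f) (ε / 8) (N1 * (m + 1 + 1) + i)) +
        mu p (⋃ i : ℕ, EvL p (gf f) (cf f) (-(ε / 8)) (N2 * (m + 1 + 1) + i)) := measure_union_le _ _
    _ ≤ (2⁻¹ : ENNReal) ^ (m + 1) + (2⁻¹ : ENNReal) ^ (m + 1) := add_le_add (hN1 _) (hN2 _)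
    _ = (2⁻¹ : ENNReal) ^ m := by
        rw [pow_succ, ← mul_add, ENNReal.inv_two_add_inv_two, mul_one]

end H48K
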