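import Pool.Agent.Lib.H48K.E2

/-!
# H48K, chunk TB: the test for the law of large numbers is recursively enumerable
-/

open Set Filter

namespace H48K

theorem TB_primrec_nsel : Primrec nsel := by
  have hg : Primrec₂ (fun (_ : List (ℕ × Bool)) (x : ℕ × Bool) => bif x.2 then some x else none) :=
    (Primrec.cond (Primrec.snd.comp Primrec.snd) (Primrec.option_some.comp Primrec.snd)
      (Primrec.const none)).to₂
  refine (Primrec.list_length.comp (Primrec.listFilterMap Primrec.id hg)).of_eq fun l => ?_
  unfold nsel
  show (List.filterMap _ l).length = _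
  induction l with
  | nil => rfl
  | cons x l ih =>
    obtain ⟨n, b⟩ := x
    cases b
    · simpa using ih
    · simpa using ih

theorem TB_primrec_nval (b : Bool) :
    Primrec fun x : List Bool × List (ℕ × Bool) => nval x.1 x.2 b := by
  have hget : Primrec (fun p : (List Bool × List (ℕ × Bool)) × (ℕ × Bool) =>
      p.1.1.getD p.2.1 false) :=
    (Primrec.list_getD false).comp (Primrec.fst.comp Primrec.fst) (Primrec.fst.comp Primrec.snd)
  have heq : Primrec (fun p : (List Bool × List (ℕ × Bool)) × (ℕ × Bool) =>
      p.1.1.getD p.2.1 false == b) := Primrec.beq.comp hget (Primrec.const b)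
  have hc : Primrec (fun p : (List Bool × List (ℕ × Bool)) × (ℕ × Bool) =>
      p.2.2 && (p.1.1.getD p.2.1 false == b)) := Primrec.and.comp (Primrec.snd.comp Primrec.snd) heq
  have hg : Primrec₂ (fun (p : List Bool × List (ℕ × Bool)) (x : ℕ × Bool) =>
      bif x.2 && (p.1.getD x.1 false == b) then some x else none) :=
    (Primrec.cond hc (Primrec.option_some.comp Primrec.snd) (Primrec.const none)).to₂
  refine (Primrec.list_length.comp (Primrec.listFilterMap Primrec.snd hg)).of_eq fun p => ?_
  obtain ⟨w, l⟩ := p
  unfold nval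
  show (List.filterMap _ l).length = _
  induction l with
  | nil => rfl
  | cons x l ih =>
    rw [List.filterMap_cons, List.filter_cons]
    cases h : (x.2 && (w.getD x.1 false == b))
    · simpa [h] using ih
    · simpa [h] using ih

/-- TB1. The counts are computable. -/
theorem computable_nsel : Computable nsel := TB_primrec_nsel.to_comp

theorem computable_nval (b : Bool) :
    Computable fun x : List Bool × List (ℕ × Bool) => nval x.1 x.2 b := (TB_primrec_nval b).to_comp

theorem computable_sw : Computable₂ sw := by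
  have hget : Primrec (fun p : (List Bool × List (ℕ × Bool)) × (ℕ × Bool) =>
      p.1.1.getD p.2.1 false) :=
    (Primrec.list_getD false).comp (Primrec.fst.comp Primrec.fst) (Primrec.fst.comp Primrec.snd)
  have hg : Primrec₂ (fun (p : List Bool × List (ℕ × Bool)) (x : ℕ × Bool) =>
      bif x.2 then some (p.1.getD x.1 false) else none) :=
    (Primrec.cond (Primrec.snd.comp Primrec.snd) (Primrec.option_some.comp hget)
      (Primrec.const none)).to₂
  have h := Primrec.list_reverse.comp (Primrec.listFilterMap Primrec.snd hg)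
  refine Computable₂.mk ?_
  refine h.to_comp.of_eq fun p => ?_
  obtain ⟨w, l⟩ := p
  unfold sw
  show (List.filterMap _ l).reverse = _
  congr 1
  induction l with
  | nil => rfl
  | cons x l ih =>
    rw [List.filterMap_cons, List.filter_cons]
    cases h : x.2
    · simpa [h] using ih
    · simpa [h] using ih

/-- TB2. `re_run` with a computable predicate (`ComputablePred.to_re`). -/
theorem re_WL {f : List Bool →. ℕ × Bool} (hf : Partrec f) (j N : ℕ) :
    REPred fun x : ℕ × List Bool => x.2 ∈ WL f j N x.1 := by
  have hns : Primrec (fun x : ℕ × (List Bool × List (ℕ × Bool)) => nsel x.2.2) :=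
    TB_primrec_nsel.comp (Primrec.snd.comp Primrec.snd)
  have hnv : ∀ b : Bool, Primrec (fun x : ℕ × (List Bool × List (ℕ × Bool)) =>
      nval x.2.1 x.2.2 b) := fun b => (TB_primrec_nval b).comp Primrec.snd
  have h1 : PrimrecPred (fun x : ℕ × (List Bool × List (ℕ × Bool)) =>
      N * (x.1 + 1) ≤ nsel x.2.2) :=
    Primrec.nat_le.comp (Primrec.nat_mul.comp (Primrec.const N) (Primrec.succ.comp Primrec.fst)) hns
  have h2 : ∀ b : Bool, PrimrecPred (fun x : ℕ × (List Bool × List (ℕ × Bool)) =>
      (j + 3) * nsel x.2.2 ≤ 2 * (j + 1) * nval x.2.1 x.2.2 b) := fun b =>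
    Primrec.nat_le.comp (Primrec.nat_mul.comp (Primrec.const (j + 3)) hns)
      (Primrec.nat_mul.comp (Primrec.const (2 * (j + 1))) (hnv b))
  have h3 := h1.and ((h2 true).or (h2 false))
  obtain ⟨hd, h4⟩ := h3
  have h5 : REPred (fun x : ℕ × (List Bool × List (ℕ × Bool)) =>
      N * (x.1 + 1) ≤ nsel x.2.2 ∧ ((j + 3) * nsel x.2.2 ≤ 2 * (j + 1) * nval x.2.1 x.2.2 true ∨
        (j + 3) * nsel x.2.2 ≤ 2 * (j + 1) * nval x.2.1 x.2.2 false)) :=
    ComputablePred.to_re ⟨hd, h4.to_comp⟩
  exact re_run hf h5

end H48K
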