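import Pool.Agent.Lib.H48K.E3
import Pool.Agent.Lib.H48K.TA
import Pool.Agent.Lib.H48K.TB

/-!
# H48K, chunk TC: random sequences are KL-stochastic
-/

open MeasureTheory Set Filter H69K

namespace H48K

private theorem tc_card_add (B : ℕ → Bool) (m : ℕ) :
    ((Finset.range m).filter (fun i => B i = true)).card +
      ((Finset.range m).filter (fun i => B i = false)).card = m := by
  have h := Finset.card_filter_add_card_filter_not (s := Finset.range m) (fun i => B i = true)
  rw [Finset.card_range] at h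
  have e : (Finset.range m).filter (fun i => B i = false) =
      (Finset.range m).filter (fun i => ¬ B i = true) := by
    apply Finset.filter_congr
    intro i _
    simp
  rw [e]
  exact h

/-- If the law of large numbers fails, there are infinitely many deviations. -/
private theorem tc_dev (B : ℕ → Bool) (hB : ¬ LLN B) : ∃ j : ℕ, ∀ n : ℕ, ∃ m, n ≤ m ∧
    ((j + 3) * m ≤ 2 * (j + 1) * ((Finset.range m).filter (fun i => B i = true)).card ∨
      (j + 3) * m ≤ 2 * (j + 1) * ((Finset.range m).filter (fun i => B i = false)).card) := by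
  unfold LLN at hB
  rw [Metric.tendsto_atTop] at hB
  push Not at hB
  obtain ⟨ε, hε, hdev⟩ := hB
  obtain ⟨j, hj⟩ := exists_nat_one_div_lt hε
  refine ⟨j, fun n => ?_⟩
  obtain ⟨m, hm, hd⟩ := hdev (n + 1)
  refine ⟨m, by omega, ?_⟩
  have hm0 : (0 : ℝ) < m := by
    have : 0 < m := by omega
    exact_mod_cast this
  have hadd := tc_card_add B m
  obtain ⟨c, hc⟩ : ∃ c, c = ((Finset.range m).filter (fun i => B i = true)).card := ⟨_, rfl⟩
  obtain ⟨c', hc'⟩ : ∃ c', c' = ((Finset.range m).filter (fun i => B i = false)).card := ⟨_, rfl⟩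
  rw [← hc] at hd
  rw [← hc, ← hc'] at hadd
  rw [← hc, ← hc']
  have hj1 : (0 : ℝ) < (j : ℝ) + 1 := by positivity
  have hd2 : 1 / ((j : ℝ) + 1) ≤ |(c : ℝ) / m - 1 / 2| := by
    rw [Real.dist_eq] at hd
    exact hj.le.trans hd
  have haddR : (c : ℝ) + c' = m := by exact_mod_cast hadd
  rcases le_abs.1 hd2 with h | h
  · left
    have h1 : 1 / ((j : ℝ) + 1) + 1 / 2 ≤ (c : ℝ) / m := by linarith
    rw [le_div_iff₀ hm0] at h1
    have h2 : ((j : ℝ) + 1) * ((1 / ((j : ℝ) + 1) + 1 / 2) * m) ≤ ((j : ℝ) + 1) * c :=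
      mul_le_mul_of_nonneg_left h1 hj1.le
    have h3 : ((j : ℝ) + 1) * ((1 / ((j : ℝ) + 1) + 1 / 2) * m) = (1 + ((j : ℝ) + 1) / 2) * m := by
      field_simp
    rw [h3] at h2
    have h4 : ((j : ℝ) + 3) * m ≤ 2 * ((j : ℝ) + 1) * c := by linarith
    exact_mod_cast h4
  · right
    have h1 : (c : ℝ) / m ≤ 1 / 2 - 1 / ((j : ℝ) + 1) := by linarith
    rw [div_le_iff₀ hm0] at h1
    have h5 : (1 / ((j : ℝ) + 1) + 1 / 2) * m ≤ c' := by nlinarith
    have h2 : ((j : ℝ) + 1) * ((1 / ((j : ℝ) + 1) + 1 / 2) * m) ≤ ((j : ℝ) + 1) * c' :=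
      mul_le_mul_of_nonneg_left h5 hj1.le
    have h3 : ((j : ℝ) + 1) * ((1 / ((j : ℝ) + 1) + 1 / 2) * m) = (1 + ((j : ℝ) + 1) / 2) * m := by
      field_simp
    rw [h3] at h2
    have h4 : ((j : ℝ) + 3) * m ≤ 2 * ((j : ℝ) + 1) * c' := by linarith
    exact_mod_cast h4

private theorem tc_mem_Op {V : Set (List Bool)} {X : ℕ → Bool} {n : ℕ} (h : pre X n ∈ V) :
    X ∈ Op V := by
  refine Set.mem_biUnion h ?_
  show pre X (pre X n).length = pre X n
  have : (pre X n).length = n := by simp [pre]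
  rw [this]

/-- TC. If the law fails for the selected sequence `B`, there is a `j` such that for infinitely many `m` the number of the
ones or the number of the zeros among the first `m` bits is at least `m (1/2 + 1/(j+1))`; with
`tr_mem_run`, `nsel_tr`, `nval_tr` the sequence is in `Op (WL f j N m')` for all `m'`. -/
theorem random_KL (p : ℕ → unitInterval) (hp : Tendsto (fun n => (p n : ℝ)) atTop (nhds (1 / 2)))
    (X : ℕ → Bool) (hX : Random (mu p) X) : KLStochastic X := by
  intro f hf B hB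
  by_contra hL
  obtain ⟨pos, sel, hrun, hinj, hinf, hBX⟩ := hB
  obtain ⟨j, hj⟩ := tc_dev B hL
  obtain ⟨N, hN⟩ := exists_WL p hp f j
  obtain ⟨m', hm'⟩ := hX (WL f j N) ⟨re_WL hf j N, hN⟩
  apply hm'
  obtain ⟨m, hm, hd⟩ := hj (N * (m' + 1))
  obtain ⟨n, hn⟩ : ∃ n, ∀ i < Nat.nth (fun k => sel k = true) m, pos i < n := by
    refine ⟨(Finset.range (Nat.nth (fun k => sel k = true) m)).sup pos + 1, fun i hi => ?_⟩
    exact Nat.lt_succ_of_le (Finset.le_sup (f := pos) (Finset.mem_range.2 hi))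
  have h1 := tr_mem_run hrun hinj (Nat.nth (fun k => sel k = true) m) n hn
  have h2 : nsel (tr pos sel (Nat.nth (fun k => sel k = true) m)) = m := by
    rw [nsel_tr]
    exact Nat.count_nth_of_infinite hinf m
  have h3 : ∀ b, nval (pre X n) (tr pos sel (Nat.nth (fun k => sel k = true) m)) b =
      ((Finset.range m).filter (fun i => B i = b)).card := by
    intro b
    rw [nval_tr hinf m n b hn]
    congr 1
    apply Finset.filter_congr
    intro i _
    rw [hBX]
  apply tc_mem_Op (n := n)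
  refine ⟨_, _, h1, ?_, ?_⟩
  · rw [h2]
    exact hm
  · rw [h2, h3, h3]
    exact hd

end H48K
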