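import Pool.Agent.Lib.H48K.O

/-!
# H48K, chunk K: product measures with summable squares of the biases
-/

open MeasureTheory Set Filter H69K

namespace H48K

private theorem k_cyl (p : ℕ → unitInterval) (m : ℕ) (v : Fin m → Bool) :
    mu p {X | ∀ i : Fin m, X i = v i} = ENNReal.ofReal (∏ i : Fin m, q (p i) (v i)) := by
  have h : {X : ℕ → Bool | ∀ i : Fin m, X i = v i} =
      Set.pi (Finset.range m : Set ℕ)
        (fun i => if h : i < m then ({v ⟨i, h⟩} : Set Bool) else univ) := by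
    ext X
    rw [Set.mem_pi]
    constructor
    · intro hX i hi
      have hi' : i < m := Finset.mem_range.1 (Finset.mem_coe.1 hi)
      rw [dif_pos hi']
      exact hX ⟨i, hi'⟩
    · intro hX i
      have h1 := hX i (Finset.mem_coe.2 (Finset.mem_range.2 i.2))
      rw [dif_pos i.2] at h1
      exact h1
  rw [h]
  unfold mu
  rw [Measure.infinitePi_pi _ (fun i _ => by
      split_ifs
      · exact measurableSet_singleton _
      · exact MeasurableSet.univ), Finset.prod_range,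
    ENNReal.ofReal_prod_of_nonneg (fun i _ => q_nonneg _ _)]
  refine Finset.prod_congr rfl fun i _ => ?_
  rw [dif_pos i.2, bern_singleton]

private theorem k_meas (m : ℕ) (v : Fin m → Bool) :
    MeasurableSet {X : ℕ → Bool | ∀ i : Fin m, X i = v i} := by
  have h : {X : ℕ → Bool | ∀ i : Fin m, X i = v i} = ⋂ i : Fin m, {X | X i = v i} := by
    ext X
    simp
  rw [h]
  exact MeasurableSet.iInter fun i => measurableSet_coord _ _

/-- K1. The measure of a cylinder set (`Measure.infinitePi_pi` for one word, then a finite disjoint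
union). -/
theorem mu_E (p : ℕ → unitInterval) (m : ℕ) (V : Set (Fin m → Bool)) [DecidablePred (· ∈ V)] :
    mu p (E m V) = ENNReal.ofReal (∑ v : Fin m → Bool, if v ∈ V then ∏ i : Fin m, q (p i) (v i) else 0) := by
  have h : E m V = ⋃ v ∈ Finset.univ.filter (fun v : Fin m → Bool => v ∈ V),
      {X : ℕ → Bool | ∀ i : Fin m, X i = v i} := by
    ext X
    rw [Set.mem_iUnion₂]
    constructor
    · intro hX
      refine ⟨fun i : Fin m => X i, ?_, fun i => rfl⟩
      rw [Finset.mem_filter]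
      exact ⟨Finset.mem_univ _, hX⟩
    · rintro ⟨v, hv, hX⟩
      have h1 : (fun i : Fin m => X i) = v := funext hX
      have h2 : v ∈ V := (Finset.mem_filter.1 hv).2
      show (fun i : Fin m => X i) ∈ V
      rw [h1]
      exact h2
  rw [h, measure_biUnion_finset]
  · rw [← Finset.sum_filter, ENNReal.ofReal_sum_of_nonneg]
    · exact Finset.sum_congr rfl fun v _ => k_cyl p m v
    · intro v _
      exact Finset.prod_nonneg fun i _ => q_nonneg _ _
  · intro v _ v' _ hne
    rw [Function.onFun, Set.disjoint_left]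
    intro X h1 h2
    exact hne (funext fun i => (h1 i).symm.trans (h2 i))
  · intro v _
    exact k_meas m v

private theorem k_sq (p : ℕ → unitInterval) (m : ℕ) :
    2 ^ m * ∑ v : Fin m → Bool, (∏ i : Fin m, q (p i) (v i)) ^ 2 =
      ∏ i : Fin m, (1 + 4 * ((p i : ℝ) - 1 / 2) ^ 2) := by
  have h1 : ∑ v : Fin m → Bool, (∏ i : Fin m, q (p i) (v i)) ^ 2 =
      ∏ i : Fin m, ∑ b : Bool, q (p i) b ^ 2 := by
    rw [Finset.prod_univ_sum, Fintype.piFinset_univ]
    refine Finset.sum_congr rfl fun v _ => ?_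
    rw [Finset.prod_pow]
  have h2 : (2 : ℝ) ^ m = ∏ _i : Fin m, (2 : ℝ) := by simp
  rw [h1, h2, ← Finset.prod_mul_distrib]
  refine Finset.prod_congr rfl fun i _ => ?_
  rw [Fintype.sum_bool]
  unfold q
  simp only [if_true, Bool.false_eq_true, if_false]
  ring

/-- K2. `mu p` is absolutely continuous with respect to the fair measure if the squares of the biases are
summable. Proof: `ac_of_sq` with `C = exp (4 ∑ (p n - 1/2)^2)`: by Cauchy-Schwarz
`(∑_(v ∈ V) μ v)^2 ≤ ∑_v (μ v)^2 2^m * ∑_(v ∈ V) 2^(-m)` and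
`∑_v 2^m (μ v)^2 = ∏ (2 (p^2 + (1-p)^2)) = ∏ (1 + 4 (p - 1/2)^2) ≤ exp (4 ∑ (p - 1/2)^2)`. -/
theorem ac_fair (p : ℕ → unitInterval) (hp : Summable fun n => ((p n : ℝ) - 1 / 2) ^ 2) :
    mu p ≪ mu fair := by
  classical
  refine ac_of_sq (mu p) (mu fair)
    (ENNReal.ofReal (Real.exp (4 * ∑' n, ((p n : ℝ) - 1 / 2) ^ 2))) ENNReal.ofReal_ne_top ?_
  intro m V
  rw [mu_E, mu_E]
  have hS : 0 ≤ ∑ v : Fin m → Bool, (if v ∈ V then ∏ i : Fin m, q (p i) (v i) else 0) := by
    refine Finset.sum_nonneg fun v _ => ?_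
    split_ifs
    · exact Finset.prod_nonneg fun i _ => q_nonneg _ _
    · exact le_rfl
  rw [← ENNReal.ofReal_pow hS, ← ENNReal.ofReal_mul (Real.exp_pos _).le]
  apply ENNReal.ofReal_le_ofReal
  have hfair : ∀ b : Bool, ∀ n, q (fair n) b = 1 / 2 := by
    intro b n
    unfold q fair
    cases b <;> norm_num
  have hF : ∑ v : Fin m → Bool, (if v ∈ V then ∏ i : Fin m, q (fair i) (v i) else 0) =
      (1 / 2) ^ m * ∑ v : Fin m → Bool, (if v ∈ V then (1 : ℝ) else 0) ^ 2 := by
    rw [Finset.mul_sum]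
    refine Finset.sum_congr rfl fun v _ => ?_
    split_ifs
    · simp only [hfair, Finset.prod_const, Finset.card_univ, Fintype.card_fin]
      ring
    · ring
  have hC : (∑ v : Fin m → Bool, (if v ∈ V then ∏ i : Fin m, q (p i) (v i) else 0)) ^ 2 ≤
      (∑ v : Fin m → Bool, (∏ i : Fin m, q (p i) (v i)) ^ 2) *
        ∑ v : Fin m → Bool, (if v ∈ V then (1 : ℝ) else 0) ^ 2 := by
    have h1 : ∑ v : Fin m → Bool, (if v ∈ V then ∏ i : Fin m, q (p i) (v i) else 0) =
        ∑ v : Fin m → Bool, (∏ i : Fin m, q (p i) (v i)) * (if v ∈ V then (1 : ℝ) else 0) := by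
      refine Finset.sum_congr rfl fun v _ => ?_
      split_ifs
      · rw [mul_one]
      · rw [mul_zero]
    rw [h1]
    exact Finset.sum_mul_sq_le_sq_mul_sq _ _ _
  have hP : ∏ i : Fin m, (1 + 4 * ((p i : ℝ) - 1 / 2) ^ 2) ≤
      Real.exp (4 * ∑' n, ((p n : ℝ) - 1 / 2) ^ 2) := by
    have h1 : ∏ i : Fin m, (1 + 4 * ((p i : ℝ) - 1 / 2) ^ 2) ≤
        ∏ i : Fin m, Real.exp (4 * ((p i : ℝ) - 1 / 2) ^ 2) := by
      refine Finset.prod_le_prod (fun i _ => by positivity) fun i _ => ?_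
      have := Real.add_one_le_exp (4 * ((p i : ℝ) - 1 / 2) ^ 2)
      linarith
    refine h1.trans ?_
    rw [← Real.exp_sum]
    apply Real.exp_le_exp.2
    rw [← Finset.mul_sum]
    refine mul_le_mul_of_nonneg_left ?_ (by norm_num)
    rw [← Finset.sum_range (fun n => ((p n : ℝ) - 1 / 2) ^ 2)]
    exact hp.sum_le_tsum _ (fun n _ => sq_nonneg _)
  have hN : 0 ≤ ∑ v : Fin m → Bool, (if v ∈ V then (1 : ℝ) else 0) ^ 2 :=
    Finset.sum_nonneg fun v _ => sq_nonneg _
  rw [hF]
  refine hC.trans ?_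
  have h2 : (2 : ℝ) ^ m * (1 / 2) ^ m = 1 := by
    rw [← mul_pow]
    norm_num
  calc (∑ v : Fin m → Bool, (∏ i : Fin m, q (p i) (v i)) ^ 2) *
        ∑ v : Fin m → Bool, (if v ∈ V then (1 : ℝ) else 0) ^ 2
      = (2 ^ m * ∑ v : Fin m → Bool, (∏ i : Fin m, q (p i) (v i)) ^ 2) *
        ((1 / 2) ^ m * ∑ v : Fin m → Bool, (if v ∈ V then (1 : ℝ) else 0) ^ 2) := by
        linear_combination (-(∑ v : Fin m → Bool, (∏ i : Fin m, q (p i) (v i)) ^ 2) *
          ∑ v : Fin m → Bool, (if v ∈ V then (1 : ℝ) else 0) ^ 2) * h2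
    _ ≤ Real.exp (4 * ∑' n, ((p n : ℝ) - 1 / 2) ^ 2) *
        ((1 / 2) ^ m * ∑ v : Fin m → Bool, (if v ∈ V then (1 : ℝ) else 0) ^ 2) := by
        rw [k_sq]
        exact mul_le_mul_of_nonneg_right hP (mul_nonneg (by positivity) hN)

end H48K
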