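import Pool.Agent.Lib.H48K.Defs3
import Pool.Agent.Lib.H48K.K

/-!
# H48K, chunk TD: summable squares of the biases: random sequences are random for the fair measure
-/

open MeasureTheory Set Filter H69K

namespace H48K

private theorem td_ksq (p : ℕ → unitInterval) (m : ℕ) :
    2 ^ m * ∑ v : Fin m → Bool, (∏ i : Fin m, q (p i) (v i)) ^ 2 =
      ∏ i : Fin m, (1 + 4 * ((p i : ℝ) - 1 / 2) ^ 2) := by
  have h1 : ∑ v : Fin m → Bool, (∏ i : Fin m, q (p i) (v i)) ^ 2 =
      ∏ i : Fin m, ∑ b : Bool, q (p i) b ^ 2 := by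
    rw [Finset.prod_univ_sum, Fintype.piFinset_univ]
    refine Finset.sum_congr rfl fun v _ => ?_
    rw [Finset.prod_pow]
  have h2 : (2 : ℝ) ^ m = ∏ _i : Fin m, (2 : ℝ) := by simp
  rw [h1, h2, ← Finset.prod_mul_distrib]
  refine Finset.prod_congr rfl fun i _ => ?_
  rw [Fintype.sum_bool]
  unfold q
  simp only [if_true, Bool.false_eq_true, if_false]
  ring

private theorem td_real (p : ℕ → unitInterval) (hp : Summable fun n => ((p n : ℝ) - 1 / 2) ^ 2)
    (m : ℕ) (V : Set (Fin m → Bool)) :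
    mu p (E m V) ^ 2 ≤
      ENNReal.ofReal (Real.exp (4 * ∑' n, ((p n : ℝ) - 1 / 2) ^ 2)) * mu fair (E m V) := by
  classical
  rw [mu_E, mu_E]
  have hS : 0 ≤ ∑ v : Fin m → Bool, (if v ∈ V then ∏ i : Fin m, q (p i) (v i) else 0) := by
    refine Finset.sum_nonneg fun v _ => ?_
    split_ifs
    · exact Finset.prod_nonneg fun i _ => q_nonneg _ _
    · exact le_rfl
  rw [← ENNReal.ofReal_pow hS, ← ENNReal.ofReal_mul (Real.exp_pos _).le]
  apply ENNReal.ofReal_le_ofReal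
  have hfair : ∀ b : Bool, ∀ n, q (fair n) b = 1 / 2 := by
    intro b n
    unfold q fair
    cases b <;> norm_num
  have hF : ∑ v : Fin m → Bool, (if v ∈ V then ∏ i : Fin m, q (fair i) (v i) else 0) =
      (1 / 2) ^ m * ∑ v : Fin m → Bool, (if v ∈ V then (1 : ℝ) else 0) ^ 2 := by
    rw [Finset.mul_sum]
    refine Finset.sum_congr rfl fun v _ => ?_
    split_ifs
    · simp only [hfair, Finset.prod_const, Finset.card_univ, Fintype.card_fin]
      ring
    · ring
  have hC : (∑ v : Fin m → Bool, (if v ∈ V then ∏ i : Fin m, q (p i) (v i) else 0)) ^ 2 ≤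
      (∑ v : Fin m → Bool, (∏ i : Fin m, q (p i) (v i)) ^ 2) *
        ∑ v : Fin m → Bool, (if v ∈ V then (1 : ℝ) else 0) ^ 2 := by
    have h1 : ∑ v : Fin m → Bool, (if v ∈ V then ∏ i : Fin m, q (p i) (v i) else 0) =
        ∑ v : Fin m → Bool, (∏ i : Fin m, q (p i) (v i)) * (if v ∈ V then (1 : ℝ) else 0) := by
      refine Finset.sum_congr rfl fun v _ => ?_
      split_ifs
      · rw [mul_one]
      · rw [mul_zero]
    rw [h1]
    exact Finset.sum_mul_sq_le_sq_mul_sq _ _ _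
  have hP : ∏ i : Fin m, (1 + 4 * ((p i : ℝ) - 1 / 2) ^ 2) ≤
      Real.exp (4 * ∑' n, ((p n : ℝ) - 1 / 2) ^ 2) := by
    have h1 : ∏ i : Fin m, (1 + 4 * ((p i : ℝ) - 1 / 2) ^ 2) ≤
        ∏ i : Fin m, Real.exp (4 * ((p i : ℝ) - 1 / 2) ^ 2) := by
      refine Finset.prod_le_prod (fun i _ => by positivity) fun i _ => ?_
      have := Real.add_one_le_exp (4 * ((p i : ℝ) - 1 / 2) ^ 2)
      linarith
    refine h1.trans ?_
    rw [← Real.exp_sum]
    apply Real.exp_le_exp.2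
    rw [← Finset.mul_sum]
    refine mul_le_mul_of_nonneg_left ?_ (by norm_num)
    rw [← Finset.sum_range (fun n => ((p n : ℝ) - 1 / 2) ^ 2)]
    exact hp.sum_le_tsum _ (fun n _ => sq_nonneg _)
  have hN : 0 ≤ ∑ v : Fin m → Bool, (if v ∈ V then (1 : ℝ) else 0) ^ 2 :=
    Finset.sum_nonneg fun v _ => sq_nonneg _
  rw [hF]
  refine hC.trans ?_
  have h2 : (2 : ℝ) ^ m * (1 / 2) ^ m = 1 := by
    rw [← mul_pow]
    norm_num
  calc (∑ v : Fin m → Bool, (∏ i : Fin m, q (p i) (v i)) ^ 2) *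
        ∑ v : Fin m → Bool, (if v ∈ V then (1 : ℝ) else 0) ^ 2
      = (2 ^ m * ∑ v : Fin m → Bool, (∏ i : Fin m, q (p i) (v i)) ^ 2) *
        ((1 / 2) ^ m * ∑ v : Fin m → Bool, (if v ∈ V then (1 : ℝ) else 0) ^ 2) := by
        linear_combination (-(∑ v : Fin m → Bool, (∏ i : Fin m, q (p i) (v i)) ^ 2) *
          ∑ v : Fin m → Bool, (if v ∈ V then (1 : ℝ) else 0) ^ 2) * h2
    _ ≤ Real.exp (4 * ∑' n, ((p n : ℝ) - 1 / 2) ^ 2) *
        ((1 / 2) ^ m * ∑ v : Fin m → Bool, (if v ∈ V then (1 : ℝ) else 0) ^ 2) := by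
        rw [td_ksq]
        exact mul_le_mul_of_nonneg_right hP (mul_nonneg (by positivity) hN)

/-- TD1. The inequality in the proof of `ac_fair` (chunk K), for cylinders. -/
theorem sq_E (p : ℕ → unitInterval) (hp : Summable fun n => ((p n : ℝ) - 1 / 2) ^ 2) :
    ∃ C : ℕ, ∀ m (V : Set (Fin m → Bool)), mu p (E m V) ^ 2 ≤ 2 ^ C * mu fair (E m V) := by
  obtain ⟨C, hC⟩ := pow_unbounded_of_one_lt (Real.exp (4 * ∑' n, ((p n : ℝ) - 1 / 2) ^ 2))
    (by norm_num : (1 : ℝ) < 2)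
  refine ⟨C, fun m V => (td_real p hp m V).trans ?_⟩
  gcongr
  calc ENNReal.ofReal (Real.exp (4 * ∑' n, ((p n : ℝ) - 1 / 2) ^ 2))
      ≤ ENNReal.ofReal ((2 : ℝ) ^ C) := ENNReal.ofReal_le_ofReal hC.le
    _ = 2 ^ C := by
      rw [ENNReal.ofReal_pow (by norm_num)]
      norm_num

private theorem td_open (W : Set (List Bool)) : IsOpen (Op W) := by
  unfold Op
  refine isOpen_biUnion fun w _ => ?_
  have hc : Continuous (fun X : ℕ → Bool => (fun i : Fin w.length => X i)) := by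
    fun_prop
  have h : Cy w = (fun X : ℕ → Bool => (fun i : Fin w.length => X i)) ⁻¹'
      {v : Fin w.length → Bool | List.ofFn v = w} := rfl
  rw [h]
  exact (isOpen_discrete _).preimage hc

/-- TD2. The same for open sets of the form `Op W` (monotone union of the sets `E m V`). -/
theorem sq_Op (p : ℕ → unitInterval) (hp : Summable fun n => ((p n : ℝ) - 1 / 2) ^ 2) :
    ∃ C : ℕ, ∀ W : Set (List Bool), mu p (Op W) ^ 2 ≤ 2 ^ C * mu fair (Op W) := by
  obtain ⟨C, hC⟩ := sq_E p hp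
  refine ⟨C, fun W => ?_⟩
  have hopen : IsOpen (Op W) := td_open W
  obtain ⟨V, hV, hU⟩ := open_cyl (Op W) hopen
  rw [hU, hV.measure_iUnion]
  have h1 : (⨆ m, mu p (E m (V m))) ^ 2 = ⨆ m, mu p (E m (V m)) ^ 2 := by
    have hmono : Monotone (fun x : ENNReal => x ^ 2) := fun x y hxy => by
      show x ^ 2 ≤ y ^ 2
      gcongr
    exact hmono.map_iSup_of_continuousAt
      (ENNReal.continuous_pow 2).continuousAt (by simp)
  rw [h1]
  apply iSup_le
  intro m
  refine (hC m (V m)).trans ?_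
  gcongr
  exact Set.subset_iUnion (fun m => E m (V m)) m

/-- TD3. For a test `W` of the fair measure `m ↦ W (2 m + C)` is a test of `mu p`. -/
theorem random_fair (p : ℕ → unitInterval) (hp : Summable fun n => ((p n : ℝ) - 1 / 2) ^ 2)
    (X : ℕ → Bool) (hX : Random (mu p) X) : Random (mu fair) X := by
  obtain ⟨C, hC⟩ := sq_Op p hp
  intro W hW
  have hT : Test (mu p) (fun m => W (2 * m + C)) := by
    refine ⟨?_, fun m => ?_⟩
    · have hf : Computable (fun x : ℕ × List Bool => ((2 * x.1 + C, x.2) : ℕ × List Bool)) := by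
        have h : Primrec (fun x : ℕ × List Bool => ((2 * x.1 + C, x.2) : ℕ × List Bool)) :=
          Primrec.pair (Primrec.nat_add.comp
            (Primrec.nat_mul.comp (Primrec.const 2) Primrec.fst) (Primrec.const C)) Primrec.snd
        exact h.to_comp
      exact Partrec.comp hW.1 hf
    · have h1 : mu p (Op (W (2 * m + C))) ^ 2 ≤ ((2⁻¹ : ENNReal) ^ m) ^ 2 := by
        calc mu p (Op (W (2 * m + C))) ^ 2 ≤ 2 ^ C * mu fair (Op (W (2 * m + C))) := hC _
          _ ≤ 2 ^ C * (2⁻¹ : ENNReal) ^ (2 * m + C) := by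
            gcongr
            exact hW.2 _
          _ = ((2⁻¹ : ENNReal) ^ m) ^ 2 * (2 * 2⁻¹) ^ C := by
            rw [mul_pow, pow_add, ← pow_mul, mul_comm 2 m]
            ring
          _ = ((2⁻¹ : ENNReal) ^ m) ^ 2 := by
            rw [ENNReal.mul_inv_cancel (by norm_num) (by norm_num), one_pow, mul_one]
      by_contra hlt
      rw [not_le] at hlt
      exact absurd h1 (not_le.2 (ENNReal.pow_lt_pow_left (by norm_num) hlt))
  obtain ⟨m, hm⟩ := hX _ hT
  exact ⟨2 * m + C, hm⟩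

end H48K
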