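import Pool.Agent.Lib.H48K.TE
import Pool.Agent.Lib.H48K.K

/-!
# H48K, chunk TF: the measure of the words which select a word of a given set
-/

open MeasureTheory Set Filter H69K

namespace H48K

private theorem tf_len (X : ℕ → Bool) (n : ℕ) : (pre X n).length = n := by
  simp [pre]

private theorem tf_Cy_E (v : List Bool) : Cy v = E v.length {fun i : Fin v.length => v.get i} := by
  ext X
  show pre X v.length = v ↔ (fun i : Fin v.length => X i) = fun i : Fin v.length => v.get i
  constructor
  · intro h
    funext i
    have h2 : (pre X v.length)[(i : ℕ)]? = v[(i : ℕ)]? := by rw [h]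
    have h3 : (pre X v.length)[(i : ℕ)]? = some (X i) := by
      unfold pre
      rw [List.getElem?_ofFn]
      rw [dif_pos i.2]
    have h4 : v[(i : ℕ)]? = some (v.get i) := by
      rw [List.getElem?_eq_getElem i.2]
      rfl
    rw [h3, h4] at h2
    exact Option.some.inj h2
  · intro h
    unfold pre
    rw [h]
    exact List.ofFn_get v

private theorem tf_meas (v : List Bool) : MeasurableSet (Cy v) := by
  rw [tf_Cy_E]
  exact measurableSet_E _ _

private theorem tf_q (i : ℕ) (b : Bool) : q (fair i) b = 1 / 2 := by
  unfold q fair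
  cases b <;> norm_num

private theorem tf_Cy (v : List Bool) : mu fair (Cy v) = (2⁻¹ : ENNReal) ^ v.length := by
  classical
  rw [tf_Cy_E, mu_E]
  have h1 : (∑ w : Fin v.length → Bool, if w ∈ ({fun i : Fin v.length => v.get i} : Set (Fin v.length → Bool))
      then ∏ i : Fin v.length, q (fair i) (w i) else 0) = (1 / 2 : ℝ) ^ v.length := by
    rw [Finset.sum_eq_single (fun i : Fin v.length => v.get i)]
    · rw [if_pos (Set.mem_singleton _)]
      rw [Finset.prod_congr rfl fun (i : Fin v.length) _ => tf_q (i : ℕ) (v.get i)]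
      rw [Finset.prod_const, Finset.card_univ, Fintype.card_fin]
    · intro w _ hw
      rw [if_neg]
      intro h
      exact hw (Set.mem_singleton_iff.1 h)
    · intro h
      exact absurd (Finset.mem_univ _) h
  rw [h1, ENNReal.ofReal_pow (by norm_num)]
  congr 1
  rw [one_div, ENNReal.ofReal_inv_of_pos (by norm_num)]
  norm_num

private theorem tf_sw_cons (w : List Bool) (x : ℕ × Bool) (l : List (ℕ × Bool)) :
    sw w (x :: l) = sw w l ∨ ∃ b, sw w (x :: l) = sw w l ++ [b] := by
  unfold sw
  by_cases h : x.2 = true
  · right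
    refine ⟨w.getD x.1 false, ?_⟩
    rw [List.filter_cons_of_pos (by simpa using h), List.map_cons, List.reverse_cons]
  · left
    rw [List.filter_cons_of_neg (by simpa using h)]

/-- Every prefix of the selected word is selected by some tail of the trace. -/
private theorem tf_prefix (w : List Bool) (l : List (ℕ × Bool)) (u : List Bool) (hu : u <+: sw w l) :
    ∃ d ≤ l.length, sw w (l.drop d) = u := by
  induction l with
  | nil =>
    refine ⟨0, le_rfl, ?_⟩
    have h : sw w ([] : List (ℕ × Bool)) = [] := rfl
    rw [h] at hu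
    rw [List.drop_nil, h]
    exact (List.prefix_nil.1 hu).symm
  | cons x l ih =>
    by_cases hl : u <+: sw w l
    · obtain ⟨d, hd, h⟩ := ih hl
      refine ⟨d + 1, by rw [List.length_cons]; omega, ?_⟩
      rw [List.drop_succ_cons]
      exact h
    · refine ⟨0, Nat.zero_le _, ?_⟩
      rw [List.drop_zero]
      rcases tf_sw_cons w x l with h | ⟨b, h⟩
      · rw [h] at hu
        exact absurd hu hl
      · rw [h] at hu ⊢
        rcases List.prefix_concat_iff.1 hu with h2 | h2
        · rw [h2]
        · exact absurd h2 hl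

/-- The words of `V` without proper prefix in `V`. -/
private def TF0 (V : Set (List Bool)) : Set (List Bool) := {v | v ∈ V ∧ ∀ u ∈ V, u <+: v → u = v}

private theorem tf_min (V : Set (List Bool)) (v : List Bool) (hv : v ∈ V) : ∃ u ∈ TF0 V, u <+: v := by
  have hex : ∃ m, ∃ u ∈ V, u <+: v ∧ u.length = m := ⟨v.length, v, hv, List.prefix_rfl, rfl⟩
  classical
  obtain ⟨u, hu, hp, hl⟩ := Nat.find_spec hex
  refine ⟨u, ⟨hu, ?_⟩, hp⟩
  intro t ht htu
  by_contra hne
  have hlt : t.length < Nat.find hex := by
    rw [← hl]
    rcases Nat.lt_or_ge t.length u.length with h | h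
    · exact h
    · exact absurd (htu.eq_of_length_le h) hne
  exact Nat.find_min hex hlt ⟨t, ht, htu.trans hp, rfl⟩

private theorem tf_disj (V : Set (List Bool)) : (TF0 V).PairwiseDisjoint Cy := by
  intro v hv v' hv' hne
  rw [Function.onFun, Set.disjoint_left]
  intro X h1 h2
  have key : ∀ a b : List Bool, a ∈ TF0 V → b ∈ TF0 V → pre X a.length = a → pre X b.length = b →
      a.length ≤ b.length → a = b := by
    intro a b ha hb e1 e2 hle
    apply hb.2 a ha.1
    rw [← e1, ← e2]
    have h3 : pre X a.length = (pre X b.length).take a.length := by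
      apply List.ext_getElem?
      intro i
      rw [List.getElem?_take]
      unfold pre
      rw [List.getElem?_ofFn, List.getElem?_ofFn]
      by_cases hi : i < a.length
      · rw [dif_pos hi, if_pos hi, dif_pos (lt_of_lt_of_le hi hle)]
      · rw [dif_neg hi, if_neg hi]
    rw [h3]
    exact List.take_prefix _ _
  rcases le_total v.length v'.length with h | h
  · exact hne (key v v' hv hv' h1 h2 h)
  · exact hne (key v' v hv' hv h2 h1 h).symm

/-- TF. Let `V0` be the set of the words of `V` without proper prefix in `V`. If `X ∈ Op (WP f V)` then some word of `V0` is selected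
from some `pre X n` (`run_drop`: the selected word of an earlier trace is a prefix, every prefix
occurs). So the measure is at most `∑_(v ∈ V0) 2^(-|v|)` (`word_le`), which is the measure of the disjoint union of the `Cy v`,
`v ∈ V0` (the measure of `Cy v` is `2^(-|v|)`), a subset of `Op V`. -/
theorem measure_WP (f : List Bool →. ℕ × Bool) (V : Set (List Bool)) :
    mu fair (Op (WP f V)) ≤ mu fair (Op V) := by
  have hsub : Op (WP f V) ⊆ ⋃ v ∈ TF0 V,
      {X | ∃ n k, ∃ l ∈ run f (pre X n) k, sw (pre X n) l = v} := by
    intro X hX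
    obtain ⟨w, hw, hXw⟩ := Set.mem_iUnion₂.1 hX
    obtain ⟨k, l, hl, hv⟩ := hw
    obtain ⟨u, hu, hp⟩ := tf_min V _ hv
    obtain ⟨d, hd, hsw⟩ := tf_prefix w l u hp
    have hXw' : pre X w.length = w := hXw
    have hlen : l.length = k := by
      have hl2 : l ∈ run f (pre X w.length) k := by
        rw [hXw']
        exact hl
      exact (run_hist f X w.length k l hl2).1
    refine Set.mem_iUnion₂.2 ⟨u, hu, w.length, k - d, l.drop d, ?_, ?_⟩
    · rw [hXw']
      have h1 := run_drop f w k (k - d) (Nat.sub_le _ _) l hl
      have h2 : k - (k - d) = d := by omega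
      rw [h2] at h1
      exact h1
    · rw [hXw']
      exact hsw
  calc mu fair (Op (WP f V))
      ≤ mu fair (⋃ v ∈ TF0 V, {X | ∃ n k, ∃ l ∈ run f (pre X n) k, sw (pre X n) l = v}) :=
        measure_mono hsub
    _ ≤ ∑' v : TF0 V, mu fair {X | ∃ n k, ∃ l ∈ run f (pre X n) k, sw (pre X n) l = (v : List Bool)} :=
        measure_biUnion_le _ (Set.to_countable _) _
    _ ≤ ∑' v : TF0 V, mu fair (Cy (v : List Bool)) := by
        refine ENNReal.tsum_le_tsum fun v => ?_
        rw [tf_Cy]
        exact word_le f v
    _ = mu fair (⋃ v ∈ TF0 V, Cy v) :=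
        (measure_biUnion (Set.to_countable _) (tf_disj V) fun v _ => tf_meas v).symm
    _ ≤ mu fair (Op V) := by
        refine measure_mono ?_
        intro X hX
        obtain ⟨v, hv, hXv⟩ := Set.mem_iUnion₂.1 hX
        exact Set.mem_iUnion₂.2 ⟨v, hv.1, hXv⟩

end H48K
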