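import Pool.Agent.Lib.H48K.E3
import Pool.Agent.Lib.H48K.TB
import Pool.Agent.Lib.H48K.TF

/-!
# H48K, chunk TG: sequences selected from random sequences are random
-/

open MeasureTheory Set Filter H69K

namespace H48K

private theorem tg_re {f : List Bool →. ℕ × Bool} (hf : Partrec f) {W : ℕ → Set (List Bool)}
    (hW : REPred (fun x : ℕ × List Bool => x.2 ∈ W x.1)) :
    REPred (fun x : ℕ × List Bool => x.2 ∈ WP f (W x.1)) := by
  have hc : Computable fun y : ℕ × (List Bool × List (ℕ × Bool)) => (y.1, sw y.2.1 y.2.2) :=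
    Computable.pair Computable.fst
      (computable_sw.comp (Computable.fst.comp Computable.snd)
        (Computable.snd.comp Computable.snd))
  have hP : REPred fun y : ℕ × (List Bool × List (ℕ × Bool)) => sw y.2.1 y.2.2 ∈ W y.1 :=
    Partrec.comp hW hc
  exact re_run hf hP

private theorem tg_mem_Cy (X : ℕ → Bool) (n : ℕ) : X ∈ Cy (pre X n) := by
  have h : (pre X n).length = n := by simp [pre]
  change pre X (pre X n).length = pre X n
  rw [h]

/-- TG. For a test `W` of the fair measure `m ↦ WP f (W m)` is a test (`re_run`, `computable_sw`, `measure_WP`); if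
`B ∈ Op (W m)` then `X ∈ Op (WP f (W m))` (`tr_mem_run`, `sw_tr`). -/
theorem random_sel (f : List Bool →. ℕ × Bool) (hf : Partrec f) (X B : ℕ → Bool)
    (hX : Random (mu fair) X) (hs : Sel f X B) : Random (mu fair) B := by
  obtain ⟨pos, sel, hrun, hinj, hinf, hB⟩ := hs
  intro W hW
  obtain ⟨m, hm⟩ := hX (fun m => WP f (W m))
    ⟨tg_re hf hW.1, fun m => (measure_WP f (W m)).trans (hW.2 m)⟩
  refine ⟨m, fun hBm => hm ?_⟩
  obtain ⟨w, hw, hBw⟩ : ∃ w ∈ W m, B ∈ Cy w := by
    simpa [Op] using hBm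
  have hBw' : pre B w.length = w := hBw
  obtain ⟨n, hn⟩ : ∃ n, ∀ i < Nat.nth (fun k => sel k = true) w.length, pos i < n := by
    refine ⟨(Finset.range (Nat.nth (fun k => sel k = true) w.length)).sup pos + 1, fun i hi => ?_⟩
    exact Nat.lt_succ_of_le (Finset.le_sup (f := pos) (Finset.mem_range.2 hi))
  have h1 := tr_mem_run hrun hinj _ n hn
  have h2 := sw_tr (X := X) hinf w.length n hn
  have h3 : (fun j => X (pos (Nat.nth (fun k => sel k = true) j))) = B :=
    funext fun j => (hB j).symm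
  rw [h3, hBw'] at h2
  have h4 : pre X n ∈ WP f (W m) := ⟨_, _, h1, by rw [h2]; exact hw⟩
  have h5 : X ∈ ⋃ w ∈ WP f (W m), Cy w := mem_biUnion h4 (tg_mem_Cy X n)
  exact h5

end H48K
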