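import Pool.Agent.Lib.H48K.TH
import Pool.Agent.Lib.H48K.G2
import Pool.Agent.Lib.H48K.G3

/-!
# H48K, chunk TI: the decisions along random sequences
-/

open MeasureTheory Set Filter H69K

namespace H48K

variable {a b s t M L : ℕ → ℕ} {p : ℕ → unitInterval}

private theorem ti_getD (X : ℕ → Bool) {n j : ℕ} (h : j < n) : (pre X n).getD j false = X j := by
  unfold pre
  rw [List.getD_eq_getElem _ _ (by rw [List.length_ofFn]; exact h), List.getElem_ofFn]

private theorem ti_cy {X : ℕ → Bool} {w : List Bool} (hX : X ∈ Cy w) {j : ℕ} (h : j < w.length) :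
    w.getD j false = X j := by
  have h1 : pre X w.length = w := hX
  have h2 := ti_getD X h
  rw [h1] at h2
  exact h2

private theorem ti_dec (M r L : ℕ) {y z : ℕ → Bool} (h : ∀ i < L, y i = z i) :
    dec a b M r L y = dec a b M r L z := by
  have h1 : AG a b M r L y = AG a b M r L z := by
    unfold AG
    refine Finset.sum_congr rfl fun i hi => ?_
    rw [h i (Finset.mem_range.1 hi)]
  unfold dec
  rw [h1]

private theorem ti_exp (n : ℕ) :
    ENNReal.ofReal (Real.exp (-((n : ℝ) + 1))) ≤ (2⁻¹ : ENNReal) ^ (n + 1) := by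
  have h1 : Real.exp (-((n : ℝ) + 1)) = Real.exp (-1) ^ (n + 1) := by
    rw [← Real.exp_nat_mul]
    congr 1
    push_cast
    ring
  have h2 : Real.exp (-1) ≤ 2⁻¹ := by
    rw [Real.exp_neg]
    have h3 := Real.add_one_le_exp (1 : ℝ)
    exact inv_anti₀ (by norm_num) (by linarith)
  have h4 : Real.exp (-1) ^ (n + 1) ≤ (2⁻¹ : ℝ) ^ (n + 1) :=
    pow_le_pow_left₀ (Real.exp_pos _).le h2 _
  rw [h1]
  refine (ENNReal.ofReal_le_ofReal h4).trans ?_
  rw [ENNReal.ofReal_pow (by norm_num), ENNReal.ofReal_inv_of_pos (by norm_num)]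
  norm_num

/-- TI1. `err1`, `err2`, and `∑_(n ≥ m+2) 2 exp (-(n+1)) ≤ 2^(-m)`. -/
theorem measure_WD (hP : Plan a b s t M L) (hb0 : ∀ n, 0 < b n)
    (hp : ∀ n, (p n : ℝ) = (a n : ℝ) / b n) (m : ℕ) :
    mu p (Op (WD a b s t M L m)) ≤ (2⁻¹ : ENNReal) ^ m := by
  have hsub : Op (WD a b s t M L m) ⊆ ⋃ k : ℕ,
      ({X : ℕ → Bool | dec a b (M (m + 2 + k)) (s (m + 2 + k) + 1) (L (m + 2 + k))
          (fun i => X (s (m + 2 + k) + 1 + i)) = false} ∪
        {X : ℕ → Bool | dec a b (M (m + 2 + k)) (s (m + 2 + k) + 1) (L (m + 2 + k))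
          (fun i => X (t (m + 2 + k) + i)) = true}) := by
    intro X hX
    unfold Op at hX
    rw [Set.mem_iUnion₂] at hX
    obtain ⟨w, hw, hXw⟩ := hX
    obtain ⟨n, hn, hlen, hdec⟩ := hw
    rw [Set.mem_iUnion]
    refine ⟨n - (m + 2), ?_⟩
    have hn2 : m + 2 + (n - (m + 2)) = n := by omega
    rw [hn2]
    have hle := hP.le n
    rcases hdec with h | h
    · left
      rw [Set.mem_ofPred_eq, ← h]
      refine ti_dec _ _ _ fun i hi => ?_
      exact (ti_cy hXw (by omega)).symm
    · right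
      rw [Set.mem_ofPred_eq, ← h]
      refine ti_dec _ _ _ fun i hi => ?_
      exact (ti_cy hXw (by omega)).symm
  refine (measure_mono hsub).trans ((measure_iUnion_le _).trans ?_)
  have h1 : ∀ k : ℕ, mu p
      ({X : ℕ → Bool | dec a b (M (m + 2 + k)) (s (m + 2 + k) + 1) (L (m + 2 + k))
          (fun i => X (s (m + 2 + k) + 1 + i)) = false} ∪
        {X : ℕ → Bool | dec a b (M (m + 2 + k)) (s (m + 2 + k) + 1) (L (m + 2 + k))
          (fun i => X (t (m + 2 + k) + i)) = true}) ≤
      2 * (2⁻¹ : ENNReal) ^ (m + 3) * (2⁻¹ : ENNReal) ^ k := by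
    intro k
    refine (measure_union_le _ _).trans ?_
    have e1 := (err1 hP hb0 hp (m + 2 + k)).trans (ti_exp _)
    have e2 := (err2 hP hb0 hp (m + 2 + k)).trans (ti_exp _)
    refine (add_le_add e1 e2).trans (le_of_eq ?_)
    rw [← two_mul, mul_assoc, ← pow_add]
    congr 2
    ring
  refine (ENNReal.tsum_le_tsum h1).trans ?_
  rw [ENNReal.tsum_mul_left, ENNReal.tsum_geometric, ENNReal.one_sub_inv_two, inv_inv]
  have h2 : (2 : ENNReal) * (2⁻¹ : ENNReal) ^ (m + 3) * 2 = (2⁻¹ : ENNReal) ^ (m + 1) := by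
    have h3 : (2 : ENNReal) * 2⁻¹ = 1 := ENNReal.mul_inv_cancel (by norm_num) (by norm_num)
    calc (2 : ENNReal) * (2⁻¹ : ENNReal) ^ (m + 3) * 2
        = (2 * 2⁻¹) * (2 * 2⁻¹) * (2⁻¹ : ENNReal) ^ (m + 1) := by ring
      _ = (2⁻¹ : ENNReal) ^ (m + 1) := by rw [h3, one_mul, one_mul]
  rw [h2, pow_succ]
  exact mul_le_of_le_one_right (by simp) (by simp)

/-- TI2. If `X ∉ Op (WD m)` then for `n ≥ m + 2` the decision of the first region is positive, that of the second
region negative, so `D X n = X (s n)` (compare `ae_dec` in `F.lean`). -/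
theorem random_dec (ha : Computable a) (hb : Computable b) (hs : Computable s) (ht : Computable t)
    (hM : Computable M) (hL : Computable L) (hP : Plan a b s t M L) (hb0 : ∀ n, 0 < b n)
    (hp : ∀ n, (p n : ℝ) = (a n : ℝ) / b n) (X : ℕ → Bool) (hX : Random (mu p) X) :
    ∀ᶠ n in atTop, D a b s t M L X n = X (s n) := by
  obtain ⟨m, hm⟩ := hX (WD a b s t M L)
    ⟨re_WD ha hb hs ht hM hL, fun m => measure_WD hP hb0 hp m⟩
  rw [eventually_atTop]
  refine ⟨m + 2, fun n hn => ?_⟩
  have hlen : (pre X (t n + L n)).length = t n + L n := by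
    unfold pre
    rw [List.length_ofFn]
  have hle := hP.le n
  have hmem : X ∈ Cy (pre X (t n + L n)) := by
    show pre X (pre X (t n + L n)).length = pre X (t n + L n)
    rw [hlen]
  have hnot : pre X (t n + L n) ∉ WD a b s t M L m := by
    intro h
    apply hm
    unfold Op
    rw [Set.mem_iUnion₂]
    exact ⟨_, h, hmem⟩
  have h1 : dec a b (M n) (s n + 1) (L n) (fun i => (pre X (t n + L n)).getD (s n + 1 + i) false) =
      dec a b (M n) (s n + 1) (L n) (fun i => X (s n + 1 + i)) :=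
    ti_dec _ _ _ fun i hi => ti_getD X (by omega)
  have h2 : dec a b (M n) (s n + 1) (L n) (fun i => (pre X (t n + L n)).getD (t n + i) false) =
      dec a b (M n) (s n + 1) (L n) (fun i => X (t n + i)) :=
    ti_dec _ _ _ fun i hi => ti_getD X (by omega)
  unfold D
  cases hx : X (s n) with
  | true =>
    have h3 : reg s t X n = fun i => X (s n + 1 + i) := by
      funext i
      unfold reg
      rw [if_pos hx]
    rw [h3]
    by_contra hcon
    rw [Bool.not_eq_true] at hcon
    exact hnot ⟨n, hn, hlen.ge, Or.inl (h1.trans hcon)⟩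
  | false =>
    have h3 : reg s t X n = fun i => X (t n + i) := by
      funext i
      unfold reg
      rw [if_neg (by rw [hx]; exact Bool.false_ne_true)]
    rw [h3]
    by_contra hcon
    rw [Bool.not_eq_false] at hcon
    exact hnot ⟨n, hn, hlen.ge, Or.inr (h2.trans hcon)⟩

end H48K
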