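import Pool.Agent.Lib.H48K.Defs3

/-!
# H48K, chunk TJ: almost every sequence is random; headers
-/

open MeasureTheory Set Filter H69K

namespace H48K

/-- TJ1. Only countably many recursively enumerable predicates (compare `H69K.countable_rules`). -/
theorem countable_re : {W : ℕ → Set (List Bool) |
    REPred (fun x : ℕ × List Bool => x.2 ∈ W x.1)}.Countable := by
  classical
  have h1 : ∀ W : {W : ℕ → Set (List Bool) | REPred (fun x : ℕ × List Bool => x.2 ∈ W x.1)},
      ∃ c : Nat.Partrec.Code,
      c.eval = fun n => Part.bind (Encodable.decode (α := ℕ × List Bool) n) fun a : ℕ × List Bool =>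
        (Part.assert (a.2 ∈ W.1 a.1) fun _ => Part.some ()).map Encodable.encode :=
    fun W => Nat.Partrec.Code.exists_code.1 W.2
  choose code hcode using h1
  have h2 : Function.Injective code := by
    intro f g hfg
    apply Subtype.ext
    funext m
    apply Set.ext
    intro w
    have h3 := hcode f
    rw [hfg, hcode g] at h3
    have h4 := congrFun h3 (Encodable.encode ((m, w) : ℕ × List Bool))
    simp only [Encodable.encodek, Part.coe_some, Part.bind_some] at h4
    have h5 := congrArg Part.Dom h4
    have h6 : (w ∈ g.1 m) = (w ∈ f.1 m) := by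
      have e : ∀ P : Prop, (Part.map (Encodable.encode : Unit → ℕ)
          (Part.assert P fun _ => Part.some ())).Dom = P := by
        intro P
        apply propext
        constructor
        · rintro ⟨h, _⟩
          exact h
        · intro h
          exact ⟨h, trivial⟩
      rw [e, e] at h5
      exact h5
    rw [h6]
  exact Set.countable_coe_iff.1 (Function.Injective.countable h2)

/-- TJ2. Almost every sequence is random (`ν (⋂ m, Op (W m)) = 0` for every test). -/
theorem ae_random (ν : Measure (ℕ → Bool)) : ∀ᵐ X ∂ν, Random ν X := by
  have h1 : ∀ W ∈ {W : ℕ → Set (List Bool) | REPred (fun x : ℕ × List Bool => x.2 ∈ W x.1)},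
      ∀ᵐ X ∂ν, (Test ν W → ∃ m, X ∉ Op (W m)) := by
    intro W _
    by_cases hT : Test ν W
    · have h2 : ν (⋂ m, Op (W m)) = 0 := by
        refine le_antisymm ?_ (zero_le)
        have h3 : Tendsto (fun m : ℕ => (2⁻¹ : ENNReal) ^ m) atTop (nhds 0) :=
          ENNReal.tendsto_pow_atTop_nhds_zero_of_lt_one (by
            rw [ENNReal.inv_lt_one]
            exact ENNReal.one_lt_two)
        refine ge_of_tendsto' h3 fun m => ?_
        exact (measure_mono (Set.iInter_subset _ m)).trans (hT.2 m)
      have h4 : ∀ᵐ X ∂ν, X ∉ ⋂ m, Op (W m) := measure_eq_zero_iff_ae_notMem.1 h2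
      filter_upwards [h4] with X hX _
      simpa using hX
    · exact Filter.Eventually.of_forall fun X h => absurd h hT
  have h2 := (ae_ball_iff countable_re).2 h1
  filter_upwards [h2] with X hX W hW
  exact hX W hW.1 hW

/-- TJ3. In a KL-stochastic sequence infinitely many of the bits at the places `s n` are `true` (rule
`v ↦ (s v.length, true)`; compare `ae_headers` in `F.lean`). -/
theorem infinite_headers {s : ℕ → ℕ} (hs : Computable s) (hinj : Function.Injective s) (X : ℕ → Bool)
    (hX : KLStochastic X) : Set.Infinite {n | X (s n) = true} := by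
  have hc : Computable fun v : List Bool => ((s v.length, true) : ℕ × Bool) :=
    Computable.pair (hs.comp Computable.list_length) (Computable.const true)
  have hn : ∀ j, Nat.nth (fun k : ℕ => (fun _ : ℕ => true) k = true) j = j := by
    intro j
    have : (fun k : ℕ => (fun _ : ℕ => true) k = true) = fun _ => True := by
      funext k
      simp
    rw [this]
    exact Nat.nth_true j
  have h1 : LLN fun j => X (s j) := by
    refine hX (fun v => Part.some (s v.length, true)) hc.partrec _
      ⟨s, fun _ => true, fun k => by simp, hinj, by simpa using Set.infinite_univ, fun j => ?_⟩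
    rw [hn]
  by_contra hfin
  rw [Set.not_infinite] at hfin
  obtain ⟨N, hN⟩ := hfin.bddAbove
  have h3 : ∀ m : ℕ, (((Finset.range m).filter (fun j => X (s j) = true)).card : ℝ) ≤ (N : ℝ) + 1 := by
    intro m
    have h4 : (Finset.range m).filter (fun j => X (s j) = true) ⊆ Finset.range (N + 1) := by
      intro j hj
      rw [Finset.mem_filter] at hj
      rw [Finset.mem_range]
      have := hN hj.2
      omega
    have h5 := Finset.card_le_card h4
    rw [Finset.card_range] at h5
    exact_mod_cast h5
  have h4 : Tendsto (fun m : ℕ => ((N : ℝ) + 1) / (m : ℝ)) atTop (nhds 0) :=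
    tendsto_const_div_atTop_nhds_zero_nat _
  have h5 := le_of_tendsto_of_tendsto' h1 h4 fun m => by
    by_cases hm : m = 0
    · subst hm
      simp
    · exact div_le_div_of_nonneg_right (h3 m) (Nat.cast_nonneg m)
  norm_num at h5

end H48K
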