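import Pool.Agent.Lib.H48K.F2
import Pool.Agent.Lib.H48K.TC
import Pool.Agent.Lib.H48K.TD
import Pool.Agent.Lib.H48K.TG
import Pool.Agent.Lib.H48K.TI
import Pool.Agent.Lib.H48K.TJ

/-!
# H48K, chunk F3: the closure property for random sequences of computable product measures
-/

open MeasureTheory Set Filter H69K

namespace H48K

theorem tendsto_fair : Tendsto (fun n => (fair n : ℝ)) atTop (nhds (1 / 2)) := by
  unfold fair
  exact tendsto_const_nhds

/-- Sequences obtained from a random sequence by successive selections are random. -/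
theorem random_hered {X B : ℕ → Bool} (hX : Random (mu fair) X)
    (hB : Relation.ReflTransGen Step X B) : Random (mu fair) B := by
  induction hB with
  | refl => exact hX
  | tail _ h ih =>
    obtain ⟨f, hf, hs⟩ := h
    exact random_sel f hf _ _ ih hs

/-- A sequence which is `true` from some place on does not satisfy the law of large numbers. -/
theorem not_LLN {C : ℕ → Bool} (hC : ∀ᶠ j in atTop, C j = true) : ¬ LLN C := by
  intro h
  obtain ⟨N, hN⟩ := eventually_atTop.1 hC
  have h1 : ∀ m : ℕ, N ≤ m → 0 < m → (1 : ℝ) - (N : ℝ) / m ≤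
      (((Finset.range m).filter (fun j => C j = true)).card : ℝ) / (m : ℝ) := by
    intro m hm hm0
    have hm1 : (0 : ℝ) < m := by exact_mod_cast hm0
    have h2 : (Finset.range m) \ (Finset.range N) ⊆ (Finset.range m).filter (fun j => C j = true) := by
      intro j hj
      rw [Finset.mem_sdiff, Finset.mem_range, Finset.mem_range] at hj
      rw [Finset.mem_filter, Finset.mem_range]
      exact ⟨hj.1, hN j (not_lt.1 hj.2)⟩
    have h3 := Finset.card_le_card h2
    rw [Finset.card_sdiff_of_subset (Finset.range_subset_range.2 hm), Finset.card_range,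
      Finset.card_range] at h3
    have h4 : ((m : ℝ) - N) ≤ (((Finset.range m).filter (fun j => C j = true)).card : ℝ) := by
      rw [← Nat.cast_sub hm]
      exact_mod_cast h3
    rw [le_div_iff₀ hm1, sub_mul, div_mul_cancel₀ _ hm1.ne', one_mul]
    exact h4
  have h2 : Tendsto (fun m : ℕ => (1 : ℝ) - (N : ℝ) / (m : ℝ)) atTop (nhds (1 - 0)) :=
    tendsto_const_nhds.sub (tendsto_const_div_atTop_nhds_zero_nat _)
  have h3 := le_of_tendsto_of_tendsto h2 h (by
    filter_upwards [eventually_ge_atTop N, eventually_gt_atTop 0] with m hm hm0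
    exact h1 m hm hm0)
  norm_num at h3

variable {a b : ℕ → ℕ} {p : ℕ → unitInterval}

/-- The two rules, for all random sequences. -/
theorem rules (ha : Computable a) (hb : Computable b) (hab : ∀ n, a n ≤ b n)
    (hb0 : ∀ n, 0 < b n) (hp : ∀ n, (p n : ℝ) = (a n : ℝ) / b n)
    (hlim : Tendsto (fun n => (p n : ℝ)) atTop (nhds (1 / 2)))
    (hns : ¬ Summable fun n => ((p n : ℝ) - 1 / 2) ^ 2) :
    ∃ f g : List Bool → ℕ × Bool, Computable f ∧ Computable g ∧
      (∀ v x, (f v).2 = true ∧ (f v).1 < (f (v ++ [x])).1) ∧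
      ∀ X, Random (mu p) X → ∃ B C : ℕ → Bool, Sel (fun v => Part.some (f v)) X B ∧
        Sel (fun v => Part.some (g v)) B C ∧ ∀ᶠ j in atTop, C j = true := by
  have hp' : (fun n => (p n : ℝ)) = fun n => (a n : ℝ) / b n := funext hp
  have hlim' : Tendsto (fun n => (a n : ℝ) / b n) atTop (nhds (1 / 2)) := by
    rw [← hp']
    exact hlim
  have hns' : ¬ Summable fun n => ((a n : ℝ) / b n - 1 / 2) ^ 2 := by
    have : (fun n => ((a n : ℝ) / b n - 1 / 2) ^ 2) = fun n => ((p n : ℝ) - 1 / 2) ^ 2 := by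
      funext n
      rw [hp]
    rw [this]
    exact hns
  obtain ⟨s, t, M, L, hs, ht, hM, hL, hP⟩ := exists_plan ha hb hab hb0 hlim' hns'
  refine ⟨f1 s t L, f2 a b s M L, computable_f1 hs ht hL, computable_f2 ha hb hs hM hL,
    fun v x => ⟨f1_sel v, f1_mono hP v x⟩, fun X hX => ?_⟩
  have hmono : StrictMono s := by
    apply strictMono_nat_of_lt_succ
    intro n
    have h1 := hP.le n
    have h2 := hP.succ n
    omega
  have hX1 := random_dec ha hb hs ht hM hL hP hb0 hp X hX
  have hX2 := infinite_headers hs hmono.injective X (random_KL p hlim X hX)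
  have hinf : Set.Infinite {n | D a b s t M L X n = true} := by
    intro hfin
    apply hX2
    obtain ⟨N, hN⟩ := eventually_atTop.1 hX1
    refine (hfin.union (Set.finite_lt_nat N)).subset ?_
    intro n hn
    by_cases h : n < N
    · exact Or.inr h
    · left
      have h1 := hN n (not_lt.1 h)
      show D a b s t M L X n = true
      rw [h1]
      exact hn
  obtain ⟨C, hC1, hC2⟩ := sel_f2 hP X hinf hX1
  exact ⟨BB s t L X, C, sel_f1 hP X, hC1, hC2⟩

theorem partrec_some {f : List Bool → ℕ × Bool} (hf : Computable f) :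
    Partrec fun v => Part.some (f v) := hf

/-- The equivalences. -/
theorem pointwise (ha : Computable a) (hb : Computable b) (hab : ∀ n, a n ≤ b n)
    (hb0 : ∀ n, 0 < b n) (hp : ∀ n, (p n : ℝ) = (a n : ℝ) / b n)
    (hlim : Tendsto (fun n => (p n : ℝ)) atTop (nhds (1 / 2))) (X : ℕ → Bool)
    (hX : Random (mu p) X) :
    KLStochastic X ∧
    ((Summable fun n => ((p n : ℝ) - 1 / 2) ^ 2) ↔ Random (mu fair) X) ∧
    ((Summable fun n => ((p n : ℝ) - 1 / 2) ^ 2) ↔ ∀ B : ℕ → Bool, Step X B → KLStochastic B) ∧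
    ((Summable fun n => ((p n : ℝ) - 1 / 2) ^ 2) ↔
      ∀ B : ℕ → Bool, Relation.ReflTransGen Step X B → KLStochastic B) := by
  have h1 : (Summable fun n => ((p n : ℝ) - 1 / 2) ^ 2) → Random (mu fair) X :=
    fun h => random_fair p h X hX
  have h2 : Random (mu fair) X → ∀ B : ℕ → Bool, Relation.ReflTransGen Step X B → KLStochastic B :=
    fun h B hB => random_KL fair tendsto_fair B (random_hered h hB)
  have h3 : (∀ B : ℕ → Bool, Relation.ReflTransGen Step X B → KLStochastic B) →
      ∀ B : ℕ → Bool, Step X B → KLStochastic B :=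
    fun h B hB => h B (Relation.ReflTransGen.single hB)
  have h4 : (∀ B : ℕ → Bool, Step X B → KLStochastic B) →
      Summable fun n => ((p n : ℝ) - 1 / 2) ^ 2 := by
    intro h
    by_contra hns
    obtain ⟨f, g, hf, hg, -, hfg⟩ := rules ha hb hab hb0 hp hlim hns
    obtain ⟨B, C, hB, hC, hC1⟩ := hfg X hX
    exact not_LLN hC1 (h B ⟨_, partrec_some hf, hB⟩ _ (partrec_some hg) C hC)
  exact ⟨random_KL p hlim X hX, ⟨h1, fun h => h4 (h3 (h2 h))⟩, ⟨fun h => h3 (h2 (h1 h)), h4⟩,
    ⟨fun h => h2 (h1 h), fun h => h4 (h3 h)⟩⟩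

end H48K
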