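import Pool.Agent.Lib.H48K.U2
import Pool.Agent.Lib.H48K.E3
import Pool.Agent.Lib.H48K.TB

/-!
# H48K, chunk U3: KL-stochastic random sequences have probabilities which tend to `1/2`
-/

open MeasureTheory Set Filter H69K

namespace H48K

variable {a b : ℕ → ℕ} {p : ℕ → unitInterval}

/-- U3a. As `re_WL` (chunk TB). -/
theorem re_WU (ha : Computable a) (hb : Computable b) (j : ℕ) (c : Bool) (N : ℕ) :
    REPred fun x : ℕ × List Bool => x.2 ∈ WU a b j c N x.1 := by
  have hns : Primrec (fun x : ℕ × (List Bool × List (ℕ × Bool)) => nsel x.2.2) :=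
    TB_primrec_nsel.comp (Primrec.snd.comp Primrec.snd)
  have hnv : Primrec (fun x : ℕ × (List Bool × List (ℕ × Bool)) => nval x.2.1 x.2.2 c) :=
    (TB_primrec_nval c).comp Primrec.snd
  have h1 : PrimrecPred (fun x : ℕ × (List Bool × List (ℕ × Bool)) =>
      N * (x.1 + 1) ≤ nsel x.2.2) :=
    Primrec.nat_le.comp (Primrec.nat_mul.comp (Primrec.const N) (Primrec.succ.comp Primrec.fst)) hns
  have h2 : PrimrecPred (fun x : ℕ × (List Bool × List (ℕ × Bool)) =>
      2 * (j + 1) * nval x.2.1 x.2.2 c ≤ (j + 2) * nsel x.2.2) :=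
    Primrec.nat_le.comp (Primrec.nat_mul.comp (Primrec.const (2 * (j + 1))) hnv)
      (Primrec.nat_mul.comp (Primrec.const (j + 2)) hns)
  have h3 := h1.and h2
  obtain ⟨hd, h4⟩ := h3
  have h5 : REPred (fun x : ℕ × (List Bool × List (ℕ × Bool)) =>
      N * (x.1 + 1) ≤ nsel x.2.2 ∧ 2 * (j + 1) * nval x.2.1 x.2.2 c ≤ (j + 2) * nsel x.2.2) :=
    ComputablePred.to_re ⟨hd, h4.to_comp⟩
  have hf : Partrec (fun v : List Bool => Part.some (fl a b j c v)) := computable_fl ha hb j c
  exact re_run hf h5

/-- The portion of each value in a sequence which satisfies the law of large numbers. -/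
private theorem u3_ev {B : ℕ → Bool} (h : LLN B) (j : ℕ) (c : Bool) :
    ∀ᶠ m : ℕ in atTop,
      2 * (j + 1) * ((Finset.range m).filter (fun i => B i = c)).card ≤ (j + 2) * m := by
  have hj : (0 : ℝ) < (j : ℝ) + 1 := by positivity
  set ε : ℝ := 1 / (2 * ((j : ℝ) + 1)) with hε
  have hε0 : 0 < ε := by positivity
  have hεj : ε * (2 * ((j : ℝ) + 1)) = 1 := by
    rw [hε]
    field_simp
  unfold LLN at h
  have h1 : ∀ᶠ m : ℕ in atTop,
      (((Finset.range m).filter (fun i => B i = true)).card : ℝ) / (m : ℝ) < 1 / 2 + ε :=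
    h.eventually_lt_const (by linarith)
  have h2 : ∀ᶠ m : ℕ in atTop,
      1 / 2 - ε < (((Finset.range m).filter (fun i => B i = true)).card : ℝ) / (m : ℝ) :=
    h.eventually_const_lt (by linarith)
  filter_upwards [h1, h2, eventually_gt_atTop 0] with m h3 h4 hm
  have hm' : (0 : ℝ) < m := by exact_mod_cast hm
  rw [div_lt_iff₀ hm'] at h3
  rw [lt_div_iff₀ hm'] at h4
  have h5 : (((Finset.range m).filter (fun i => B i = c)).card : ℝ) ≤ (1 / 2 + ε) * m := by
    cases c
    · have h6 : ((Finset.range m).filter (fun i => B i = true)).card +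
          ((Finset.range m).filter (fun i => B i = false)).card = m := by
        have h7 := Finset.card_filter_add_card_filter_not (s := Finset.range m) (fun i => B i = true)
        rw [Finset.card_range] at h7
        have h8 : (Finset.range m).filter (fun i => B i = false) =
            (Finset.range m).filter (fun i => ¬ B i = true) :=
          Finset.filter_congr fun i _ => by simp
        rw [h8]
        exact h7
      have h8 : (((Finset.range m).filter (fun i => B i = true)).card : ℝ) +
          (((Finset.range m).filter (fun i => B i = false)).card : ℝ) = m := by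
        exact_mod_cast h6
      linarith
    · exact h3.le
  have h9 : 2 * ((j : ℝ) + 1) * (((Finset.range m).filter (fun i => B i = c)).card : ℝ) ≤
      ((j : ℝ) + 2) * m := by
    calc 2 * ((j : ℝ) + 1) * (((Finset.range m).filter (fun i => B i = c)).card : ℝ)
        ≤ 2 * ((j : ℝ) + 1) * ((1 / 2 + ε) * m) := mul_le_mul_of_nonneg_left h5 (by positivity)
      _ = ((j : ℝ) + 1) * m + (ε * (2 * ((j : ℝ) + 1))) * m := by ring
      _ = ((j : ℝ) + 2) * m := by rw [hεj]; ring
  exact_mod_cast h9

/-- U3b. Otherwise take `j`, `c` from `exists_likely`; the rule `fl a b j c` selects an infinite sequence `B` (the run is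
`pos k = k`, `sel k = likely a b j c k`), `B` satisfies the law of large numbers, so the portion of `c` is
`≤ 1/2 + 1/(2(j+1))` for all large `n`, and (`tr_mem_run`, `nsel_tr`, `nval_tr`) `X ∈ Op (WU a b j c N m)` for all `m`,
a contradiction to randomness (`exists_WU`, `re_WU`). -/
theorem tendsto_of_KL (ha : Computable a) (hb : Computable b) (hab : ∀ n, a n ≤ b n)
    (hb0 : ∀ n, 0 < b n) (hp : ∀ n, (p n : ℝ) = (a n : ℝ) / b n) (X : ℕ → Bool)
    (hX : Random (mu p) X) (hKL : KLT X) :
    Tendsto (fun n => (p n : ℝ)) atTop (nhds (1 / 2)) := by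
  by_contra hnt
  have hnt' : ¬ Tendsto (fun n => (a n : ℝ) / b n) atTop (nhds (1 / 2)) := by
    intro h
    apply hnt
    exact h.congr fun n => (hp n).symm
  obtain ⟨j, c, hinf⟩ := exists_likely hab hb0 hnt'
  have hrun : ∀ k : ℕ, (fun v : List Bool => Part.some (fl a b j c v))
      (List.ofFn (fun i : Fin k => X (id (i : ℕ)))) = Part.some (id k, likely a b j c k) := by
    intro k
    simp [fl]
  have hSel : Sel (fun v : List Bool => Part.some (fl a b j c v)) X
      (fun i => X (id (Nat.nth (fun k => likely a b j c k = true) i))) :=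
    ⟨id, likely a b j c, hrun, Function.injective_id, hinf, fun i => rfl⟩
  have hL := hKL _ (computable_fl ha hb j c) _ hSel
  obtain ⟨N, hN⟩ := exists_WU hab hb0 hp j c
  obtain ⟨m, hm⟩ := hX (WU a b j c N) ⟨re_WU ha hb j c N, hN⟩
  apply hm
  obtain ⟨M, hM1, hM2⟩ := ((u3_ev hL j c).and (eventually_ge_atTop (N * (m + 1)))).exists
  have hc : Nat.count (fun i => likely a b j c i = true)
      (Nat.nth (fun k => likely a b j c k = true) M) = M :=
    Nat.count_nth_of_infinite (p := fun k => likely a b j c k = true) hinf M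
  have hlt : ∀ i < Nat.nth (fun k => likely a b j c k = true) M,
      id i < Nat.nth (fun k => likely a b j c k = true) M + 1 := by
    intro i hi
    simp only [id]
    omega
  unfold Op
  rw [Set.mem_iUnion₂]
  refine ⟨pre X (Nat.nth (fun k => likely a b j c k = true) M + 1),
    ⟨Nat.nth (fun k => likely a b j c k = true) M,
      tr id (likely a b j c) (Nat.nth (fun k => likely a b j c k = true) M),
      tr_mem_run hrun Function.injective_id _ _ hlt, ?_, ?_⟩, ?_⟩
  · rw [nsel_tr, hc]
    exact hM2
  · rw [nsel_tr, hc, nval_tr hinf M _ c hlt]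
    exact hM1
  · simp [Cy, pre]

end H48K
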