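import Pool.Agent.Lib.H48K.F3
import Pool.Agent.Lib.H48K.U3

/-!
# H48K, chunk F4: the final form for all computable product measures
-/

open MeasureTheory Set Filter H69K

namespace H48K

/-- The identity rule. -/
theorem step_refl (X : ℕ → Bool) : Step X X := by
  refine ⟨fun v => Part.some (v.length, true), ?_, fun k => k, fun _ => true, ?_, ?_, ?_, ?_⟩
  · exact (Primrec.list_length.to_comp.pair (Computable.const true) :
      Computable fun v : List Bool => (v.length, true))
  · intro k
    simp
  · exact fun x y h => h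
  · simpa using Set.infinite_univ
  · intro j
    have h : (fun k : ℕ => (fun _ : ℕ => true) k = true) = fun _ => True := by
      funext k
      simp
    show X j = X (Nat.nth (fun k : ℕ => (fun _ : ℕ => true) k = true) j)
    rw [h, Nat.nth_true]

/-- All results of two successive selections by total computable rules satisfy the law of large
numbers. -/
def Clo2 (X : ℕ → Bool) : Prop :=
  ∀ f g : List Bool → ℕ × Bool, Computable f → Computable g → ∀ B C : ℕ → Bool,
    Sel (fun v => Part.some (f v)) X B → Sel (fun v => Part.some (g v)) B C → LLN C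

theorem sel_refl (X : ℕ → Bool) :
    Sel (fun v : List Bool => Part.some ((fun v : List Bool => (v.length, true)) v)) X X := by
  refine ⟨fun k => k, fun _ => true, ?_, ?_, ?_, ?_⟩
  · intro k
    simp
  · exact fun x y h => h
  · simpa using Set.infinite_univ
  · intro j
    have h : (fun k : ℕ => (fun _ : ℕ => true) k = true) = fun _ => True := by
      funext k
      simp
    show X j = X (Nat.nth (fun k : ℕ => (fun _ : ℕ => true) k = true) j)
    rw [h, Nat.nth_true]

theorem Clo2.toT {X : ℕ → Bool} (h : Clo2 X) : KLT X := fun g hg C hC =>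
  h (fun v => (v.length, true)) g
    (Primrec.list_length.to_comp.pair (Computable.const true) :
      Computable fun v : List Bool => (v.length, true)) hg X C (sel_refl X) hC

theorem clo2_of_closed {X : ℕ → Bool} (h : ∀ B : ℕ → Bool, Step X B → KLStochastic B) : Clo2 X :=
  fun f g hf hg B C hB hC => h B ⟨_, partrec_some hf, hB⟩ _ (partrec_some hg) C hC

variable {a b : ℕ → ℕ} {p : ℕ → unitInterval}

theorem kl_iff_tendsto (ha : Computable a) (hb : Computable b) (hab : ∀ n, a n ≤ b n)
    (hb0 : ∀ n, 0 < b n) (hp : ∀ n, (p n : ℝ) = (a n : ℝ) / b n) (X : ℕ → Bool)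
    (hX : Random (mu p) X) :
    KLStochastic X ↔ Tendsto (fun n => (p n : ℝ)) atTop (nhds (1 / 2)) :=
  ⟨fun h => tendsto_of_KL ha hb hab hb0 hp X hX h.toT, fun h => random_KL p h X hX⟩

/-- Summable squares of the biases: the biases tend to zero. -/
theorem tendsto_of_summable (h : Summable fun n => ((p n : ℝ) - 1 / 2) ^ 2) :
    Tendsto (fun n => (p n : ℝ)) atTop (nhds (1 / 2)) := by
  have h1 := h.tendsto_atTop_zero
  have h2 : Tendsto (fun n => |(p n : ℝ) - 1 / 2|) atTop (nhds 0) := by
    have h3 := (Real.continuous_sqrt.tendsto 0).comp h1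
    rw [Real.sqrt_zero] at h3
    refine h3.congr fun n => ?_
    show Real.sqrt (((p n : ℝ) - 1 / 2) ^ 2) = |(p n : ℝ) - 1 / 2|
    exact Real.sqrt_sq_eq_abs _
  have h4 := (tendsto_zero_iff_abs_tendsto_zero _).2 h2
  have h5 := h4.add (tendsto_const_nhds (x := (1 / 2 : ℝ)))
  simp only [zero_add] at h5
  refine h5.congr fun n => ?_
  ring

theorem final (ha : Computable a) (hb : Computable b) (hab : ∀ n, a n ≤ b n)
    (hb0 : ∀ n, 0 < b n) (hp : ∀ n, (p n : ℝ) = (a n : ℝ) / b n) (X : ℕ → Bool)
    (hX : Random (mu p) X) :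
    (Random (mu fair) X ↔ Summable fun n => ((p n : ℝ) - 1 / 2) ^ 2) ∧
    (Random (mu fair) X ↔ Clo2 X) ∧
    (Random (mu fair) X ↔ ∀ B : ℕ → Bool, Step X B → KLStochastic B) ∧
    (Random (mu fair) X ↔ ∀ B : ℕ → Bool, Relation.ReflTransGen Step X B → KLStochastic B) := by
  have h1 : (Summable fun n => ((p n : ℝ) - 1 / 2) ^ 2) → Random (mu fair) X :=
    fun h => random_fair p h X hX
  have h2 : Random (mu fair) X → ∀ B : ℕ → Bool, Relation.ReflTransGen Step X B → KLStochastic B :=
    fun h B hB => random_KL fair tendsto_fair B (random_hered h hB)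
  have h3 : (∀ B : ℕ → Bool, Relation.ReflTransGen Step X B → KLStochastic B) →
      ∀ B : ℕ → Bool, Step X B → KLStochastic B :=
    fun h B hB => h B (Relation.ReflTransGen.single hB)
  have h4 : Clo2 X → Summable fun n => ((p n : ℝ) - 1 / 2) ^ 2 := by
    intro h
    have hlim := tendsto_of_KL ha hb hab hb0 hp X hX h.toT
    by_contra hns
    obtain ⟨f, g, hf, hg, -, hfg⟩ := rules ha hb hab hb0 hp hlim hns
    obtain ⟨B, C, hB, hC, hC1⟩ := hfg X hX
    exact not_LLN hC1 (h f g hf hg B C hB hC)
  have h5 : (∀ B : ℕ → Bool, Step X B → KLStochastic B) → Clo2 X := clo2_of_closed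
  exact ⟨⟨fun h => h4 (h5 (h3 (h2 h))), h1⟩, ⟨fun h => h5 (h3 (h2 h)), fun h => h1 (h4 h)⟩,
    ⟨fun h => h3 (h2 h), fun h => h1 (h4 (h5 h))⟩, ⟨h2, fun h => h1 (h4 (h5 (h3 h)))⟩⟩

end H48K
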