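import Pool.Agent.Lib.H48K.W9

/-!
# H48K, chunk W10: the run of the second rule
-/

open MeasureTheory Set Filter

namespace H48K

variable {m : List Bool → ℕ} {d s t L : ℕ → ℕ}

/-- The places of the second rule. -/
def gp (s L : ℕ → ℕ) (k : ℕ) : ℕ :=
  if k < s (bk s k) + L (bk s k) then k + 1
  else if k = s (bk s k) + L (bk s k) then s (bk s k) else k

private theorem w10_mono (hP : Plan2 m d s t L) : StrictMono s :=
  strictMono_nat_of_lt_succ fun n => (plan2_lt hP n).2

private theorem w10_get (F : ℕ → Bool) {k x : ℕ} (hx : x < k) :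
    (List.ofFn (fun i : Fin k => F i)).getD x false = F x := by
  rw [List.getD_eq_getElem _ _ (by rw [List.length_ofFn]; exact hx), List.getElem_ofFn]

/-- the stage of `x < s n` ends before `s n` -/
private theorem w10_stage (hP : Plan2 m d s t L) {n x : ℕ} (hx : x < s n) : s (bk s x + 1) ≤ s n := by
  obtain ⟨h1, h2⟩ := bk_spec hP x
  apply (w10_mono hP).monotone
  by_contra h3
  have h4 : s n ≤ s (bk s x) := (w10_mono hP).monotone (by omega)
  omega

private theorem w10_gp1 (hP : Plan2 m d s t L) {N k : ℕ} (h1 : s N ≤ k) (h2 : k < s N + L N) :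
    gp s L k = k + 1 := by
  have h3 := plan2_lt hP N
  have h4 := hP.succ N
  have hb : bk s k = N := bk_eq hP h1 (by omega)
  unfold gp
  rw [hb, if_pos h2]

private theorem w10_gp2 (hP : Plan2 m d s t L) (N : ℕ) : gp s L (s N + L N) = s N := by
  have h3 := plan2_lt hP N
  have h4 := hP.succ N
  have hb : bk s (s N + L N) = N := bk_eq hP (by omega) (by omega)
  unfold gp
  rw [hb, if_neg (by omega), if_pos rfl]

private theorem w10_gp3 (hP : Plan2 m d s t L) {N k : ℕ} (h1 : s N + L N < k) (h2 : k < s (N + 1)) :
    gp s L k = k := by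
  have hb : bk s k = N := bk_eq hP (by omega) h2
  unfold gp
  rw [hb, if_neg (by omega), if_neg (by omega)]

private theorem w10_B_head (hP : Plan2 m d s t L) (X : ℕ → Bool) (N : ℕ) :
    B3 s t L X (s N) = X (s N) := by
  have hb : bk s (s N) = N := bk_eq hP le_rfl (plan2_lt hP N).2
  unfold B3
  rw [hb, if_pos (Or.inl rfl)]

private theorem w10_B_true (hP : Plan2 m d s t L) (X : ℕ → Bool) {N y : ℕ} (h1 : s N ≤ y) (h2 : y < s (N + 1))
    (hX : X (s N) = true) : B3 s t L X y = X y := by
  have hb : bk s y = N := bk_eq hP h1 h2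
  unfold B3
  rw [hb, if_pos (Or.inr hX)]

private theorem w10_B_mid (hP : Plan2 m d s t L) (X : ℕ → Bool) {N y : ℕ} (h1 : s N < y)
    (h2 : y < s N + 1 + L N) (hX : ¬ X (s N) = true) : B3 s t L X y = X (t N + (y - s N - 1)) := by
  have h3 := plan2_lt hP N
  have h4 := hP.succ N
  have hb : bk s y = N := bk_eq hP h1.le (by omega)
  unfold B3
  rw [hb, if_neg (by rintro (h | h); omega; exact hX h), if_pos h2]

private theorem w10_B_far (hP : Plan2 m d s t L) (X : ℕ → Bool) {N y : ℕ} (h1 : s N + 1 + L N ≤ y)
    (h2 : y < s (N + 1)) (hX : ¬ X (s N) = true) : B3 s t L X y = X (y - L N) := by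
  have hb : bk s y = N := bk_eq hP (by omega) h2
  unfold B3
  rw [hb, if_neg (by rintro (h | h); omega; exact hX h), if_neg (by omega)]

/-- W10a. The history determines the bits of `B3 X` in the finished stages. -/
theorem gB_eq (hP : Plan2 m d s t L) (X : ℕ → Bool) (n k x : ℕ) (hk : s n ≤ k) (hx : x < s n) :
    gB s L (List.ofFn (fun i : Fin k => B3 s t L X (gp s L i))) x = B3 s t L X x := by
  obtain ⟨h1, h2⟩ := bk_spec hP x
  have h3 := w10_stage hP hx
  obtain ⟨N, hN⟩ : ∃ N, N = bk s x := ⟨_, rfl⟩
  rw [← hN] at h1 h2 h3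
  obtain ⟨h4, h5⟩ := plan2_lt hP N
  have h6 := hP.succ N
  unfold gB
  rw [← hN]
  by_cases c1 : x = s N
  · rw [if_pos c1, w10_get (fun i => B3 s t L X (gp s L i)) (by omega), c1, w10_gp2 hP N]
  · rw [if_neg c1]
    by_cases c2 : x ≤ s N + L N
    · rw [if_pos c2, w10_get (fun i => B3 s t L X (gp s L i)) (by omega),
        w10_gp1 hP (N := N) (by omega) (by omega)]
      congr 1
      omega
    · rw [if_neg c2, w10_get (fun i => B3 s t L X (gp s L i)) (by omega),
        w10_gp3 hP (N := N) (by omega) h2]

/-- W10b. The history determines the bits of `X` in the finished stages. -/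
theorem rX_eq (hP : Plan2 m d s t L) (X : ℕ → Bool) (n k x : ℕ) (hk : s n ≤ k) (hx : x < s n) :
    rX s t L (List.ofFn (fun i : Fin k => B3 s t L X (gp s L i))) x = X x := by
  obtain ⟨h1, h2⟩ := bk_spec hP x
  have h3 := w10_stage hP hx
  obtain ⟨N, hN⟩ : ∃ N, N = bk s x := ⟨_, rfl⟩
  rw [← hN] at h1 h2 h3
  obtain ⟨h4, h5⟩ := plan2_lt hP N
  have h6 := hP.succ N
  have hg : ∀ y, y < s (N + 1) →
      gB s L (List.ofFn (fun i : Fin k => B3 s t L X (gp s L i))) y = B3 s t L X y := fun y hy =>
    gB_eq hP X n k y hk (by omega)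
  unfold rX
  rw [← hN, hg (s N) h5, w10_B_head hP]
  by_cases c1 : x = s N ∨ X (s N) = true
  · rw [if_pos c1, hg x h2]
    rcases c1 with c1 | c1
    · rw [c1, w10_B_head hP]
    · exact w10_B_true hP X h1 h2 c1
  · rw [if_neg c1]
    have c2 : x ≠ s N := fun h => c1 (Or.inl h)
    have c3 : ¬ X (s N) = true := fun h => c1 (Or.inr h)
    by_cases c4 : x < t N
    · rw [if_pos c4, hg _ (by omega), w10_B_far hP X (N := N) (by omega) (by omega) c3]
      congr 1
      omega
    · rw [if_neg c4, hg _ (by omega), w10_B_mid hP X (N := N) (by omega) (by omega) c3]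
      congr 1
      omega

/-- W10c. The run of the second rule on `B3 X` (compare the proof of `sel_f2` in `Lib/H48K/R2.lean`): the place at the step
`k` is `gp k`, it is selected iff `k = s n + L n` for the stage `n` of `k` and `D3 X n` (the `L n` bits read in the stage
are the segment after the header if `X (s n)`, the segment at `t n` otherwise). -/
theorem sel_g3 (hP : Plan2 m d s t L) (X : ℕ → Bool)
    (hinf : Set.Infinite {n | D3 m d s t L X n = true})
    (hev : ∀ᶠ n in atTop, D3 m d s t L X n = X (s n)) :
    ∃ C : ℕ → Bool, Sel (fun w => Part.some (g3 m d s t L w)) (B3 s t L X) C ∧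
      ∀ᶠ j in atTop, C j = true := by
  classical
  obtain ⟨sel, hsel⟩ : ∃ sel : ℕ → Bool, ∀ k, sel k =
      if k = s (bk s k) + L (bk s k) then D3 m d s t L X (bk s k) else false := ⟨_, fun _ => rfl⟩
  have hselT : ∀ k, sel k = true → k = s (bk s k) + L (bk s k) ∧
      D3 m d s t L X (bk s k) = true := by
    intro k hk
    rw [hsel] at hk
    by_cases h : k = s (bk s k) + L (bk s k)
    · rw [if_pos h] at hk
      exact ⟨h, hk⟩
    · rw [if_neg h] at hk
      exact absurd hk (by decide)
  have hlast : ∀ n, bk s (s n + L n) = n := by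
    intro n
    have h1 := plan2_lt hP n
    have h2 := hP.succ n
    exact bk_eq hP (by omega) (by omega)
  have hselL : ∀ n, sel (s n + L n) = D3 m d s t L X n := by
    intro n
    rw [hsel, hlast, if_pos rfl]
  have hInfSel : Set.Infinite {k : ℕ | sel k = true} := by
    have hinj : Function.Injective (fun n => s n + L n) := by
      intro n l hnl
      have h1 : bk s (s n + L n) = bk s (s l + L l) := congrArg (bk s) hnl
      rw [hlast, hlast] at h1
      exact h1
    have h2 := hinf.image (hinj.injOn)
    apply h2.mono
    rintro _ ⟨n, hn, rfl⟩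
    show sel (s n + L n) = true
    rw [hselL]
    exact hn
  have hgbk : ∀ k, bk s (gp s L k) = bk s k := by
    intro k
    obtain ⟨h1, h2⟩ := bk_spec hP k
    obtain ⟨h3, h4⟩ := plan2_lt hP (bk s k)
    have h5 := hP.succ (bk s k)
    apply bk_eq hP
    · unfold gp
      split_ifs <;> omega
    · unfold gp
      split_ifs <;> omega
  refine ⟨fun j => B3 s t L X (gp s L (Nat.nth (fun k => sel k = true) j)),
    ⟨gp s L, sel, ?_, ?_, hInfSel, fun _ => rfl⟩, ?_⟩
  · intro k
    have hlen : (List.ofFn (fun i : Fin k => B3 s t L X (gp s L i))).length = k := List.length_ofFn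
    obtain ⟨h1, h2⟩ := bk_spec hP k
    obtain ⟨h3, h4⟩ := plan2_lt hP (bk s k)
    have h5 := hP.succ (bk s k)
    refine congrArg Part.some ?_
    unfold g3
    rw [hlen, hsel]
    by_cases c1 : k < s (bk s k) + L (bk s k)
    · rw [if_pos c1, if_neg (by omega), w10_gp1 hP h1 c1]
    · rw [if_neg c1]
      by_cases c2 : k = s (bk s k) + L (bk s k)
      · rw [if_pos c2, if_pos c2]
        have e1 : gp s L k = s (bk s k) := by
          have := w10_gp2 hP (bk s k)
          rw [← c2] at this
          exact this
        rw [e1]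
        refine Prod.ext rfl ?_
        show ps m d (bk s k + 1) _ _ = D3 m d s t L X (bk s k)
        unfold D3
        congr 1
        · unfold pre
          apply List.ext_getElem
          · rw [List.length_map, List.length_range, List.length_ofFn]
          · intro i hi hi'
            rw [List.getElem_map, List.getElem_range, List.getElem_ofFn]
            rw [List.length_ofFn] at hi'
            exact rX_eq hP X (bk s k) k i (by omega) hi'
        · have e2 : ∀ i, i < L (bk s k) →
              (List.ofFn (fun i : Fin k => B3 s t L X (gp s L i))).getD (s (bk s k) + i) false =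
                B3 s t L X (s (bk s k) + i + 1) := by
            intro i hi
            rw [w10_get (fun i => B3 s t L X (gp s L i)) (by omega),
              w10_gp1 hP (N := bk s k) (by omega) (by omega)]
          by_cases hX : X (s (bk s k)) = true
          · rw [if_pos hX]
            unfold seg
            apply List.ext_getElem
            · rw [List.length_map, List.length_range, List.length_ofFn]
            · intro i hi hi'
              rw [List.getElem_map, List.getElem_range, List.getElem_ofFn]
              rw [List.length_ofFn] at hi'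
              rw [e2 i hi', w10_B_true hP X (N := bk s k) (by omega) (by omega) hX]
              congr 1
              show s (bk s k) + i + 1 = s (bk s k) + 1 + i
              omega
          · rw [if_neg hX]
            unfold seg
            apply List.ext_getElem
            · rw [List.length_map, List.length_range, List.length_ofFn]
            · intro i hi hi'
              rw [List.getElem_map, List.getElem_range, List.getElem_ofFn]
              rw [List.length_ofFn] at hi'
              rw [e2 i hi', w10_B_mid hP X (N := bk s k) (by omega) (by omega) hX]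
              congr 1
              show t (bk s k) + (s (bk s k) + i + 1 - s (bk s k) - 1) = t (bk s k) + i
              omega
      · rw [if_neg c2, if_neg c2, w10_gp3 hP (N := bk s k) (by omega) h2]
  · intro k l h
    have hkl : bk s k = bk s l := by
      rw [← hgbk k, h, hgbk l]
    obtain ⟨h1, h2⟩ := bk_spec hP k
    obtain ⟨h1', h2'⟩ := bk_spec hP l
    obtain ⟨h3, h4⟩ := plan2_lt hP (bk s k)
    have h5 := hP.succ (bk s k)
    unfold gp at h
    rw [← hkl] at h h1' h2'
    split_ifs at h <;> omega
  · obtain ⟨N0, hN0⟩ := eventually_atTop.mp hev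
    rw [eventually_atTop]
    refine ⟨s N0, fun j hj => ?_⟩
    have hk : sel (Nat.nth (fun k => sel k = true) j) = true :=
      Nat.nth_mem_of_infinite hInfSel j
    have hjk : j ≤ Nat.nth (fun k => sel k = true) j :=
      (Nat.nth_strictMono hInfSel).id_le j
    obtain ⟨k, hkd⟩ : ∃ k, k = Nat.nth (fun k => sel k = true) j := ⟨_, rfl⟩
    show B3 s t L X (gp s L (Nat.nth (fun k => sel k = true) j)) = true
    rw [← hkd] at hk hjk ⊢
    obtain ⟨h1, h2⟩ := hselT k hk
    obtain ⟨h3, h4⟩ := bk_spec hP k
    have hN : N0 ≤ bk s k := by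
      by_contra hc
      have h5 : s (bk s k + 1) ≤ s N0 := (w10_mono hP).monotone (by omega)
      omega
    have e1 : gp s L k = s (bk s k) := by
      have := w10_gp2 hP (bk s k)
      rw [← h1] at this
      exact this
    rw [e1, w10_B_head hP, ← hN0 _ hN]
    exact h2

end H48K
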