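import Pool.Agent.Lib.H48K.W1

/-!
# H48K, chunk W3: the first error is small for long segments
-/

open MeasureTheory Set Filter H69K

namespace H48K

variable {ν : Measure (ℕ → Bool)} {m : List Bool → ℕ} {d : ℕ → ℕ}

private theorem w3_Cy_E (v : List Bool) : Cy v = E v.length {fun i : Fin v.length => v.get i} := by
  ext X
  show pre X v.length = v ↔ (fun i : Fin v.length => X i) = fun i : Fin v.length => v.get i
  constructor
  · intro h
    funext i
    have h2 : (pre X v.length)[(i : ℕ)]? = v[(i : ℕ)]? := by rw [h]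
    have h3 : (pre X v.length)[(i : ℕ)]? = some (X i) := by
      unfold pre
      rw [List.getElem?_ofFn]
      rw [dif_pos i.2]
    have h4 : v[(i : ℕ)]? = some (v.get i) := by
      rw [List.getElem?_eq_getElem i.2]
      rfl
    rw [h3, h4] at h2
    exact Option.some.inj h2
  · intro h
    unfold pre
    rw [h]
    exact List.ofFn_get v

private theorem w3_meas (v : List Bool) : MeasurableSet (Cy v) := by
  rw [w3_Cy_E]
  exact measurableSet_E _ _

private theorem w3_len (X : ℕ → Bool) (n : ℕ) : (pre X n).length = n := by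
  simp [pre]

private theorem w3_get (X : ℕ → Bool) (n i : ℕ) (h : i < n) : (pre X n)[i]? = some (X i) := by
  unfold pre
  rw [List.getElem?_ofFn, dif_pos h]

private theorem w3_take (X : ℕ → Bool) {s n : ℕ} (h : s ≤ n) : (pre X n).take s = pre X s := by
  apply List.ext_getElem?
  intro i
  rw [List.getElem?_take]
  unfold pre
  rw [List.getElem?_ofFn, List.getElem?_ofFn]
  by_cases hi : i < s
  · rw [if_pos hi, dif_pos (lt_of_lt_of_le hi h), dif_pos hi]
  · rw [if_neg hi, dif_neg hi]

private theorem w3_drop (X : ℕ → Bool) (s L : ℕ) : (pre X (s + L)).drop s = seg X s L := by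
  apply List.ext_getElem?
  intro i
  rw [List.getElem?_drop]
  unfold pre seg
  rw [List.getElem?_ofFn, List.getElem?_ofFn]
  by_cases hi : i < L
  · rw [dif_pos (Nat.add_lt_add_left hi s), dif_pos hi]
  · rw [dif_neg (fun h => hi (Nat.lt_of_add_lt_add_left h)), dif_neg hi]

private theorem w3_succ (X : ℕ → Bool) (s : ℕ) : pre X (s + 1) = pre X s ++ [X s] := by
  have h1 : pre X (s + 1) = (pre X (s + 1)).take s ++ (pre X (s + 1)).drop s :=
    (List.take_append_drop _ _).symm
  rw [h1, w3_take X (Nat.le_succ s), w3_drop]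
  simp [seg]

private theorem w3_split (X : ℕ → Bool) (s L : ℕ) :
    pre X (s + 1 + L) = pre X s ++ X s :: seg X (s + 1) L := by
  have h1 : pre X (s + 1 + L) = (pre X (s + 1 + L)).take (s + 1) ++ (pre X (s + 1 + L)).drop (s + 1) :=
    (List.take_append_drop _ _).symm
  rw [h1, w3_take X (Nat.le_add_right _ _), w3_drop, w3_succ]
  simp

/-- W3a. The test in terms of the measure. -/
theorem ps_iff [IsProbabilityMeasure ν] (hν : CompMeas ν m d) (K : ℕ) (v y : List Bool) :
    ps m d K v y = true ↔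
      (2 : ENNReal) ^ K * (2⁻¹ : ENNReal) ^ y.length * ν (Cy (v ++ [true])) < ν (Cy (v ++ true :: y)) := by
  have hb : (0 : ℝ) < d (v.length + 1) := by exact_mod_cast hν.pos _
  have he : (0 : ℝ) < d (v.length + 1 + y.length) := by exact_mod_cast hν.pos _
  have l1 : (v ++ [true]).length = v.length + 1 := by simp
  have l2 : (v ++ true :: y).length = v.length + 1 + y.length := by
    rw [List.length_append, List.length_cons]
    ring
  have h1 : ν (Cy (v ++ [true])) = ENNReal.ofReal ((m (v ++ [true]) : ℝ) / d (v.length + 1)) := by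
    rw [hν.val, l1, ENNReal.ofReal_div_of_pos hb, ENNReal.ofReal_natCast, ENNReal.ofReal_natCast]
  have h2 : ν (Cy (v ++ true :: y)) =
      ENNReal.ofReal ((m (v ++ true :: y) : ℝ) / d (v.length + 1 + y.length)) := by
    rw [hν.val, l2, ENNReal.ofReal_div_of_pos he, ENNReal.ofReal_natCast, ENNReal.ofReal_natCast]
  have h3 : (2 : ENNReal) ^ K = ENNReal.ofReal ((2 : ℝ) ^ K) := by
    rw [ENNReal.ofReal_pow (by norm_num)]
    norm_num
  have h4 : (2⁻¹ : ENNReal) ^ y.length = ENNReal.ofReal ((1 / 2 : ℝ) ^ y.length) := by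
    rw [ENNReal.ofReal_pow (by norm_num)]
    congr 1
    rw [one_div, ENNReal.ofReal_inv_of_pos (by norm_num)]
    norm_num
  have p1 : (0 : ℝ) ≤ (2 : ℝ) ^ K := by positivity
  have p2 : (0 : ℝ) ≤ (1 / 2 : ℝ) ^ y.length := by positivity
  have p3 : (0 : ℝ) ≤ (m (v ++ [true]) : ℝ) / d (v.length + 1) := by positivity
  rw [h1, h2, h3, h4, ← ENNReal.ofReal_mul p1, ← ENNReal.ofReal_mul (mul_nonneg p1 p2),
    ENNReal.ofReal_lt_ofReal_iff_of_nonneg (mul_nonneg (mul_nonneg p1 p2) p3)]
  unfold ps
  rw [decide_eq_true_iff]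
  have hpow : (0 : ℝ) < (2 : ℝ) ^ y.length := by positivity
  rw [show (2 : ℝ) ^ K * (1 / 2 : ℝ) ^ y.length * ((m (v ++ [true]) : ℝ) / d (v.length + 1)) =
    ((2 : ℝ) ^ K * m (v ++ [true])) / (d (v.length + 1) * 2 ^ y.length) by
      rw [one_div, inv_pow]
      field_simp]
  rw [div_lt_div_iff₀ (by positivity) he]
  rw [← Nat.cast_lt (α := ℝ)]
  push_cast
  rw [mul_assoc (m (v ++ true :: y) : ℝ)]

/-- W3b. From `ae_ratio`: almost every `X` with `X s = true` passes the test for all large `L` (`ν (Cy ..) ≤ 1`, with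
`C = 2^K 2^(s+1)`), so the measures of the sets `⋃ (L ≥ L0), ER1 K s L` tend to zero. -/
theorem exists_L [IsProbabilityMeasure ν] (hs : ν ⟂ₘ mu fair) (hν : CompMeas ν m d) (K s n : ℕ) :
    ∃ L, ν (ER1 m d K s L) ≤ (2⁻¹ : ENNReal) ^ n := by
  -- the error sets are measurable
  have hmeas : ∀ L, MeasurableSet (ER1 m d K s L) := by
    intro L
    have h1 : ER1 m d K s L = ⋃ w ∈ {w : List Bool | w.length = s + 1 + L ∧ w[s]? = some true ∧
        ps m d K (w.take s) (w.drop (s + 1)) = false}, Cy w := by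
      ext X
      simp only [mem_iUnion, exists_prop, mem_setOf_eq]
      constructor
      · rintro ⟨hX1, hX2⟩
        refine ⟨pre X (s + 1 + L), ⟨w3_len _ _, ?_, ?_⟩, ?_⟩
        · rw [w3_get X _ s (by omega), hX1]
        · rw [w3_take X (by omega), w3_drop]
          exact hX2
        · show pre X (pre X (s + 1 + L)).length = _
          rw [w3_len]
      · rintro ⟨w, ⟨hw1, hw2, hw3⟩, hw4⟩
        have hw5 : pre X (s + 1 + L) = w := by
          rw [← hw1]
          exact hw4
        rw [← hw5] at hw2 hw3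
        rw [w3_get X _ s (by omega)] at hw2
        rw [w3_take X (by omega), w3_drop] at hw3
        exact ⟨Option.some.inj hw2, hw3⟩
    rw [h1]
    exact MeasurableSet.biUnion (to_countable _) fun w _ => w3_meas w
  -- the decreasing sets
  set A : ℕ → Set (ℕ → Bool) := fun L0 => ⋃ L, ⋃ (_ : L0 ≤ L), ER1 m d K s L with hA
  have hAm : ∀ L0, MeasurableSet (A L0) := fun L0 =>
    MeasurableSet.iUnion fun L => MeasurableSet.iUnion fun _ => hmeas L
  have hanti : Antitone A := by
    intro a b hab X hX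
    simp only [hA, mem_iUnion, exists_prop] at hX ⊢
    obtain ⟨L, hL, hX⟩ := hX
    exact ⟨L, hab.trans hL, hX⟩
  have hnull : ν (⋂ L0, A L0) = 0 := by
    have h1 := ae_ratio ν hs
    rw [ae_iff] at h1
    refine measure_mono_null ?_ h1
    intro X hX hall
    obtain ⟨N, hN⟩ := (hall (2 ^ K * 2 ^ (s + 1))).exists_forall_of_atTop
    have hXN := mem_iInter.1 hX N
    simp only [hA, mem_iUnion, exists_prop] at hXN
    obtain ⟨L, hL, hX1, hX2⟩ := hXN
    have h2 := hN (s + 1 + L) (by omega)
    rw [w3_split, hX1] at h2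
    have h3 : ps m d K (pre X s) (seg X (s + 1) L) = true := by
      rw [ps_iff hν]
      refine lt_of_le_of_lt ?_ h2
      have hlen : (seg X (s + 1) L).length = L := by simp [seg]
      rw [hlen]
      push_cast
      have h4 : (2 : ENNReal) ^ (s + 1) * (2⁻¹ : ENNReal) ^ (s + 1) = 1 := by
        rw [← mul_pow, ENNReal.mul_inv_cancel (by norm_num) (by norm_num), one_pow]
      calc (2 : ENNReal) ^ K * (2⁻¹ : ENNReal) ^ L * ν (Cy (pre X s ++ [true]))
          ≤ (2 : ENNReal) ^ K * (2⁻¹ : ENNReal) ^ L * 1 := by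
            gcongr
            exact prob_le_one
        _ = (2 : ENNReal) ^ K * (2⁻¹ : ENNReal) ^ L * ((2 : ENNReal) ^ (s + 1) * (2⁻¹ : ENNReal) ^ (s + 1)) := by
            rw [h4]
        _ = (2 : ENNReal) ^ K * 2 ^ (s + 1) * (2⁻¹ : ENNReal) ^ (s + 1 + L) := by
            rw [pow_add (2⁻¹ : ENNReal) (s + 1) L]
            ring
    rw [h3] at hX2
    exact absurd hX2 (by simp)
  have htend := tendsto_measure_iInter_atTop (μ := ν) (fun L0 => (hAm L0).nullMeasurableSet) hanti
    ⟨0, measure_ne_top _ _⟩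
  rw [hnull] at htend
  have hpos : (0 : ENNReal) < (2⁻¹ : ENNReal) ^ n := by
    apply ENNReal.pow_pos
    norm_num
  obtain ⟨L, hL⟩ := (htend.eventually_lt_const hpos).exists
  refine ⟨L, (measure_mono ?_).trans hL.le⟩
  intro X hX
  simp only [hA, mem_iUnion, exists_prop]
  exact ⟨L, le_refl _, hX⟩

end H48K
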