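import Pool.Agent.Lib.H48K.W2
import Pool.Agent.Lib.H48K.W3

/-!
# H48K, chunk W4: the second error is small for some far segment
-/

open MeasureTheory Set Filter H69K

namespace H48K

variable {ν : Measure (ℕ → Bool)} {m : List Bool → ℕ} {d : ℕ → ℕ}

private theorem w4_take (X : ℕ → Bool) (a b : ℕ) (h : a ≤ b) : (pre X b).take a = pre X a := by
  unfold pre
  apply List.ext_getElem
  · simp only [List.length_take, List.length_ofFn]
    omega
  · intro i h1 h2
    simp

private theorem w4_cy_sub (v y : List Bool) : Cy (v ++ true :: y) ⊆ Cy (v ++ [true]) := by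
  intro X hX
  have hX' : pre X (v ++ true :: y).length = v ++ true :: y := hX
  show pre X (v ++ [true]).length = v ++ [true]
  have h1 : (v ++ [true]).length ≤ (v ++ true :: y).length := by simp
  rw [← w4_take X _ _ h1, hX']
  have h2 : v ++ true :: y = (v ++ [true]) ++ y := by simp
  rw [h2, List.take_left']
  rfl

private theorem w4_cy_meas (w : List Bool) : MeasurableSet (Cy w) := by
  have h : Cy w = ⋂ i : Fin w.length, {X : ℕ → Bool | X i = w.get i} := by
    ext X
    simp only [Cy, Set.mem_ofPred_eq, Set.mem_iInter]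
    constructor
    · intro hX i
      have h1 : (pre X w.length)[(i : ℕ)]'(by simp [pre]) = w[(i : ℕ)] := by
        simp only [hX]
      simpa [pre] using h1
    · intro hX
      unfold pre
      apply List.ext_getElem
      · simp
      · intro i h1 h2
        rw [List.getElem_ofFn]
        exact hX ⟨i, h2⟩
  rw [h]
  apply MeasurableSet.iInter
  intro i
  have h2 : Measurable fun X : ℕ → Bool => X i := measurable_pi_apply _
  exact h2 (MeasurableSet.singleton _)

/-- W4a. At most `2^(L-K)` words `y` of length `L` pass the test (`ps_iff`; disjoint cylinders `v 1 y` in the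
cylinder `v 1`). -/
theorem card_ps [IsProbabilityMeasure ν] (hν : CompMeas ν m d) (K L : ℕ) (v : List Bool)
    (T : Finset (List Bool)) (hT : ∀ y ∈ T, y.length = L ∧ ps m d K v y = true) :
    (T.card : ℝ) * (1 / 2) ^ L ≤ (1 / 2) ^ K := by
  rcases T.eq_empty_or_nonempty with rfl | hne
  · simp
  have hsum : ∑ y ∈ T, ν (Cy (v ++ true :: y)) ≤ ν (Cy (v ++ [true])) := by
    have hdis : (T : Set (List Bool)).PairwiseDisjoint fun y => Cy (v ++ true :: y) := by
      intro y hy y' hy' hyy'
      rw [Function.onFun, Set.disjoint_left]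
      intro X hX hX'
      have e1 : pre X (v ++ true :: y).length = v ++ true :: y := hX
      have e2 : pre X (v ++ true :: y').length = v ++ true :: y' := hX'
      have hl : (v ++ true :: y).length = (v ++ true :: y').length := by
        simp [(hT y hy).1, (hT y' hy').1]
      rw [hl, e2] at e1
      have e3 := List.append_cancel_left e1
      exact hyy' (List.cons.inj e3).2.symm
    rw [← measure_biUnion_finset hdis fun y _ => w4_cy_meas _]
    apply measure_mono
    apply Set.iUnion₂_subset
    intro y _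
    exact w4_cy_sub v y
  have hlt : ∀ y ∈ T, (2 : ENNReal) ^ K * (2⁻¹ : ENNReal) ^ L * ν (Cy (v ++ [true]))
      < ν (Cy (v ++ true :: y)) := by
    intro y hy
    have h := (ps_iff hν K v y).1 (hT y hy).2
    rwa [(hT y hy).1] at h
  have hpos : ν (Cy (v ++ [true])) ≠ 0 := by
    obtain ⟨y, hy⟩ := hne
    intro h0
    have h1 := hlt y hy
    have h2 : ν (Cy (v ++ true :: y)) ≤ ν (Cy (v ++ [true])) := measure_mono (w4_cy_sub v y)
    rw [h0] at h2
    exact absurd (lt_of_lt_of_le h1 h2) not_lt_zero
  have htop : ν (Cy (v ++ [true])) ≠ ⊤ := measure_ne_top _ _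
  have h3 : (T.card : ENNReal) * ((2 : ENNReal) ^ K * (2⁻¹ : ENNReal) ^ L * ν (Cy (v ++ [true])))
      ≤ ν (Cy (v ++ [true])) := by
    calc (T.card : ENNReal) * ((2 : ENNReal) ^ K * (2⁻¹ : ENNReal) ^ L * ν (Cy (v ++ [true])))
        = ∑ y ∈ T, (2 : ENNReal) ^ K * (2⁻¹ : ENNReal) ^ L * ν (Cy (v ++ [true])) := by
          rw [Finset.sum_const, nsmul_eq_mul]
      _ ≤ ∑ y ∈ T, ν (Cy (v ++ true :: y)) := Finset.sum_le_sum fun y hy => (hlt y hy).le
      _ ≤ ν (Cy (v ++ [true])) := hsum
  -- to the reals
  obtain ⟨a, ha⟩ : ∃ a : ℝ, a = (ν (Cy (v ++ [true]))).toReal := ⟨_, rfl⟩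
  have ha0 : 0 < a := by
    rw [ha]
    exact ENNReal.toReal_pos hpos htop
  have h4 := ENNReal.toReal_mono htop h3
  rw [ENNReal.toReal_mul, ENNReal.toReal_mul, ENNReal.toReal_mul, ENNReal.toReal_pow,
    ENNReal.toReal_pow, ← ha, ENNReal.toReal_natCast, ENNReal.toReal_inv] at h4
  norm_num at h4
  have h5 : (T.card : ℝ) * (2 ^ K * (1 / 2) ^ L) * a ≤ 1 * a := by
    calc (T.card : ℝ) * (2 ^ K * (1 / 2) ^ L) * a = (T.card : ℝ) * (2 ^ K * (1 / 2) ^ L * a) := by ring
      _ ≤ a := h4
      _ = 1 * a := (one_mul a).symm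
  have h6 := le_of_mul_le_mul_right h5 ha0
  have h7 : (2 : ℝ) ^ K * (1 / 2) ^ K = 1 := by
    rw [← mul_pow]
    norm_num
  have h8 : (0 : ℝ) < (1 / 2) ^ K := by positivity
  calc (T.card : ℝ) * (1 / 2) ^ L = (T.card : ℝ) * (2 ^ K * (1 / 2) ^ L) * (1 / 2) ^ K := by
        rw [show (T.card : ℝ) * (2 ^ K * (1 / 2) ^ L) * (1 / 2) ^ K
          = (T.card : ℝ) * (1 / 2) ^ L * (2 ^ K * (1 / 2) ^ K) by ring, h7, mul_one]
    _ ≤ 1 * (1 / 2) ^ K := mul_le_mul_of_nonneg_right h6 h8.le
    _ = (1 / 2) ^ K := one_mul _

private theorem w4_meas (K s L t : ℕ) : MeasurableSet (ER2 m d K s L t) := by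
  have h : ER2 m d K s L t = E (s + 1 + (t + L))
      {x | ∃ X : ℕ → Bool, (fun i : Fin (s + 1 + (t + L)) => X i) = x ∧ X ∈ ER2 m d K s L t} := by
    ext X
    constructor
    · intro hX
      exact ⟨X, rfl, hX⟩
    · rintro ⟨Y, hY, hY1, hY2⟩
      have hi : ∀ i, i < s + 1 + (t + L) → Y i = X i := fun i hi => congrFun hY ⟨i, hi⟩
      refine ⟨?_, ?_⟩
      · rw [← hi s (by omega)]
        exact hY1
      · have e1 : pre X s = pre Y s := by
          unfold pre
          congr 1
          funext i
          exact (hi i (by have := i.2; omega)).symm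
        have e2 : seg X t L = seg Y t L := by
          unfold seg
          congr 1
          funext i
          exact (hi (t + i) (by have := i.2; omega)).symm
        rw [e1, e2]
        exact hY2
  rw [h]
  have h2 : Measurable (fun X : ℕ → Bool => (fun i : Fin (s + 1 + (t + L)) => X i)) := by
    fun_prop
  exact h2 (Set.toFinite _).measurableSet

/-- the words of length `L` that pass the test -/
private noncomputable def w4T (m : List Bool → ℕ) (d : ℕ → ℕ) (K L : ℕ) (v : List Bool) :
    Finset (List Bool) :=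
  ((Finset.univ : Finset (Fin L → Bool)).image List.ofFn).filter fun y => ps m d K v y = true

private theorem w4T_mem (K L : ℕ) (v y : List Bool) :
    y ∈ w4T m d K L v ↔ y.length = L ∧ ps m d K v y = true := by
  unfold w4T
  rw [Finset.mem_filter, Finset.mem_image]
  constructor
  · rintro ⟨⟨x, _, rfl⟩, h⟩
    exact ⟨List.length_ofFn, h⟩
  · rintro ⟨h1, h2⟩
    refine ⟨⟨fun i => y.get (i.cast h1.symm), Finset.mem_univ _, ?_⟩, h2⟩
    apply List.ext_getElem
    · simp [h1]
    · intro i h3 h4
      simp

/-- W4b. If almost every sequence is KL-stochastic: the mean of `ν (ER2 K s L (t0 + i L))` over `i < M` is the integral of the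
frequency of the `i` with `seg X (t0 + i L) L ∈ T_(pre X s)` (on `X s = false`), which tends to at most
`2^(-K)` (`freq_set`, `card_ps`, dominated convergence or Fatou for the complement). (`L = 0`: the test fails
always.) -/
theorem exists_t [IsProbabilityMeasure ν] (hν : CompMeas ν m d) (hKL : ∀ᵐ X ∂ν, KLStochastic X)
    (K s L t0 : ℕ) : ∃ t, t0 ≤ t ∧ ν (ER2 m d (K + 1) s L t) ≤ (2⁻¹ : ENNReal) ^ K := by
  classical
  rcases Nat.eq_zero_or_pos L with rfl | hL
  · refine ⟨t0, le_rfl, ?_⟩
    have h : ER2 m d (K + 1) s 0 t0 = ∅ := by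
      apply Set.eq_empty_of_forall_notMem
      rintro X ⟨-, hX⟩
      have hs : seg X t0 0 = [] := by simp [seg]
      rw [hs] at hX
      unfold ps at hX
      rw [decide_eq_true_eq] at hX
      simp only [List.length_nil, add_zero, pow_zero, mul_one] at hX
      have h1 : 1 ≤ 2 ^ (K + 1) := Nat.one_le_two_pow
      have h2 : m (pre X s ++ [true]) * d ((pre X s).length + 1)
          ≤ 2 ^ (K + 1) * m (pre X s ++ [true]) * d ((pre X s).length + 1) := by
        rw [mul_assoc]
        exact Nat.le_mul_of_pos_left _ h1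
      omega
    rw [h, measure_empty]
    exact zero_le
  by_contra hcon
  push Not at hcon
  have hr : ∀ i : ℕ, (1 / 2 : ℝ) ^ K ≤ (ν (ER2 m d (K + 1) s L (t0 + i * L))).toReal := by
    intro i
    have h1 := ENNReal.toReal_mono (measure_ne_top _ _) (hcon (t0 + i * L) (by omega)).le
    rw [ENNReal.toReal_pow, ENNReal.toReal_inv] at h1
    norm_num at h1
    exact h1
  -- the frequencies
  let F : ℕ → (ℕ → Bool) → ℝ := fun M X =>
    (∑ i ∈ Finset.range M, (ER2 m d (K + 1) s L (t0 + i * L)).indicator (fun _ => (1 : ℝ)) X) / M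
  have hFint : ∀ M, 0 < M → (1 / 2 : ℝ) ^ K ≤ ∫ X, F M X ∂ν := by
    intro M hM
    have hM' : (0 : ℝ) < M := by exact_mod_cast hM
    have h1 : ∫ X, F M X ∂ν
        = (∑ i ∈ Finset.range M, (ν (ER2 m d (K + 1) s L (t0 + i * L))).toReal) / M := by
      simp only [F]
      rw [integral_div, integral_finsetSum]
      · congr 1
        apply Finset.sum_congr rfl
        intro i _
        rw [integral_indicator_const _ (w4_meas _ _ _ _)]
        simp [Measure.real]
      · intro i _
        exact (integrable_const (1 : ℝ)).indicator (w4_meas _ _ _ _)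
    rw [h1, le_div_iff₀ hM']
    calc (1 / 2 : ℝ) ^ K * M = ∑ i ∈ Finset.range M, (1 / 2 : ℝ) ^ K := by
          rw [Finset.sum_const, Finset.card_range, nsmul_eq_mul, mul_comm]
      _ ≤ _ := Finset.sum_le_sum fun i _ => hr i
  let g : (ℕ → Bool) → ℝ := fun X =>
    if X s = false then ((w4T m d (K + 1) L (pre X s)).card : ℝ) * (1 / 2) ^ L else 0
  have hg : ∀ X, g X ≤ (1 / 2) ^ (K + 1) := by
    intro X
    simp only [g]
    split
    · exact card_ps hν (K + 1) L (pre X s) _ fun y hy => (w4T_mem _ _ _ _).1 hy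
    · positivity
  have hlim : ∀ᵐ X ∂ν, Tendsto (fun M => F M X) atTop (nhds (g X)) := by
    filter_upwards [hKL] with X hX
    by_cases hXs : X s = false
    · have h1 := freq_set X hX.toT t0 L hL (w4T m d (K + 1) L (pre X s)) fun w hw =>
        ((w4T_mem _ _ _ _).1 hw).1
      simp only [g, if_pos hXs]
      refine h1.congr fun M => ?_
      simp only [F]
      congr 1
      rw [Finset.card_filter, Nat.cast_sum]
      apply Finset.sum_congr rfl
      intro i _
      have hiff : seg X (t0 + i * L) L ∈ w4T m d (K + 1) L (pre X s)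
          ↔ X ∈ ER2 m d (K + 1) s L (t0 + i * L) := by
        rw [w4T_mem]
        constructor
        · rintro ⟨-, h⟩
          exact ⟨hXs, h⟩
        · rintro ⟨-, h⟩
          exact ⟨by simp [seg], h⟩
      by_cases hm : X ∈ ER2 m d (K + 1) s L (t0 + i * L)
      · rw [if_pos (hiff.2 hm), Set.indicator_of_mem hm]
        simp
      · rw [if_neg (fun h => hm (hiff.1 h)), Set.indicator_of_notMem hm]
        simp
    · simp only [g, if_neg hXs]
      have h1 : ∀ M, F M X = 0 := by
        intro M
        simp only [F]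
        rw [Finset.sum_eq_zero, zero_div]
        intro i _
        apply Set.indicator_of_notMem
        rintro ⟨h, -⟩
        exact hXs h
      simp only [h1]
      exact tendsto_const_nhds
  have hdom := tendsto_integral_of_dominated_convergence (μ := ν) (F := F) (f := g)
    (fun _ => (1 : ℝ)) (fun M => by
      apply Measurable.aestronglyMeasurable
      apply Measurable.div_const
      apply Finset.measurable_fun_sum
      intro i _
      exact measurable_const.indicator (w4_meas _ _ _ _)) (integrable_const 1)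
    (fun M => by
      apply Filter.Eventually.of_forall
      intro X
      simp only [F]
      have hnn : 0 ≤ ∑ i ∈ Finset.range M,
          (ER2 m d (K + 1) s L (t0 + i * L)).indicator (fun _ => (1 : ℝ)) X := by
        apply Finset.sum_nonneg
        intro i _
        apply Set.indicator_nonneg
        intro _ _
        norm_num
      rw [Real.norm_of_nonneg (div_nonneg hnn (Nat.cast_nonneg M))]
      apply div_le_one_of_le₀ _ (Nat.cast_nonneg M)
      calc ∑ i ∈ Finset.range M,
          (ER2 m d (K + 1) s L (t0 + i * L)).indicator (fun _ => (1 : ℝ)) X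
          ≤ ∑ i ∈ Finset.range M, (1 : ℝ) := by
            apply Finset.sum_le_sum
            intro i _
            apply Set.indicator_le_self'
            intro _ _
            norm_num
        _ = M := by simp) hlim
  have h2 : (1 / 2 : ℝ) ^ K ≤ ∫ X, g X ∂ν := by
    apply ge_of_tendsto hdom
    filter_upwards [eventually_gt_atTop 0] with M hM
    exact hFint M hM
  have h3 : ∫ X, g X ∂ν ≤ (1 / 2) ^ (K + 1) := by
    by_cases hi : Integrable g ν
    · calc ∫ X, g X ∂ν ≤ ∫ _, (1 / 2 : ℝ) ^ (K + 1) ∂ν :=
            integral_mono hi (integrable_const _) hg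
        _ = (1 / 2) ^ (K + 1) := by simp
    · rw [integral_undef hi]
      positivity
  have h4 : (1 / 2 : ℝ) ^ (K + 1) < (1 / 2) ^ K := by
    rw [pow_succ]
    have : (0 : ℝ) < (1 / 2) ^ K := by positivity
    linarith
  linarith

end H48K
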