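import Pool.Agent.Lib.H48K.Defs5

/-!
# H48K, chunk W5: the measures of the error events
-/

open MeasureTheory Set Filter H69K

namespace H48K

variable {ν : Measure (ℕ → Bool)} {m : List Bool → ℕ} {d : ℕ → ℕ}

private theorem w5_Cy_pre (v : List Bool) :
    Cy v = (fun X : ℕ → Bool => fun i : Fin v.length => X i) ⁻¹' {fun i : Fin v.length => v.get i} := by
  ext X
  show pre X v.length = v ↔ (fun i : Fin v.length => X i) = fun i : Fin v.length => v.get i
  constructor
  · intro h
    funext i
    have h2 : (pre X v.length)[(i : ℕ)]? = v[(i : ℕ)]? := by rw [h]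
    have h3 : (pre X v.length)[(i : ℕ)]? = some (X i) := by
      unfold pre
      rw [List.getElem?_ofFn]
      rw [dif_pos i.2]
    have h4 : v[(i : ℕ)]? = some (v.get i) := by
      rw [List.getElem?_eq_getElem i.2]
      rfl
    rw [h3, h4] at h2
    exact Option.some.inj h2
  · intro h
    unfold pre
    rw [h]
    exact List.ofFn_get v

private theorem w5_meas (v : List Bool) : MeasurableSet (Cy v) := by
  rw [w5_Cy_pre]
  refine MeasurableSet.preimage (MeasurableSet.singleton _) ?_
  exact measurable_pi_lambda _ fun i => measurable_pi_apply _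

private theorem w5_len (n i : ℕ) : (wd n i).length = n := by
  unfold wd
  rw [List.length_map, List.length_range]

private theorem w5_get (n i k : ℕ) (hk : k < n) : (wd n i)[k]? = some (i.testBit k) := by
  unfold wd
  rw [List.getElem?_map, List.getElem?_range hk]
  rfl

private theorem w5_inj {n i j : ℕ} (hi : i < 2 ^ n) (hj : j < 2 ^ n) (h : wd n i = wd n j) : i = j := by
  refine Nat.eq_of_testBit_eq fun k => ?_
  by_cases hk : k < n
  · have h1 := w5_get n i k hk
    rw [h, w5_get n j k hk] at h1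
    exact (Option.some.inj h1).symm
  · have h2 : 2 ^ n ≤ 2 ^ k := Nat.pow_le_pow_right (by norm_num) (by omega)
    rw [Nat.testBit_lt_two_pow (lt_of_lt_of_le hi h2), Nat.testBit_lt_two_pow (lt_of_lt_of_le hj h2)]

private theorem w5_surj (X : ℕ → Bool) (n : ℕ) : ∃ i, i < 2 ^ n ∧ wd n i = pre X n := by
  refine ⟨Nat.ofBits (fun i : Fin n => X i), Nat.ofBits_lt_two_pow _, ?_⟩
  refine List.ext_getElem? fun k => ?_
  by_cases hk : k < n
  · rw [w5_get n _ k hk, Nat.testBit_ofBits_lt _ k hk]
    unfold pre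
    rw [List.getElem?_ofFn, dif_pos hk]
  · rw [List.getElem?_eq_none (by rw [w5_len]; omega), List.getElem?_eq_none]
    unfold pre
    rw [List.length_ofFn]
    omega

private theorem w5_preget (X : ℕ → Bool) {n k : ℕ} (hk : k < n) : (pre X n)[k]? = some (X k) := by
  unfold pre
  rw [List.getElem?_ofFn, dif_pos hk]

private theorem w5_getD (X : ℕ → Bool) {n k : ℕ} (hk : k < n) : (pre X n).getD k false = X k := by
  rw [List.getD_eq_getElem?_getD, w5_preget X hk]
  rfl

private theorem w5_take (X : ℕ → Bool) {n k : ℕ} (hk : k ≤ n) : (pre X n).take k = pre X k := by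
  refine List.ext_getElem? fun j => ?_
  by_cases hj : j < k
  · rw [List.getElem?_take_of_lt hj, w5_preget X (lt_of_lt_of_le hj hk), w5_preget X hj]
  · rw [List.getElem?_eq_none, List.getElem?_eq_none]
    · unfold pre
      rw [List.length_ofFn]
      omega
    · rw [List.length_take]
      omega

private theorem w5_drop (X : ℕ → Bool) (t L : ℕ) : (pre X (t + L)).drop t = seg X t L := by
  refine List.ext_getElem? fun j => ?_
  rw [List.getElem?_drop]
  by_cases hj : j < L
  · rw [w5_preget X (by omega)]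
    unfold seg
    rw [List.getElem?_ofFn, dif_pos hj]
  · rw [List.getElem?_eq_none, List.getElem?_eq_none]
    · unfold seg
      rw [List.length_ofFn]
      omega
    · unfold pre
      rw [List.length_ofFn]
      omega

private theorem w5_le {a b n : ℕ} (hb : 0 < b) :
    ((a : ENNReal) / (b : ENNReal) ≤ (2⁻¹ : ENNReal) ^ n) ↔ a * 2 ^ n ≤ b := by
  have hb0 : (b : ENNReal) ≠ 0 := by exact_mod_cast hb.ne'
  have hbt : (b : ENNReal) ≠ ⊤ := ENNReal.natCast_ne_top b
  have h2 : ((2 : ENNReal) ^ n) ≠ 0 := pow_ne_zero _ two_ne_zero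
  have h2t : ((2 : ENNReal) ^ n) ≠ ⊤ := ENNReal.pow_ne_top ENNReal.ofNat_ne_top
  rw [ENNReal.div_le_iff hb0 hbt, ← ENNReal.inv_pow, mul_comm, ← div_eq_mul_inv,
    ENNReal.le_div_iff_mul_le (Or.inl h2) (Or.inl h2t)]
  constructor
  · intro h
    exact_mod_cast h
  · intro h
    exact_mod_cast h

/-- W5a. An event which depends on the first `n` bits only (`wd n` is a bijection of `range (2^n)` with the words of
length `n`). -/
theorem measure_words (hν : CompMeas ν m d) (n : ℕ) (P : List Bool → Prop) [DecidablePred P] :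
    ν {X | P (pre X n)} =
      ((∑ i ∈ Finset.range (2 ^ n), if P (wd n i) then m (wd n i) else 0 : ℕ) : ENNReal) /
        (d n : ENNReal) := by
  have hset : {X : ℕ → Bool | P (pre X n)} =
      ⋃ i ∈ (Finset.range (2 ^ n)).filter (fun i => P (wd n i)), Cy (wd n i) := by
    ext X
    simp only [mem_setOf_eq, mem_iUnion, Finset.mem_filter, Finset.mem_range, exists_prop]
    constructor
    · intro h
      obtain ⟨i, hi, hw⟩ := w5_surj X n
      refine ⟨i, ⟨hi, by rw [hw]; exact h⟩, ?_⟩
      show pre X (wd n i).length = wd n i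
      rw [w5_len, hw]
    · rintro ⟨i, ⟨hi, hP⟩, hX⟩
      have h1 : pre X (wd n i).length = wd n i := hX
      rw [w5_len] at h1
      rw [h1]
      exact hP
  have hdisj : Set.PairwiseDisjoint
      (↑((Finset.range (2 ^ n)).filter (fun i => P (wd n i))) : Set ℕ) (fun i => Cy (wd n i)) := by
    intro i hi j hj hij
    rw [Function.onFun, Set.disjoint_left]
    intro X h1 h2
    have h3 : pre X (wd n i).length = wd n i := h1
    have h4 : pre X (wd n j).length = wd n j := h2
    rw [w5_len] at h3 h4
    have hi' := Finset.mem_filter.1 (Finset.mem_coe.1 hi)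
    have hj' := Finset.mem_filter.1 (Finset.mem_coe.1 hj)
    exact hij (w5_inj (Finset.mem_range.1 hi'.1) (Finset.mem_range.1 hj'.1) (h3.symm.trans h4))
  rw [hset, measure_biUnion_finset hdisj fun i _ => w5_meas _]
  have h1 : ∀ i ∈ (Finset.range (2 ^ n)).filter (fun i => P (wd n i)),
      ν (Cy (wd n i)) = (m (wd n i) : ENNReal) * (d n : ENNReal)⁻¹ := by
    intro i _
    rw [hν.val, w5_len, div_eq_mul_inv]
  rw [Finset.sum_congr rfl h1, ← Finset.sum_mul, Finset.sum_filter, div_eq_mul_inv]
  congr 1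
  rw [Nat.cast_sum]
  refine Finset.sum_congr rfl fun i _ => ?_
  by_cases hP : P (wd n i)
  · rw [if_pos hP, if_pos hP]
  · rw [if_neg hP, if_neg hP, Nat.cast_zero]

/-- W5b. -/
theorem measure_ER1 (hν : CompMeas ν m d) (K s L : ℕ) :
    ν (ER1 m d K s L) = (n1 m d K s L : ENNReal) / (d (s + 1 + L) : ENNReal) := by
  have h1 := measure_words hν (s + 1 + L) (fun w : List Bool => w.getD s false = true ∧
    ps m d K (w.take s) (w.drop (s + 1)) = false)
  have h2 : {X : ℕ → Bool | (pre X (s + 1 + L)).getD s false = true ∧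
      ps m d K ((pre X (s + 1 + L)).take s) ((pre X (s + 1 + L)).drop (s + 1)) = false} = ER1 m d K s L := by
    ext X
    simp only [ER1, mem_setOf_eq]
    rw [w5_getD X (by omega), w5_take X (by omega), w5_drop X (s + 1) L]
  rw [h2] at h1
  exact h1

/-- W5c. -/
theorem measure_ER2 (hν : CompMeas ν m d) (K s L t : ℕ) (ht : s + 1 ≤ t) :
    ν (ER2 m d K s L t) = (n2 m d K s L t : ENNReal) / (d (t + L) : ENNReal) := by
  have h1 := measure_words hν (t + L) (fun w : List Bool => w.getD s false = false ∧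
    ps m d K (w.take s) (w.drop t) = true)
  have h2 : {X : ℕ → Bool | (pre X (t + L)).getD s false = false ∧
      ps m d K ((pre X (t + L)).take s) ((pre X (t + L)).drop t) = true} = ER2 m d K s L t := by
    ext X
    simp only [ER2, mem_setOf_eq]
    rw [w5_getD X (by omega), w5_take X (by omega), w5_drop X t L]
  rw [h2] at h1
  exact h1

/-- W5d. -/
theorem okP_iff (hν : CompMeas ν m d) (n s L t : ℕ) :
    okP m d n s L t = true ↔ s + 1 + L ≤ t ∧ ν (ER1 m d (n + 1) s L) ≤ (2⁻¹ : ENNReal) ^ n ∧
      ν (ER2 m d (n + 1) s L t) ≤ (2⁻¹ : ENNReal) ^ n := by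
  unfold okP
  rw [Bool.and_eq_true, Bool.and_eq_true, decide_eq_true_eq, decide_eq_true_eq, decide_eq_true_eq]
  constructor
  · rintro ⟨h1, h2, h3⟩
    refine ⟨h1, ?_, ?_⟩
    · rw [measure_ER1 hν, w5_le (hν.pos _)]
      exact h2
    · rw [measure_ER2 hν _ _ _ _ (by omega), w5_le (hν.pos _)]
      exact h3
  · rintro ⟨h1, h2, h3⟩
    rw [measure_ER1 hν, w5_le (hν.pos _)] at h2
    rw [measure_ER2 hν _ _ _ _ (by omega), w5_le (hν.pos _)] at h3
    exact ⟨h1, h2, h3⟩

end H48K
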