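import Pool.Agent.Lib.H48K.W6

/-!
# H48K, chunk W7: a computable plan by unbounded search
-/

open Set Filter

namespace H48K

variable {m : List Bool → ℕ} {d : ℕ → ℕ}

private theorem W7_search {α : Type*} [Primcodable α] {c : α → ℕ → Bool} (hc : Computable₂ c)
    (h : ∀ x, ∃ n, c x n = true) : ∃ g : α → ℕ, Computable g ∧ ∀ x, c x (g x) = true := by
  refine ⟨fun x => Nat.find (h x), ?_, fun x => Nat.find_spec (h x)⟩
  have h1 : Partrec fun x : α => Nat.rfind fun n => Part.some (c x n) := Partrec.rfind hc.partrec₂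
  refine h1.of_eq_tot fun x => Nat.mem_rfind.2 ⟨?_, fun {m} hm => ?_⟩
  · rw [Nat.find_spec (h x)]
    exact Part.mem_some _
  · have h2 := Nat.find_min (h x) hm
    rw [Bool.not_eq_true] at h2
    rw [h2]
    exact Part.mem_some _

private theorem W7_gen (ok : ℕ → ℕ → ℕ → ℕ → Bool)
    (hok : Computable fun x : ℕ × ℕ × ℕ × ℕ => ok x.1 x.2.1 x.2.2.1 x.2.2.2)
    (hex : ∀ n s, ∃ L t, ok n s L t = true) :
    ∃ s t L : ℕ → ℕ, Computable s ∧ Computable t ∧ Computable L ∧ s 0 = 0 ∧
      (∀ n, s (n + 1) = t n + L n) ∧ ∀ n, ok n (s n) (L n) (t n) = true := by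
  have c1 : Computable₂ fun (p : ℕ × ℕ) (q : ℕ) => ok p.1 p.2 q.unpair.1 q.unpair.2 := by
    have x1 : Computable fun z : (ℕ × ℕ) × ℕ => z.1.1 := Computable.fst.comp Computable.fst
    have x2 : Computable fun z : (ℕ × ℕ) × ℕ => z.1.2 := Computable.snd.comp Computable.fst
    have x3 : Computable fun z : (ℕ × ℕ) × ℕ => z.2.unpair.1 :=
      Computable.fst.comp (Computable.unpair.comp Computable.snd)
    have x4 : Computable fun z : (ℕ × ℕ) × ℕ => z.2.unpair.2 :=
      Computable.snd.comp (Computable.unpair.comp Computable.snd)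
    have x5 : Computable fun z : (ℕ × ℕ) × ℕ =>
        ((z.1.1, z.1.2, z.2.unpair.1, z.2.unpair.2) : ℕ × ℕ × ℕ × ℕ) :=
      x1.pair (x2.pair (x3.pair x4))
    exact hok.comp x5
  obtain ⟨g, hg, hg'⟩ := W7_search c1 (by
    rintro ⟨n, s⟩
    obtain ⟨L, t, h⟩ := hex n s
    refine ⟨Nat.pair L t, ?_⟩
    rw [Nat.unpair_pair]
    exact h)
  have hF : Computable fun z : ℕ × ℕ => (g z).unpair.2 + (g z).unpair.1 :=
    Primrec.nat_add.to_comp.comp (Computable.snd.comp (Computable.unpair.comp hg))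
      (Computable.fst.comp (Computable.unpair.comp hg))
  let s : ℕ → ℕ := fun n => Nat.rec (motive := fun _ => ℕ) 0
    (fun y IH => (g (y, IH)).unpair.2 + (g (y, IH)).unpair.1) n
  have hs : Computable s := by
    refine Computable.nat_rec (h := fun _ q => (g (q.1, q.2)).unpair.2 + (g (q.1, q.2)).unpair.1)
      Computable.id (Computable.const 0) ?_
    exact hF.comp Computable.snd
  have hp : Computable fun n => g (n, s n) := hg.comp (Computable.id.pair hs)
  refine ⟨s, fun n => (g (n, s n)).unpair.2, fun n => (g (n, s n)).unpair.1, hs,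
    Computable.snd.comp (Computable.unpair.comp hp),
    Computable.fst.comp (Computable.unpair.comp hp), rfl, fun n => rfl, fun n => hg' (n, s n)⟩

/-- W7. Given `n` and `s`, search for a pair `(L, t)` with `okP` (`Partrec.rfind` or `Nat.rfind` on `Nat.unpair`); then
`Computable.nat_rec` for the sequence `s` (compare `Lib/H48K/P6.lean` and `H1.lean`, proved). -/
theorem exists_plan2 (hm : Computable m) (hd : Computable d)
    (hex : ∀ n s, ∃ L t, okP m d n s L t = true) :
    ∃ s t L : ℕ → ℕ, Computable s ∧ Computable t ∧ Computable L ∧ Plan2 m d s t L := by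
  obtain ⟨s, t, L, h1, h2, h3, h4, h5, h6⟩ := W7_gen (okP m d) (computable_okP hm hd) hex
  exact ⟨s, t, L, h1, h2, h3, ⟨h4, h5, h6⟩⟩

end H48K
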