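import Pool.Agent.Lib.H48K.W6

/-!
# H48K, chunk W8: the two rules are computable
-/

open Set Filter

namespace H48K

variable {m : List Bool → ℕ} {d s t L : ℕ → ℕ}

section

variable {α : Type*} [Primcodable α]

private theorem w8_add {f g : α → ℕ} (hf : Computable f) (hg : Computable g) :
    Computable fun x => f x + g x :=
  Primrec.nat_add.to_comp.comp hf hg

private theorem w8_sub {f g : α → ℕ} (hf : Computable f) (hg : Computable g) :
    Computable fun x => f x - g x :=
  Primrec.nat_sub.to_comp.comp hf hg

private theorem w8_lt {f g : α → ℕ} (hf : Computable f) (hg : Computable g) :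
    Computable fun x => decide (f x < g x) :=
  Primrec.nat_lt.decide.to_comp.comp hf hg

private theorem w8_le {f g : α → ℕ} (hf : Computable f) (hg : Computable g) :
    Computable fun x => decide (f x ≤ g x) :=
  Primrec.nat_le.decide.to_comp.comp hf hg

private theorem w8_eq {f g : α → ℕ} (hf : Computable f) (hg : Computable g) :
    Computable fun x => decide (f x = g x) :=
  Primrec.eq.decide.to_comp.comp hf hg

private theorem w8_ite {β : Type*} [Primcodable β] {p : α → Prop} [DecidablePred p] {f g : α → β}
    (hp : Computable fun x => decide (p x)) (hf : Computable f) (hg : Computable g) :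
    Computable fun x => if p x then f x else g x := by
  refine (Computable.cond hp hf hg).of_eq fun x => ?_
  by_cases h : p x <;> simp [h]

/-- `x = y or b = true`. -/
private theorem w8_or {f g : α → ℕ} {b : α → Bool} (hf : Computable f) (hg : Computable g)
    (hb : Computable b) : Computable fun x => decide (f x = g x ∨ b x = true) := by
  have h1 : Computable fun x => (decide (f x = g x) || b x) :=
    Primrec.or.to_comp.comp (w8_eq hf hg) hb
  refine h1.of_eq fun x => ?_
  cases h : b x <;> simp

private theorem w8_getD {v : α → List Bool} {i : α → ℕ} (hv : Computable v) (hi : Computable i) :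
    Computable fun x => (v x).getD (i x) false :=
  (Primrec.list_getD false).to_comp.comp hv hi

/-- The list of the values of a computable function is computable. -/
private theorem w8_map {β : Type*} [Primcodable β] {F : α → ℕ → β} {n : α → ℕ}
    (hF : Computable₂ F) (hn : Computable n) :
    Computable fun x => (List.range (n x)).map (F x) := by
  have hh : Computable₂ (fun (x : α) (p : ℕ × List β) => p.2 ++ [F x p.1]) := by
    have h1 : Computable (fun q : α × (ℕ × List β) => q.2.2) := Computable.snd.comp Computable.snd
    have h2 : Computable (fun q : α × (ℕ × List β) => F q.1 q.2.1) :=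
      hF.comp Computable.fst (Computable.fst.comp Computable.snd)
    exact (Primrec.list_concat.to_comp.comp h1 h2 :
      Computable (fun q : α × (ℕ × List β) => q.2.2 ++ [F q.1 q.2.1])).to₂
  have h3 := Computable.nat_rec hn (Computable.const (α := α) ([] : List β)) hh
  refine h3.of_eq fun x => ?_
  generalize n x = k
  induction k with
  | zero => simp
  | succ k ih =>
    rw [List.range_succ, List.map_append, ← ih]
    rfl

end

theorem computable_bk (hs : Computable s) : Computable (bk s) := by
  have hF : Computable₂ (fun (k : ℕ) (n : ℕ) => if s (n + 1) ≤ k then 1 else 0) :=
    (w8_ite (w8_le (hs.comp (w8_add Computable.snd (Computable.const 1))) Computable.fst)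
      (Computable.const 1) (Computable.const 0) :
        Computable (fun q : ℕ × ℕ => if s (q.2 + 1) ≤ q.1 then (1 : ℕ) else 0)).to₂
  have h4 := computable_sum hF Computable.id
  refine h4.of_eq fun k => ?_
  unfold bk
  rw [Finset.card_filter]
  rfl

theorem computable_f3 (hs : Computable s) (ht : Computable t) (hL : Computable L) :
    Computable (f3 s t L) := by
  have hlen : Computable fun v : List Bool => v.length := Primrec.list_length.to_comp
  have hb : Computable fun v : List Bool => bk s v.length := (computable_bk hs).comp hlen
  have hsb : Computable fun v : List Bool => s (bk s v.length) := hs.comp hb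
  have htb : Computable fun v : List Bool => t (bk s v.length) := ht.comp hb
  have hLb : Computable fun v : List Bool => L (bk s v.length) := hL.comp hb
  have hg : Computable fun v : List Bool => v.getD (s (bk s v.length)) false :=
    w8_getD Computable.id hsb
  exact w8_ite (w8_or hlen hsb hg) (hlen.pair (Computable.const true))
    (w8_ite (w8_lt hlen (w8_add (w8_add hsb (Computable.const 1)) hLb))
      ((w8_add htb (w8_sub (w8_sub hlen hsb) (Computable.const 1))).pair (Computable.const true))
      ((w8_sub hlen hLb).pair (Computable.const true)))

private theorem w8_gB (hs : Computable s) (hL : Computable L) :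
    Computable fun q : List Bool × ℕ => gB s L q.1 q.2 := by
  have hb : Computable fun q : List Bool × ℕ => bk s q.2 := (computable_bk hs).comp Computable.snd
  have hsb : Computable fun q : List Bool × ℕ => s (bk s q.2) := hs.comp hb
  have hLb : Computable fun q : List Bool × ℕ => L (bk s q.2) := hL.comp hb
  exact w8_ite (w8_eq Computable.snd hsb)
    (w8_getD Computable.fst (w8_add Computable.snd hLb))
    (w8_ite (w8_le Computable.snd (w8_add hsb hLb))
      (w8_getD Computable.fst (w8_sub Computable.snd (Computable.const 1)))
      (w8_getD Computable.fst Computable.snd))

private theorem w8_rX (hs : Computable s) (ht : Computable t) (hL : Computable L) :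
    Computable fun q : List Bool × ℕ => rX s t L q.1 q.2 := by
  have hb : Computable fun q : List Bool × ℕ => bk s q.2 := (computable_bk hs).comp Computable.snd
  have hsb : Computable fun q : List Bool × ℕ => s (bk s q.2) := hs.comp hb
  have htb : Computable fun q : List Bool × ℕ => t (bk s q.2) := ht.comp hb
  have hLb : Computable fun q : List Bool × ℕ => L (bk s q.2) := hL.comp hb
  have hG : ∀ {i : List Bool × ℕ → ℕ}, Computable i →
      Computable fun q : List Bool × ℕ => gB s L q.1 (i q) := fun hi =>
    (w8_gB hs hL).comp (Computable.fst.pair hi)
  exact w8_ite (w8_or Computable.snd hsb (hG hsb)) (hG Computable.snd)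
    (w8_ite (w8_lt Computable.snd htb) (hG (w8_add Computable.snd hLb))
      (hG (w8_add (w8_add (w8_sub Computable.snd htb) hsb) (Computable.const 1))))

/-- (`List.map` over `List.range` of a computable function: build it by `Computable.nat_rec` and `List.concat`, as Mathlib
has only `Primrec.list_map`.) -/
theorem computable_g3 (hm : Computable m) (hd : Computable d) (hs : Computable s)
    (ht : Computable t) (hL : Computable L) : Computable (g3 m d s t L) := by
  have hlen : Computable fun v : List Bool => v.length := Primrec.list_length.to_comp
  have hb : Computable fun v : List Bool => bk s v.length := (computable_bk hs).comp hlen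
  have hsb : Computable fun v : List Bool => s (bk s v.length) := hs.comp hb
  have hLb : Computable fun v : List Bool => L (bk s v.length) := hL.comp hb
  have hv : Computable fun w : List Bool => (List.range (s (bk s w.length))).map (rX s t L w) :=
    w8_map (F := fun w x => rX s t L w x) (w8_rX hs ht hL).to₂ hsb
  have hy : Computable fun w : List Bool =>
      (List.range (L (bk s w.length))).map fun i => w.getD (s (bk s w.length) + i) false :=
    w8_map (F := fun w i => w.getD (s (bk s w.length) + i) false)
      (w8_getD Computable.fst (w8_add (hsb.comp Computable.fst) Computable.snd) :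
        Computable fun q : List Bool × ℕ => q.1.getD (s (bk s q.1.length) + q.2) false).to₂ hLb
  have hp : Computable fun w : List Bool => ps m d (bk s w.length + 1)
      ((List.range (s (bk s w.length))).map (rX s t L w))
      ((List.range (L (bk s w.length))).map fun i => w.getD (s (bk s w.length) + i) false) := by
    have hx := (computable_ps hm hd).comp ((w8_add hb (Computable.const 1)).pair (hv.pair hy))
    exact hx
  exact w8_ite (w8_lt hlen (w8_add hsb hLb))
    ((w8_add hlen (Computable.const 1)).pair (Computable.const false))
    (w8_ite (w8_eq hlen (w8_add hsb hLb)) (hsb.pair hp) (hlen.pair (Computable.const false)))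

end H48K
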