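import Pool.Agent.Lib.H48K.F4
import Pool.Agent.Lib.H48K.W4
import Pool.Agent.Lib.H48K.W5
import Pool.Agent.Lib.H48K.W7
import Pool.Agent.Lib.H48K.W8
import Pool.Agent.Lib.H48K.W10

/-!
# H48K, chunk F5: singular computable measures
-/

open MeasureTheory Set Filter H69K

namespace H48K

variable {ν : Measure (ℕ → Bool)} {m : List Bool → ℕ} {d s t L : ℕ → ℕ}

theorem exists_ok [IsProbabilityMeasure ν] (hs : ν ⟂ₘ mu fair) (hν : CompMeas ν m d)
    (hKL : ∀ᵐ X ∂ν, KLStochastic X) (n s : ℕ) : ∃ L t, okP m d n s L t = true := by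
  obtain ⟨L, hL⟩ := exists_L hs hν (n + 1) s n
  obtain ⟨t, ht, ht2⟩ := exists_t hν hKL n s L (s + 1 + L)
  exact ⟨L, t, (okP_iff hν n s L t).2 ⟨ht, hL, ht2⟩⟩

theorem ae_dec3 [IsProbabilityMeasure ν] (hν : CompMeas ν m d) (hP : Plan2 m d s t L) :
    ∀ᵐ X ∂ν, ∀ᶠ n in atTop, D3 m d s t L X n = X (s n) := by
  have hsum : ∑' n : ℕ, (2⁻¹ : ENNReal) ^ n ≠ ⊤ := by
    rw [ENNReal.tsum_geometric]
    simp
  have h1 := ae_eventually_notMem (ne_top_of_le_ne_top hsum (ENNReal.tsum_le_tsum fun n =>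
    ((okP_iff hν n (s n) (L n) (t n)).1 (hP.ok n)).2.1))
  have h2 := ae_eventually_notMem (ne_top_of_le_ne_top hsum (ENNReal.tsum_le_tsum fun n =>
    ((okP_iff hν n (s n) (L n) (t n)).1 (hP.ok n)).2.2))
  filter_upwards [h1, h2] with X hX1 hX2
  filter_upwards [hX1, hX2] with n hn1 hn2
  unfold D3
  cases hx : X (s n) with
  | true =>
    rw [if_pos rfl]
    by_contra hcon
    rw [Bool.not_eq_true] at hcon
    exact hn1 ⟨hx, hcon⟩
  | false =>
    rw [if_neg Bool.false_ne_true]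
    by_contra hcon
    rw [Bool.not_eq_false] at hcon
    exact hn2 ⟨hx, hcon⟩

theorem singular [IsProbabilityMeasure ν] (hs : ν ⟂ₘ mu fair) (hν : CompMeas ν m d)
    (hKL : ∀ᵐ X ∂ν, KLStochastic X) :
    ∃ f g : List Bool → ℕ × Bool, Computable f ∧ Computable g ∧
      ∀ᵐ X ∂ν, ∃ B C : ℕ → Bool, Sel (fun v => Part.some (f v)) X B ∧
        Sel (fun v => Part.some (g v)) B C ∧ ∀ᶠ j in atTop, C j = true := by
  obtain ⟨s, t, L, hsc, htc, hLc, hP⟩ := exists_plan2 hν.cm hν.cd (exists_ok hs hν hKL)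
  refine ⟨f3 s t L, g3 m d s t L, computable_f3 hsc htc hLc,
    computable_g3 hν.cm hν.cd hsc htc hLc, ?_⟩
  have hmono : StrictMono s := strictMono_nat_of_lt_succ fun n => (plan2_lt hP n).2
  filter_upwards [ae_dec3 hν hP, hKL] with X hX1 hX2
  have hX3 := infinite_headers hsc hmono.injective X hX2
  have hinf : Set.Infinite {n | D3 m d s t L X n = true} := by
    intro hfin
    apply hX3
    obtain ⟨N, hN⟩ := eventually_atTop.1 hX1
    refine (hfin.union (Set.finite_lt_nat N)).subset ?_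
    intro n hn
    by_cases h : n < N
    · exact Or.inr h
    · left
      have h1 := hN n (not_lt.1 h)
      show D3 m d s t L X n = true
      rw [h1]
      exact hn
  obtain ⟨C, hC1, hC2⟩ := sel_g3 hP X hinf hX1
  exact ⟨B3 s t L X, C, sel_f3 hP X, hC1, hC2⟩

end H48K
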