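import Pool.Agent.Lib.H48K.Defs6
import Pool.Agent.Lib.H48K.W1
import Pool.Agent.Lib.H48K.TJ

/-!
# H48K, chunk X1: null sets of the fair measure outside of `Sr ν`
-/

open MeasureTheory Set Filter H69K

namespace H48K

private theorem X1_Cy_E (v : List Bool) : Cy v = E v.length {fun i : Fin v.length => v.get i} := by
  ext X
  show pre X v.length = v ↔ (fun i : Fin v.length => X i) = fun i : Fin v.length => v.get i
  constructor
  · intro h
    funext i
    have h2 : (pre X v.length)[(i : ℕ)]? = v[(i : ℕ)]? := by rw [h]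
    have h3 : (pre X v.length)[(i : ℕ)]? = some (X i) := by
      unfold pre
      rw [List.getElem?_ofFn]
      rw [dif_pos i.2]
    have h4 : v[(i : ℕ)]? = some (v.get i) := by
      rw [List.getElem?_eq_getElem i.2]
      rfl
    rw [h3, h4] at h2
    exact Option.some.inj h2
  · intro h
    unfold pre
    rw [h]
    exact List.ofFn_get v

private theorem X1_meas (v : List Bool) : MeasurableSet (Cy v) := by
  rw [X1_Cy_E]
  exact measurableSet_E _ _

private theorem X1_q (i : ℕ) (b : Bool) : q (fair i) b = 1 / 2 := by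
  unfold q fair
  cases b <;> norm_num

private theorem X1_Cy (v : List Bool) : mu fair (Cy v) = (2⁻¹ : ENNReal) ^ v.length := by
  classical
  rw [X1_Cy_E, mu_E]
  have h1 : (∑ w : Fin v.length → Bool, if w ∈ ({fun i : Fin v.length => v.get i} : Set (Fin v.length → Bool))
      then ∏ i : Fin v.length, q (fair i) (w i) else 0) = (1 / 2 : ℝ) ^ v.length := by
    rw [Finset.sum_eq_single (fun i : Fin v.length => v.get i)]
    · rw [if_pos (Set.mem_singleton _)]
      rw [Finset.prod_congr rfl fun (i : Fin v.length) _ => X1_q (i : ℕ) (v.get i)]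
      rw [Finset.prod_const, Finset.card_univ, Fintype.card_fin]
    · intro w _ hw
      rw [if_neg]
      intro h
      exact hw (Set.mem_singleton_iff.1 h)
    · intro h
      exact absurd (Finset.mem_univ _) h
  rw [h1, ENNReal.ofReal_pow (by norm_num)]
  congr 1
  rw [one_div, ENNReal.ofReal_inv_of_pos (by norm_num)]
  norm_num

/-- The words of `V` without proper prefix in `V`. -/
private def X1_W0 (V : Set (List Bool)) : Set (List Bool) := {v | v ∈ V ∧ ∀ u ∈ V, u <+: v → u = v}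

private theorem X1_min (V : Set (List Bool)) (v : List Bool) (hv : v ∈ V) : ∃ u ∈ X1_W0 V, u <+: v := by
  have hex : ∃ m, ∃ u ∈ V, u <+: v ∧ u.length = m := ⟨v.length, v, hv, List.prefix_rfl, rfl⟩
  classical
  obtain ⟨u, hu, hp, hl⟩ := Nat.find_spec hex
  refine ⟨u, ⟨hu, ?_⟩, hp⟩
  intro t ht htu
  by_contra hne
  have hlt : t.length < Nat.find hex := by
    rw [← hl]
    rcases Nat.lt_or_ge t.length u.length with h | h
    · exact h
    · exact absurd (htu.eq_of_length_le h) hne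
  exact Nat.find_min hex hlt ⟨t, ht, htu.trans hp, rfl⟩

private theorem X1_disj (V : Set (List Bool)) : (X1_W0 V).PairwiseDisjoint Cy := by
  intro v hv v' hv' hne
  rw [Function.onFun, Set.disjoint_left]
  intro X h1 h2
  have key : ∀ a b : List Bool, a ∈ X1_W0 V → b ∈ X1_W0 V → pre X a.length = a → pre X b.length = b →
      a.length ≤ b.length → a = b := by
    intro a b ha hb e1 e2 hle
    apply hb.2 a ha.1
    rw [← e1, ← e2]
    have h3 : pre X a.length = (pre X b.length).take a.length := by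
      apply List.ext_getElem?
      intro i
      rw [List.getElem?_take]
      unfold pre
      rw [List.getElem?_ofFn, List.getElem?_ofFn]
      by_cases hi : i < a.length
      · rw [dif_pos hi, if_pos hi, dif_pos (lt_of_lt_of_le hi hle)]
      · rw [dif_neg hi, if_neg hi]
    rw [h3]
    exact List.take_prefix _ _
  rcases le_total v.length v'.length with h | h
  · exact hne (key v v' hv hv' h1 h2 h)
  · exact hne (key v' v hv' hv h2 h1 h).symm

private theorem X1_len (X : ℕ → Bool) (n : ℕ) : (pre X n).length = n := by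
  simp [pre]

private theorem X1_mem (X : ℕ → Bool) (n : ℕ) : X ∈ Cy (pre X n) := by
  show pre X (pre X n).length = pre X n
  rw [X1_len]

/-- A prefix of a prefix of `X` is a prefix of `X`. -/
private theorem X1_pre (X : ℕ → Bool) (n : ℕ) (u : List Bool) (hu : u <+: pre X n) : X ∈ Cy u := by
  show pre X u.length = u
  have h1 := hu.length_le
  rw [X1_len] at h1
  have h2 : u = (pre X n).take u.length := List.prefix_iff_eq_take.1 hu
  rw [h2]
  apply List.ext_getElem?
  intro i
  have h3 : ((pre X n).take u.length).length = u.length := by rw [← h2]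
  rw [h3, List.getElem?_take]
  unfold pre
  rw [List.getElem?_ofFn, List.getElem?_ofFn]
  by_cases hi : i < u.length
  · rw [dif_pos hi, if_pos hi, dif_pos (lt_of_lt_of_le hi h1)]
  · rw [dif_neg hi, if_neg hi]

/-- The cylinders shrink. -/
private theorem X1_sub (X : ℕ → Bool) {m n : ℕ} (h : m ≤ n) : Cy (pre X n) ⊆ Cy (pre X m) := by
  intro Y hY
  have h1 : pre Y n = pre X n := by
    have h2 : pre Y (pre X n).length = pre X n := hY
    rwa [X1_len] at h2
  apply X1_pre Y n
  rw [h1]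
  have h3 : pre X m = (pre X n).take m := by
    apply List.ext_getElem?
    intro i
    rw [List.getElem?_take]
    unfold pre
    rw [List.getElem?_ofFn, List.getElem?_ofFn]
    by_cases hi : i < m
    · rw [dif_pos hi, if_pos hi, dif_pos (lt_of_lt_of_le hi h)]
    · rw [dif_neg hi, if_neg hi]
  rw [h3]
  exact List.take_prefix _ _

/-- A neighbourhood of `X` contains a cylinder. -/
private theorem X1_nhd (U : Set (ℕ → Bool)) (hU : IsOpen U) (X : ℕ → Bool) (hX : X ∈ U) :
    ∃ m, Cy (pre X m) ⊆ U := by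
  obtain ⟨I, u, hu, hsub⟩ := isOpen_pi_iff.1 hU X hX
  obtain ⟨m, hm⟩ : ∃ m : ℕ, ∀ i ∈ I, i < m := by
    refine ⟨I.sup id + 1, fun i hi => ?_⟩
    have : i ≤ I.sup id := Finset.le_sup (f := id) hi
    omega
  refine ⟨m, fun Y hY => hsub ?_⟩
  rw [Set.mem_pi]
  intro i hi
  have h1 : pre Y m = pre X m := by
    have h2 : pre Y (pre X m).length = pre X m := hY
    rwa [X1_len] at h2
  have h3 : (pre Y m)[i]? = (pre X m)[i]? := by rw [h1]
  unfold pre at h3
  rw [List.getElem?_ofFn, List.getElem?_ofFn, dif_pos (hm i hi), dif_pos (hm i hi)] at h3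
  have h4 : Y i = X i := Option.some.inj h3
  rw [h4]
  exact (hu i hi).2

private theorem X1_main (ν : Measure (ℕ → Bool)) [IsProbabilityMeasure ν] (Z : Set (ℕ → Bool))
    (hZ : mu fair Z = 0) (C : ℕ) :
    ν (Z ∩ {X | ¬ ∀ᶠ n in atTop, (C : ENNReal) * (2⁻¹ : ENNReal) ^ n < ν (Cy (pre X n))}) = 0 := by
  apply le_antisymm _ zero_le
  -- the bound for every positive real
  have hmain : ∀ ε : ENNReal, 0 < ε →
      ν (Z ∩ {X | ¬ ∀ᶠ n in atTop, (C : ENNReal) * (2⁻¹ : ENNReal) ^ n < ν (Cy (pre X n))}) ≤ C * ε := by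
    intro ε hε
    obtain ⟨U, hZU, hU, hUlt⟩ := Set.exists_isOpen_lt_of_lt Z ε (by rw [hZ]; exact hε)
    set W : Set (List Bool) := {w | Cy w ⊆ U ∧ ν (Cy w) ≤ (C : ENNReal) * (2⁻¹ : ENNReal) ^ w.length} with hW
    have hsub : Z ∩ {X | ¬ ∀ᶠ n in atTop, (C : ENNReal) * (2⁻¹ : ENNReal) ^ n < ν (Cy (pre X n))} ⊆
        ⋃ v ∈ X1_W0 W, Cy v := by
      rintro X ⟨hXZ, hX⟩
      obtain ⟨m, hm⟩ := X1_nhd U hU X (hZU hXZ)
      have hX2 : ∃ᶠ n in atTop, ν (Cy (pre X n)) ≤ (C : ENNReal) * (2⁻¹ : ENNReal) ^ n := by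
        have h1 : ¬ ∀ᶠ n in atTop, (C : ENNReal) * (2⁻¹ : ENNReal) ^ n < ν (Cy (pre X n)) := hX
        rw [Filter.not_eventually] at h1
        exact h1.mono fun n hn => not_lt.1 hn
      obtain ⟨n, hmn, hn⟩ := (Filter.frequently_atTop.1 hX2) m
      have hwW : pre X n ∈ W := by
        refine ⟨(X1_sub X hmn).trans hm, ?_⟩
        rw [X1_len]
        exact hn
      obtain ⟨u, hu, hp⟩ := X1_min W _ hwW
      exact Set.mem_iUnion₂.2 ⟨u, hu, X1_pre X n u hp⟩
    calc ν (Z ∩ {X | ¬ ∀ᶠ n in atTop, (C : ENNReal) * (2⁻¹ : ENNReal) ^ n < ν (Cy (pre X n))})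
        ≤ ν (⋃ v ∈ X1_W0 W, Cy v) := measure_mono hsub
      _ ≤ ∑' v : X1_W0 W, ν (Cy (v : List Bool)) := measure_biUnion_le _ (Set.to_countable _) _
      _ ≤ ∑' v : X1_W0 W, (C : ENNReal) * mu fair (Cy (v : List Bool)) := by
          refine ENNReal.tsum_le_tsum fun v => ?_
          rw [X1_Cy]
          exact v.2.1.2
      _ = (C : ENNReal) * ∑' v : X1_W0 W, mu fair (Cy (v : List Bool)) := ENNReal.tsum_mul_left
      _ = (C : ENNReal) * mu fair (⋃ v ∈ X1_W0 W, Cy v) := by
          rw [measure_biUnion (Set.to_countable _) (X1_disj W) fun v _ => X1_meas v]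
      _ ≤ (C : ENNReal) * mu fair U := by
          gcongr
          exact Set.iUnion₂_subset fun v hv => hv.1.1
      _ ≤ (C : ENNReal) * ε := by gcongr
  apply le_of_forall_gt
  intro δ hδ
  obtain ⟨ε, hε, hlt⟩ := ENNReal.exists_nnreal_pos_mul_lt (ENNReal.natCast_ne_top C) (ne_of_gt hδ)
  refine lt_of_le_of_lt (hmain (ε : ENNReal) (by exact_mod_cast hε)) ?_
  rw [mul_comm]
  exact hlt

/-- X1a. As in the proof of `ae_ratio` (W1, proved): `ν (Z ∩ {X | ν (Cy (pre X n)) ≤ C 2^(-n) infinitely often}) ≤ C mu fair U`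
for every open `U ⊇ Z`. So `ν (Z \ Sr ν) = 0`. -/
theorem null_diff_Sr (ν : Measure (ℕ → Bool)) [IsProbabilityMeasure ν] (Z : Set (ℕ → Bool))
    (hZ : mu fair Z = 0) : ν (Z \ Sr ν) = 0 := by
  have h1 : Z \ Sr ν ⊆ ⋃ C : ℕ, (Z ∩ {X | ¬ ∀ᶠ n in atTop, (C : ENNReal) * (2⁻¹ : ENNReal) ^ n < ν (Cy (pre X n))}) := by
    rintro X ⟨hX, hS⟩
    have h2 : ¬ ∀ C : ℕ, ∀ᶠ n in atTop, (C : ENNReal) * (2⁻¹ : ENNReal) ^ n < ν (Cy (pre X n)) := hS
    push Not at h2
    obtain ⟨C, hC⟩ := h2
    refine Set.mem_iUnion.2 ⟨C, hX, ?_⟩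
    show ¬ _
    rw [Filter.not_eventually]
    exact hC.mono fun n hn => not_lt.2 hn
  exact measure_mono_null h1 (measure_iUnion_null fun C => X1_main ν Z hZ C)

/-- X1b. (`ae_random` in `Lib/H48K/TJ.lean`: the sequences which are not random are null for `mu fair`; import
`Pool.Agent.Lib.H48K.TJ`.) -/
theorem ae_Sr_or_random (ν : Measure (ℕ → Bool)) [IsProbabilityMeasure ν] :
    ∀ᵐ X ∂ν, X ∉ Sr ν → Random (mu fair) X := by
  have h1 : mu fair {X | ¬ Random (mu fair) X} = 0 := ae_iff.1 (ae_random (mu fair))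
  have h2 := null_diff_Sr ν _ h1
  filter_upwards [measure_eq_zero_iff_ae_notMem.1 h2] with X hX hS
  by_contra hR
  exact hX ⟨hR, hS⟩

end H48K
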