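import Pool.Agent.Lib.H48K.Defs6
import Pool.Agent.Lib.H48K.W3

/-!
# H48K, chunk X2: the first error, general form
-/

open MeasureTheory Set Filter H69K

namespace H48K

variable {ν : Measure (ℕ → Bool)} {m : List Bool → ℕ} {d : ℕ → ℕ}

private theorem x2_Cy_E (v : List Bool) : Cy v = E v.length {fun i : Fin v.length => v.get i} := by
  ext X
  show pre X v.length = v ↔ (fun i : Fin v.length => X i) = fun i : Fin v.length => v.get i
  constructor
  · intro h
    funext i
    have h2 : (pre X v.length)[(i : ℕ)]? = v[(i : ℕ)]? := by rw [h]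
    have h3 : (pre X v.length)[(i : ℕ)]? = some (X i) := by
      unfold pre
      rw [List.getElem?_ofFn]
      rw [dif_pos i.2]
    have h4 : v[(i : ℕ)]? = some (v.get i) := by
      rw [List.getElem?_eq_getElem i.2]
      rfl
    rw [h3, h4] at h2
    exact Option.some.inj h2
  · intro h
    unfold pre
    rw [h]
    exact List.ofFn_get v

private theorem x2_meas (v : List Bool) : MeasurableSet (Cy v) := by
  rw [x2_Cy_E]
  exact measurableSet_E _ _

private theorem x2_len (X : ℕ → Bool) (n : ℕ) : (pre X n).length = n := by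
  simp [pre]

private theorem x2_get (X : ℕ → Bool) (n i : ℕ) (h : i < n) : (pre X n)[i]? = some (X i) := by
  unfold pre
  rw [List.getElem?_ofFn, dif_pos h]

private theorem x2_take (X : ℕ → Bool) {s n : ℕ} (h : s ≤ n) : (pre X n).take s = pre X s := by
  apply List.ext_getElem?
  intro i
  rw [List.getElem?_take]
  unfold pre
  rw [List.getElem?_ofFn, List.getElem?_ofFn]
  by_cases hi : i < s
  · rw [if_pos hi, dif_pos (lt_of_lt_of_le hi h), dif_pos hi]
  · rw [if_neg hi, dif_neg hi]

private theorem x2_drop (X : ℕ → Bool) (s L : ℕ) : (pre X (s + L)).drop s = seg X s L := by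
  apply List.ext_getElem?
  intro i
  rw [List.getElem?_drop]
  unfold pre seg
  rw [List.getElem?_ofFn, List.getElem?_ofFn]
  by_cases hi : i < L
  · rw [dif_pos (Nat.add_lt_add_left hi s), dif_pos hi]
  · rw [dif_neg (fun h => hi (Nat.lt_of_add_lt_add_left h)), dif_neg hi]

private theorem x2_succ (X : ℕ → Bool) (s : ℕ) : pre X (s + 1) = pre X s ++ [X s] := by
  have h1 : pre X (s + 1) = (pre X (s + 1)).take s ++ (pre X (s + 1)).drop s :=
    (List.take_append_drop _ _).symm
  rw [h1, x2_take X (Nat.le_succ s), x2_drop]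
  simp [seg]

private theorem x2_split (X : ℕ → Bool) (s L : ℕ) :
    pre X (s + 1 + L) = pre X s ++ X s :: seg X (s + 1) L := by
  have h1 : pre X (s + 1 + L) = (pre X (s + 1 + L)).take (s + 1) ++ (pre X (s + 1 + L)).drop (s + 1) :=
    (List.take_append_drop _ _).symm
  rw [h1, x2_take X (Nat.le_add_right _ _), x2_drop, x2_succ]
  simp

/-- X2a. (Countably many conditions on finitely many bits.) -/
theorem measurable_Sr (ν : Measure (ℕ → Bool)) : MeasurableSet (Sr ν) := by
  have h1 : ∀ C n : ℕ, MeasurableSet {X : ℕ → Bool |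
      (C : ENNReal) * (2⁻¹ : ENNReal) ^ n < ν (Cy (pre X n))} := by
    intro C n
    have h2 : {X : ℕ → Bool | (C : ENNReal) * (2⁻¹ : ENNReal) ^ n < ν (Cy (pre X n))} =
        ⋃ w ∈ {w : List Bool | w.length = n ∧ (C : ENNReal) * (2⁻¹ : ENNReal) ^ n < ν (Cy w)},
          Cy w := by
      ext X
      simp only [mem_iUnion, exists_prop, mem_setOf_eq]
      constructor
      · intro hX
        refine ⟨pre X n, ⟨x2_len _ _, hX⟩, ?_⟩
        show pre X (pre X n).length = _
        rw [x2_len]
      · rintro ⟨w, ⟨hw1, hw2⟩, hw3⟩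
        have hw5 : pre X n = w := by
          rw [← hw1]
          exact hw3
        rw [hw5]
        exact hw2
    rw [h2]
    exact MeasurableSet.biUnion (to_countable _) fun w _ => x2_meas w
  have h2 : Sr ν = ⋂ C : ℕ, ⋃ N : ℕ, ⋂ n : ℕ, ⋂ (_ : N ≤ n), {X : ℕ → Bool |
      (C : ENNReal) * (2⁻¹ : ENNReal) ^ n < ν (Cy (pre X n))} := by
    ext X
    simp only [Sr, mem_setOf_eq, mem_iInter, mem_iUnion, eventually_atTop]
  rw [h2]
  exact MeasurableSet.iInter fun C => MeasurableSet.iUnion fun N => MeasurableSet.iInter fun n =>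
    MeasurableSet.iInter fun _ => h1 C n

/-- X2b. As `exists_L` (W3): every `X ∈ Sr ν` is in `ER1 K s L` only for finitely many `L` (`ps_iff`), so
`limsup ν (ER1 K s L) ≤ ν (Sr ν)ᶜ < δ`. -/
theorem exists_L' [IsProbabilityMeasure ν] (hν : CompMeas ν m d) (δ : ENNReal)
    (hδ : ν (Sr ν)ᶜ < δ) (K s : ℕ) : ∃ L, ν (ER1 m d K s L) ≤ δ := by
  -- the error sets are measurable
  have hmeas : ∀ L, MeasurableSet (ER1 m d K s L) := by
    intro L
    have h1 : ER1 m d K s L = ⋃ w ∈ {w : List Bool | w.length = s + 1 + L ∧ w[s]? = some true ∧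
        ps m d K (w.take s) (w.drop (s + 1)) = false}, Cy w := by
      ext X
      simp only [mem_iUnion, exists_prop, mem_setOf_eq]
      constructor
      · rintro ⟨hX1, hX2⟩
        refine ⟨pre X (s + 1 + L), ⟨x2_len _ _, ?_, ?_⟩, ?_⟩
        · rw [x2_get X _ s (by omega), hX1]
        · rw [x2_take X (by omega), x2_drop]
          exact hX2
        · show pre X (pre X (s + 1 + L)).length = _
          rw [x2_len]
      · rintro ⟨w, ⟨hw1, hw2, hw3⟩, hw4⟩
        have hw5 : pre X (s + 1 + L) = w := by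
          rw [← hw1]
          exact hw4
        rw [← hw5] at hw2 hw3
        rw [x2_get X _ s (by omega)] at hw2
        rw [x2_take X (by omega), x2_drop] at hw3
        exact ⟨Option.some.inj hw2, hw3⟩
    rw [h1]
    exact MeasurableSet.biUnion (to_countable _) fun w _ => x2_meas w
  -- the decreasing sets
  set A : ℕ → Set (ℕ → Bool) := fun L0 => ⋃ L, ⋃ (_ : L0 ≤ L), ER1 m d K s L with hA
  have hAm : ∀ L0, MeasurableSet (A L0) := fun L0 =>
    MeasurableSet.iUnion fun L => MeasurableSet.iUnion fun _ => hmeas L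
  have hanti : Antitone A := by
    intro a b hab X hX
    simp only [hA, mem_iUnion, exists_prop] at hX ⊢
    obtain ⟨L, hL, hX⟩ := hX
    exact ⟨L, hab.trans hL, hX⟩
  have hnull : ν (⋂ L0, A L0) < δ := by
    refine lt_of_le_of_lt (measure_mono ?_) hδ
    intro X hX hall
    obtain ⟨N, hN⟩ := (hall (2 ^ K * 2 ^ (s + 1))).exists_forall_of_atTop
    have hXN := mem_iInter.1 hX N
    simp only [hA, mem_iUnion, exists_prop] at hXN
    obtain ⟨L, hL, hX1, hX2⟩ := hXN
    have h2 := hN (s + 1 + L) (by omega)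
    rw [x2_split, hX1] at h2
    have h3 : ps m d K (pre X s) (seg X (s + 1) L) = true := by
      rw [ps_iff hν]
      refine lt_of_le_of_lt ?_ h2
      have hlen : (seg X (s + 1) L).length = L := by simp [seg]
      rw [hlen]
      push_cast
      have h4 : (2 : ENNReal) ^ (s + 1) * (2⁻¹ : ENNReal) ^ (s + 1) = 1 := by
        rw [← mul_pow, ENNReal.mul_inv_cancel (by norm_num) (by norm_num), one_pow]
      calc (2 : ENNReal) ^ K * (2⁻¹ : ENNReal) ^ L * ν (Cy (pre X s ++ [true]))
          ≤ (2 : ENNReal) ^ K * (2⁻¹ : ENNReal) ^ L * 1 := by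
            gcongr
            exact prob_le_one
        _ = (2 : ENNReal) ^ K * (2⁻¹ : ENNReal) ^ L * ((2 : ENNReal) ^ (s + 1) * (2⁻¹ : ENNReal) ^ (s + 1)) := by
            rw [h4]
        _ = (2 : ENNReal) ^ K * 2 ^ (s + 1) * (2⁻¹ : ENNReal) ^ (s + 1 + L) := by
            rw [pow_add (2⁻¹ : ENNReal) (s + 1) L]
            ring
    rw [h3] at hX2
    exact absurd hX2 (by simp)
  have htend := tendsto_measure_iInter_atTop (μ := ν) (fun L0 => (hAm L0).nullMeasurableSet) hanti
    ⟨0, measure_ne_top _ _⟩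
  obtain ⟨L, hL⟩ := (htend.eventually_lt_const hnull).exists
  refine ⟨L, (measure_mono ?_).trans hL.le⟩
  intro X hX
  simp only [hA, mem_iUnion, exists_prop]
  exact ⟨L, le_refl _, hX⟩

end H48K
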