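import Pool.Agent.Lib.H48K.Defs6
import Pool.Agent.Lib.H48K.W5
import Pool.Agent.Lib.H48K.W7

/-!
# H48K, chunk X4: a computable plan with constant error bound
-/

open MeasureTheory Set Filter H69K

namespace H48K

variable {ν : Measure (ℕ → Bool)} {m : List Bool → ℕ} {d : ℕ → ℕ}

private theorem x4_le {a b r : ℕ} (hb : 0 < b) (hr : 0 < r) :
    ((a : ENNReal) / (b : ENNReal) ≤ (r : ENNReal)⁻¹) ↔ a * r ≤ b := by
  have hb0 : (b : ENNReal) ≠ 0 := by exact_mod_cast hb.ne'
  have hbt : (b : ENNReal) ≠ ⊤ := ENNReal.natCast_ne_top b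
  have h2 : (r : ENNReal) ≠ 0 := by exact_mod_cast hr.ne'
  have h2t : (r : ENNReal) ≠ ⊤ := ENNReal.natCast_ne_top r
  rw [ENNReal.div_le_iff hb0 hbt, mul_comm, ← div_eq_mul_inv,
    ENNReal.le_div_iff_mul_le (Or.inl h2) (Or.inl h2t)]
  constructor
  · intro h
    exact_mod_cast h
  · intro h
    exact_mod_cast h

/-- X4a. As `okP_iff` (W5). -/
theorem okQ_iff (hν : CompMeas ν m d) (r : ℕ) (hr : 0 < r) (n s L t : ℕ) :
    okQ m d r n s L t = true ↔ s + 1 + L ≤ t ∧ (n < r ∨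
      (ν (ER1 m d (n + 1) s L) ≤ (r : ENNReal)⁻¹ ∧ ν (ER2 m d (n + 1) s L t) ≤ (r : ENNReal)⁻¹)) := by
  unfold okQ
  rw [Bool.and_eq_true, Bool.or_eq_true, Bool.and_eq_true, decide_eq_true_eq, decide_eq_true_eq,
    decide_eq_true_eq, decide_eq_true_eq]
  constructor
  · rintro ⟨h1, h2⟩
    refine ⟨h1, ?_⟩
    rcases h2 with h2 | ⟨h2, h3⟩
    · exact Or.inl h2
    · refine Or.inr ⟨?_, ?_⟩
      · rw [measure_ER1 hν, x4_le (hν.pos _) hr]
        exact h2
      · rw [measure_ER2 hν _ _ _ _ (by omega), x4_le (hν.pos _) hr]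
        exact h3
  · rintro ⟨h1, h2⟩
    refine ⟨h1, ?_⟩
    rcases h2 with h2 | ⟨h2, h3⟩
    · exact Or.inl h2
    · rw [measure_ER1 hν, x4_le (hν.pos _) hr] at h2
      rw [measure_ER2 hν _ _ _ _ (by omega), x4_le (hν.pos _) hr] at h3
      exact Or.inr ⟨h2, h3⟩

private theorem x4_search {α : Type*} [Primcodable α] {c : α → ℕ → Bool} (hc : Computable₂ c)
    (h : ∀ x, ∃ n, c x n = true) : ∃ g : α → ℕ, Computable g ∧ ∀ x, c x (g x) = true := by
  refine ⟨fun x => Nat.find (h x), ?_, fun x => Nat.find_spec (h x)⟩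
  have h1 : Partrec fun x : α => Nat.rfind fun n => Part.some (c x n) := Partrec.rfind hc.partrec₂
  refine h1.of_eq_tot fun x => Nat.mem_rfind.2 ⟨?_, fun {m} hm => ?_⟩
  · rw [Nat.find_spec (h x)]
    exact Part.mem_some _
  · have h2 := Nat.find_min (h x) hm
    rw [Bool.not_eq_true] at h2
    rw [h2]
    exact Part.mem_some _

private theorem x4_gen (ok : ℕ → ℕ → ℕ → ℕ → Bool)
    (hok : Computable fun x : ℕ × ℕ × ℕ × ℕ => ok x.1 x.2.1 x.2.2.1 x.2.2.2)
    (hex : ∀ n s, ∃ L t, ok n s L t = true) :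
    ∃ s t L : ℕ → ℕ, Computable s ∧ Computable t ∧ Computable L ∧ s 0 = 0 ∧
      (∀ n, s (n + 1) = t n + L n) ∧ ∀ n, ok n (s n) (L n) (t n) = true := by
  have c1 : Computable₂ fun (p : ℕ × ℕ) (q : ℕ) => ok p.1 p.2 q.unpair.1 q.unpair.2 := by
    have x1 : Computable fun z : (ℕ × ℕ) × ℕ => z.1.1 := Computable.fst.comp Computable.fst
    have x2 : Computable fun z : (ℕ × ℕ) × ℕ => z.1.2 := Computable.snd.comp Computable.fst
    have x3 : Computable fun z : (ℕ × ℕ) × ℕ => z.2.unpair.1 :=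
      Computable.fst.comp (Computable.unpair.comp Computable.snd)
    have x4 : Computable fun z : (ℕ × ℕ) × ℕ => z.2.unpair.2 :=
      Computable.snd.comp (Computable.unpair.comp Computable.snd)
    have x5 : Computable fun z : (ℕ × ℕ) × ℕ =>
        ((z.1.1, z.1.2, z.2.unpair.1, z.2.unpair.2) : ℕ × ℕ × ℕ × ℕ) :=
      x1.pair (x2.pair (x3.pair x4))
    exact hok.comp x5
  obtain ⟨g, hg, hg'⟩ := x4_search c1 (by
    rintro ⟨n, s⟩
    obtain ⟨L, t, h⟩ := hex n s
    refine ⟨Nat.pair L t, ?_⟩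
    rw [Nat.unpair_pair]
    exact h)
  have hF : Computable fun z : ℕ × ℕ => (g z).unpair.2 + (g z).unpair.1 :=
    Primrec.nat_add.to_comp.comp (Computable.snd.comp (Computable.unpair.comp hg))
      (Computable.fst.comp (Computable.unpair.comp hg))
  let s : ℕ → ℕ := fun n => Nat.rec (motive := fun _ => ℕ) 0
    (fun y IH => (g (y, IH)).unpair.2 + (g (y, IH)).unpair.1) n
  have hs : Computable s := by
    refine Computable.nat_rec (h := fun _ q => (g (q.1, q.2)).unpair.2 + (g (q.1, q.2)).unpair.1)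
      Computable.id (Computable.const 0) ?_
    exact hF.comp Computable.snd
  have hp : Computable fun n => g (n, s n) := hg.comp (Computable.id.pair hs)
  refine ⟨s, fun n => (g (n, s n)).unpair.2, fun n => (g (n, s n)).unpair.1, hs,
    Computable.snd.comp (Computable.unpair.comp hp),
    Computable.fst.comp (Computable.unpair.comp hp), rfl, fun n => rfl, fun n => hg' (n, s n)⟩

private theorem x4_okQ (hm : Computable m) (hd : Computable d) (r : ℕ) :
    Computable fun x : ℕ × ℕ × ℕ × ℕ => okQ m d r x.1 x.2.1 x.2.2.1 x.2.2.2 := by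
  have xn : Computable (fun x : ℕ × ℕ × ℕ × ℕ => x.1) := Computable.fst
  have xs : Computable (fun x : ℕ × ℕ × ℕ × ℕ => x.2.1) := Computable.fst.comp Computable.snd
  have xL : Computable (fun x : ℕ × ℕ × ℕ × ℕ => x.2.2.1) :=
    Computable.fst.comp (Computable.snd.comp Computable.snd)
  have xt : Computable (fun x : ℕ × ℕ × ℕ × ℕ => x.2.2.2) :=
    Computable.snd.comp (Computable.snd.comp Computable.snd)
  have l1 : Computable (fun x : ℕ × ℕ × ℕ × ℕ => x.2.1 + 1 + x.2.2.1) :=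
    Primrec.nat_add.to_comp.comp (Computable.succ.comp xs) xL
  have l2 : Computable (fun x : ℕ × ℕ × ℕ × ℕ => x.2.2.2 + x.2.2.1) :=
    Primrec.nat_add.to_comp.comp xt xL
  have q1 : Computable (fun x : ℕ × ℕ × ℕ × ℕ => n1 m d (x.1 + 1) x.2.1 x.2.2.1 * r) :=
    Primrec.nat_mul.to_comp.comp (computable_n1 hm hd) (Computable.const r)
  have q2 : Computable (fun x : ℕ × ℕ × ℕ × ℕ => n2 m d (x.1 + 1) x.2.1 x.2.2.1 x.2.2.2 * r) :=
    Primrec.nat_mul.to_comp.comp (computable_n2 hm hd) (Computable.const r)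
  have e0 := Primrec.nat_le.decide.to_comp.comp l1 xt
  have e1 := Primrec.nat_le.decide.to_comp.comp q1 (hd.comp l1)
  have e2 := Primrec.nat_le.decide.to_comp.comp q2 (hd.comp l2)
  have e4 := Primrec.nat_lt.decide.to_comp.comp xn (Computable.const r)
  have e3 := Primrec.and.to_comp.comp e0 (Primrec.or.to_comp.comp e4 (Primrec.and.to_comp.comp e1 e2))
  refine e3.of_eq fun x => ?_
  rfl

/-- X4b. As `computable_okP` (W6) and `exists_plan2` (W7): computable search. -/
theorem exists_plan3 (hm : Computable m) (hd : Computable d) (r : ℕ)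
    (hex : ∀ n s, ∃ L t, okQ m d r n s L t = true) :
    ∃ s t L : ℕ → ℕ, Computable s ∧ Computable t ∧ Computable L ∧ Plan0 s t L ∧
      ∀ n, okQ m d r n (s n) (L n) (t n) = true := by
  obtain ⟨s, t, L, h1, h2, h3, h4, h5, h6⟩ := x4_gen (okQ m d r) (x4_okQ hm hd r) hex
  refine ⟨s, t, L, h1, h2, h3, ⟨h4, h5, fun n => ?_⟩, h6⟩
  have h7 := h6 n
  unfold okQ at h7
  rw [Bool.and_eq_true, decide_eq_true_eq] at h7
  exact h7.1

end H48K
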