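import Pool.Agent.Lib.H48K.Defs6

/-!
# H48K, chunk X6: the number of the errors
-/

open MeasureTheory Set Filter H69K

namespace H48K

variable {ν : Measure (ℕ → Bool)} {m : List Bool → ℕ} {d s t L : ℕ → ℕ}

/-- X6a. An error in the stage `n` is one of the two error events. -/
theorem err_sub (X : ℕ → Bool) (n : ℕ) (h : D3 m d s t L X n ≠ X (s n)) :
    X ∈ ER1 m d (n + 1) (s n) (L n) ∪ ER2 m d (n + 1) (s n) (L n) (t n) := by
  unfold D3 at h
  cases hX : X (s n) with
  | true =>
    left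
    refine ⟨hX, ?_⟩
    rw [if_pos hX, hX] at h
    exact Bool.eq_false_iff.2 h
  | false =>
    right
    refine ⟨hX, ?_⟩
    rw [if_neg (by rw [hX]; decide), hX] at h
    cases hq : ps m d (n + 1) (pre X (s n)) (seg X (t n) (L n)) with
    | true => rfl
    | false => exact absurd hq h

/-- X6b. For `r ≤ n` the error has measure `≤ 2/r`. So the mean of `errs n` is at most `r + 2 n/r`, by Markov's inequality
`ν {n ≤ 10 errs n} ≤ 10 (r + 2 n/r)/n`, and `ν {X | ∀ᶠ n, n ≤ 10 errs n} ≤ liminf ν {n ≤ 10 errs n} ≤ 20/r`. (The events are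
measurable: they depend on finitely many bits; or use the sets `ER1 ∪ ER2` and `measure_mono`.) -/
theorem errs_bound [IsProbabilityMeasure ν] (r : ℕ) (hr : 0 < r)
    (h : ∀ n, r ≤ n → ν (ER1 m d (n + 1) (s n) (L n)) ≤ (r : ENNReal)⁻¹ ∧
      ν (ER2 m d (n + 1) (s n) (L n) (t n)) ≤ (r : ENNReal)⁻¹) :
    ν {X | ∀ᶠ n in atTop, n ≤ 10 * errs m d s t L X n} ≤ 21 / (r : ENNReal) := by
  classical
  have hr0 : (r : ENNReal) ≠ 0 := by exact_mod_cast hr.ne'
  have hrt : (r : ENNReal) ≠ ⊤ := ENNReal.natCast_ne_top r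
  set A : ℕ → Set (ℕ → Bool) := fun i => toMeasurable ν
    (ER1 m d (i + 1) (s i) (L i) ∪ ER2 m d (i + 1) (s i) (L i) (t i)) with hA
  have hAm : ∀ i, MeasurableSet (A i) := fun i => measurableSet_toMeasurable _ _
  have hAsub : ∀ i, ER1 m d (i + 1) (s i) (L i) ∪ ER2 m d (i + 1) (s i) (L i) (t i) ⊆ A i :=
    fun i => subset_toMeasurable _ _
  have hAν : ∀ i, ν (A i) ≤ (if i < r then 1 else 0) + 2 * (r : ENNReal)⁻¹ := by
    intro i
    by_cases hi : i < r
    · rw [if_pos hi]
      exact le_trans prob_le_one le_self_add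
    · rw [if_neg hi, zero_add]
      have h1 := h i (not_lt.1 hi)
      calc ν (A i) = ν (ER1 m d (i + 1) (s i) (L i) ∪ ER2 m d (i + 1) (s i) (L i) (t i)) :=
            measure_toMeasurable _
        _ ≤ ν (ER1 m d (i + 1) (s i) (L i)) + ν (ER2 m d (i + 1) (s i) (L i) (t i)) :=
            measure_union_le _ _
        _ ≤ (r : ENNReal)⁻¹ + (r : ENNReal)⁻¹ := add_le_add h1.1 h1.2
        _ = 2 * (r : ENNReal)⁻¹ := (two_mul _).symm
  set F : ℕ → (ℕ → Bool) → ENNReal := fun n X =>
    ∑ i ∈ Finset.range n, (A i).indicator (fun _ => (10 : ENNReal)) X with hF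
  have hFm : ∀ n, Measurable (F n) := by
    intro n
    rw [hF]
    exact Finset.measurable_sum _ fun i _ => measurable_const.indicator (hAm i)
  have hFint : ∀ n, ∫⁻ X, F n X ∂ν ≤ 10 * ((r : ENNReal) + n * (2 * (r : ENNReal)⁻¹)) := by
    intro n
    have h1 : ∫⁻ X, F n X ∂ν = ∑ i ∈ Finset.range n, 10 * ν (A i) := by
      rw [hF]
      rw [lintegral_finsetSum _ fun i _ => measurable_const.indicator (hAm i)]
      refine Finset.sum_congr rfl fun i _ => ?_
      rw [lintegral_indicator (hAm i), lintegral_const, Measure.restrict_apply_univ]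
    rw [h1, ← Finset.mul_sum]
    refine mul_le_mul_right ?_ _
    calc ∑ i ∈ Finset.range n, ν (A i)
        ≤ ∑ i ∈ Finset.range n, ((if i < r then 1 else 0) + 2 * (r : ENNReal)⁻¹) :=
          Finset.sum_le_sum fun i _ => hAν i
      _ = (∑ i ∈ Finset.range n, if i < r then (1 : ENNReal) else 0) + n * (2 * (r : ENNReal)⁻¹) := by
          rw [Finset.sum_add_distrib, Finset.sum_const, Finset.card_range, nsmul_eq_mul]
      _ ≤ (r : ENNReal) + n * (2 * (r : ENNReal)⁻¹) := by
          refine add_le_add ?_ (le_refl _)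
          rw [← Finset.sum_filter, Finset.sum_const, nsmul_eq_mul, mul_one]
          have h2 : ((Finset.range n).filter (fun i => i < r)).card ≤ r := by
            calc ((Finset.range n).filter (fun i => i < r)).card ≤ (Finset.range r).card :=
                  Finset.card_le_card fun i hi => Finset.mem_range.2 (Finset.mem_filter.1 hi).2
              _ = r := Finset.card_range r
          exact_mod_cast h2
  set B : ℕ → Set (ℕ → Bool) := fun n => {X | (n : ENNReal) ≤ F n X} with hB
  have hBν : ∀ n, 10 * r * r ≤ n → ν (B n) ≤ 21 / (r : ENNReal) := by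
    intro n hn
    have hn0 : 0 < n := lt_of_lt_of_le (by positivity) hn
    have hn0' : (n : ENNReal) ≠ 0 := by exact_mod_cast hn0.ne'
    have h1 : ν (B n) ≤ (∫⁻ X, F n X ∂ν) / n :=
      meas_ge_le_lintegral_div (hFm n).aemeasurable hn0' (ENNReal.natCast_ne_top n)
    refine le_trans h1 ?_
    refine ENNReal.div_le_of_le_mul ?_
    refine le_trans (hFint n) ?_
    have h2 : 10 * (r : ENNReal) ≤ n * (r : ENNReal)⁻¹ := by
      have h3 : (10 * r * r : ENNReal) ≤ (n : ENNReal) := by exact_mod_cast hn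
      calc 10 * (r : ENNReal) = 10 * r * r * (r : ENNReal)⁻¹ := by
            rw [mul_assoc (10 * (r : ENNReal)), ENNReal.mul_inv_cancel hr0 hrt, mul_one]
        _ ≤ n * (r : ENNReal)⁻¹ := mul_le_mul_left h3 _
    calc 10 * ((r : ENNReal) + n * (2 * (r : ENNReal)⁻¹))
        = 10 * (r : ENNReal) + 20 * (n * (r : ENNReal)⁻¹) := by ring
      _ ≤ n * (r : ENNReal)⁻¹ + 20 * (n * (r : ENNReal)⁻¹) := add_le_add h2 (le_refl _)
      _ = 21 / (r : ENNReal) * n := by
          rw [div_eq_mul_inv]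
          ring
  have hsub : {X | ∀ᶠ n in atTop, n ≤ 10 * errs m d s t L X n} ⊆ ⋃ N : ℕ, ⋂ n ∈ Set.Ici N, B n := by
    intro X hX
    obtain ⟨N, hN⟩ := eventually_atTop.1 hX
    rw [Set.mem_iUnion]
    refine ⟨N, ?_⟩
    rw [Set.mem_iInter₂]
    intro n hn
    show (n : ENNReal) ≤ F n X
    have h1 : n ≤ 10 * errs m d s t L X n := hN n hn
    have h2 : (n : ENNReal) ≤ 10 * (errs m d s t L X n : ENNReal) := by exact_mod_cast h1
    refine le_trans h2 ?_
    rw [hF]
    unfold errs
    rw [Finset.card_filter]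
    push_cast
    rw [Finset.mul_sum]
    refine Finset.sum_le_sum fun i _ => ?_
    by_cases hi : D3 m d s t L X i ≠ X (s i)
    · rw [if_pos hi, Set.indicator_of_mem (hAsub i (err_sub X i hi)), mul_one]
    · rw [if_neg hi, mul_zero]
      exact bot_le
  have hmono : Monotone fun N : ℕ => ⋂ n ∈ Set.Ici N, B n := by
    intro a b hab X hX
    rw [Set.mem_iInter₂] at hX ⊢
    intro k hk
    exact hX k (le_trans hab hk)
  calc ν {X | ∀ᶠ n in atTop, n ≤ 10 * errs m d s t L X n}
      ≤ ν (⋃ N : ℕ, ⋂ n ∈ Set.Ici N, B n) := measure_mono hsub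
    _ = ⨆ N : ℕ, ν (⋂ n ∈ Set.Ici N, B n) := hmono.measure_iUnion
    _ ≤ 21 / (r : ENNReal) := by
        refine iSup_le fun N => ?_
        refine le_trans (measure_mono ?_) (hBν (max N (10 * r * r)) (le_max_right _ _))
        intro X hX
        rw [Set.mem_iInter₂] at hX
        exact hX _ (Set.mem_Ici.2 (le_max_left _ _))

end H48K
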