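import Pool.Agent.Lib.H48K.X5

/-!
# H48K, chunk X7: few errors infinitely often give a selected sequence without the law of large numbers
-/

open MeasureTheory Set Filter H69K

namespace H48K

variable {m : List Bool → ℕ} {d s t L : ℕ → ℕ}

/-- X7a. The headers of a KL-stochastic sequence satisfy the law of large numbers (rule `v ↦ (s v.length, true)`, compare
`infinite_headers` in `Lib/H48K/TJ.lean`). -/
theorem LLN_headers (hs : Computable s) (hinj : Function.Injective s) (X : ℕ → Bool)
    (hX : KLT X) : LLN (fun n => X (s n)) := by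
  have hc : Computable fun v : List Bool => ((s v.length, true) : ℕ × Bool) :=
    Computable.pair (hs.comp Computable.list_length) (Computable.const true)
  have hn : ∀ j, Nat.nth (fun k : ℕ => (fun _ : ℕ => true) k = true) j = j := by
    intro j
    have : (fun k : ℕ => (fun _ : ℕ => true) k = true) = fun _ => True := by
      funext k
      simp
    rw [this]
    exact Nat.nth_true j
  refine hX (fun v => (s v.length, true)) hc _
    ⟨s, fun _ => true, fun k => by simp, hinj, by simpa using Set.infinite_univ, fun j => ?_⟩
  rw [hn]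

private theorem x7_count (D : ℕ → Prop) [DecidablePred D] (Y : ℕ → Bool) (n : ℕ)
    (hinf : Set.Infinite {n | D n}) :
    ((Finset.range (Nat.count D n)).filter (fun j => Y (Nat.nth D j) = true)).card =
      ((Finset.range n).filter (fun i => D i ∧ Y i = true)).card := by
  rw [← Finset.card_image_of_injOn (f := Nat.nth D)
    (s := (Finset.range (Nat.count D n)).filter (fun j => Y (Nat.nth D j) = true))
    ((Nat.nth_injective hinf).injOn)]
  congr 1
  ext i
  rw [Finset.mem_image, Finset.mem_filter, Finset.mem_range]
  constructor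
  · rintro ⟨j, hj, rfl⟩
    rw [Finset.mem_filter, Finset.mem_range] at hj
    exact ⟨Nat.nth_lt_of_lt_count hj.1, Nat.nth_mem_of_infinite hinf j, hj.2⟩
  · rintro ⟨hi, hD, hY⟩
    refine ⟨Nat.count D i, ?_, Nat.nth_count hD⟩
    rw [Finset.mem_filter, Finset.mem_range]
    exact ⟨Nat.count_strict_mono hD hi, by rw [Nat.nth_count hD]; exact hY⟩

private theorem x7_inj (hP : Plan0 s t L) : Function.Injective s := by
  apply StrictMono.injective
  apply strictMono_nat_of_lt_succ
  intro n
  have h1 := hP.gap n
  have h2 := hP.succ n
  omega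

/-- the counts of the four cases -/
private theorem x7_cards (D Y : ℕ → Bool) (n : ℕ) :
    ((Finset.range n).filter (fun i => Y i = true)).card =
      ((Finset.range n).filter (fun i => D i = true ∧ Y i = true)).card +
        ((Finset.range n).filter (fun i => D i = false ∧ Y i = true)).card ∧
    ((Finset.range n).filter (fun i => D i ≠ Y i)).card =
      ((Finset.range n).filter (fun i => D i = true ∧ Y i = false)).card +
        ((Finset.range n).filter (fun i => D i = false ∧ Y i = true)).card ∧
    ((Finset.range n).filter (fun i => D i = true)).card =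
      ((Finset.range n).filter (fun i => D i = true ∧ Y i = true)).card +
        ((Finset.range n).filter (fun i => D i = true ∧ Y i = false)).card := by
  induction n with
  | zero => simp
  | succ n ih =>
    obtain ⟨h1, h2, h3⟩ := ih
    simp only [ne_eq] at h2 ⊢
    simp only [Finset.range_add_one, Finset.filter_insert]
    have hn : ∀ p : ℕ → Prop, ∀ [DecidablePred p], n ∉ (Finset.range n).filter p := by
      intro p _ h
      rw [Finset.mem_filter, Finset.mem_range] at h
      omega
    cases hD : D n <;> cases hY : Y n <;> simp [Finset.card_insert_of_notMem, hn] <;> omega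

/-- X7b. Let `a n`, `b n` be the numbers of the `i < n` with `D3 i`, `X (s i)` and with `D3 i`, `¬ X (s i)`. If `10 errs n < n` and `n` is
large, then `b n ≤ n/10`, `a n ≥ 0.45 n - 0.1 n`, so among the first `a n + b n` bits of the selected sequence
`C j = X (s (nth D3 j))` the portion of ones is at least `0.35/0.45 > 0.7`, for infinitely many `n`, and `a n → ∞`
along them. -/
theorem not_LLN_sel (hP : Plan0 s t L) (hs : Computable s) (X : ℕ → Bool) (hX : KLT X)
    (h : ∃ᶠ n in atTop, 10 * errs m d s t L X n < n) :
    ∃ C : ℕ → Bool, Sel (fun w => Part.some (g3 m d s t L w)) (B3 s t L X) C ∧ ¬ LLN C := by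
  classical
  have hH := LLN_headers hs (x7_inj hP) X hX
  obtain ⟨D, hD⟩ : ∃ D : ℕ → Bool, D = D3 m d s t L X := ⟨_, rfl⟩
  obtain ⟨Y, hY⟩ : ∃ Y : ℕ → Bool, Y = fun n => X (s n) := ⟨_, rfl⟩
  -- the headers
  have hev : ∀ᶠ n : ℕ in atTop,
      (0.45 : ℝ) * n < (((Finset.range n).filter (fun i => Y i = true)).card : ℝ) := by
    have h1 : ∀ᶠ n : ℕ in atTop,
        (0.45 : ℝ) < (((Finset.range n).filter (fun i => Y i = true)).card : ℝ) / (n : ℝ) := by
      rw [hY]
      exact hH.eventually (lt_mem_nhds (by norm_num))
    filter_upwards [h1, eventually_gt_atTop 0] with n hn hn0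
    have h2 : (0 : ℝ) < n := by exact_mod_cast hn0
    exact (lt_div_iff₀ h2).1 hn
  have hfr := h.and_eventually hev
  have herr : ∀ n, errs m d s t L X n = ((Finset.range n).filter (fun i => D i ≠ Y i)).card := by
    intro n
    rw [hD, hY]
    rfl
  -- the main inequalities
  have hmain : ∀ n : ℕ, 10 * errs m d s t L X n < n →
      (0.45 : ℝ) * n < (((Finset.range n).filter (fun i => Y i = true)).card : ℝ) →
      (0.35 : ℝ) * n ≤ (((Finset.range n).filter (fun i => D i = true ∧ Y i = true)).card : ℝ) ∧
      (((Finset.range n).filter (fun i => D i = true ∧ Y i = false)).card : ℝ) ≤ 0.1 * n := by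
    intro n h1 h2
    obtain ⟨h3, h4, -⟩ := x7_cards D Y n
    rw [herr, h4] at h1
    rw [h3] at h2
    have h5 : (10 : ℝ) * ((((Finset.range n).filter (fun i => D i = true ∧ Y i = false)).card : ℝ) +
        (((Finset.range n).filter (fun i => D i = false ∧ Y i = true)).card : ℝ)) < n := by
      exact_mod_cast h1
    push_cast at h2
    have h6 : (0 : ℝ) ≤ (((Finset.range n).filter (fun i => D i = true ∧ Y i = false)).card : ℝ) :=
      Nat.cast_nonneg _
    have h7 : (0 : ℝ) ≤ (((Finset.range n).filter (fun i => D i = false ∧ Y i = true)).card : ℝ) :=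
      Nat.cast_nonneg _
    constructor <;> linarith
  have hinf : Set.Infinite {n | D n = true} := by
    intro hfin
    obtain ⟨N, hN⟩ := hfin.bddAbove
    obtain ⟨n, ⟨hn1, hn2⟩, hn3⟩ := (hfr.and_eventually (eventually_gt_atTop (3 * (N + 1)))).exists
    obtain ⟨h1, -⟩ := hmain n hn1 hn2
    have h2 : ((Finset.range n).filter (fun i => D i = true ∧ Y i = true)).card ≤ N + 1 := by
      have h3 : (Finset.range n).filter (fun i => D i = true ∧ Y i = true) ⊆
          Finset.range (N + 1) := by
        intro j hj
        rw [Finset.mem_filter] at hj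
        rw [Finset.mem_range]
        have := hN hj.2.1
        omega
      have h4 := Finset.card_le_card h3
      rwa [Finset.card_range] at h4
    have h3 : (((Finset.range n).filter (fun i => D i = true ∧ Y i = true)).card : ℝ) ≤
        (N : ℝ) + 1 := by exact_mod_cast h2
    have h4 : (3 : ℝ) * ((N : ℝ) + 1) < n := by exact_mod_cast hn3
    linarith
  refine ⟨fun j => X (s (Nat.nth (fun n => D3 m d s t L X n = true) j)),
    sel_g3' hP X (by rw [← hD]; exact hinf), fun hL => ?_⟩
  unfold LLN at hL
  have h1 := hL.eventually (gt_mem_nhds (show (1 / 2 : ℝ) < 0.6 by norm_num))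
  obtain ⟨M, hM⟩ := eventually_atTop.1 h1
  obtain ⟨n, ⟨hn1, hn2⟩, hn3⟩ := (hfr.and_eventually (eventually_gt_atTop (3 * (M + 1)))).exists
  obtain ⟨h2, h3⟩ := hmain n hn1 hn2
  obtain ⟨-, -, h4⟩ := x7_cards D Y n
  have h5 : Nat.count (fun n => D n = true) n =
      ((Finset.range n).filter (fun i => D i = true)).card := Nat.count_eq_card_filter_range _ _
  have h6 := x7_count (fun n => D n = true) Y n hinf
  have h7 := hM (Nat.count (fun n => D n = true) n) ?_
  · have h8 : (Finset.range (Nat.count (fun n => D n = true) n)).filter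
        (fun j => (fun j => X (s (Nat.nth (fun n => D3 m d s t L X n = true) j))) j = true) =
        (Finset.range (Nat.count (fun n => D n = true) n)).filter
          (fun j => Y (Nat.nth (fun n => D n = true) j) = true) := by
      rw [hY, hD]
    rw [h8, h6, h5, h4] at h7
    have h9 : (3 : ℝ) * ((M : ℝ) + 1) < n := by exact_mod_cast hn3
    have hM0 : (0 : ℝ) ≤ M := Nat.cast_nonneg _
    have h10 : (0 : ℝ) ≤ (((Finset.range n).filter (fun i => D i = true ∧ Y i = false)).card : ℝ) :=
      Nat.cast_nonneg _
    push_cast at h7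
    have h11 : (0 : ℝ) < (((Finset.range n).filter (fun i => D i = true ∧ Y i = true)).card : ℝ) +
        (((Finset.range n).filter (fun i => D i = true ∧ Y i = false)).card : ℝ) := by linarith
    rw [div_lt_iff₀ h11] at h7
    linarith
  · have h8 : ((M : ℝ)) ≤ (Nat.count (fun n => D n = true) n : ℝ) := by
      rw [h5, h4]
      push_cast
      have h9 : (3 : ℝ) * ((M : ℝ) + 1) < n := by exact_mod_cast hn3
      have h10 : (0 : ℝ) ≤
          (((Finset.range n).filter (fun i => D i = true ∧ Y i = false)).card : ℝ) :=
        Nat.cast_nonneg _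
      linarith
    exact_mod_cast h8

end H48K
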