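import Pool.Agent.Lib.H48K.Defs5
import Pool.Agent.Lib.H48K.C

/-!
# H48K, chunk W6: the condition on the stages is computable
-/

open Set Filter

namespace H48K

variable {m : List Bool → ℕ} {d : ℕ → ℕ}

/-- Powers of two are primitive recursive. -/
theorem primrec_two_pow : Primrec fun n : ℕ => 2 ^ n := by
  have h : Primrec₂ (fun (_ : ℕ) (p : ℕ × ℕ) => p.2 * 2) :=
    (Primrec.nat_mul.comp (Primrec.snd.comp Primrec.snd) (Primrec.const 2) :
      Primrec (fun q : ℕ × (ℕ × ℕ) => q.2.2 * 2)).to₂
  have h2 := Primrec.nat_rec' (f := fun n : ℕ => n) (g := fun _ : ℕ => (1 : ℕ)) Primrec.id (Primrec.const 1) h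
  refine h2.of_eq fun n => ?_
  induction n with
  | zero => rfl
  | succ n ih =>
    rw [pow_succ, ← ih]

theorem primrec_testBit : Primrec₂ fun (i k : ℕ) => i.testBit k := by
  have h1 : Primrec (fun q : ℕ × ℕ => q.1 / 2 ^ q.2 % 2) :=
    Primrec.nat_mod.comp (Primrec.nat_div.comp Primrec.fst (primrec_two_pow.comp Primrec.snd))
      (Primrec.const 2)
  have h2 : Primrec (fun q : ℕ × ℕ => decide (q.1 / 2 ^ q.2 % 2 = 1)) :=
    Primrec.eq.decide.comp h1 (Primrec.const 1)
  have h3 : Primrec (fun q : ℕ × ℕ => q.1.testBit q.2) := by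
    refine h2.of_eq fun q => ?_
    rw [Nat.testBit_eq_decide_div_mod_eq]
  exact h3.to₂

theorem primrec_wd : Primrec₂ wd := by
  have h1 : Primrec (fun q : ℕ × ℕ => List.range q.1) := Primrec.list_range.comp Primrec.fst
  have h2 : Primrec₂ (fun (q : ℕ × ℕ) (k : ℕ) => q.2.testBit k) :=
    (primrec_testBit.comp (Primrec.snd.comp Primrec.fst) Primrec.snd :
      Primrec (fun z : (ℕ × ℕ) × ℕ => z.1.2.testBit z.2)).to₂
  exact (Primrec.list_map h1 h2).to₂

theorem computable_wd : Computable₂ wd := primrec_wd.to_comp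

/-- The test is computable. -/
theorem computable_ps (hm : Computable m) (hd : Computable d) :
    Computable fun x : ℕ × List Bool × List Bool => ps m d x.1 x.2.1 x.2.2 := by
  have hK : Computable (fun x : ℕ × List Bool × List Bool => x.1) := Computable.fst
  have hv : Computable (fun x : ℕ × List Bool × List Bool => x.2.1) :=
    Computable.fst.comp Computable.snd
  have hy : Computable (fun x : ℕ × List Bool × List Bool => x.2.2) :=
    Computable.snd.comp Computable.snd
  have hlv : Computable (fun x : ℕ × List Bool × List Bool => x.2.1.length) :=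
    Primrec.list_length.to_comp.comp hv
  have hly : Computable (fun x : ℕ × List Bool × List Bool => x.2.2.length) :=
    Primrec.list_length.to_comp.comp hy
  have hlv1 : Computable (fun x : ℕ × List Bool × List Bool => x.2.1.length + 1) :=
    Computable.succ.comp hlv
  have a1 : Computable (fun x : ℕ × List Bool × List Bool => m (x.2.1 ++ [true])) :=
    hm.comp (Primrec.list_append.to_comp.comp hv (Computable.const [true]))
  have a2 : Computable (fun x : ℕ × List Bool × List Bool => m (x.2.1 ++ true :: x.2.2)) :=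
    hm.comp (Primrec.list_append.to_comp.comp hv
      (Primrec.list_cons.to_comp.comp (Computable.const true) hy))
  have a3 : Computable (fun x : ℕ × List Bool × List Bool => d (x.2.1.length + 1 + x.2.2.length)) :=
    hd.comp (Primrec.nat_add.to_comp.comp hlv1 hly)
  have a4 : Computable (fun x : ℕ × List Bool × List Bool => d (x.2.1.length + 1)) := hd.comp hlv1
  have a5 : Computable (fun x : ℕ × List Bool × List Bool => 2 ^ x.1) :=
    primrec_two_pow.to_comp.comp hK
  have a6 : Computable (fun x : ℕ × List Bool × List Bool => 2 ^ x.2.2.length) :=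
    primrec_two_pow.to_comp.comp hly
  have b1 := Primrec.nat_mul.to_comp.comp (Primrec.nat_mul.to_comp.comp a5 a1) a3
  have b2 := Primrec.nat_mul.to_comp.comp (Primrec.nat_mul.to_comp.comp a2 a4) a6
  exact (Primrec.nat_lt.decide.to_comp.comp b1 b2 :)

/-- A sum over the words of one length is computable. -/
theorem computable_wsum {α : Type*} [Primcodable α] (hm : Computable m) {l : α → ℕ}
    {c : α → List Bool → Bool} (hl : Computable l) (hc : Computable₂ c) :
    Computable fun x => ∑ i ∈ Finset.range (2 ^ l x), if c x (wd (l x) i) = true then m (wd (l x) i) else 0 := by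
  have hw : Computable (fun q : α × ℕ => wd (l q.1) q.2) :=
    computable_wd.comp (hl.comp Computable.fst) Computable.snd
  have h1 : Computable (fun q : α × ℕ => c q.1 (wd (l q.1) q.2)) := hc.comp Computable.fst hw
  have h2 : Computable (fun q : α × ℕ => bif c q.1 (wd (l q.1) q.2) then m (wd (l q.1) q.2) else 0) :=
    Computable.cond h1 (hm.comp hw) (Computable.const 0)
  have h3 : Computable (fun q : α × ℕ => if c q.1 (wd (l q.1) q.2) = true then m (wd (l q.1) q.2) else 0) := by
    refine h2.of_eq fun q => ?_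
    cases c q.1 (wd (l q.1) q.2) <;> simp
  exact computable_sum h3.to₂ (primrec_two_pow.to_comp.comp hl)

theorem computable_c1 (hm : Computable m) (hd : Computable d) :
    Computable fun z : (ℕ × ℕ × ℕ × ℕ) × List Bool =>
      (z.2.getD z.1.2.1 false && !(ps m d (z.1.1 + 1) (z.2.take z.1.2.1) (z.2.drop (z.1.2.1 + 1)))) := by
  have zw : Computable (fun z : (ℕ × ℕ × ℕ × ℕ) × List Bool => z.2) := Computable.snd
  have zn1 : Computable (fun z : (ℕ × ℕ × ℕ × ℕ) × List Bool => z.1.1 + 1) :=
    Computable.succ.comp (Computable.fst.comp Computable.fst)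
  have zs : Computable (fun z : (ℕ × ℕ × ℕ × ℕ) × List Bool => z.1.2.1) :=
    Computable.fst.comp (Computable.snd.comp Computable.fst)
  have zg : Computable (fun z : (ℕ × ℕ × ℕ × ℕ) × List Bool => z.2.getD z.1.2.1 false) :=
    (Primrec.list_getD false).to_comp.comp zw zs
  have ztk : Computable (fun z : (ℕ × ℕ × ℕ × ℕ) × List Bool => z.2.take z.1.2.1) :=
    Primrec.list_take.to_comp.comp zs zw
  have zd1 : Computable (fun z : (ℕ × ℕ × ℕ × ℕ) × List Bool => z.2.drop (z.1.2.1 + 1)) :=
    Primrec.list_drop.to_comp.comp (Computable.succ.comp zs) zw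
  have p1 : Computable (fun z : (ℕ × ℕ × ℕ × ℕ) × List Bool =>
      ps m d (z.1.1 + 1) (z.2.take z.1.2.1) (z.2.drop (z.1.2.1 + 1))) := by
    have h1 := zn1.pair (ztk.pair zd1)
    have h2 := (computable_ps hm hd).comp h1
    exact h2
  exact Primrec.and.to_comp.comp zg (Primrec.not.to_comp.comp p1)

theorem computable_c2 (hm : Computable m) (hd : Computable d) :
    Computable fun z : (ℕ × ℕ × ℕ × ℕ) × List Bool =>
      (!(z.2.getD z.1.2.1 false) && ps m d (z.1.1 + 1) (z.2.take z.1.2.1) (z.2.drop z.1.2.2.2)) := by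
  have zw : Computable (fun z : (ℕ × ℕ × ℕ × ℕ) × List Bool => z.2) := Computable.snd
  have zn1 : Computable (fun z : (ℕ × ℕ × ℕ × ℕ) × List Bool => z.1.1 + 1) :=
    Computable.succ.comp (Computable.fst.comp Computable.fst)
  have zs : Computable (fun z : (ℕ × ℕ × ℕ × ℕ) × List Bool => z.1.2.1) :=
    Computable.fst.comp (Computable.snd.comp Computable.fst)
  have zt : Computable (fun z : (ℕ × ℕ × ℕ × ℕ) × List Bool => z.1.2.2.2) :=
    Computable.snd.comp (Computable.snd.comp (Computable.snd.comp Computable.fst))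
  have zg : Computable (fun z : (ℕ × ℕ × ℕ × ℕ) × List Bool => z.2.getD z.1.2.1 false) :=
    (Primrec.list_getD false).to_comp.comp zw zs
  have ztk : Computable (fun z : (ℕ × ℕ × ℕ × ℕ) × List Bool => z.2.take z.1.2.1) :=
    Primrec.list_take.to_comp.comp zs zw
  have zd2 : Computable (fun z : (ℕ × ℕ × ℕ × ℕ) × List Bool => z.2.drop z.1.2.2.2) :=
    Primrec.list_drop.to_comp.comp zt zw
  have p2 : Computable (fun z : (ℕ × ℕ × ℕ × ℕ) × List Bool =>
      ps m d (z.1.1 + 1) (z.2.take z.1.2.1) (z.2.drop z.1.2.2.2)) := by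
    have h1 := zn1.pair (ztk.pair zd2)
    have h2 := (computable_ps hm hd).comp h1
    exact h2
  exact Primrec.and.to_comp.comp (Primrec.not.to_comp.comp zg) p2

theorem computable_n1 (hm : Computable m) (hd : Computable d) :
    Computable fun x : ℕ × ℕ × ℕ × ℕ => n1 m d (x.1 + 1) x.2.1 x.2.2.1 := by
  have xs : Computable (fun x : ℕ × ℕ × ℕ × ℕ => x.2.1) := Computable.fst.comp Computable.snd
  have xL : Computable (fun x : ℕ × ℕ × ℕ × ℕ => x.2.2.1) :=
    Computable.fst.comp (Computable.snd.comp Computable.snd)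
  have l1 : Computable (fun x : ℕ × ℕ × ℕ × ℕ => x.2.1 + 1 + x.2.2.1) :=
    Primrec.nat_add.to_comp.comp (Computable.succ.comp xs) xL
  refine (computable_wsum hm l1 (computable_c1 hm hd).to₂).of_eq fun x => ?_
  unfold n1
  refine Finset.sum_congr rfl fun i _ => ?_
  refine if_congr ?_ rfl rfl
  simp only [Bool.and_eq_true, Bool.not_eq_true']

theorem computable_n2 (hm : Computable m) (hd : Computable d) :
    Computable fun x : ℕ × ℕ × ℕ × ℕ => n2 m d (x.1 + 1) x.2.1 x.2.2.1 x.2.2.2 := by
  have xL : Computable (fun x : ℕ × ℕ × ℕ × ℕ => x.2.2.1) :=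
    Computable.fst.comp (Computable.snd.comp Computable.snd)
  have xt : Computable (fun x : ℕ × ℕ × ℕ × ℕ => x.2.2.2) :=
    Computable.snd.comp (Computable.snd.comp Computable.snd)
  have l2 : Computable (fun x : ℕ × ℕ × ℕ × ℕ => x.2.2.2 + x.2.2.1) :=
    Primrec.nat_add.to_comp.comp xt xL
  refine (computable_wsum hm l2 (computable_c2 hm hd).to₂).of_eq fun x => ?_
  unfold n2
  refine Finset.sum_congr rfl fun i _ => ?_
  refine if_congr ?_ rfl rfl
  simp only [Bool.and_eq_true, Bool.not_eq_true']

/-- The condition is computable (`computable_sum` of `Lib/H48K/C.lean`; `List.take`, `List.drop`: use `Primrec.list_take`, or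
write them with `List.range` and `getD`). -/
theorem computable_okP (hm : Computable m) (hd : Computable d) :
    Computable fun x : ℕ × ℕ × ℕ × ℕ => okP m d x.1 x.2.1 x.2.2.1 x.2.2.2 := by
  have xn : Computable (fun x : ℕ × ℕ × ℕ × ℕ => x.1) := Computable.fst
  have xs : Computable (fun x : ℕ × ℕ × ℕ × ℕ => x.2.1) := Computable.fst.comp Computable.snd
  have xL : Computable (fun x : ℕ × ℕ × ℕ × ℕ => x.2.2.1) :=
    Computable.fst.comp (Computable.snd.comp Computable.snd)
  have xt : Computable (fun x : ℕ × ℕ × ℕ × ℕ => x.2.2.2) :=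
    Computable.snd.comp (Computable.snd.comp Computable.snd)
  have l1 : Computable (fun x : ℕ × ℕ × ℕ × ℕ => x.2.1 + 1 + x.2.2.1) :=
    Primrec.nat_add.to_comp.comp (Computable.succ.comp xs) xL
  have l2 : Computable (fun x : ℕ × ℕ × ℕ × ℕ => x.2.2.2 + x.2.2.1) :=
    Primrec.nat_add.to_comp.comp xt xL
  have pw : Computable (fun x : ℕ × ℕ × ℕ × ℕ => 2 ^ x.1) := primrec_two_pow.to_comp.comp xn
  have q1 : Computable (fun x : ℕ × ℕ × ℕ × ℕ => n1 m d (x.1 + 1) x.2.1 x.2.2.1 * 2 ^ x.1) :=
    Primrec.nat_mul.to_comp.comp (computable_n1 hm hd) pw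
  have q2 : Computable (fun x : ℕ × ℕ × ℕ × ℕ => n2 m d (x.1 + 1) x.2.1 x.2.2.1 x.2.2.2 * 2 ^ x.1) :=
    Primrec.nat_mul.to_comp.comp (computable_n2 hm hd) pw
  have e0 := Primrec.nat_le.decide.to_comp.comp l1 xt
  have e1 := Primrec.nat_le.decide.to_comp.comp q1 (hd.comp l1)
  have e2 := Primrec.nat_le.decide.to_comp.comp q2 (hd.comp l2)
  have e3 := Primrec.and.to_comp.comp e0 (Primrec.and.to_comp.comp e1 e2)
  refine e3.of_eq fun x => ?_
  rfl

end H48K
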