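import Pool.Agent.Lib.H48K.Defs6
import Pool.Agent.Lib.H48K.W6

/-!
# H48K, chunk X8: conditional measures on finite unions of cylinders
-/

open MeasureTheory Set Filter H69K

namespace H48K

variable {ν : Measure (ℕ → Bool)} {m : List Bool → ℕ} {d : ℕ → ℕ}

private theorem x8_len (X : ℕ → Bool) (n : ℕ) : (pre X n).length = n := by
  simp [pre]

private theorem x8_take (X : ℕ → Bool) {k n : ℕ} (h : k ≤ n) : (pre X n).take k = pre X k := by
  refine List.ext_getElem (by simp [pre, h]) fun i h1 h2 => ?_
  simp [pre]

private theorem x8_mem {z w : List Bool} (h : z.length ≤ w.length) {X : ℕ → Bool}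
    (hX : X ∈ Cy w) : X ∈ Cy z ↔ w.take z.length = z := by
  have hX' : pre X w.length = w := hX
  have h1 : w.take z.length = pre X z.length := by
    rw [← x8_take X h, hX']
  rw [h1]
  exact Iff.rfl

private theorem x8_meas (w : List Bool) : MeasurableSet (Cy w) := by
  have h : Cy w = ⋂ i : Fin w.length, {X : ℕ → Bool | X i = w.get i} := by
    ext X
    simp only [mem_iInter, Set.mem_ofPred_eq]
    constructor
    · intro hX i
      have hX' : pre X w.length = w := hX
      have h1 : (pre X w.length)[(i : ℕ)]? = w[(i : ℕ)]? := by rw [hX']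
      simpa [pre] using h1
    · intro hX
      change pre X w.length = w
      refine List.ext_getElem (by simp [pre]) fun i h1 h2 => ?_
      have := hX ⟨i, h2⟩
      simpa [pre] using this
  rw [h]
  refine MeasurableSet.iInter fun i => ?_
  exact measurableSet_eq_fun (measurable_pi_apply _) measurable_const

private theorem x8_measOp (Q : Finset (List Bool)) : MeasurableSet (Op (Q : Set (List Bool))) :=
  Finset.measurableSet_biUnion Q fun w _ => x8_meas w

private theorem x8_sum (q : ℕ) (Q : Finset (List Bool)) (hQ : ∀ z ∈ Q, z.length = q)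
    (w : List Bool) :
    ν (Op (Q : Set (List Bool)) ∩ Cy w) = ∑ z ∈ Q, ν (Cy z ∩ Cy w) := by
  have h1 : Op (Q : Set (List Bool)) ∩ Cy w = ⋃ z ∈ Q, (Cy z ∩ Cy w) := by
    unfold Op
    rw [Set.iUnion₂_inter]
    rfl
  rw [h1, measure_biUnion_finset]
  · intro z hz z' hz' hne
    refine Set.disjoint_left.2 fun X hX hX' => hne ?_
    have e1 : pre X z.length = z := hX.1
    have e2 : pre X z'.length = z' := hX'.1
    rw [hQ z hz] at e1
    rw [hQ z' hz'] at e2
    rw [← e1, e2]
  · exact fun z _ => (x8_meas z).inter (x8_meas w)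

private theorem x8_ge (q : ℕ) {z w : List Bool} (hz : z.length = q) (hw : q ≤ w.length) :
    ν (Cy z ∩ Cy w) = if w.take q = z then ν (Cy w) else 0 := by
  split_ifs with h
  · congr 1
    refine Set.inter_eq_right.2 fun X hX => (x8_mem (by omega) hX).2 ?_
    rw [hz, h]
  · have : Cy z ∩ Cy w = ∅ := by
      refine Set.eq_empty_of_forall_notMem fun X hX => h ?_
      have := (x8_mem (by omega) hX.2).1 hX.1
      rwa [hz] at this
    rw [this, measure_empty]

private theorem x8_lt (q : ℕ) {z w : List Bool} (hz : z.length = q) (hw : w.length < q) :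
    ν (Cy z ∩ Cy w) = if z.take w.length = w then ν (Cy z) else 0 := by
  rw [Set.inter_comm, x8_ge w.length rfl (by omega)]

private theorem x8_enn {M a : ℕ} (B b : ℕ) (hM : 0 < M) (ha : 0 < a) :
    ((M : ENNReal) / (a : ENNReal))⁻¹ * ((B : ENNReal) / (b : ENNReal)) =
      ((B * a : ℕ) : ENNReal) / ((M * b : ℕ) : ENNReal) := by
  have hM' : (M : ENNReal) ≠ 0 := by exact_mod_cast hM.ne'
  have ha' : (a : ENNReal) ≠ 0 := by exact_mod_cast ha.ne'
  rw [ENNReal.inv_div (Or.inl (ENNReal.natCast_ne_top _)) (Or.inl ha')]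
  rw [Nat.cast_mul, Nat.cast_mul, div_eq_mul_inv, div_eq_mul_inv, div_eq_mul_inv,
    ENNReal.mul_inv (Or.inl hM') (Or.inl (ENNReal.natCast_ne_top _))]
  ring

private theorem x8_enn' {M a : ℕ} (B : ℕ) (hM : 0 < M) (ha : 0 < a) :
    ((M : ENNReal) / (a : ENNReal))⁻¹ * ((B : ENNReal) / (a : ENNReal)) =
      (B : ENNReal) / (M : ENNReal) := by
  rw [x8_enn B a hM ha, Nat.cast_mul, Nat.cast_mul]
  exact ENNReal.mul_div_mul_right _ _ (by exact_mod_cast ha.ne') (ENNReal.natCast_ne_top _)

private theorem x8_comp_sum {α : Type*} [Primcodable α] (Q : Finset (List Bool))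
    (f : List Bool → α → ℕ) (hf : ∀ z, Computable (f z)) :
    Computable fun a => ∑ z ∈ Q, f z a := by
  classical
  induction Q using Finset.induction_on with
  | empty =>
    simp only [Finset.sum_empty]
    exact Computable.const 0
  | insert z Q hz ih =>
    simp only [Finset.sum_insert hz]
    exact (Primrec.nat_add.to_comp.comp (hf z) ih : _)

/-- The numerator contributed by the word `z`. -/
private def x8_h (m : List Bool → ℕ) (d : ℕ → ℕ) (q : ℕ) (z w : List Bool) : ℕ :=
  bif decide (w.length < q) then (bif decide (z.take w.length = w) then m z else 0)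
  else (bif decide (w.take q = z) then m w * d q else 0)

private theorem x8_comp_h (hm : Computable m) (q : ℕ) (z : List Bool) :
    Computable (x8_h m d q z) := by
  unfold x8_h
  have h1 : Computable fun w : List Bool => decide (w.length < q) := by
    have := Primrec.nat_lt.comp Primrec.list_length (Primrec.const q) (α := List Bool)
    exact this.decide.to_comp
  have h2 : Computable fun w : List Bool => decide (z.take w.length = w) := by
    have h := (Primrec.eq (α := List Bool)).comp
      (Primrec.list_take.comp Primrec.list_length (Primrec.const z)) Primrec.id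
    exact h.decide.to_comp
  have h3 : Computable fun w : List Bool => decide (w.take q = z) := by
    have h := (Primrec.eq (α := List Bool)).comp
      (Primrec.list_take.comp (Primrec.const q) Primrec.id) (Primrec.const z)
    exact h.decide.to_comp
  have h4 : Computable fun w : List Bool => m w * d q :=
    Primrec.nat_mul.to_comp.comp hm (Computable.const (d q))
  exact Computable.cond h1 (Computable.cond h2 (Computable.const _) (Computable.const _))
    (Computable.cond h3 h4 (Computable.const _))

/-- X8a. With `M = ∑ (z ∈ Q) m z > 0`: `d' n = if n < q then M else M * d n`,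
`m' w = if w.length < q then ∑ (z ∈ Q, w prefix of z) m z else if w.take q ∈ Q then m w * d q else 0`.
(A function which is given by cases on a finite set of words and a computable function is computable.) -/
theorem comp_cond [IsProbabilityMeasure ν] (hν : CompMeas ν m d) (q : ℕ) (Q : Finset (List Bool))
    (hQ : ∀ z ∈ Q, z.length = q) (hpos : ν (Op (Q : Set (List Bool))) ≠ 0) :
    ∃ (m' : List Bool → ℕ) (d' : ℕ → ℕ),
      CompMeas (ProbabilityTheory.cond ν (Op (Q : Set (List Bool)))) m' d' := by
  have hq := hν.pos q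
  set M := ∑ z ∈ Q, m z with hM
  have hS : ν (Op (Q : Set (List Bool))) = (M : ENNReal) / (d q : ENNReal) := by
    have h1 := x8_sum (ν := ν) q Q hQ []
    have h2 : Cy ([] : List Bool) = Set.univ := by
      refine Set.eq_univ_of_forall fun X => ?_
      change pre X 0 = []
      simp [pre]
    rw [h2, Set.inter_univ] at h1
    rw [h1, hM, Nat.cast_sum, div_eq_mul_inv, Finset.sum_mul]
    refine Finset.sum_congr rfl fun z hz => ?_
    rw [Set.inter_univ, hν.val z, hQ z hz, div_eq_mul_inv]
  have hMpos : 0 < M := by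
    rcases Nat.eq_zero_or_pos M with h | h
    · exfalso
      apply hpos
      rw [hS, h]
      simp
    · exact h
  refine ⟨fun w => ∑ z ∈ Q, x8_h m d q z w, fun n => bif decide (n < q) then M else M * d n,
    ?_, ?_, ?_, ?_⟩
  · exact x8_comp_sum Q (x8_h m d q) (x8_comp_h hν.cm q)
  · have h1 : Computable fun n : ℕ => decide (n < q) :=
      (Primrec.nat_lt.comp Primrec.id (Primrec.const q)).decide.to_comp
    exact Computable.cond h1 (Computable.const _)
      (Primrec.nat_mul.to_comp.comp (Computable.const M) hν.cd)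
  · intro n
    have := hν.pos n
    by_cases h : n < q
    · simp [h, hMpos]
    · simp [h, hMpos, this]
  · intro w
    rw [ProbabilityTheory.cond_apply (x8_measOp Q), x8_sum q Q hQ w, hS]
    by_cases h : w.length < q
    · have h1 : ∑ z ∈ Q, ν (Cy z ∩ Cy w) =
          ((∑ z ∈ Q, x8_h m d q z w : ℕ) : ENNReal) / (d q : ENNReal) := by
        rw [Nat.cast_sum, div_eq_mul_inv, Finset.sum_mul]
        refine Finset.sum_congr rfl fun z hz => ?_
        rw [x8_lt q (hQ z hz) h]
        unfold x8_h
        by_cases h2 : z.take w.length = w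
        · simp [h, h2, hν.val z, hQ z hz, div_eq_mul_inv]
        · simp [h, h2]
      rw [h1, x8_enn' _ hMpos hq]
      simp [h]
    · have h1 : ∑ z ∈ Q, ν (Cy z ∩ Cy w) =
          ((∑ z ∈ Q, (if w.take q = z then m w else 0) : ℕ) : ENNReal) /
            (d w.length : ENNReal) := by
        rw [Nat.cast_sum, div_eq_mul_inv, Finset.sum_mul]
        refine Finset.sum_congr rfl fun z hz => ?_
        rw [x8_ge q (hQ z hz) (not_lt.1 h)]
        by_cases h2 : w.take q = z
        · simp [h2, hν.val w, div_eq_mul_inv]
        · simp [h2]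
      have h3 : ∑ z ∈ Q, x8_h m d q z w = (∑ z ∈ Q, (if w.take q = z then m w else 0)) * d q := by
        rw [Finset.sum_mul]
        refine Finset.sum_congr rfl fun z _ => ?_
        unfold x8_h
        by_cases h2 : w.take q = z
        · simp [h, h2]
        · simp [h, h2]
      rw [h1, x8_enn _ _ hMpos hq, h3]
      simp [h]

/-- X8b. In `Op Q` the likelihood ratio of the conditional measure tends to infinity, too (for `n ≥ q` and `X ∈ Op Q` the
cylinder is in `Op Q`, and `1/ν (Op Q) ≥ 1`). -/
theorem Sr_cond [IsProbabilityMeasure ν] (q : ℕ) (Q : Finset (List Bool))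
    (hQ : ∀ z ∈ Q, z.length = q) (hpos : ν (Op (Q : Set (List Bool))) ≠ 0) :
    Sr ν ∩ Op (Q : Set (List Bool)) ⊆ Sr (ProbabilityTheory.cond ν (Op (Q : Set (List Bool)))) := by
  rintro X ⟨hX, hXQ⟩ C
  obtain ⟨z, hz, hXz⟩ : ∃ z ∈ Q, X ∈ Cy z := by
    simpa [Op] using hXQ
  filter_upwards [hX C, eventually_ge_atTop q] with n hn hqn
  refine hn.trans_le ?_
  have h1 : Cy (pre X n) ⊆ Op (Q : Set (List Bool)) := by
    intro Y hY
    have h2 : Y ∈ Cy z := by
      refine (x8_mem (by rw [x8_len, hQ z hz]; exact hqn) hY).2 ?_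
      rw [x8_take X (by rw [hQ z hz]; exact hqn)]
      exact hXz
    exact mem_biUnion (show z ∈ (Q : Set (List Bool)) from hz) h2
  rw [ProbabilityTheory.cond_apply (x8_measOp Q), Set.inter_eq_right.2 h1]
  have h3 : (1 : ENNReal) ≤ (ν (Op (Q : Set (List Bool))))⁻¹ :=
    ENNReal.one_le_inv.2 prob_le_one
  calc ν (Cy (pre X n)) = 1 * ν (Cy (pre X n)) := (one_mul _).symm
    _ ≤ (ν (Op (Q : Set (List Bool))))⁻¹ * ν (Cy (pre X n)) := mul_le_mul_left h3 _

end H48K
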