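import Pool.Agent.Lib.H48K.Defs

/-!
# H48K, chunk O: open sets and absolute continuity
-/

open MeasureTheory Set Filter

namespace H48K

/-- O1. Every open set is a monotone union of finite unions of cylinders.
Proof: `V m = {v | every X with (X 0, .., X (m-1)) = v is in U}`; monotone, and every `X ∈ U` is in
some `E m (V m)` since a basic neighbourhood of `X` in the product (discrete factors) depends on finitely
many places (`isOpen_pi_iff`). -/
theorem open_cyl (U : Set (ℕ → Bool)) (hU : IsOpen U) :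
    ∃ V : ∀ m : ℕ, Set (Fin m → Bool), Monotone (fun m => E m (V m)) ∧ U = ⋃ m, E m (V m) := by
  refine ⟨fun m => {v | ∀ X : ℕ → Bool, (fun i : Fin m => X i) = v → X ∈ U}, ?_, ?_⟩
  · intro m n hmn X hX
    simp only [E, Set.mem_ofPred_eq] at hX ⊢
    intro Y hY
    apply hX
    funext i
    exact congrFun hY ⟨i, lt_of_lt_of_le i.2 hmn⟩
  · ext X
    rw [Set.mem_iUnion]
    constructor
    · intro hX
      obtain ⟨I, u, hu, hsub⟩ := isOpen_pi_iff.1 hU X hX
      obtain ⟨m, hm⟩ : ∃ m : ℕ, ∀ i ∈ I, i < m := by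
        refine ⟨I.sup id + 1, fun i hi => ?_⟩
        have : i ≤ I.sup id := Finset.le_sup (f := id) hi
        omega
      refine ⟨m, ?_⟩
      simp only [E, Set.mem_ofPred_eq]
      intro Y hY
      apply hsub
      rw [Set.mem_pi]
      intro i hi
      have h1 : Y i = X i := congrFun hY ⟨i, hm i hi⟩
      rw [h1]
      exact (hu i hi).2
    · rintro ⟨m, hm⟩
      simp only [E, Set.mem_ofPred_eq] at hm
      exact hm X rfl

theorem measurableSet_E (m : ℕ) (V : Set (Fin m → Bool)) : MeasurableSet (E m V) := by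
  have h : Measurable (fun X : ℕ → Bool => (fun i : Fin m => X i)) := by
    fun_prop
  exact h (Set.toFinite V).measurableSet

/-- O2. Criterion for absolute continuity. Proof: `lam` is outer regular (finite measure on a compact
metrizable / polish space): for `ε > 0` there is an open `U ⊇ N` with `lam U < ε`; by `open_cyl` and
`Monotone.measure_iUnion` for both measures `nu U ^ 2 ≤ C * lam U`. -/
theorem ac_of_sq (nu lam : Measure (ℕ → Bool)) [IsFiniteMeasure nu] [IsFiniteMeasure lam]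
    (C : ENNReal) (hC : C ≠ ⊤)
    (h : ∀ m (V : Set (Fin m → Bool)), nu (E m V) ^ 2 ≤ C * lam (E m V)) :
    nu ≪ lam := by
  intro N hN
  have hopen : ∀ U : Set (ℕ → Bool), IsOpen U → nu U ^ 2 ≤ C * lam U := by
    intro U hU
    obtain ⟨V, hV, rfl⟩ := open_cyl U hU
    rw [hV.measure_iUnion]
    have h1 : (⨆ m, nu (E m (V m))) ^ 2 = ⨆ m, nu (E m (V m)) ^ 2 := by
      have hmono : Monotone (fun x : ENNReal => x ^ 2) := fun x y hxy => by
        show x ^ 2 ≤ y ^ 2
        gcongr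
      exact hmono.map_iSup_of_continuousAt
        (ENNReal.continuous_pow 2).continuousAt (by simp)
    rw [h1]
    apply iSup_le
    intro m
    refine (h m (V m)).trans ?_
    gcongr
    exact Set.subset_iUnion (fun m => E m (V m)) m
  by_contra hne
  have hsq : nu N ^ 2 ≠ 0 := pow_ne_zero 2 hne
  obtain ⟨ε, hε, hlt⟩ := ENNReal.exists_nnreal_pos_mul_lt hC hsq
  obtain ⟨U, hNU, hU, hUlt⟩ := Set.exists_isOpen_lt_of_lt N (ε : ENNReal)
    (by rw [hN]; exact_mod_cast hε)
  have h2 : nu N ^ 2 ≤ (ε : ENNReal) * C := by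
    calc nu N ^ 2 ≤ nu U ^ 2 := by gcongr
      _ ≤ C * lam U := hopen U hU
      _ ≤ C * ε := by gcongr
      _ = ε * C := mul_comm _ _
  exact absurd hlt (not_lt.2 h2)

/-- O3. The same for a monotone family of outer measures of events: if `Ev B` is a family of events
(`B` a sequence), `∃ B ∈ E m V, X ∈ Ev B` has outer measure at most `lam (E m V)` for all `m`, `V`, then
`∃ B ∈ N, X ∈ Ev B` has measure zero for every `lam`-null set `N`. -/
theorem null_of_cyl (nu lam : Measure (ℕ → Bool)) [IsFiniteMeasure nu] [IsFiniteMeasure lam]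
    (Ev : (ℕ → Bool) → Set (ℕ → Bool))
    (h : ∀ m (V : Set (Fin m → Bool)), nu {X | ∃ B ∈ E m V, X ∈ Ev B} ≤ lam (E m V))
    (N : Set (ℕ → Bool)) (hN : lam N = 0) : nu {X | ∃ B ∈ N, X ∈ Ev B} = 0 := by
  apply le_antisymm _ zero_le
  apply le_of_forall_gt
  intro ε hε
  obtain ⟨U, hNU, hU, hUlt⟩ := Set.exists_isOpen_lt_of_lt N ε (by rw [hN]; exact hε)
  obtain ⟨V, hV, rfl⟩ := open_cyl U hU
  have hsub : {X | ∃ B ∈ N, X ∈ Ev B} ⊆ ⋃ m, {X | ∃ B ∈ E m (V m), X ∈ Ev B} := by
    rintro X ⟨B, hB, hX⟩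
    obtain ⟨m, hm⟩ := Set.mem_iUnion.1 (hNU hB)
    exact Set.mem_iUnion.2 ⟨m, B, hm, hX⟩
  have hmono : Monotone (fun m => {X | ∃ B ∈ E m (V m), X ∈ Ev B}) := by
    rintro m n hmn X ⟨B, hB, hX⟩
    exact ⟨B, hV hmn hB, hX⟩
  calc nu {X | ∃ B ∈ N, X ∈ Ev B} ≤ nu (⋃ m, {X | ∃ B ∈ E m (V m), X ∈ Ev B}) := measure_mono hsub
    _ = ⨆ m, nu {X | ∃ B ∈ E m (V m), X ∈ Ev B} := hmono.measure_iUnion
    _ ≤ lam (⋃ m, E m (V m)) := iSup_le fun m => (h m (V m)).trans
        (measure_mono (Set.subset_iUnion (fun m => E m (V m)) m))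
    _ < ε := hUlt

end H48K
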