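import Pool.Agent.Lib.H48K.Defs6
import Pool.Agent.Lib.H48K.O

/-!
# H48K, chunk X9: approximation by finite unions of cylinders
-/

open MeasureTheory Set Filter H69K

namespace H48K

/-- The cylinder set of `V` is the open set of a finite set of words of the length `q`. -/
private theorem e_eq_op (q : ℕ) (V : Set (Fin q → Bool)) :
    ∃ Q : Finset (List Bool), (∀ z ∈ Q, z.length = q) ∧ E q V = Op (Q : Set (List Bool)) := by
  classical
  refine ⟨(Set.toFinite V).toFinset.image (fun v => List.ofFn v), ?_, ?_⟩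
  · intro z hz
    rw [Finset.mem_image] at hz
    obtain ⟨v, -, rfl⟩ := hz
    exact List.length_ofFn
  · ext X
    simp only [E, Op, Cy, pre, Set.mem_ofPred_eq, Set.mem_iUnion, Finset.coe_image,
      Set.Finite.coe_toFinset, Set.mem_image, exists_prop]
    constructor
    · intro h
      refine ⟨List.ofFn (fun i : Fin q => X i), ⟨_, h, rfl⟩, ?_⟩
      apply List.ext_getElem
      · simp
      · intro i h1 h2
        simp
    · rintro ⟨w, ⟨v, hv, rfl⟩, hw⟩
      have h1 : (fun i : Fin q => X i) = v := by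
        funext i
        have h2 := congrArg (fun l : List Bool => l.getD i false) hw
        simpa [List.getD_eq_getElem?_getD] using h2
      rw [h1]
      exact hv

/-- X9. Outer regularity (an open `U ⊇ A` with `ν (U \ A) ≤ ε`) and `open_cyl` (a monotone union of the sets `E q V`): take `q`
large; `E q V = Op Q` for the finite set `Q` of the words of length `q` in `V` (as lists). Choose `ε ≤ δ ν A/2` and
`q` with `ν (U \ E q V) ≤ min δ (ν A/2)`. -/
theorem exists_Q (ν : Measure (ℕ → Bool)) [IsProbabilityMeasure ν] (A : Set (ℕ → Bool))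
    (hA : MeasurableSet A) (hpos : ν A ≠ 0) (δ : ENNReal) (hδ : δ ≠ 0) :
    ∃ (q : ℕ) (Q : Finset (List Bool)), (∀ z ∈ Q, z.length = q) ∧
      ν (Op (Q : Set (List Bool))) ≠ 0 ∧
      ν (Op (Q : Set (List Bool)) \ A) ≤ δ * ν (Op (Q : Set (List Bool))) ∧
      ν (A \ Op (Q : Set (List Bool))) ≤ δ := by
  have hAtop : ν A ≠ ⊤ := measure_ne_top ν A
  have hhalf : ν A / 2 ≠ 0 := by simpa using hpos
  have hδ1 : min δ 1 ≠ 0 := by
    rw [← pos_iff_ne_zero, lt_min_iff]
    exact ⟨pos_iff_ne_zero.2 hδ, one_pos⟩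
  have hε : min δ 1 * (ν A / 2) ≠ 0 := mul_ne_zero hδ1 hhalf
  obtain ⟨U, hAU, hU, hUlt⟩ := Set.exists_isOpen_lt_of_lt A (ν A + min δ 1 * (ν A / 2))
    (ENNReal.lt_add_right hAtop hε)
  have hUA : ν (U \ A) ≤ min δ 1 * (ν A / 2) := by
    rw [measure_diff hAU hA.nullMeasurableSet hAtop]
    rw [tsub_le_iff_left]
    exact hUlt.le
  obtain ⟨V, hV, hUV⟩ := open_cyl U hU
  have hUtop : ν U ≠ ⊤ := measure_ne_top ν U
  have hU0 : ν U ≠ 0 := by
    intro h
    exact hpos (measure_mono_null hAU h)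
  have hη : min δ (ν A / 2) ≠ 0 := by
    rw [← pos_iff_ne_zero, lt_min_iff]
    exact ⟨pos_iff_ne_zero.2 hδ, pos_iff_ne_zero.2 hhalf⟩
  have hlt : ν U - min δ (ν A / 2) < ⨆ m, ν (E m (V m)) := by
    rw [← hV.measure_iUnion, ← hUV]
    exact ENNReal.sub_lt_self hUtop hU0 hη
  obtain ⟨q, hq⟩ := lt_iSup_iff.1 hlt
  have hUle : ν U ≤ ν (E q (V q)) + min δ (ν A / 2) := by
    rw [← tsub_le_iff_right]
    exact hq.le
  have hsub : E q (V q) ⊆ U := by
    rw [hUV]
    exact Set.subset_iUnion (fun m => E m (V m)) q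
  have hge : ν A / 2 ≤ ν (E q (V q)) := by
    have h1 : ν A / 2 + ν A / 2 ≤ ν (E q (V q)) + ν A / 2 := by
      rw [ENNReal.add_halves]
      calc ν A ≤ ν U := measure_mono hAU
        _ ≤ ν (E q (V q)) + min δ (ν A / 2) := hUle
        _ ≤ ν (E q (V q)) + ν A / 2 := by
            gcongr
            exact min_le_right _ _
    have h2 : ν A / 2 ≠ ⊤ := ENNReal.div_ne_top hAtop (by norm_num)
    exact (ENNReal.add_le_add_iff_right h2).1 h1
  obtain ⟨Q, hQ, hEQ⟩ := e_eq_op q (V q)
  refine ⟨q, Q, hQ, ?_, ?_, ?_⟩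
  · rw [← hEQ]
    intro h
    rw [h] at hge
    exact hhalf (le_antisymm hge zero_le)
  · rw [← hEQ]
    calc ν (E q (V q) \ A) ≤ ν (U \ A) := measure_mono (Set.diff_subset_diff_left hsub)
      _ ≤ min δ 1 * (ν A / 2) := hUA
      _ ≤ δ * ν (E q (V q)) := by
          gcongr
          exact min_le_left _ _
  · rw [← hEQ]
    calc ν (A \ E q (V q)) ≤ ν (U \ E q (V q)) := measure_mono (Set.diff_subset_diff_left hAU)
      _ = ν U - ν (E q (V q)) :=
          measure_diff hsub (measurableSet_E q (V q)).nullMeasurableSet (measure_ne_top ν _)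
      _ ≤ min δ (ν A / 2) := by
          rw [tsub_le_iff_left]
          exact hUle
      _ ≤ δ := min_le_left _ _

end H48K
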