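import Pool.Agent.Lib.H48K.F5
import Pool.Agent.Lib.H48K.X1
import Pool.Agent.Lib.H48K.X2
import Pool.Agent.Lib.H48K.X3
import Pool.Agent.Lib.H48K.X4
import Pool.Agent.Lib.H48K.X6
import Pool.Agent.Lib.H48K.X7
import Pool.Agent.Lib.H48K.X8
import Pool.Agent.Lib.H48K.X9

/-!
# H48K, chunk F6: all computable measures
-/

open MeasureTheory Set Filter H69K

namespace H48K

variable {ν : Measure (ℕ → Bool)} {m : List Bool → ℕ} {d : ℕ → ℕ}

private theorem inv_lt {r : ℕ} (hr : 0 < r) : ((4 * r : ℕ) : ENNReal)⁻¹ < (r : ENNReal)⁻¹ := by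
  rw [ENNReal.inv_lt_inv]
  exact_mod_cast (by omega : r < 4 * r)

private theorem inv_add {r n : ℕ} (hr : 0 < r) (hn : r ≤ n) :
    ((4 * r : ℕ) : ENNReal)⁻¹ + (2⁻¹ : ENNReal) ^ (n + 1) < (r : ENNReal)⁻¹ := by
  have hr0 : (0 : ℝ) < r := by exact_mod_cast hr
  have h1 : (2 : ℝ) * r ≤ 2 ^ (n + 1) := by
    have h2 : n < 2 ^ n := Nat.lt_two_pow_self
    have h3 : 2 * r ≤ 2 ^ (n + 1) := by
      rw [pow_succ]
      omega
    exact_mod_cast h3
  have e1 : ((4 * r : ℕ) : ENNReal)⁻¹ = ENNReal.ofReal (1 / (4 * r)) := by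
    rw [one_div, ENNReal.ofReal_inv_of_pos (by positivity)]
    congr 1
    rw [← ENNReal.ofReal_natCast]
    push_cast
    rfl
  have e2 : (2⁻¹ : ENNReal) ^ (n + 1) = ENNReal.ofReal (1 / 2 ^ (n + 1)) := by
    rw [one_div, ENNReal.ofReal_inv_of_pos (by positivity), ENNReal.ofReal_pow (by norm_num),
      ENNReal.inv_pow]
    norm_num
  have e3 : (r : ENNReal)⁻¹ = ENNReal.ofReal (1 / r) := by
    rw [one_div, ENNReal.ofReal_inv_of_pos hr0, ENNReal.ofReal_natCast]
  rw [e1, e2, e3, ← ENNReal.ofReal_add (by positivity) (by positivity)]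
  apply (ENNReal.ofReal_lt_ofReal_iff (by positivity)).2
  have h3 : 1 / (2 : ℝ) ^ (n + 1) ≤ 1 / (2 * r) := one_div_le_one_div_of_le (by positivity) h1
  have h4 : 1 / (4 * (r : ℝ)) + 1 / (2 * r) < 1 / r := by
    have h5 : 1 / (4 * (r : ℝ)) + 1 / (2 * r) = (3 / 4) * (1 / r) := by
      field_simp
      norm_num
    rw [h5]
    have h6 : (0 : ℝ) < 1 / r := by positivity
    linarith
  linarith

theorem core [IsProbabilityMeasure ν] (hν : CompMeas ν m d) (r : ℕ) (hr : 0 < r)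
    (h : ν (Sr ν ∩ GG)ᶜ ≤ ((4 * r : ℕ) : ENNReal)⁻¹) : ν {X | Clo2 X} ≤ 21 / (r : ENNReal) := by
  have hS : ν (Sr ν)ᶜ ≤ ((4 * r : ℕ) : ENNReal)⁻¹ :=
    (measure_mono (Set.compl_subset_compl.2 Set.inter_subset_left)).trans h
  have hG : ν GGᶜ ≤ ((4 * r : ℕ) : ENNReal)⁻¹ :=
    (measure_mono (Set.compl_subset_compl.2 Set.inter_subset_right)).trans h
  have hex : ∀ n s, ∃ L t, okQ m d r n s L t = true := by
    intro n s
    by_cases hn : n < r
    · exact ⟨0, s + 1, (okQ_iff hν r hr n s 0 (s + 1)).2 ⟨le_rfl, Or.inl hn⟩⟩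
    · obtain ⟨L, hL⟩ := exists_L' hν (r : ENNReal)⁻¹ (hS.trans_lt (inv_lt hr)) (n + 1) s
      obtain ⟨t, ht, ht2⟩ := exists_t' hν (r : ENNReal)⁻¹ n
        ((add_le_add hG le_rfl).trans_lt (inv_add hr (not_lt.1 hn))) s L (s + 1 + L)
      exact ⟨L, t, (okQ_iff hν r hr n s L t).2 ⟨ht, Or.inr ⟨hL, ht2⟩⟩⟩
  obtain ⟨s, t, L, hsc, htc, hLc, hP, hok⟩ := exists_plan3 hν.cm hν.cd r hex
  have herr := errs_bound (ν := ν) (m := m) (d := d) (s := s) (t := t) (L := L) r hr
    (fun n hn => (((okQ_iff hν r hr n (s n) (L n) (t n)).1 (hok n)).2.resolve_left (not_lt.2 hn)))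
  refine (measure_mono ?_).trans herr
  intro X hX
  have hX' : Clo2 X := hX
  show ∀ᶠ n in atTop, n ≤ 10 * errs m d s t L X n
  by_contra hcon
  rw [Filter.not_eventually] at hcon
  have hfr : ∃ᶠ n in atTop, 10 * errs m d s t L X n < n := hcon.mono fun n hn => not_le.1 hn
  obtain ⟨C, hC1, hC2⟩ := not_LLN_sel hP hsc X hX'.toT hfr
  exact hC2 (hX' _ _ (computable_f3 hsc htc hLc) (computable_g3 hν.cm hν.cd hsc htc hLc) _ C
    (sel_f3' hP X) hC1)

private theorem op_meas (V : Set (List Bool)) : MeasurableSet (Op V) := by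
  unfold Op
  refine MeasurableSet.biUnion (Set.to_countable V) fun w _ => ?_
  have h : Cy w = E w.length {fun i : Fin w.length => w.get i} := by
    ext X
    show pre X w.length = w ↔ (fun i : Fin w.length => X i) = fun i : Fin w.length => w.get i
    constructor
    · intro h
      have h2 : List.ofFn (fun i : Fin w.length => X i) = List.ofFn (fun i : Fin w.length => w.get i) := by
        rw [List.ofFn_get]
        exact h
      exact List.ofFn_injective h2
    · intro h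
      unfold pre
      rw [h]
      exact List.ofFn_get w
  rw [h]
  exact measurableSet_E _ _

theorem null_Clo [IsProbabilityMeasure ν] (hν : CompMeas ν m d) : ν ({X | Clo2 X} ∩ Sr ν) = 0 := by
  have hsub : {X | Clo2 X} ∩ Sr ν ⊆ {X | Clo2 X} ∩ (Sr ν ∩ GG) := by
    rintro X ⟨h1, h2⟩
    exact ⟨h1, h2, mem_GG X (Clo2.toT h1)⟩
  refine measure_mono_null hsub ?_
  by_cases hA : ν (Sr ν ∩ GG) = 0
  · exact measure_mono_null Set.inter_subset_right hA
  have key : ∀ r : ℕ, 0 < r → ν ({X | Clo2 X} ∩ (Sr ν ∩ GG)) ≤ 22 / (r : ENNReal) := by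
    intro r hr
    have hδ : ((4 * r : ℕ) : ENNReal)⁻¹ ≠ 0 := by
      rw [ENNReal.inv_ne_zero]
      exact ENNReal.natCast_ne_top _
    obtain ⟨q, Q, hQ, hpos, hQ1, hQ2⟩ := exists_Q ν (Sr ν ∩ GG)
      ((measurable_Sr ν).inter measurable_GG) hA _ hδ
    obtain ⟨m', d', hc⟩ := comp_cond hν q Q hQ hpos
    have hop := op_meas (Q : Set (List Bool))
    have hprob : IsProbabilityMeasure (ProbabilityTheory.cond ν (Op (Q : Set (List Bool)))) :=
      ProbabilityTheory.cond_isProbabilityMeasure hpos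
    have htop : ν (Op (Q : Set (List Bool))) ≠ ⊤ := measure_ne_top _ _
    have h1 : ProbabilityTheory.cond ν (Op (Q : Set (List Bool)))
        (Sr (ProbabilityTheory.cond ν (Op (Q : Set (List Bool)))) ∩ GG)ᶜ ≤
          ((4 * r : ℕ) : ENNReal)⁻¹ := by
      rw [ProbabilityTheory.cond_apply hop]
      have h2 : Op (Q : Set (List Bool)) ∩
          (Sr (ProbabilityTheory.cond ν (Op (Q : Set (List Bool)))) ∩ GG)ᶜ ⊆
            Op (Q : Set (List Bool)) \ (Sr ν ∩ GG) := by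
        rintro X ⟨h3, h4⟩
        refine ⟨h3, fun h5 => h4 ⟨?_, h5.2⟩⟩
        exact Sr_cond q Q hQ hpos ⟨h5.1, h3⟩
      calc (ν (Op (Q : Set (List Bool))))⁻¹ * ν (Op (Q : Set (List Bool)) ∩
            (Sr (ProbabilityTheory.cond ν (Op (Q : Set (List Bool)))) ∩ GG)ᶜ)
          ≤ (ν (Op (Q : Set (List Bool))))⁻¹ * (((4 * r : ℕ) : ENNReal)⁻¹ *
            ν (Op (Q : Set (List Bool)))) := by
            gcongr
            exact (measure_mono h2).trans hQ1
        _ = ((4 * r : ℕ) : ENNReal)⁻¹ := by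
            rw [mul_comm, mul_assoc, ENNReal.mul_inv_cancel hpos htop, mul_one]
    have h3 := core hc r hr h1
    rw [ProbabilityTheory.cond_apply hop] at h3
    have h4 : ν (Op (Q : Set (List Bool)) ∩ {X | Clo2 X}) ≤ 21 / (r : ENNReal) := by
      calc ν (Op (Q : Set (List Bool)) ∩ {X | Clo2 X})
          = ν (Op (Q : Set (List Bool))) * ((ν (Op (Q : Set (List Bool))))⁻¹ *
            ν (Op (Q : Set (List Bool)) ∩ {X | Clo2 X})) := by
            rw [← mul_assoc, ENNReal.mul_inv_cancel hpos htop, one_mul]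
        _ ≤ 1 * (21 / (r : ENNReal)) := mul_le_mul' prob_le_one h3
        _ = 21 / (r : ENNReal) := one_mul _
    calc ν ({X | Clo2 X} ∩ (Sr ν ∩ GG))
        ≤ ν (((Sr ν ∩ GG) \ Op (Q : Set (List Bool))) ∪ (Op (Q : Set (List Bool)) ∩ {X | Clo2 X})) := by
          apply measure_mono
          rintro X ⟨h5, h6⟩
          by_cases h7 : X ∈ Op (Q : Set (List Bool))
          · exact Or.inr ⟨h7, h5⟩
          · exact Or.inl ⟨h6, h7⟩
      _ ≤ ν ((Sr ν ∩ GG) \ Op (Q : Set (List Bool))) + ν (Op (Q : Set (List Bool)) ∩ {X | Clo2 X}) :=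
          measure_union_le _ _
      _ ≤ 1 / (r : ENNReal) + 21 / (r : ENNReal) := by
          refine add_le_add (hQ2.trans ?_) h4
          rw [one_div]
          exact (inv_lt hr).le
      _ = 22 / (r : ENNReal) := by
          rw [← ENNReal.add_div]
          norm_num
  have hlim : Tendsto (fun r : ℕ => 22 / (r : ENNReal)) atTop (nhds 0) := by
    have h1 := ENNReal.Tendsto.const_div (a := (22 : ENNReal)) ENNReal.tendsto_nat_nhds_top
      (Or.inr (by norm_num))
    rwa [ENNReal.div_top] at h1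
  refine le_antisymm (ge_of_tendsto hlim ?_) bot_le
  filter_upwards [eventually_gt_atTop 0] with r hr
  exact key r hr

/-- The characterisation for all computable measures. -/
theorem mixed [IsProbabilityMeasure ν] (hν : CompMeas ν m d) :
    ∀ᵐ X ∂ν, (Random (mu fair) X ↔ Clo2 X) ∧
      (Random (mu fair) X ↔ ∀ B : ℕ → Bool, Step X B → KLStochastic B) ∧
      (Random (mu fair) X ↔ ∀ B : ℕ → Bool, Relation.ReflTransGen Step X B → KLStochastic B) := by
  have h1 : ∀ᵐ X ∂ν, X ∉ {X | Clo2 X} ∩ Sr ν := measure_eq_zero_iff_ae_notMem.1 (null_Clo hν)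
  filter_upwards [h1, ae_Sr_or_random ν] with X hX1 hX2
  have h2 : Random (mu fair) X → ∀ B : ℕ → Bool, Relation.ReflTransGen Step X B → KLStochastic B :=
    fun h B hB => random_KL fair tendsto_fair B (random_hered h hB)
  have h3 : (∀ B : ℕ → Bool, Relation.ReflTransGen Step X B → KLStochastic B) →
      ∀ B : ℕ → Bool, Step X B → KLStochastic B :=
    fun h B hB => h B (Relation.ReflTransGen.single hB)
  have h4 : Clo2 X → Random (mu fair) X := fun h => hX2 fun h5 => hX1 ⟨h, h5⟩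
  have h6 : (∀ B : ℕ → Bool, Step X B → KLStochastic B) → Clo2 X := clo2_of_closed
  exact ⟨⟨fun h => h6 (h3 (h2 h)), h4⟩, ⟨fun h => h3 (h2 h), fun h => h4 (h6 h)⟩,
    ⟨h2, fun h => h4 (h6 (h3 h))⟩⟩

end H48K
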