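import Pool.Agent.Lib.H48K.Defs7

/-!
# H48K, chunk Y1: the measure with given conditional probabilities
-/

open MeasureTheory Set Filter H69K

namespace H48K

/-- The conditional probability. -/
noncomputable def cpY (A : List Bool → ℕ) (v : List Bool) : ℝ := (A v : ℝ) / (BB7 v.length : ℝ)

/-- The history. -/
noncomputable def hY (A : List Bool → ℕ) (U : ℕ → ℝ) : ℕ → List Bool
  | 0 => []
  | n + 1 => hY A U n ++ [decide (U n < cpY A (hY A U n))]

/-- The image sequence. -/
noncomputable def TY (A : List Bool → ℕ) (U : ℕ → ℝ) (n : ℕ) : Bool :=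
  decide (U n < cpY A (hY A U n))

theorem pre_succY (X : ℕ → Bool) (n : ℕ) : pre X (n + 1) = pre X n ++ [X n] := by
  unfold pre
  rw [List.ofFn_succ_last]
  simp

theorem pre_TY (A : List Bool → ℕ) (U : ℕ → ℝ) (n : ℕ) : pre (TY A U) n = hY A U n := by
  induction n with
  | zero => simp [pre, hY]
  | succ n ih => rw [pre_succY, ih]; rfl

theorem length_preY (X : ℕ → Bool) (n : ℕ) : (pre X n).length = n := by simp [pre]

theorem take_preY (X : ℕ → Bool) (n m : ℕ) (h : m ≤ n) : (pre X n).take m = pre X m := by
  induction n with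
  | zero => 
    have : m = 0 := by omega
    subst this
    simp [pre]
  | succ n ih =>
    rcases Nat.lt_or_ge n m with h1 | h1
    · have : m = n + 1 := by omega
      subst this
      rw [List.take_of_length_le (by rw [length_preY])]
    · rw [pre_succY, List.take_append_of_le_length (by rw [length_preY]; exact h1), ih h1]

theorem getD_preY (X : ℕ → Bool) (n m : ℕ) (h : m < n) : (pre X n).getD m false = X m := by
  rw [List.getD_eq_getElem _ _ (by rw [length_preY]; exact h)]
  simp [pre]

theorem measurable_hY (A : List Bool → ℕ) (n : ℕ) (w : List Bool) :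
    MeasurableSet {U : ℕ → ℝ | hY A U n = w} := by
  induction n generalizing w with
  | zero => exact MeasurableSet.const ([] = w)
  | succ n ih =>
    have h1 : {U : ℕ → ℝ | hY A U (n + 1) = w} =
        ⋃ v : List Bool, {U : ℕ → ℝ | hY A U n = v} ∩
          (fun U : ℕ → ℝ => decide (U n < cpY A v)) ⁻¹' {b | v ++ [b] = w} := by
      ext U
      simp only [mem_ofPred_eq, mem_iUnion, mem_inter_iff, mem_preimage, hY]
      constructor
      · intro h
        exact ⟨_, rfl, h⟩
      · rintro ⟨v, hv, h⟩
        rw [hv]
        exact h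
    rw [h1]
    refine MeasurableSet.iUnion fun v => (ih v).inter ?_
    have h2 : Measurable (fun U : ℕ → ℝ => decide (U n < cpY A v)) := by
      refine measurable_to_bool ?_
      have h3 : (fun U : ℕ → ℝ => decide (U n < cpY A v)) ⁻¹' {true} = {U | U n < cpY A v} := by
        ext U
        simp
      rw [h3]
      exact measurableSet_lt (measurable_pi_apply n) measurable_const
    exact h2 (MeasurableSet.of_discrete)

theorem measurable_TY (A : List Bool → ℕ) : Measurable (TY A) := by
  refine measurable_pi_iff.2 fun n => measurable_to_bool ?_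
  have h1 : (fun U : ℕ → ℝ => TY A U n) ⁻¹' {true} =
      ⋃ v : List Bool, {U : ℕ → ℝ | hY A U n = v} ∩ {U | U n < cpY A v} := by
    ext U
    simp only [mem_preimage, mem_singleton_iff, mem_iUnion, mem_inter_iff, mem_ofPred_eq, TY,
      decide_eq_true_eq]
    constructor
    · intro h
      exact ⟨_, rfl, h⟩
    · rintro ⟨v, hv, h⟩
      rw [hv]
      exact h
  rw [h1]
  exact MeasurableSet.iUnion fun v => (measurable_hY A n v).inter
    (measurableSet_lt (measurable_pi_apply n) measurable_const)

theorem measurableSet_CyY (w : List Bool) : MeasurableSet (Cy w) := by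
  have h1 : Cy w = ⋂ i : Fin w.length, (fun X : ℕ → Bool => X i) ⁻¹' {w.get i} := by
    ext X
    simp only [Cy, mem_ofPred_eq, mem_iInter, mem_preimage, mem_singleton_iff]
    constructor
    · intro h i
      have h2 := getD_preY X w.length i i.2
      rw [h, List.getD_eq_getElem _ _ i.2] at h2
      exact h2.symm
    · intro h
      apply List.ext_getElem (length_preY _ _)
      intro i h2 h3
      have := h ⟨i, h3⟩
      simp only [List.get_eq_getElem] at this
      rw [← this]
      simp [pre]
  rw [h1]
  exact MeasurableSet.iInter fun i => (measurable_pi_apply _) (MeasurableSet.of_discrete)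

/-- The sides of the rectangle. -/
def sideY (A : List Bool → ℕ) (w : List Bool) (i : ℕ) : Set ℝ :=
  {x | decide (x < cpY A (w.take i)) = w.getD i false}

theorem preimage_CyY (A : List Bool → ℕ) (w : List Bool) :
    TY A ⁻¹' (Cy w) = Set.pi (Finset.range w.length : Set ℕ) (sideY A w) := by
  ext U
  simp only [mem_preimage, Cy, mem_ofPred_eq, Set.mem_pi, Finset.coe_range, mem_Iio, sideY]
  constructor
  · intro h i hi
    have h1 : hY A U i = w.take i := by
      rw [← pre_TY, ← take_preY _ w.length i hi.le, h]
    have h2 := getD_preY (TY A U) w.length i hi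
    rw [h] at h2
    rw [h2, TY, h1]
  · intro h
    have h1 : ∀ i ≤ w.length, hY A U i = w.take i := by
      intro i
      induction i with
      | zero => intro _; simp [hY]
      | succ i ih =>
        intro hi
        have h2 := ih (by omega)
        have h3 := h i (by omega)
        rw [hY, h2, h3, List.getD_eq_getElem _ _ (by omega), List.take_append_getElem]
    rw [pre_TY, h1 _ le_rfl, List.take_length]

theorem BB7_posY (n : ℕ) : 0 < BB7 n := by unfold BB7; positivity

theorem vol_sideY (A : List Bool → ℕ) (hA : ∀ w, A w ≤ BB7 w.length) (w : List Bool) (i : ℕ)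
    (hi : i < w.length) :
    (volume.restrict (Icc (0 : ℝ) 1)) (sideY A w i) = (fac A w i : ENNReal) / (BB7 i : ENNReal) := by
  have hlen : (w.take i).length = i := by rw [List.length_take]; omega
  have hB : (0 : ℝ) < BB7 i := by exact_mod_cast BB7_posY i
  have hA1 : A (w.take i) ≤ BB7 i := by have := hA (w.take i); rwa [hlen] at this
  have hc : cpY A (w.take i) = (A (w.take i) : ℝ) / BB7 i := by unfold cpY; rw [hlen]
  have hc0 : 0 ≤ cpY A (w.take i) := by rw [hc]; positivity
  have hc1 : cpY A (w.take i) ≤ 1 := by
    rw [hc, div_le_one hB]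
    exact_mod_cast hA1
  rcases hb : w.getD i false with _ | _
  · have h1 : sideY A w i = Ici (cpY A (w.take i)) := by
      ext x
      simp only [sideY, mem_ofPred_eq, hb, decide_eq_false_iff_not, not_lt, mem_Ici]
    have h2 : Ici (cpY A (w.take i)) ∩ Icc (0 : ℝ) 1 = Icc (cpY A (w.take i)) 1 := by
      ext x
      simp only [mem_inter_iff, mem_Ici, mem_Icc]
      constructor
      · rintro ⟨a, b, c⟩; exact ⟨a, c⟩
      · rintro ⟨a, b⟩; exact ⟨a, hc0.trans a, b⟩
    rw [h1, Measure.restrict_apply measurableSet_Ici, h2, Real.volume_Icc]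
    unfold fac
    rw [hb, if_neg (by decide), hc]
    have h3 : 1 - (A (w.take i) : ℝ) / BB7 i = ((BB7 i - A (w.take i) : ℕ) : ℝ) / BB7 i := by
      rw [Nat.cast_sub hA1]
      field_simp
    rw [h3, ENNReal.ofReal_div_of_pos hB, ENNReal.ofReal_natCast, ENNReal.ofReal_natCast]
  · have h1 : sideY A w i = Iio (cpY A (w.take i)) := by
      ext x
      simp only [sideY, mem_ofPred_eq, hb, decide_eq_true_eq, mem_Iio]
    have h2 : Iio (cpY A (w.take i)) ∩ Icc (0 : ℝ) 1 = Ico 0 (cpY A (w.take i)) := by
      ext x
      simp only [mem_inter_iff, mem_Iio, mem_Icc, mem_Ico]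
      constructor
      · rintro ⟨a, b, c⟩; exact ⟨b, a⟩
      · rintro ⟨a, b⟩; exact ⟨b, a, (b.le).trans hc1⟩
    rw [h1, Measure.restrict_apply measurableSet_Iio, h2, Real.volume_Ico]
    unfold fac
    rw [hb, if_pos rfl, hc, sub_zero]
    rw [ENNReal.ofReal_div_of_pos hB, ENNReal.ofReal_natCast, ENNReal.ofReal_natCast]

theorem prod_divY (x y : ℕ → ℕ) (hy : ∀ i, 0 < y i) (n : ℕ) :
    ∏ i ∈ Finset.range n, ((x i : ENNReal) / (y i : ENNReal)) =
      ((∏ i ∈ Finset.range n, x i : ℕ) : ENNReal) / ((∏ i ∈ Finset.range n, y i : ℕ) : ENNReal) := by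
  induction n with
  | zero => simp
  | succ n ih =>
    rw [Finset.prod_range_succ, Finset.prod_range_succ, Finset.prod_range_succ, ih]
    push_cast
    rw [div_eq_mul_inv, div_eq_mul_inv, div_eq_mul_inv, ENNReal.mul_inv]
    · ring
    · right
      exact ENNReal.natCast_ne_top _
    · right
      exact_mod_cast (hy n).ne'

/-- Y1. Image of the product of the uniform measures (`Measure.infinitePi` of `volume` on `unitInterval` or of
`volume.restrict (Icc 0 1)` on `ℝ`) under the map `T U n = decide (U n < c (h U n))`, `h U 0 = []`,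
`h U (n+1) = h U n ++ [decide (U n < c (h U n))]`, where `c v = A v / BB7 v.length`. The event `pre (T U) n = w` is the
rectangle `∀ i < n, decide (U i < c (w.take i)) = w.getD i false` (`Measure.infinitePi_pi`). -/
theorem exists_meas (A : List Bool → ℕ) (hA : ∀ w, A w ≤ BB7 w.length) :
    ∃ ν' : Measure (ℕ → Bool), IsProbabilityMeasure ν' ∧
      ∀ w : List Bool, ν' (Cy w) = (mm A w : ENNReal) / (dd w.length : ENNReal) := by
  have : IsProbabilityMeasure (volume.restrict (Icc (0 : ℝ) 1)) := ⟨by
    rw [Measure.restrict_apply MeasurableSet.univ, univ_inter, Real.volume_Icc]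
    simp⟩
  refine ⟨(Measure.infinitePi (fun _ : ℕ => volume.restrict (Icc (0 : ℝ) 1))).map (TY A), ?_, ?_⟩
  · exact Measure.isProbabilityMeasure_map (measurable_TY A).aemeasurable
  · intro w
    rw [Measure.map_apply (measurable_TY A) (measurableSet_CyY w), preimage_CyY,
      Measure.infinitePi_pi]
    · have h1 : ∀ i ∈ Finset.range w.length,
          (volume.restrict (Icc (0 : ℝ) 1)) (sideY A w i) =
            (fac A w i : ENNReal) / (BB7 i : ENNReal) :=
        fun i hi => vol_sideY A hA w i (Finset.mem_range.1 hi)
      rw [Finset.prod_congr rfl h1, prod_divY _ _ BB7_posY]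
      rfl
    · intro i _
      have h2 : sideY A w i = (fun x : ℝ => decide (x < cpY A (w.take i))) ⁻¹' {w.getD i false} := rfl
      rw [h2]
      have h3 : Measurable (fun x : ℝ => decide (x < cpY A (w.take i))) := by
        refine measurable_to_bool ?_
        have h4 : (fun x : ℝ => decide (x < cpY A (w.take i))) ⁻¹' {true} =
            Iio (cpY A (w.take i)) := by
          ext x
          simp
        rw [h4]
        exact measurableSet_Iio
      exact h3 (MeasurableSet.of_discrete)

end H48K
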