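import Pool.Agent.Lib.H48K.Defs7

/-!
# H48K, chunk Y2: computable approximations of the conditional probabilities
-/

open MeasureTheory Set Filter H69K

namespace H48K

private theorem y2_pow {α : Type*} [Primcodable α] {f : α → ℕ} (hf : Computable f) :
    Computable fun a => 2 ^ f a := by
  have h : Primrec₂ ((· ^ ·) : ℕ → ℕ → ℕ) := Primrec₂.unpaired'.1 Nat.Primrec.pow
  exact (h.comp (Primrec.const 2) Primrec.id).to_comp.comp hf

private theorem y2_pre_succ (X : ℕ → Bool) (n : ℕ) : pre X (n + 1) = pre X n ++ [X n] := by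
  unfold pre
  rw [List.ofFn_succ_last]
  rfl

private theorem y2_mem (X : ℕ → Bool) (w : List Bool) (b : Bool) :
    X ∈ Cy (w ++ [b]) ↔ X ∈ Cy w ∧ X w.length = b := by
  have h1 : X ∈ Cy (w ++ [b]) ↔ pre X (w ++ [b]).length = w ++ [b] := Iff.rfl
  have h2 : X ∈ Cy w ↔ pre X w.length = w := Iff.rfl
  have h3 : (w ++ [b]).length = w.length + 1 := by simp
  rw [h1, h2, h3, y2_pre_succ]
  constructor
  · intro h
    have hl : (pre X w.length).length = w.length := by simp [pre]
    have h4 := List.append_inj h hl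
    exact ⟨h4.1, by simpa using h4.2⟩
  · rintro ⟨h4, h5⟩
    rw [h4, h5]

private theorem y2_add (ν : Measure (ℕ → Bool)) [IsProbabilityMeasure ν] (w : List Bool) :
    ν.real (Cy w) = ν.real (Cy (w ++ [true])) + ν.real (Cy (w ++ [false])) := by
  have hm : MeasurableSet {X : ℕ → Bool | X w.length = true} :=
    measurableSet_eq_fun (measurable_pi_apply _) measurable_const
  have h := measureReal_inter_add_diff (μ := ν) (s := Cy w) hm
  have e1 : Cy w ∩ {X : ℕ → Bool | X w.length = true} = Cy (w ++ [true]) := by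
    ext X
    rw [y2_mem]
    exact Iff.rfl
  have e2 : Cy w \ {X : ℕ → Bool | X w.length = true} = Cy (w ++ [false]) := by
    ext X
    rw [y2_mem, Set.mem_diff]
    refine and_congr_right fun _ => ?_
    have e3 : X ∈ {X : ℕ → Bool | X w.length = true} ↔ X w.length = true := Iff.rfl
    rw [e3]
    cases X w.length <;> simp
  rw [e1, e2] at h
  exact h.symm

private theorem y2_rho (ν : Measure (ℕ → Bool)) [IsProbabilityMeasure ν] (w : List Bool) :
    rho ν w = rho ν (w ++ [true]) + rho ν (w ++ [false]) := by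
  unfold rho
  rw [y2_add ν w]
  simp only [List.length_append, List.length_cons, List.length_nil, zero_add, pow_succ]
  ring

private theorem y2_app (x y : ℕ) (w : List Bool) (ν : Measure (ℕ → Bool)) [IsProbabilityMeasure ν]
    (b : Bool) (h : |ν.real (Cy (w ++ [b])) - (x : ℝ) / 2 ^ (2 * w.length + 8)| ≤
      1 / 2 ^ (2 * w.length + 8)) (hy : y = x + 2 ^ (w.length + 7)) :
    |(y : ℝ) - 2 ^ (2 * w.length + 9) * rho ν (w ++ [b])| ≤ 1 := by
  have hp : (0 : ℝ) < 2 ^ (2 * w.length + 8) := by positivity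
  have e1 : (y : ℝ) - 2 ^ (2 * w.length + 9) * rho ν (w ++ [b]) =
      -(2 ^ (2 * w.length + 8) * (ν.real (Cy (w ++ [b])) - (x : ℝ) / 2 ^ (2 * w.length + 8))) := by
    have e2 : (2 : ℝ) ^ (2 * w.length + 8) * (1 / 2) ^ (w.length + 1) = 2 ^ (w.length + 7) := by
      rw [show 2 * w.length + 8 = (w.length + 7) + (w.length + 1) by ring, pow_add, mul_assoc,
        ← mul_pow]
      norm_num
    have e3 : (2 : ℝ) ^ (2 * w.length + 8) * ((x : ℝ) / 2 ^ (2 * w.length + 8)) = x := by
      field_simp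
    have e4 : rho ν (w ++ [b]) = (ν.real (Cy (w ++ [b])) + (1 / 2) ^ (w.length + 1)) / 2 := by
      unfold rho
      simp
    have e5 : (2 : ℝ) ^ (2 * w.length + 9) = 2 * 2 ^ (2 * w.length + 8) := by ring
    rw [hy, e4, e5]
    push_cast
    linear_combination -e3 - e2
  rw [e1, abs_neg, abs_mul, abs_of_pos hp]
  calc (2 : ℝ) ^ (2 * w.length + 8) * |ν.real (Cy (w ++ [b])) - (x : ℝ) / 2 ^ (2 * w.length + 8)|
      ≤ 2 ^ (2 * w.length + 8) * (1 / 2 ^ (2 * w.length + 8)) :=
        mul_le_mul_of_nonneg_left h hp.le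
    _ = 1 := by field_simp

private theorem y2_low (w : List Bool) (ν : Measure (ℕ → Bool)) (b : Bool) :
    (2 : ℝ) ^ (w.length + 7) ≤ 2 ^ (2 * w.length + 9) * rho ν (w ++ [b]) := by
  have e2 : (2 : ℝ) ^ (2 * w.length + 8) * (1 / 2) ^ (w.length + 1) = 2 ^ (w.length + 7) := by
    rw [show 2 * w.length + 8 = (w.length + 7) + (w.length + 1) by ring, pow_add, mul_assoc,
      ← mul_pow]
    norm_num
  have e4 : rho ν (w ++ [b]) = (ν.real (Cy (w ++ [b])) + (1 / 2) ^ (w.length + 1)) / 2 := by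
    unfold rho
    simp
  have e5 : (2 : ℝ) ^ (2 * w.length + 9) = 2 * 2 ^ (2 * w.length + 8) := by ring
  have e6 : (0 : ℝ) ≤ ν.real (Cy (w ++ [b])) := measureReal_nonneg
  have e7 : (0 : ℝ) ≤ 2 ^ (2 * w.length + 8) * ν.real (Cy (w ++ [b])) := by positivity
  rw [e4, e5]
  nlinarith [e2, e7]

private theorem y2_est {R1 R0 N1 N0 B : ℝ} {n : ℕ} {A : ℝ} (hB : B = 2 ^ (2 * n + 12))
    (h1 : |N1 - R1| ≤ 1) (h0 : |N0 - R0| ≤ 1) (l1 : 2 ^ (n + 7) ≤ R1) (l0 : 2 ^ (n + 7) ≤ R0)
    (hR : R1 + R0 ≤ 2 ^ (2 * n + 9)) (hA1 : A ≤ N1 * B / (N1 + N0))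
    (hA2 : N1 * B / (N1 + N0) - 1 ≤ A) :
    (1 - (1 / 2) ^ (n + 2)) * R1 ≤ A / B * (R1 + R0) ∧
      (1 - (1 / 2) ^ (n + 2)) * R0 ≤ (1 - A / B) * (R1 + R0) := by
  have hp : (128 : ℝ) ≤ 2 ^ (n + 7) := by
    calc (128 : ℝ) = 2 ^ 7 := by norm_num
      _ ≤ 2 ^ (n + 7) := pow_le_pow_right₀ (by norm_num) (by omega)
  have hBp : 0 < B := by rw [hB]; positivity
  have a1 := abs_le.1 h1
  have a0 := abs_le.1 h0
  have hN1 : 0 < N1 := by linarith
  have hN0 : 0 < N0 := by linarith
  have hRp : 0 < R1 + R0 := by linarith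
  have q : (1 / 2 : ℝ) ^ (n + 2) * 2 ^ (n + 7) = 32 := by
    rw [show n + 7 = (n + 2) + 5 by ring, pow_add (2 : ℝ) (n + 2) 5, ← mul_assoc, ← mul_pow]
    norm_num
  have hq : (0 : ℝ) < (1 / 2) ^ (n + 2) := by positivity
  have q1 : (32 : ℝ) ≤ (1 / 2) ^ (n + 2) * R1 := by
    rw [← q]
    exact mul_le_mul_of_nonneg_left l1 hq.le
  have q0 : (32 : ℝ) ≤ (1 / 2) ^ (n + 2) * R0 := by
    rw [← q]
    exact mul_le_mul_of_nonneg_left l0 hq.le
  have m1 : (R1 - 1) / (R1 + R0) ≤ N1 / (N1 + N0) := by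
    rw [div_le_div_iff₀ hRp (by linarith)]
    nlinarith
  have m0 : (R0 - 1) / (R1 + R0) ≤ N0 / (N1 + N0) := by
    rw [div_le_div_iff₀ hRp (by linarith)]
    nlinarith
  have m1' : R1 - 1 ≤ N1 / (N1 + N0) * (R1 + R0) := (div_le_iff₀ hRp).1 m1
  have m0' : R0 - 1 ≤ N0 / (N1 + N0) * (R1 + R0) := (div_le_iff₀ hRp).1 m0
  have hs : N1 / (N1 + N0) + N0 / (N1 + N0) = 1 := by
    rw [← add_div, div_self (by linarith)]
  have b1 : A / B ≤ N1 / (N1 + N0) := by
    rw [div_le_iff₀ hBp]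
    calc A ≤ N1 * B / (N1 + N0) := hA1
      _ = N1 / (N1 + N0) * B := by ring
  have b2 : N1 / (N1 + N0) - 1 / B ≤ A / B := by
    rw [le_div_iff₀ hBp]
    calc (N1 / (N1 + N0) - 1 / B) * B = N1 * B / (N1 + N0) - 1 := by field_simp
      _ ≤ A := hA2
  have c1 : 1 / B * (R1 + R0) ≤ 1 := by
    rw [one_div_mul_eq_div, div_le_one hBp, hB]
    exact hR.trans (pow_le_pow_right₀ (by norm_num) (by omega))
  constructor
  · have := mul_le_mul_of_nonneg_right b2 hRp.le
    rw [sub_mul] at this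
    nlinarith
  · have := mul_le_mul_of_nonneg_right b1 hRp.le
    have e : N0 / (N1 + N0) * (R1 + R0) = (1 - N1 / (N1 + N0)) * (R1 + R0) := by
      rw [← hs]; ring
    nlinarith

/-- Y2. With `n = |w|`, `k = 2 n + 8`, `N1 = r (w ++ [true]) k + 2^(k - n - 1)`, `N0 = r (w ++ [false]) k + 2^(k - n - 1)`
(natural numbers `> 0`) let `A w = N1 * BB7 n / (N1 + N0)` (integer part). Indeed
`|N1/2^(k+1) - rho (w 1)| ≤ 2^(-k-1)`, `rho (w 1) ≥ 2^(-n-2)`, the same for `0`, `rho w = rho (w 1) + rho (w 0)` (additivity of the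
measure of cylinders), so `N1/(N1+N0) ≥ (1 - 2^(-n-6)) rho (w 1)/rho w`, the same for `0`; the rounding costs
`1/BB7 n = 2^(-2 n - 12)`, and `rho (w 1)/rho w ≥ 2^(-n-2)`. -/
theorem exists_A (ν : Measure (ℕ → Bool)) [IsProbabilityMeasure ν] (hν : CompReal ν) :
    ∃ A : List Bool → ℕ, Computable A ∧ (∀ w, A w ≤ BB7 w.length) ∧
      ∀ w : List Bool,
        (1 - (1 / 2) ^ (w.length + 2)) * rho ν (w ++ [true]) ≤
          (A w : ℝ) / BB7 w.length * rho ν w ∧
        (1 - (1 / 2) ^ (w.length + 2)) * rho ν (w ++ [false]) ≤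
          (1 - (A w : ℝ) / BB7 w.length) * rho ν w := by
  obtain ⟨r, hr, hr2⟩ := hν
  have hlen : Computable fun w : List Bool => w.length := Primrec.list_length.to_comp
  have hN : ∀ b : Bool, Computable fun w : List Bool =>
      r (w ++ [b]) (2 * w.length + 8) + 2 ^ (w.length + 7) := by
    intro b
    have h1 : Computable fun w : List Bool => w ++ [b] :=
      (Primrec.list_append.comp Primrec.id (Primrec.const [b])).to_comp
    have h2 : Computable fun w : List Bool => 2 * w.length + 8 :=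
      Primrec.nat_add.to_comp.comp (Primrec.nat_mul.to_comp.comp (Computable.const 2) hlen)
        (Computable.const 8)
    have h3 : Computable fun w : List Bool => w.length + 7 :=
      Primrec.nat_add.to_comp.comp hlen (Computable.const 7)
    exact Primrec.nat_add.to_comp.comp (hr.comp h1 h2) (y2_pow h3)
  refine ⟨fun w => (r (w ++ [true]) (2 * w.length + 8) + 2 ^ (w.length + 7)) * BB7 w.length /
    ((r (w ++ [true]) (2 * w.length + 8) + 2 ^ (w.length + 7)) +
      (r (w ++ [false]) (2 * w.length + 8) + 2 ^ (w.length + 7))), ?_, ?_, ?_⟩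
  · have hBB : Computable fun w : List Bool => BB7 w.length := by
      have h4 : Computable fun w : List Bool => 2 * w.length + 12 :=
        Primrec.nat_add.to_comp.comp (Primrec.nat_mul.to_comp.comp (Computable.const 2) hlen)
          (Computable.const 12)
      exact y2_pow h4
    exact Primrec.nat_div.to_comp.comp (Primrec.nat_mul.to_comp.comp (hN true) hBB)
      (Primrec.nat_add.to_comp.comp (hN true) (hN false))
  · intro w
    refine Nat.div_le_of_le_mul ?_
    exact Nat.mul_le_mul_right _ (Nat.le_add_right _ _)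
  · intro w
    set N1 : ℕ := r (w ++ [true]) (2 * w.length + 8) + 2 ^ (w.length + 7) with hN1
    set N0 : ℕ := r (w ++ [false]) (2 * w.length + 8) + 2 ^ (w.length + 7) with hN0
    have h1 := y2_app _ N1 w ν true (hr2 (w ++ [true]) (2 * w.length + 8)) hN1
    have h0 := y2_app _ N0 w ν false (hr2 (w ++ [false]) (2 * w.length + 8)) hN0
    have hpos : 0 < N1 + N0 := by
      have : 0 < 2 ^ (w.length + 7) := by positivity
      omega
    have hposR : (0 : ℝ) < (N1 : ℝ) + N0 := by exact_mod_cast hpos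
    have hBr : ((BB7 w.length : ℕ) : ℝ) = 2 ^ (2 * w.length + 12) := by
      unfold BB7
      push_cast
      rfl
    have hrho : rho ν w ≤ 1 := by
      unfold rho
      have e1 : ν.real (Cy w) ≤ 1 := measureReal_le_one
      have e2 : ((1 : ℝ) / 2) ^ w.length ≤ 1 := pow_le_one₀ (by norm_num) (by norm_num)
      linarith
    have hP : (0 : ℝ) < 2 ^ (2 * w.length + 9) := by positivity
    have hfl1 : ((N1 * BB7 w.length / (N1 + N0) : ℕ) : ℝ) ≤
        (N1 : ℝ) * (BB7 w.length : ℕ) / ((N1 : ℝ) + N0) := by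
      have := @Nat.cast_div_le ℝ _ _ _ (N1 * BB7 w.length) (N1 + N0)
      push_cast at this
      exact_mod_cast this
    have hfl2 : (N1 : ℝ) * (BB7 w.length : ℕ) / ((N1 : ℝ) + N0) - 1 ≤
        ((N1 * BB7 w.length / (N1 + N0) : ℕ) : ℝ) := by
      have h5 := Nat.lt_div_mul_add (a := N1 * BB7 w.length) hpos
      have h6 : ((N1 * BB7 w.length : ℕ) : ℝ) <
          ((N1 * BB7 w.length / (N1 + N0) : ℕ) : ℝ) * ((N1 : ℝ) + N0) + ((N1 : ℝ) + N0) := by
        exact_mod_cast h5
      rw [sub_le_iff_le_add, div_le_iff₀ hposR]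
      push_cast at h6 ⊢
      nlinarith
    have hsum := y2_rho ν w
    have key := y2_est (R1 := 2 ^ (2 * w.length + 9) * rho ν (w ++ [true]))
      (R0 := 2 ^ (2 * w.length + 9) * rho ν (w ++ [false])) hBr h1 h0 (y2_low w ν true)
      (y2_low w ν false) (by
        rw [← mul_add, ← hsum]
        nlinarith) hfl1 hfl2
    rw [← mul_add, ← hsum] at key
    constructor
    · have h7 := key.1
      have h8 : 2 ^ (2 * w.length + 9) * ((1 - (1 / 2) ^ (w.length + 2)) * rho ν (w ++ [true])) ≤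
          2 ^ (2 * w.length + 9) * (((N1 * BB7 w.length / (N1 + N0) : ℕ) : ℝ) /
            (BB7 w.length : ℕ) * rho ν w) := by linarith
      exact le_of_mul_le_mul_left h8 hP
    · have h7 := key.2
      have h8 : 2 ^ (2 * w.length + 9) * ((1 - (1 / 2) ^ (w.length + 2)) * rho ν (w ++ [false])) ≤
          2 ^ (2 * w.length + 9) * ((1 - ((N1 * BB7 w.length / (N1 + N0) : ℕ) : ℝ) /
            (BB7 w.length : ℕ)) * rho ν w) := by linarith
      exact le_of_mul_le_mul_left h8 hP

end H48K
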