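import Pool.Agent.Lib.H48K.Defs7
import Pool.Agent.Lib.H48K.O

/-!
# H48K, chunk Y3: domination
-/

open MeasureTheory Set Filter H69K

namespace H48K

private lemma y3_fac_lt (A : List Bool → ℕ) (w : List Bool) (b : Bool) (i : ℕ)
    (hi : i < w.length) : fac A (w ++ [b]) i = fac A w i := by
  unfold fac
  have h1 : (w ++ [b]).getD i false = w.getD i false := by
    rw [List.getD_eq_getElem?_getD, List.getD_eq_getElem?_getD, List.getElem?_append_left hi]
  have h2 : (w ++ [b]).take i = w.take i := by
    rw [List.take_append_of_le_length hi.le]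
  rw [h1, h2]

private lemma y3_fac_last (A : List Bool → ℕ) (w : List Bool) (b : Bool) :
    fac A (w ++ [b]) w.length = if b = true then A w else BB7 w.length - A w := by
  unfold fac
  have h1 : (w ++ [b]).getD w.length false = b := by
    rw [List.getD_eq_getElem?_getD, List.getElem?_append_right le_rfl]
    simp
  have h2 : (w ++ [b]).take w.length = w := by
    simp
  rw [h1, h2]

private lemma y3_mm (A : List Bool → ℕ) (w : List Bool) (b : Bool) :
    mm A (w ++ [b]) = mm A w * (if b = true then A w else BB7 w.length - A w) := by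
  unfold mm
  rw [List.length_append, List.length_singleton, Finset.prod_range_succ, y3_fac_last]
  congr 1
  exact Finset.prod_congr rfl fun i hi => y3_fac_lt A w b i (Finset.mem_range.1 hi)

private lemma y3_dd (n : ℕ) : dd (n + 1) = dd n * BB7 n := by
  unfold dd
  rw [Finset.prod_range_succ]

private lemma y3_BB (n : ℕ) : (0 : ℝ) < BB7 n := by
  unfold BB7
  positivity

private lemma y3_ddpos (n : ℕ) : (0 : ℝ) < dd n := by
  unfold dd
  push_cast
  exact Finset.prod_pos fun i _ => y3_BB i

private lemma y3_prod (n : ℕ) :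
    (1 / 2 : ℝ) + (1 / 2) ^ (n + 1) ≤ ∏ i ∈ Finset.range n, (1 - (1 / 2 : ℝ) ^ (i + 2)) := by
  induction n with
  | zero => norm_num
  | succ n ih =>
    rw [Finset.prod_range_succ]
    have h0 : (0 : ℝ) < (1 / 2) ^ (n + 1) := by positivity
    have h1 : (1 / 2 : ℝ) ^ (n + 1) ≤ 1 / 2 := by
      have : (1 / 2 : ℝ) ^ (n + 1) ≤ (1 / 2) ^ 1 :=
        pow_le_pow_of_le_one (by norm_num) (by norm_num) (by omega)
      simpa using this
    have h2 : (1 / 2 : ℝ) ^ (n + 2) = (1 / 2) ^ (n + 1) / 2 := by
      rw [pow_succ (1 / 2 : ℝ) (n + 1)]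
      ring
    have h3 : (0 : ℝ) ≤ 1 - (1 / 2) ^ (n + 2) := by
      rw [h2]
      linarith
    calc (1 / 2 : ℝ) + (1 / 2) ^ (n + 1 + 1)
        ≤ (1 / 2 + (1 / 2) ^ (n + 1)) * (1 - (1 / 2) ^ (n + 2)) := by
          rw [h2]
          nlinarith
      _ ≤ _ := mul_le_mul_of_nonneg_right ih h3

/-- Y3a. By induction on `w` (`List.reverseRecOn`): `∏ (i < |w|) (1 - 2^(-i-2)) * rho w ≤ mm A w / dd |w|`, and the product is
at least `1/2`. -/
theorem rho_le (ν : Measure (ℕ → Bool)) [IsProbabilityMeasure ν] (A : List Bool → ℕ)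
    (hA : ∀ w, A w ≤ BB7 w.length)
    (h : ∀ w : List Bool,
        (1 - (1 / 2) ^ (w.length + 2)) * rho ν (w ++ [true]) ≤
          (A w : ℝ) / BB7 w.length * rho ν w ∧
        (1 - (1 / 2) ^ (w.length + 2)) * rho ν (w ++ [false]) ≤
          (1 - (A w : ℝ) / BB7 w.length) * rho ν w) (w : List Bool) :
    rho ν w / 2 ≤ (mm A w : ℝ) / dd w.length := by
  have key : (∏ i ∈ Finset.range w.length, (1 - (1 / 2 : ℝ) ^ (i + 2))) * rho ν w ≤
      (mm A w : ℝ) / dd w.length := by
    induction w using List.reverseRecOn with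
    | nil =>
      have h1 : Cy [] = Set.univ := by
        ext X
        simp [Cy, pre]
      simp [rho, h1, mm, dd]
    | append_singleton w b ih =>
      have hP : (0 : ℝ) ≤ ∏ i ∈ Finset.range w.length, (1 - (1 / 2 : ℝ) ^ (i + 2)) := by
        have := y3_prod w.length
        have h0 : (0 : ℝ) < (1 / 2) ^ (w.length + 1) := by positivity
        linarith
      have hB := y3_BB w.length
      have hD := y3_ddpos w.length
      have hA' : (A w : ℝ) ≤ BB7 w.length := by exact_mod_cast hA w
      have hq : ∀ q : ℝ, 0 ≤ q →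
          (1 - (1 / 2) ^ (w.length + 2)) * rho ν (w ++ [b]) ≤ q * rho ν w →
          (∏ i ∈ Finset.range (w.length + 1), (1 - (1 / 2 : ℝ) ^ (i + 2))) * rho ν (w ++ [b]) ≤
            q * ((mm A w : ℝ) / dd w.length) := by
        intro q hq0 hq1
        rw [Finset.prod_range_succ, mul_assoc]
        calc _ ≤ (∏ i ∈ Finset.range w.length, (1 - (1 / 2 : ℝ) ^ (i + 2))) * (q * rho ν w) :=
              mul_le_mul_of_nonneg_left hq1 hP
          _ = q * ((∏ i ∈ Finset.range w.length, (1 - (1 / 2 : ℝ) ^ (i + 2))) * rho ν w) := by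
              ring
          _ ≤ _ := mul_le_mul_of_nonneg_left ih hq0
      rw [List.length_append, List.length_singleton, y3_mm, y3_dd]
      cases b with
      | true =>
        refine (hq ((A w : ℝ) / BB7 w.length) (by positivity) (h w).1).trans (le_of_eq ?_)
        simp only [if_true]
        push_cast
        rw [div_mul_div_comm, mul_comm (A w : ℝ), mul_comm (BB7 w.length : ℝ)]
      | false =>
        refine (hq (1 - (A w : ℝ) / BB7 w.length) ?_ (h w).2).trans (le_of_eq ?_)
        · rw [sub_nonneg, div_le_one hB]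
          exact hA'
        · have h5 : ((BB7 w.length - A w : ℕ) : ℝ) = (BB7 w.length : ℝ) - A w :=
            Nat.cast_sub (hA w)
          rw [if_neg (by decide), Nat.cast_mul, Nat.cast_mul, h5]
          field_simp
  have h1 := y3_prod w.length
  have h0 : (0 : ℝ) < (1 / 2) ^ (w.length + 1) := by positivity
  have hr : 0 ≤ rho ν w := by
    unfold rho
    positivity
  refine le_trans ?_ key
  nlinarith

/-- Y3b. So `ν (Cy w) ≤ 4 ν' (Cy w)` for all words, hence `ν (E m V)^2 ≤ ν (E m V) ≤ 4 ν' (E m V)` (finite disjoint union of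
cylinders), and `ac_of_sq` (chunk O, proved) gives `ν ≪ ν'`. -/
theorem ac_of_cyl (ν ν' : Measure (ℕ → Bool)) [IsProbabilityMeasure ν] [IsProbabilityMeasure ν']
    (h : ∀ w : List Bool, ν (Cy w) ≤ 4 * ν' (Cy w)) : ν ≪ ν' := by
  have hcy : ∀ (m : ℕ) (v : Fin m → Bool), E m {v} = Cy (List.ofFn v) := by
    intro m v
    ext X
    have h1 : (List.ofFn v).length = m := List.length_ofFn
    have h2 : pre X (List.ofFn v).length = pre X m := by rw [h1]
    show (fun i : Fin m => X i) ∈ ({v} : Set (Fin m → Bool)) ↔ pre X (List.ofFn v).length = List.ofFn v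
    rw [h2, Set.mem_singleton_iff, pre, List.ofFn_inj]
  have hsum : ∀ (μ : Measure (ℕ → Bool)) (m : ℕ) (V : Set (Fin m → Bool)),
      μ (E m V) = ∑ v ∈ V.toFinite.toFinset, μ (E m {v}) := by
    intro μ m V
    have h1 : E m V = ⋃ v ∈ V.toFinite.toFinset, E m {v} := by
      ext X
      simp [E]
    rw [h1, measure_biUnion_finset]
    · intro v _ v' _ hne
      rw [Function.onFun, Set.disjoint_left]
      intro X hX hX'
      have e1 : (fun i : Fin m => X i) = v := hX
      have e2 : (fun i : Fin m => X i) = v' := hX'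
      exact hne (e1.symm.trans e2)
    · intro v _
      exact measurableSet_E m {v}
  refine ac_of_sq ν ν' 4 (by norm_num) fun m V => ?_
  have h1 : ν (E m V) ≤ 4 * ν' (E m V) := by
    rw [hsum ν, hsum ν', Finset.mul_sum]
    refine Finset.sum_le_sum fun v _ => ?_
    rw [hcy m v]
    exact h _
  have h2 : ν (E m V) ≤ 1 := prob_le_one
  calc ν (E m V) ^ 2 = ν (E m V) * ν (E m V) := sq _
    _ ≤ ν (E m V) * 1 := by gcongr
    _ = ν (E m V) := mul_one _
    _ ≤ _ := h1

end H48K
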