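import Pool.Agent.Lib.H48K.Defs7
import Pool.Agent.Lib.H48K.C

/-!
# H48K, chunk Y4: computability of the cylinder values
-/

open MeasureTheory Set Filter H69K

namespace H48K

private theorem y4_prod {α : Type*} [Primcodable α] {F : α → ℕ → ℕ} {n : α → ℕ}
    (hF : Computable₂ F) (hn : Computable n) :
    Computable fun x => ∏ i ∈ Finset.range (n x), F x i := by
  have hh : Computable₂ (fun (x : α) (p : ℕ × ℕ) => p.2 * F x p.1) := by
    have h1 : Computable (fun q : α × (ℕ × ℕ) => q.2.2) := Computable.snd.comp Computable.snd
    have h2 : Computable (fun q : α × (ℕ × ℕ) => F q.1 q.2.1) :=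
      hF.comp Computable.fst (Computable.fst.comp Computable.snd)
    exact (Primrec.nat_mul.to_comp.comp h1 h2 : Computable (fun q : α × (ℕ × ℕ) => q.2.2 * F q.1 q.2.1)).to₂
  have h3 := Computable.nat_rec hn (Computable.const (α := α) (1 : ℕ)) hh
  refine h3.of_eq fun x => ?_
  generalize n x = k
  induction k with
  | zero => simp
  | succ k ih =>
    rw [Finset.prod_range_succ, ← ih]

private theorem y4_BB : Computable BB7 := by
  have hF : Computable₂ (fun (_ : ℕ) (_ : ℕ) => 2) := (Computable.const 2).to₂
  have hn : Computable (fun n : ℕ => 2 * n + 12) :=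
    Primrec.nat_add.to_comp.comp (Primrec.nat_mul.to_comp.comp (Computable.const 2) Computable.id)
      (Computable.const 12)
  have h := y4_prod hF hn
  refine h.of_eq fun n => ?_
  rw [Finset.prod_const, Finset.card_range]
  rfl

/-- Y4. Products over a range by `Computable.nat_rec` (compare `computable_sum` in `Lib/H48K/C.lean`);
`w.take i` by `Primrec.list_take` or `((List.range i).map fun k => w.getD k false)` for `i ≤ |w|`. -/
theorem computable_mm {A : List Bool → ℕ} (hA : Computable A) : Computable (mm A) := by
  have ht : Computable (fun q : List Bool × ℕ => A (q.1.take q.2)) :=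
    hA.comp (Primrec.list_take.to_comp.comp Computable.snd Computable.fst)
  have hg : Computable (fun q : List Bool × ℕ => q.1.getD q.2 false) :=
    (Primrec.list_getD false).to_comp.comp Computable.fst Computable.snd
  have hb : Computable (fun q : List Bool × ℕ => BB7 q.2 - A (q.1.take q.2)) :=
    Primrec.nat_sub.to_comp.comp (y4_BB.comp Computable.snd) ht
  have hF : Computable₂ (fun (w : List Bool) (i : ℕ) => fac A w i) := by
    have h1 : Computable (fun q : List Bool × ℕ =>
        bif q.1.getD q.2 false then A (q.1.take q.2) else BB7 q.2 - A (q.1.take q.2)) :=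
      Computable.cond hg ht hb
    have h2 : Computable (fun q : List Bool × ℕ => fac A q.1 q.2) := by
      refine h1.of_eq fun q => ?_
      unfold fac
      by_cases h : q.1.getD q.2 false = true
      · rw [if_pos h, h]
        rfl
      · rw [if_neg h, Bool.eq_false_iff.2 h]
        rfl
    exact h2.to₂
  exact y4_prod hF Primrec.list_length.to_comp

theorem computable_dd : Computable dd := by
  have hF : Computable₂ (fun (_ : ℕ) (i : ℕ) => BB7 i) :=
    (y4_BB.comp Computable.snd : Computable (fun q : ℕ × ℕ => BB7 q.2)).to₂
  exact y4_prod hF Computable.id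

theorem dd_pos (n : ℕ) : 0 < dd n := by
  unfold dd
  apply Finset.prod_pos
  intro i _
  unfold BB7
  positivity

end H48K
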