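import Pool.Agent.Lib.H48K.F6
import Pool.Agent.Lib.H48K.Y1
import Pool.Agent.Lib.H48K.Y2
import Pool.Agent.Lib.H48K.Y3
import Pool.Agent.Lib.H48K.Y4

/-!
# H48K, chunk F7: all computable measures, real values
-/

open MeasureTheory Set Filter H69K

namespace H48K

/-- Every computable measure is absolutely continuous with respect to a computable measure with rational
values on the cylinders. -/
theorem exists_dom (ν : Measure (ℕ → Bool)) [IsProbabilityMeasure ν] (hν : CompReal ν) :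
    ∃ (ν' : Measure (ℕ → Bool)) (m : List Bool → ℕ) (d : ℕ → ℕ), IsProbabilityMeasure ν' ∧
      CompMeas ν' m d ∧ ν ≪ ν' ∧ ∀ w : List Bool, ν (Cy w) ≤ 4 * ν' (Cy w) := by
  obtain ⟨A, hc, hA, h⟩ := exists_A ν hν
  obtain ⟨ν', hp, hν'⟩ := exists_meas A hA
  suffices hw : ∀ w : List Bool, ν (Cy w) ≤ 4 * ν' (Cy w) from
    ⟨ν', mm A, dd, hp, ⟨computable_mm hc, computable_dd, dd_pos, hν'⟩, ac_of_cyl ν ν' hw, hw⟩
  intro w
  have h1 := rho_le ν A hA h w
  have h2 : ν.real (Cy w) ≤ 4 * ν'.real (Cy w) := by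
    have h3 : ν'.real (Cy w) = (mm A w : ℝ) / dd w.length := by
      unfold Measure.real
      rw [hν', ENNReal.toReal_div, ENNReal.toReal_natCast, ENNReal.toReal_natCast]
    rw [h3]
    unfold rho at h1
    have h4 : (0 : ℝ) ≤ (1 / 2) ^ w.length := by positivity
    linarith
  have h5 : ν (Cy w) = ENNReal.ofReal (ν.real (Cy w)) :=
    (ENNReal.ofReal_toReal (measure_ne_top ν (Cy w))).symm
  have h6 : ν' (Cy w) = ENNReal.ofReal (ν'.real (Cy w)) :=
    (ENNReal.ofReal_toReal (measure_ne_top ν' (Cy w))).symm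
  rw [h5, h6]
  calc ENNReal.ofReal (ν.real (Cy w)) ≤ ENNReal.ofReal (4 * ν'.real (Cy w)) :=
        ENNReal.ofReal_le_ofReal h2
    _ = 4 * ENNReal.ofReal (ν'.real (Cy w)) := by
        rw [ENNReal.ofReal_mul (by norm_num), ENNReal.ofReal_ofNat]

theorem mixed_real (ν : Measure (ℕ → Bool)) [IsProbabilityMeasure ν] (hν : CompReal ν) :
    ∀ᵐ X ∂ν, (Random (mu fair) X ↔ Clo2 X) ∧
      (Random (mu fair) X ↔ ∀ B : ℕ → Bool, Step X B → KLStochastic B) ∧
      (Random (mu fair) X ↔ ∀ B : ℕ → Bool, Relation.ReflTransGen Step X B → KLStochastic B) := by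
  obtain ⟨ν', m, d, hp, hc, hac, -⟩ := exists_dom ν hν
  exact hac.ae_le (mixed hc)

end H48K
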