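import Pool.Agent.Lib.H48K.Defs8
import Pool.Agent.Lib.H48K.X3

/-!
# H48K, chunk Z2: the second error, test of another measure
-/

open MeasureTheory Set Filter H69K

namespace H48K

variable {ν ν' : Measure (ℕ → Bool)} {m : List Bool → ℕ} {d : ℕ → ℕ}

private theorem z2_meas (K s L t : ℕ) : MeasurableSet (ER2 m d K s L t) := by
  have h : ER2 m d K s L t = E (s + 1 + (t + L))
      {x | ∃ X : ℕ → Bool, (fun i : Fin (s + 1 + (t + L)) => X i) = x ∧ X ∈ ER2 m d K s L t} := by
    ext X
    constructor
    · intro hX
      exact ⟨X, rfl, hX⟩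
    · rintro ⟨Y, hY, hY1, hY2⟩
      have hi : ∀ i, i < s + 1 + (t + L) → Y i = X i := fun i hi => congrFun hY ⟨i, hi⟩
      refine ⟨?_, ?_⟩
      · rw [← hi s (by omega)]
        exact hY1
      · have e1 : pre X s = pre Y s := by
          unfold pre
          congr 1
          funext i
          exact (hi i (by have := i.2; omega)).symm
        have e2 : seg X t L = seg Y t L := by
          unfold seg
          congr 1
          funext i
          exact (hi (t + i) (by have := i.2; omega)).symm
        rw [e1, e2]
        exact hY2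
  rw [h]
  have h2 : Measurable (fun X : ℕ → Bool => (fun i : Fin (s + 1 + (t + L)) => X i)) := by
    fun_prop
  exact h2 (Set.toFinite _).measurableSet

/-- the words of length `L` that pass the test -/
private noncomputable def z2T (m : List Bool → ℕ) (d : ℕ → ℕ) (K L : ℕ) (v : List Bool) :
    Finset (List Bool) :=
  ((Finset.univ : Finset (Fin L → Bool)).image List.ofFn).filter fun y => ps m d K v y = true

private theorem z2T_mem (K L : ℕ) (v y : List Bool) :
    y ∈ z2T m d K L v ↔ y.length = L ∧ ps m d K v y = true := by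
  unfold z2T
  rw [Finset.mem_filter, Finset.mem_image]
  constructor
  · rintro ⟨⟨x, _, rfl⟩, h⟩
    exact ⟨List.length_ofFn, h⟩
  · rintro ⟨h1, h2⟩
    refine ⟨⟨fun i => y.get (i.cast h1.symm), Finset.mem_univ _, ?_⟩, h2⟩
    apply List.ext_getElem
    · simp [h1]
    · intro i h3 h4
      simp

private theorem z2_freq_set (X : ℕ → Bool) (hX : X ∈ GG) (t L : ℕ) (hL : 0 < L)
    (T : Finset (List Bool)) (hT : ∀ w ∈ T, w.length = L) :
    Tendsto (fun M : ℕ => (((Finset.range M).filter
      (fun i => seg X (t + i * L) L ∈ T)).card : ℝ) / (M : ℝ)) atTop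
        (nhds ((T.card : ℝ) * (1 / 2) ^ L)) := by
  have h1 : Tendsto (fun M : ℕ => ∑ w ∈ T, (((Finset.range M).filter
      (fun i => seg X (t + i * L) L = w)).card : ℝ) / (M : ℝ)) atTop
        (nhds (∑ w ∈ T, (1 / 2 : ℝ) ^ L)) :=
    tendsto_finsetSum _ fun w hw => hX t L hL w (hT w hw)
  have h2 : ∑ w ∈ T, (1 / 2 : ℝ) ^ L = (T.card : ℝ) * (1 / 2) ^ L := by
    rw [Finset.sum_const, nsmul_eq_mul]
  rw [h2] at h1
  refine h1.congr fun M => ?_
  rw [← Finset.sum_div]
  congr 1
  have h3 : ((Finset.range M).filter (fun i => seg X (t + i * L) L ∈ T)).card =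
      ∑ w ∈ T, (((Finset.range M).filter (fun i => seg X (t + i * L) L ∈ T)).filter
        (fun i => seg X (t + i * L) L = w)).card :=
    Finset.card_eq_sum_card_fiberwise fun i hi => (Finset.mem_filter.1 hi).2
  rw [h3]
  push_cast
  refine Finset.sum_congr rfl fun w hw => ?_
  congr 2
  rw [Finset.filter_filter]
  refine Finset.filter_congr fun i _ => ?_
  constructor
  · intro h
    exact ⟨h ▸ hw, h⟩
  · exact fun h => h.2

/-- Z2. Copy of the proof of `exists_t'` (X3, proved): there `CompMeas ν m d` is used only for `card_ps`, which is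
applied to `ν'` now. -/
theorem exists_t2 [IsProbabilityMeasure ν] [IsProbabilityMeasure ν'] (hν : CompMeas ν' m d)
    (δ : ENNReal) (K : ℕ) (hδ : ν GGᶜ + (2⁻¹ : ENNReal) ^ (K + 1) < δ) (s L t0 : ℕ) :
    ∃ t, t0 ≤ t ∧ ν (ER2 m d (K + 1) s L t) ≤ δ := by
  classical
  rcases Nat.eq_zero_or_pos L with rfl | hL
  · refine ⟨t0, le_rfl, ?_⟩
    have h : ER2 m d (K + 1) s 0 t0 = ∅ := by
      apply Set.eq_empty_of_forall_notMem
      rintro X ⟨-, hX⟩
      have hs : seg X t0 0 = [] := by simp [seg]
      rw [hs] at hX
      unfold ps at hX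
      rw [decide_eq_true_eq] at hX
      simp only [List.length_nil, add_zero, pow_zero, mul_one] at hX
      have h1 : 1 ≤ 2 ^ (K + 1) := Nat.one_le_two_pow
      have h2 : m (pre X s ++ [true]) * d ((pre X s).length + 1)
          ≤ 2 ^ (K + 1) * m (pre X s ++ [true]) * d ((pre X s).length + 1) := by
        rw [mul_assoc]
        exact Nat.le_mul_of_pos_left _ h1
      omega
    rw [h, measure_empty]
    exact zero_le
  by_contra hcon
  push Not at hcon
  have hδtop : δ ≠ ⊤ := by
    intro h
    have h1 := hcon t0 le_rfl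
    rw [h] at h1
    exact not_top_lt h1
  have hδr : (ν GGᶜ).toReal + (1 / 2) ^ (K + 1) < δ.toReal := by
    have h1 := (ENNReal.toReal_lt_toReal (ne_top_of_lt hδ) hδtop).2 hδ
    rw [ENNReal.toReal_add (measure_ne_top _ _) (by simp), ENNReal.toReal_pow,
      ENNReal.toReal_inv] at h1
    norm_num at h1
    exact h1
  have hr : ∀ i : ℕ, δ.toReal ≤ (ν (ER2 m d (K + 1) s L (t0 + i * L))).toReal := by
    intro i
    exact ENNReal.toReal_mono (measure_ne_top _ _) (hcon (t0 + i * L) (by omega)).le
  -- the frequencies
  let F : ℕ → (ℕ → Bool) → ℝ := fun M X =>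
    (∑ i ∈ Finset.range M, (ER2 m d (K + 1) s L (t0 + i * L)).indicator (fun _ => (1 : ℝ)) X) / M
  have hFmeas : ∀ M, Measurable (F M) := by
    intro M
    apply Measurable.div_const
    apply Finset.measurable_fun_sum
    intro i _
    exact measurable_const.indicator (z2_meas _ _ _ _)
  have hF0 : ∀ M X, 0 ≤ F M X := by
    intro M X
    refine div_nonneg ?_ (Nat.cast_nonneg M)
    apply Finset.sum_nonneg
    intro i _
    apply Set.indicator_nonneg
    intro _ _
    norm_num
  have hF1 : ∀ M X, F M X ≤ 1 := by
    intro M X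
    apply div_le_one_of_le₀ _ (Nat.cast_nonneg M)
    calc ∑ i ∈ Finset.range M,
        (ER2 m d (K + 1) s L (t0 + i * L)).indicator (fun _ => (1 : ℝ)) X
        ≤ ∑ i ∈ Finset.range M, (1 : ℝ) := by
          apply Finset.sum_le_sum
          intro i _
          apply Set.indicator_le_self'
          intro _ _
          norm_num
      _ = M := by simp
  have hFint : ∀ M, 0 < M → δ.toReal ≤ ∫ X, F M X ∂ν := by
    intro M hM
    have hM' : (0 : ℝ) < M := by exact_mod_cast hM
    have h1 : ∫ X, F M X ∂ν
        = (∑ i ∈ Finset.range M, (ν (ER2 m d (K + 1) s L (t0 + i * L))).toReal) / M := by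
      simp only [F]
      rw [integral_div, integral_finsetSum]
      · congr 1
        apply Finset.sum_congr rfl
        intro i _
        rw [integral_indicator_const _ (z2_meas _ _ _ _)]
        simp [Measure.real]
      · intro i _
        exact (integrable_const (1 : ℝ)).indicator (z2_meas _ _ _ _)
    rw [h1, le_div_iff₀ hM']
    calc δ.toReal * M = ∑ i ∈ Finset.range M, δ.toReal := by
          rw [Finset.sum_const, Finset.card_range, nsmul_eq_mul, mul_comm]
      _ ≤ _ := Finset.sum_le_sum fun i _ => hr i
  let g : (ℕ → Bool) → ℝ := fun X =>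
    if X s = false then ((z2T m d (K + 1) L (pre X s)).card : ℝ) * (1 / 2) ^ L else 0
  have hg : ∀ X, g X ≤ (1 / 2) ^ (K + 1) := by
    intro X
    simp only [g]
    split
    · exact card_ps hν (K + 1) L (pre X s) _ fun y hy => (z2T_mem _ _ _ _).1 hy
    · positivity
  -- the modified functions
  let F' : ℕ → (ℕ → Bool) → ℝ := fun M X => GG.indicator (F M) X + GGᶜ.indicator (fun _ => (1 : ℝ)) X
  let g' : (ℕ → Bool) → ℝ := fun X => GG.indicator g X + GGᶜ.indicator (fun _ => (1 : ℝ)) X
  have hF'meas : ∀ M, Measurable (F' M) := fun M =>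
    ((hFmeas M).indicator measurable_GG).add (measurable_const.indicator measurable_GG.compl)
  have hF'in : ∀ M, ∀ X ∈ GG, F' M X = F M X := by
    intro M X hX
    simp only [F']
    rw [Set.indicator_of_mem hX, Set.indicator_of_notMem (by simpa using hX), add_zero]
  have hF'out : ∀ M, ∀ X, X ∉ GG → F' M X = 1 := by
    intro M X hX
    simp only [F']
    rw [Set.indicator_of_notMem hX, Set.indicator_of_mem (by simpa using hX), zero_add]
  have hg'in : ∀ X ∈ GG, g' X = g X := by
    intro X hX
    simp only [g']
    rw [Set.indicator_of_mem hX, Set.indicator_of_notMem (by simpa using hX), add_zero]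
  have hg'out : ∀ X, X ∉ GG → g' X = 1 := by
    intro X hX
    simp only [g']
    rw [Set.indicator_of_notMem hX, Set.indicator_of_mem (by simpa using hX), zero_add]
  have hFF' : ∀ M X, F M X ≤ F' M X := by
    intro M X
    by_cases hX : X ∈ GG
    · rw [hF'in M X hX]
    · rw [hF'out M X hX]
      exact hF1 M X
  have hF'1 : ∀ M X, ‖F' M X‖ ≤ 1 := by
    intro M X
    by_cases hX : X ∈ GG
    · rw [hF'in M X hX, Real.norm_of_nonneg (hF0 M X)]
      exact hF1 M X
    · rw [hF'out M X hX]
      simp
  have hlim : ∀ X, Tendsto (fun M => F' M X) atTop (nhds (g' X)) := by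
    intro X
    by_cases hX : X ∈ GG
    · rw [hg'in X hX]
      simp only [hF'in _ X hX]
      by_cases hXs : X s = false
      · have h1 := z2_freq_set X hX t0 L hL (z2T m d (K + 1) L (pre X s)) fun w hw =>
          ((z2T_mem _ _ _ _).1 hw).1
        simp only [g, if_pos hXs]
        refine h1.congr fun M => ?_
        simp only [F]
        congr 1
        rw [Finset.card_filter, Nat.cast_sum]
        apply Finset.sum_congr rfl
        intro i _
        have hiff : seg X (t0 + i * L) L ∈ z2T m d (K + 1) L (pre X s)
            ↔ X ∈ ER2 m d (K + 1) s L (t0 + i * L) := by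
          rw [z2T_mem]
          constructor
          · rintro ⟨-, h⟩
            exact ⟨hXs, h⟩
          · rintro ⟨-, h⟩
            exact ⟨by simp [seg], h⟩
        by_cases hm : X ∈ ER2 m d (K + 1) s L (t0 + i * L)
        · rw [if_pos (hiff.2 hm), Set.indicator_of_mem hm]
          simp
        · rw [if_neg (fun h => hm (hiff.1 h)), Set.indicator_of_notMem hm]
          simp
      · simp only [g, if_neg hXs]
        have h1 : ∀ M, F M X = 0 := by
          intro M
          simp only [F]
          rw [Finset.sum_eq_zero, zero_div]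
          intro i _
          apply Set.indicator_of_notMem
          rintro ⟨h, -⟩
          exact hXs h
        simp only [h1]
        exact tendsto_const_nhds
    · rw [hg'out X hX]
      simp only [hF'out _ X hX]
      exact tendsto_const_nhds
  have hdom := tendsto_integral_of_dominated_convergence (μ := ν) (F := F') (f := g')
    (fun _ => (1 : ℝ)) (fun M => (hF'meas M).aestronglyMeasurable) (integrable_const 1)
    (fun M => Filter.Eventually.of_forall (hF'1 M)) (Filter.Eventually.of_forall hlim)
  have h2 : δ.toReal ≤ ∫ X, g' X ∂ν := by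
    apply ge_of_tendsto hdom
    filter_upwards [eventually_gt_atTop 0] with M hM
    refine (hFint M hM).trans (integral_mono ?_ ?_ (hFF' M))
    · refine Integrable.of_bound (hFmeas M).aestronglyMeasurable 1 (Filter.Eventually.of_forall fun X => ?_)
      rw [Real.norm_of_nonneg (hF0 M X)]
      exact hF1 M X
    · exact Integrable.of_bound (hF'meas M).aestronglyMeasurable 1
        (Filter.Eventually.of_forall (hF'1 M))
  have h3 : ∫ X, g' X ∂ν ≤ (ν GGᶜ).toReal + (1 / 2) ^ (K + 1) := by
    by_cases hi : Integrable g' ν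
    · have hle : ∀ X, g' X ≤ GGᶜ.indicator (fun _ => (1 : ℝ)) X + (1 / 2) ^ (K + 1) := by
        intro X
        by_cases hX : X ∈ GG
        · rw [hg'in X hX, Set.indicator_of_notMem (by simpa using hX), zero_add]
          exact hg X
        · rw [hg'out X hX, Set.indicator_of_mem (by simpa using hX)]
          have : (0 : ℝ) ≤ (1 / 2) ^ (K + 1) := by positivity
          linarith
      have hint : Integrable (GGᶜ.indicator (fun _ => (1 : ℝ))) ν :=
        (integrable_const (1 : ℝ)).indicator measurable_GG.compl
      calc ∫ X, g' X ∂ν ≤ ∫ X, (GGᶜ.indicator (fun _ => (1 : ℝ)) X + (1 / 2) ^ (K + 1)) ∂ν :=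
            integral_mono hi (hint.add (integrable_const _)) hle
        _ = (ν GGᶜ).toReal + (1 / 2) ^ (K + 1) := by
            rw [integral_add hint (integrable_const _),
              integral_indicator_const _ measurable_GG.compl]
            simp [Measure.real]
    · rw [integral_undef hi]
      positivity
  linarith

end H48K
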