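import Pool.Agent.Lib.H48K.Defs8
import Pool.Agent.Lib.H48K.W5

/-!
# H48K, chunk Z3: the approximate condition
-/

open MeasureTheory Set Filter H69K

namespace H48K

variable {ν : Measure (ℕ → Bool)} {r : List Bool → ℕ → ℕ} {m : List Bool → ℕ} {d : ℕ → ℕ}

private theorem z3_Cy_pre (v : List Bool) :
    Cy v = (fun X : ℕ → Bool => fun i : Fin v.length => X i) ⁻¹' {fun i : Fin v.length => v.get i} := by
  ext X
  show pre X v.length = v ↔ (fun i : Fin v.length => X i) = fun i : Fin v.length => v.get i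
  constructor
  · intro h
    funext i
    have h2 : (pre X v.length)[(i : ℕ)]? = v[(i : ℕ)]? := by rw [h]
    have h3 : (pre X v.length)[(i : ℕ)]? = some (X i) := by
      unfold pre
      rw [List.getElem?_ofFn]
      rw [dif_pos i.2]
    have h4 : v[(i : ℕ)]? = some (v.get i) := by
      rw [List.getElem?_eq_getElem i.2]
      rfl
    rw [h3, h4] at h2
    exact Option.some.inj h2
  · intro h
    unfold pre
    rw [h]
    exact List.ofFn_get v

private theorem z3_meas (v : List Bool) : MeasurableSet (Cy v) := by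
  rw [z3_Cy_pre]
  refine MeasurableSet.preimage (MeasurableSet.singleton _) ?_
  exact measurable_pi_lambda _ fun i => measurable_pi_apply _

private theorem z3_len (n i : ℕ) : (wd n i).length = n := by
  unfold wd
  rw [List.length_map, List.length_range]

private theorem z3_get (n i k : ℕ) (hk : k < n) : (wd n i)[k]? = some (i.testBit k) := by
  unfold wd
  rw [List.getElem?_map, List.getElem?_range hk]
  rfl

private theorem z3_inj {n i j : ℕ} (hi : i < 2 ^ n) (hj : j < 2 ^ n) (h : wd n i = wd n j) : i = j := by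
  refine Nat.eq_of_testBit_eq fun k => ?_
  by_cases hk : k < n
  · have h1 := z3_get n i k hk
    rw [h, z3_get n j k hk] at h1
    exact (Option.some.inj h1).symm
  · have h2 : 2 ^ n ≤ 2 ^ k := Nat.pow_le_pow_right (by norm_num) (by omega)
    rw [Nat.testBit_lt_two_pow (lt_of_lt_of_le hi h2), Nat.testBit_lt_two_pow (lt_of_lt_of_le hj h2)]

private theorem z3_surj (X : ℕ → Bool) (n : ℕ) : ∃ i, i < 2 ^ n ∧ wd n i = pre X n := by
  refine ⟨Nat.ofBits (fun i : Fin n => X i), Nat.ofBits_lt_two_pow _, ?_⟩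
  refine List.ext_getElem? fun k => ?_
  by_cases hk : k < n
  · rw [z3_get n _ k hk, Nat.testBit_ofBits_lt _ k hk]
    unfold pre
    rw [List.getElem?_ofFn, dif_pos hk]
  · rw [List.getElem?_eq_none (by rw [z3_len]; omega), List.getElem?_eq_none]
    unfold pre
    rw [List.length_ofFn]
    omega

private theorem z3_preget (X : ℕ → Bool) {n k : ℕ} (hk : k < n) : (pre X n)[k]? = some (X k) := by
  unfold pre
  rw [List.getElem?_ofFn, dif_pos hk]

private theorem z3_getD (X : ℕ → Bool) {n k : ℕ} (hk : k < n) : (pre X n).getD k false = X k := by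
  rw [List.getD_eq_getElem?_getD, z3_preget X hk]
  rfl

private theorem z3_take (X : ℕ → Bool) {n k : ℕ} (hk : k ≤ n) : (pre X n).take k = pre X k := by
  refine List.ext_getElem? fun j => ?_
  by_cases hj : j < k
  · rw [List.getElem?_take_of_lt hj, z3_preget X (lt_of_lt_of_le hj hk), z3_preget X hj]
  · rw [List.getElem?_eq_none, List.getElem?_eq_none]
    · unfold pre
      rw [List.length_ofFn]
      omega
    · rw [List.length_take]
      omega

private theorem z3_drop (X : ℕ → Bool) (t L : ℕ) : (pre X (t + L)).drop t = seg X t L := by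
  refine List.ext_getElem? fun j => ?_
  rw [List.getElem?_drop]
  by_cases hj : j < L
  · rw [z3_preget X (by omega)]
    unfold seg
    rw [List.getElem?_ofFn, dif_pos hj]
  · rw [List.getElem?_eq_none, List.getElem?_eq_none]
    · unfold seg
      rw [List.length_ofFn]
      omega
    · unfold pre
      rw [List.length_ofFn]
      omega


private theorem z3_words [IsProbabilityMeasure ν] (n : ℕ) (P : List Bool → Prop) [DecidablePred P] :
    ν.real {X | P (pre X n)} =
      ∑ i ∈ Finset.range (2 ^ n), if P (wd n i) then ν.real (Cy (wd n i)) else 0 := by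
  have hset : {X : ℕ → Bool | P (pre X n)} =
      ⋃ i ∈ (Finset.range (2 ^ n)).filter (fun i => P (wd n i)), Cy (wd n i) := by
    ext X
    simp only [mem_setOf_eq, mem_iUnion, Finset.mem_filter, Finset.mem_range, exists_prop]
    constructor
    · intro h
      obtain ⟨i, hi, hw⟩ := z3_surj X n
      refine ⟨i, ⟨hi, by rw [hw]; exact h⟩, ?_⟩
      show pre X (wd n i).length = wd n i
      rw [z3_len, hw]
    · rintro ⟨i, ⟨hi, hP⟩, hX⟩
      have h1 : pre X (wd n i).length = wd n i := hX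
      rw [z3_len] at h1
      rw [h1]
      exact hP
  have hdisj : Set.PairwiseDisjoint
      (↑((Finset.range (2 ^ n)).filter (fun i => P (wd n i))) : Set ℕ) (fun i => Cy (wd n i)) := by
    intro i hi j hj hij
    rw [Function.onFun, Set.disjoint_left]
    intro X h1 h2
    have h3 : pre X (wd n i).length = wd n i := h1
    have h4 : pre X (wd n j).length = wd n j := h2
    rw [z3_len] at h3 h4
    have hi' := Finset.mem_filter.1 (Finset.mem_coe.1 hi)
    have hj' := Finset.mem_filter.1 (Finset.mem_coe.1 hj)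
    exact hij (z3_inj (Finset.mem_range.1 hi'.1) (Finset.mem_range.1 hj'.1) (h3.symm.trans h4))
  rw [hset, measureReal_biUnion_finset hdisj fun i _ => z3_meas _, Finset.sum_filter]

private theorem z3_bound (hr : ∀ w k, |ν.real (Cy w) - (r w k : ℝ) / 2 ^ k| ≤ 1 / 2 ^ k)
    (n k : ℕ) (P : List Bool → Prop) [DecidablePred P] :
    |(∑ i ∈ Finset.range (2 ^ n), if P (wd n i) then ν.real (Cy (wd n i)) else 0) -
      ((∑ i ∈ Finset.range (2 ^ n), if P (wd n i) then r (wd n i) k else 0 : ℕ) : ℝ) / 2 ^ k| ≤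
      2 ^ n / 2 ^ k := by
  rw [Nat.cast_sum, Finset.sum_div, ← Finset.sum_sub_distrib]
  refine (Finset.abs_sum_le_sum_abs _ _).trans ?_
  have h1 : ∀ i ∈ Finset.range (2 ^ n),
      |(if P (wd n i) then ν.real (Cy (wd n i)) else 0) -
        ((if P (wd n i) then r (wd n i) k else 0 : ℕ) : ℝ) / 2 ^ k| ≤ 1 / 2 ^ k := by
    intro i _
    by_cases hP : P (wd n i)
    · rw [if_pos hP, if_pos hP]
      exact hr _ _
    · rw [if_neg hP, if_neg hP]
      simp
  refine (Finset.sum_le_sum h1).trans ?_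
  rw [Finset.sum_const, Finset.card_range, nsmul_eq_mul]
  push_cast
  rw [mul_one_div]

private theorem z3_R1 [IsProbabilityMeasure ν]
    (hr : ∀ w k, |ν.real (Cy w) - (r w k : ℝ) / 2 ^ k| ≤ 1 / 2 ^ k) (K s L k : ℕ) :
    |ν.real (ER1 m d K s L) - (r1 r m d K s L k : ℝ) / 2 ^ k| ≤ 2 ^ (s + 1 + L) / 2 ^ k := by
  have h1 := z3_words (ν := ν) (s + 1 + L) (fun w : List Bool => w.getD s false = true ∧
    ps m d K (w.take s) (w.drop (s + 1)) = false)
  have h2 : {X : ℕ → Bool | (pre X (s + 1 + L)).getD s false = true ∧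
      ps m d K ((pre X (s + 1 + L)).take s) ((pre X (s + 1 + L)).drop (s + 1)) = false} = ER1 m d K s L := by
    ext X
    simp only [ER1, mem_setOf_eq]
    rw [z3_getD X (by omega), z3_take X (by omega), z3_drop X (s + 1) L]
  rw [h2] at h1
  rw [h1]
  exact z3_bound hr (s + 1 + L) k (fun w : List Bool => w.getD s false = true ∧
    ps m d K (w.take s) (w.drop (s + 1)) = false)

private theorem z3_R2 [IsProbabilityMeasure ν]
    (hr : ∀ w k, |ν.real (Cy w) - (r w k : ℝ) / 2 ^ k| ≤ 1 / 2 ^ k) (K s L t k : ℕ) (ht : s + 1 ≤ t) :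
    |ν.real (ER2 m d K s L t) - (r2 r m d K s L t k : ℝ) / 2 ^ k| ≤ 2 ^ (t + L) / 2 ^ k := by
  have h1 := z3_words (ν := ν) (t + L) (fun w : List Bool => w.getD s false = false ∧
    ps m d K (w.take s) (w.drop t) = true)
  have h2 : {X : ℕ → Bool | (pre X (t + L)).getD s false = false ∧
      ps m d K ((pre X (t + L)).take s) ((pre X (t + L)).drop t) = true} = ER2 m d K s L t := by
    ext X
    simp only [ER2, mem_setOf_eq]
    rw [z3_getD X (by omega), z3_take X (by omega), z3_drop X t L]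
  rw [h2] at h1
  rw [h1]
  exact z3_bound hr (t + L) k (fun w : List Bool => w.getD s false = false ∧
    ps m d K (w.take s) (w.drop t) = true)

private theorem z3_half (n : ℕ) : ENNReal.ofReal ((1 / 2 : ℝ) ^ n) = (2⁻¹ : ENNReal) ^ n := by
  rw [ENNReal.ofReal_pow (by norm_num), one_div, ENNReal.ofReal_inv_of_pos (by norm_num)]
  simp

private theorem z3_le [IsProbabilityMeasure ν] {E : Set (ℕ → Bool)} {n : ℕ}
    (h : ν.real E ≤ (1 / 2 : ℝ) ^ n) : ν E ≤ (2⁻¹ : ENNReal) ^ n := by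
  rw [← z3_half, ← ofReal_measureReal]
  exact ENNReal.ofReal_le_ofReal h

private theorem z3_lt [IsProbabilityMeasure ν] {E : Set (ℕ → Bool)} {n : ℕ}
    (h : ν E < (2⁻¹ : ENNReal) ^ n) : ν.real E < (1 / 2 : ℝ) ^ n := by
  rw [← z3_half, ← ofReal_measureReal] at h
  exact (ENNReal.ofReal_lt_ofReal_iff (by positivity)).1 h

private theorem z3_step {S : ℝ} {R N n k : ℕ} (h1 : |S - (R : ℝ) / 2 ^ k| ≤ 2 ^ N / 2 ^ k)
    (h2 : (R + 2 ^ N) * 2 ^ n ≤ 2 ^ k) : S ≤ (1 / 2 : ℝ) ^ n := by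
  have h3 := (abs_le.1 h1).2
  have hk : (0 : ℝ) < 2 ^ k := by positivity
  have hn : (0 : ℝ) < 2 ^ n := by positivity
  have h4 : S ≤ ((R : ℝ) + 2 ^ N) / 2 ^ k := by
    rw [add_div]
    linarith
  refine h4.trans ?_
  rw [one_div, inv_pow, ← one_div, div_le_div_iff₀ hk hn, one_mul]
  exact_mod_cast h2

private theorem z3_back {S : ℝ} {R N n k : ℕ} (h1 : |S - (R : ℝ) / 2 ^ k| ≤ 2 ^ N / 2 ^ k)
    (h2 : S + 2 ^ (N + 1) / 2 ^ k ≤ (1 / 2 : ℝ) ^ n) : (R + 2 ^ N) * 2 ^ n ≤ 2 ^ k := by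
  have h3 := (abs_le.1 h1).1
  have hk : (0 : ℝ) < 2 ^ k := by positivity
  have hn : (0 : ℝ) < 2 ^ n := by positivity
  have h4 : ((R : ℝ) + 2 ^ N) / 2 ^ k ≤ 1 / 2 ^ n := by
    have h5 : (1 / 2 : ℝ) ^ n = 1 / 2 ^ n := by rw [one_div, inv_pow, ← one_div]
    rw [h5] at h2
    have h6 : (2 : ℝ) ^ (N + 1) / 2 ^ k = 2 ^ N / 2 ^ k + 2 ^ N / 2 ^ k := by
      rw [pow_succ]
      ring
    rw [h6] at h2
    rw [add_div]
    linarith
  rw [div_le_div_iff₀ hk hn, one_mul] at h4
  exact_mod_cast h4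

/-- Z3a. `ν (ER1 ..)` is the sum of `ν (Cy z)` over the words `z` of length `s + 1 + L` in the condition (compare
`measure_words` in W5), each term is at most `r z k/2^k + 1/2^k`. -/
theorem okR_sound [IsProbabilityMeasure ν]
    (hr : ∀ w k, |ν.real (Cy w) - (r w k : ℝ) / 2 ^ k| ≤ 1 / 2 ^ k) {n s L t k : ℕ}
    (h : okR r m d n s L t k = true) : s + 1 + L ≤ t ∧
      ν (ER1 m d (n + 1) s L) ≤ (2⁻¹ : ENNReal) ^ n ∧
      ν (ER2 m d (n + 1) s L t) ≤ (2⁻¹ : ENNReal) ^ n := by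
  unfold okR at h
  rw [Bool.and_eq_true, Bool.and_eq_true, decide_eq_true_eq, decide_eq_true_eq, decide_eq_true_eq] at h
  obtain ⟨h1, h2, h3⟩ := h
  exact ⟨h1, z3_le (z3_step (z3_R1 hr (n + 1) s L k) h2),
    z3_le (z3_step (z3_R2 hr (n + 1) s L t k (by omega)) h3)⟩

private theorem z3_k {δ : ℝ} (hδ : 0 < δ) (N : ℕ) :
    ∃ k0 : ℕ, ∀ k, k0 ≤ k → (2 : ℝ) ^ (N + 1) / 2 ^ k ≤ δ := by
  have hN : (0 : ℝ) < 2 ^ (N + 1) := by positivity
  obtain ⟨k0, hk0⟩ := exists_pow_lt_of_lt_one (div_pos hδ hN) (by norm_num : (1 / 2 : ℝ) < 1)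
  refine ⟨k0, fun k hk => ?_⟩
  have h1 : (1 / 2 : ℝ) ^ k ≤ (1 / 2 : ℝ) ^ k0 :=
    pow_le_pow_of_le_one (by norm_num) (by norm_num) hk
  have h2 : (1 / 2 : ℝ) ^ k < δ / 2 ^ (N + 1) := lt_of_le_of_lt h1 hk0
  rw [lt_div_iff₀ hN] at h2
  have h3 : (2 : ℝ) ^ (N + 1) / 2 ^ k = (1 / 2 : ℝ) ^ k * 2 ^ (N + 1) := by
    rw [one_div, inv_pow, div_eq_inv_mul]
  rw [h3]
  exact h2.le

/-- Z3b. For large `k`: the numerator is at most `2^k ν (ER1 ..) + 2^(s+1+L)`. -/
theorem okR_exists [IsProbabilityMeasure ν]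
    (hr : ∀ w k, |ν.real (Cy w) - (r w k : ℝ) / 2 ^ k| ≤ 1 / 2 ^ k) {n s L t : ℕ}
    (ht : s + 1 + L ≤ t) (h1 : ν (ER1 m d (n + 1) s L) < (2⁻¹ : ENNReal) ^ n)
    (h2 : ν (ER2 m d (n + 1) s L t) < (2⁻¹ : ENNReal) ^ n) : ∃ k, okR r m d n s L t k = true := by
  have h3 := z3_lt h1
  have h4 := z3_lt h2
  obtain ⟨k1, hk1⟩ := z3_k (sub_pos.2 h3) (s + 1 + L)
  obtain ⟨k2, hk2⟩ := z3_k (sub_pos.2 h4) (t + L)
  refine ⟨max k1 k2, ?_⟩
  unfold okR
  rw [Bool.and_eq_true, Bool.and_eq_true, decide_eq_true_eq, decide_eq_true_eq, decide_eq_true_eq]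
  refine ⟨ht, ?_, ?_⟩
  · refine z3_back (z3_R1 hr (n + 1) s L (max k1 k2)) ?_
    have := hk1 (max k1 k2) (le_max_left _ _)
    linarith
  · refine z3_back (z3_R2 hr (n + 1) s L t (max k1 k2) (by omega)) ?_
    have := hk2 (max k1 k2) (le_max_right _ _)
    linarith

end H48K
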