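import Pool.Agent.Lib.H48K.Defs8
import Pool.Agent.Lib.H48K.W6
import Pool.Agent.Lib.H48K.W7

/-!
# H48K, chunk Z4: a computable plan for the approximate condition
-/

open MeasureTheory Set Filter H69K

namespace H48K

variable {r : List Bool → ℕ → ℕ} {m : List Bool → ℕ} {d : ℕ → ℕ}

private theorem z4_search {α : Type*} [Primcodable α] {c : α → ℕ → Bool} (hc : Computable₂ c)
    (h : ∀ x, ∃ n, c x n = true) : ∃ g : α → ℕ, Computable g ∧ ∀ x, c x (g x) = true := by
  refine ⟨fun x => Nat.find (h x), ?_, fun x => Nat.find_spec (h x)⟩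
  have h1 : Partrec fun x : α => Nat.rfind fun n => Part.some (c x n) := Partrec.rfind hc.partrec₂
  refine h1.of_eq_tot fun x => Nat.mem_rfind.2 ⟨?_, fun {m} hm => ?_⟩
  · rw [Nat.find_spec (h x)]
    exact Part.mem_some _
  · have h2 := Nat.find_min (h x) hm
    rw [Bool.not_eq_true] at h2
    rw [h2]
    exact Part.mem_some _

private theorem z4_code : ∃ u : ℕ → ℕ × ℕ × ℕ, Computable u ∧ ∀ L t k, ∃ q, u q = (L, t, k) := by
  refine ⟨fun q => (q.unpair.1, q.unpair.2.unpair.1, q.unpair.2.unpair.2), ?_, fun L t k => ?_⟩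
  · have x0 : Computable fun z : ℕ => z.unpair := Computable.unpair
    have x3 : Computable fun z : ℕ => z.unpair.1 := Computable.fst.comp x0
    have x4 : Computable fun z : ℕ => z.unpair.2 := Computable.snd.comp x0
    have x5 : Computable fun z : ℕ => z.unpair.2.unpair := Computable.unpair.comp x4
    exact x3.pair ((Computable.fst.comp x5).pair (Computable.snd.comp x5))
  · refine ⟨Nat.pair L (Nat.pair t k), ?_⟩
    simp only [Nat.unpair_pair]

private theorem z4_gen (ok : ℕ → ℕ → ℕ → ℕ → ℕ → Bool)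
    (hok : Computable fun x : ℕ × ℕ × ℕ × ℕ × ℕ => ok x.1 x.2.1 x.2.2.1 x.2.2.2.1 x.2.2.2.2)
    (hex : ∀ n s, ∃ L t k, ok n s L t k = true) :
    ∃ s t L : ℕ → ℕ, Computable s ∧ Computable t ∧ Computable L ∧ s 0 = 0 ∧
      (∀ n, s (n + 1) = t n + L n) ∧ ∀ n, ∃ k, ok n (s n) (L n) (t n) k = true := by
  obtain ⟨u, hu, hus⟩ := z4_code
  have c1 : Computable₂ fun (p : ℕ × ℕ) (q : ℕ) => ok p.1 p.2 (u q).1 (u q).2.1 (u q).2.2 := by
    have x1 : Computable fun z : (ℕ × ℕ) × ℕ => z.1.1 := Computable.fst.comp Computable.fst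
    have x2 : Computable fun z : (ℕ × ℕ) × ℕ => z.1.2 := Computable.snd.comp Computable.fst
    have x3 : Computable fun z : (ℕ × ℕ) × ℕ => u z.2 := hu.comp Computable.snd
    have x9 : Computable fun z : (ℕ × ℕ) × ℕ => ((z.1.1, z.1.2, u z.2) : ℕ × ℕ × ℕ × ℕ × ℕ) :=
      x1.pair (x2.pair x3)
    have x10 := hok.comp x9
    exact x10
  obtain ⟨g, hg, hg'⟩ := z4_search c1 (by
    rintro ⟨n, s⟩
    obtain ⟨L, t, k, h⟩ := hex n s
    obtain ⟨q, hq⟩ := hus L t k
    refine ⟨q, ?_⟩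
    rw [hq]
    exact h)
  have hug : Computable fun z : ℕ × ℕ => u (g z) := hu.comp hg
  have hL : Computable fun z : ℕ × ℕ => (u (g z)).1 := Computable.fst.comp hug
  have ht : Computable fun z : ℕ × ℕ => (u (g z)).2.1 := Computable.fst.comp (Computable.snd.comp hug)
  have hF : Computable fun z : ℕ × ℕ => (u (g z)).2.1 + (u (g z)).1 :=
    Primrec.nat_add.to_comp.comp ht hL
  let s : ℕ → ℕ := fun n => Nat.rec (motive := fun _ => ℕ) 0
    (fun y IH => (u (g (y, IH))).2.1 + (u (g (y, IH))).1) n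
  have hs : Computable s := by
    refine Computable.nat_rec (h := fun _ q => (u (g (q.1, q.2))).2.1 + (u (g (q.1, q.2))).1)
      Computable.id (Computable.const 0) ?_
    exact hF.comp Computable.snd
  have hp : Computable fun n => ((n, s n) : ℕ × ℕ) := Computable.id.pair hs
  exact ⟨s, fun n => (u (g (n, s n))).2.1, fun n => (u (g (n, s n))).1, hs,
    ht.comp hp, hL.comp hp, rfl, fun n => rfl, fun n => ⟨(u (g (n, s n))).2.2, hg' (n, s n)⟩⟩

private theorem z4_wsum {α : Type*} [Primcodable α] {f : α → List Bool → ℕ} (hf : Computable₂ f)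
    {l : α → ℕ} {c : α → List Bool → Bool} (hl : Computable l) (hc : Computable₂ c) :
    Computable fun x => ∑ i ∈ Finset.range (2 ^ l x),
      if c x (wd (l x) i) = true then f x (wd (l x) i) else 0 := by
  have hw : Computable (fun q : α × ℕ => wd (l q.1) q.2) :=
    computable_wd.comp (hl.comp Computable.fst) Computable.snd
  have h1 : Computable (fun q : α × ℕ => c q.1 (wd (l q.1) q.2)) := hc.comp Computable.fst hw
  have h0 : Computable (fun q : α × ℕ => f q.1 (wd (l q.1) q.2)) := hf.comp Computable.fst hw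
  have h2 : Computable (fun q : α × ℕ =>
      bif c q.1 (wd (l q.1) q.2) then f q.1 (wd (l q.1) q.2) else 0) :=
    Computable.cond h1 h0 (Computable.const 0)
  have h3 : Computable (fun q : α × ℕ =>
      if c q.1 (wd (l q.1) q.2) = true then f q.1 (wd (l q.1) q.2) else 0) := by
    refine h2.of_eq fun q => ?_
    cases c q.1 (wd (l q.1) q.2) <;> simp
  exact computable_sum h3.to₂ (primrec_two_pow.to_comp.comp hl)

private theorem z4_proj : Computable fun z : (ℕ × ℕ × ℕ × ℕ × ℕ) × List Bool =>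
    (((z.1.1, z.1.2.1, z.1.2.2.1, z.1.2.2.2.1), z.2) : (ℕ × ℕ × ℕ × ℕ) × List Bool) := by
  have x0 : Computable fun z : (ℕ × ℕ × ℕ × ℕ × ℕ) × List Bool => z.1 := Computable.fst
  have x1 := Computable.fst.comp x0
  have y1 := Computable.snd.comp x0
  have x2 := Computable.fst.comp y1
  have y2 := Computable.snd.comp y1
  have x3 := Computable.fst.comp y2
  have y3 := Computable.snd.comp y2
  have x4 := Computable.fst.comp y3
  exact (x1.pair (x2.pair (x3.pair x4))).pair Computable.snd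

private theorem z4_f (hr : Computable₂ r) : Computable₂ fun (x : ℕ × ℕ × ℕ × ℕ × ℕ)
    (w : List Bool) => r w x.2.2.2.2 := by
  have y4 : Computable fun z : (ℕ × ℕ × ℕ × ℕ × ℕ) × List Bool => z.1.2.2.2.2 :=
    Computable.snd.comp (Computable.snd.comp (Computable.snd.comp
      (Computable.snd.comp Computable.fst)))
  exact hr.comp Computable.snd y4

private theorem z4_r1 (hr : Computable₂ r) (hm : Computable m) (hd : Computable d) :
    Computable fun x : ℕ × ℕ × ℕ × ℕ × ℕ => r1 r m d (x.1 + 1) x.2.1 x.2.2.1 x.2.2.2.2 := by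
  have xs : Computable (fun x : ℕ × ℕ × ℕ × ℕ × ℕ => x.2.1) := Computable.fst.comp Computable.snd
  have xL : Computable (fun x : ℕ × ℕ × ℕ × ℕ × ℕ => x.2.2.1) :=
    Computable.fst.comp (Computable.snd.comp Computable.snd)
  have l1 : Computable (fun x : ℕ × ℕ × ℕ × ℕ × ℕ => x.2.1 + 1 + x.2.2.1) :=
    Primrec.nat_add.to_comp.comp (Computable.succ.comp xs) xL
  have hc : Computable₂ fun (x : ℕ × ℕ × ℕ × ℕ × ℕ) (w : List Bool) =>
      (w.getD x.2.1 false && !(ps m d (x.1 + 1) (w.take x.2.1) (w.drop (x.2.1 + 1)))) := by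
    refine ((computable_c1 hm hd).comp z4_proj).of_eq ?_
    rintro ⟨⟨n, s, L, t, k⟩, w⟩
    rfl
  refine (z4_wsum (z4_f hr) l1 hc).of_eq fun x => ?_
  unfold r1
  refine Finset.sum_congr rfl fun i _ => ?_
  refine if_congr ?_ rfl rfl
  simp only [Bool.and_eq_true, Bool.not_eq_true']

private theorem z4_r2 (hr : Computable₂ r) (hm : Computable m) (hd : Computable d) :
    Computable fun x : ℕ × ℕ × ℕ × ℕ × ℕ =>
      r2 r m d (x.1 + 1) x.2.1 x.2.2.1 x.2.2.2.1 x.2.2.2.2 := by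
  have xL : Computable (fun x : ℕ × ℕ × ℕ × ℕ × ℕ => x.2.2.1) :=
    Computable.fst.comp (Computable.snd.comp Computable.snd)
  have xt : Computable (fun x : ℕ × ℕ × ℕ × ℕ × ℕ => x.2.2.2.1) :=
    Computable.fst.comp (Computable.snd.comp (Computable.snd.comp Computable.snd))
  have l2 : Computable (fun x : ℕ × ℕ × ℕ × ℕ × ℕ => x.2.2.2.1 + x.2.2.1) :=
    Primrec.nat_add.to_comp.comp xt xL
  have hc : Computable₂ fun (x : ℕ × ℕ × ℕ × ℕ × ℕ) (w : List Bool) =>
      (!(w.getD x.2.1 false) && ps m d (x.1 + 1) (w.take x.2.1) (w.drop x.2.2.2.1)) := by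
    refine ((computable_c2 hm hd).comp z4_proj).of_eq ?_
    rintro ⟨⟨n, s, L, t, k⟩, w⟩
    rfl
  refine (z4_wsum (z4_f hr) l2 hc).of_eq fun x => ?_
  unfold r2
  refine Finset.sum_congr rfl fun i _ => ?_
  refine if_congr ?_ rfl rfl
  simp only [Bool.and_eq_true, Bool.not_eq_true']

private theorem z4_okR (hr : Computable₂ r) (hm : Computable m) (hd : Computable d) :
    Computable fun x : ℕ × ℕ × ℕ × ℕ × ℕ =>
      okR r m d x.1 x.2.1 x.2.2.1 x.2.2.2.1 x.2.2.2.2 := by
  have xn : Computable (fun x : ℕ × ℕ × ℕ × ℕ × ℕ => x.1) := Computable.fst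
  have xs : Computable (fun x : ℕ × ℕ × ℕ × ℕ × ℕ => x.2.1) := Computable.fst.comp Computable.snd
  have xL : Computable (fun x : ℕ × ℕ × ℕ × ℕ × ℕ => x.2.2.1) :=
    Computable.fst.comp (Computable.snd.comp Computable.snd)
  have xt : Computable (fun x : ℕ × ℕ × ℕ × ℕ × ℕ => x.2.2.2.1) :=
    Computable.fst.comp (Computable.snd.comp (Computable.snd.comp Computable.snd))
  have xk : Computable (fun x : ℕ × ℕ × ℕ × ℕ × ℕ => x.2.2.2.2) :=
    Computable.snd.comp (Computable.snd.comp (Computable.snd.comp Computable.snd))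
  have l1 : Computable (fun x : ℕ × ℕ × ℕ × ℕ × ℕ => x.2.1 + 1 + x.2.2.1) :=
    Primrec.nat_add.to_comp.comp (Computable.succ.comp xs) xL
  have l2 : Computable (fun x : ℕ × ℕ × ℕ × ℕ × ℕ => x.2.2.2.1 + x.2.2.1) :=
    Primrec.nat_add.to_comp.comp xt xL
  have pw : Computable (fun x : ℕ × ℕ × ℕ × ℕ × ℕ => 2 ^ x.1) := primrec_two_pow.to_comp.comp xn
  have pk : Computable (fun x : ℕ × ℕ × ℕ × ℕ × ℕ => 2 ^ x.2.2.2.2) :=
    primrec_two_pow.to_comp.comp xk
  have p1 : Computable (fun x : ℕ × ℕ × ℕ × ℕ × ℕ => 2 ^ (x.2.1 + 1 + x.2.2.1)) :=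
    primrec_two_pow.to_comp.comp l1
  have p2 : Computable (fun x : ℕ × ℕ × ℕ × ℕ × ℕ => 2 ^ (x.2.2.2.1 + x.2.2.1)) :=
    primrec_two_pow.to_comp.comp l2
  have q1 := Primrec.nat_mul.to_comp.comp (Primrec.nat_add.to_comp.comp (z4_r1 hr hm hd) p1) pw
  have q2 := Primrec.nat_mul.to_comp.comp (Primrec.nat_add.to_comp.comp (z4_r2 hr hm hd) p2) pw
  have e0 := Primrec.nat_le.decide.to_comp.comp l1 xt
  have e1 := Primrec.nat_le.decide.to_comp.comp q1 pk
  have e2 := Primrec.nat_le.decide.to_comp.comp q2 pk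
  have e3 := Primrec.and.to_comp.comp e0 (Primrec.and.to_comp.comp e1 e2)
  refine e3.of_eq fun x => ?_
  rfl

/-- Z4. As `computable_okP` (W6) and `exists_plan2` (W7), `exists_plan3` (X4): computable search for `(L, t, k)`. -/
theorem exists_plan4 (hr : Computable₂ r) (hm : Computable m) (hd : Computable d)
    (hex : ∀ n s, ∃ L t k, okR r m d n s L t k = true) :
    ∃ s t L : ℕ → ℕ, Computable s ∧ Computable t ∧ Computable L ∧ Plan0 s t L ∧
      ∀ n, ∃ k, okR r m d n (s n) (L n) (t n) k = true := by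
  obtain ⟨s, t, L, h1, h2, h3, h4, h5, h6⟩ := z4_gen (okR r m d) (z4_okR hr hm hd) hex
  refine ⟨s, t, L, h1, h2, h3, ⟨h4, h5, fun n => ?_⟩, h6⟩
  obtain ⟨k, h7⟩ := h6 n
  unfold okR at h7
  rw [Bool.and_eq_true, decide_eq_true_eq] at h7
  exact h7.1

end H48K
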