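import Pool.Agent.Lib.H48K.Z5

/-!
# H48K, chunk Z6: the decisions along random sequences
-/

open MeasureTheory Set Filter H69K

namespace H48K

variable {ν : Measure (ℕ → Bool)} {m : List Bool → ℕ} {d s t L : ℕ → ℕ}

private theorem z6_getD (X : ℕ → Bool) {n j : ℕ} (h : j < n) : (pre X n).getD j false = X j := by
  unfold pre
  rw [List.getD_eq_getElem _ _ (by rw [List.length_ofFn]; exact h), List.getElem_ofFn]

private theorem z6_cy {X : ℕ → Bool} {w : List Bool} (hX : X ∈ Cy w) {j : ℕ} (h : j < w.length) :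
    w.getD j false = X j := by
  have h1 : pre X w.length = w := hX
  have h2 := z6_getD X h
  rw [h1] at h2
  exact h2

private theorem z6_pre {X : ℕ → Bool} {w : List Bool} {n : ℕ}
    (h : ∀ j < n, w.getD j false = X j) :
    ((List.range n).map fun i => w.getD i false) = pre X n := by
  unfold pre
  apply List.ext_getElem
  · rw [List.length_map, List.length_range, List.length_ofFn]
  · intro i h1 h2
    rw [List.getElem_map, List.getElem_range, List.getElem_ofFn]
    rw [List.length_map, List.length_range] at h1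
    exact h i h1

private theorem z6_seg {X : ℕ → Bool} {w : List Bool} {a n : ℕ}
    (h : ∀ j < n, w.getD (a + j) false = X (a + j)) :
    ((List.range n).map fun i => w.getD (a + i) false) = seg X a n := by
  unfold seg
  apply List.ext_getElem
  · rw [List.length_map, List.length_range, List.length_ofFn]
  · intro i h1 h2
    rw [List.getElem_map, List.getElem_range, List.getElem_ofFn]
    rw [List.length_map, List.length_range] at h1
    exact h i h1

/-- Z6a. For a plan (`Plan0`) `Op (WE k)` is in the union of the events `ER1 (n+1) (s n) (L n)`, `ER2 (n+1) (s n) (L n) (t n)`,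
`n ≥ k + 2` (for `w = pre X |w|` the bits at the places `< |w|` are those of `X`), so its measure is at most
`∑ (n ≥ k+2) 2 2^(-n) = 2^(-k)`. -/
theorem measure_WE [IsProbabilityMeasure ν] (hP : Plan0 s t L)
    (h : ∀ n, ν (ER1 m d (n + 1) (s n) (L n)) ≤ (2⁻¹ : ENNReal) ^ n ∧
      ν (ER2 m d (n + 1) (s n) (L n) (t n)) ≤ (2⁻¹ : ENNReal) ^ n) (k : ℕ) :
    ν (Op (WE m d s t L k)) ≤ (2⁻¹ : ENNReal) ^ k := by
  have hsub : Op (WE m d s t L k) ⊆ ⋃ j : ℕ,
      (ER1 m d (k + 2 + j + 1) (s (k + 2 + j)) (L (k + 2 + j)) ∪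
        ER2 m d (k + 2 + j + 1) (s (k + 2 + j)) (L (k + 2 + j)) (t (k + 2 + j))) := by
    intro X hX
    unfold Op at hX
    rw [Set.mem_iUnion₂] at hX
    obtain ⟨w, hw, hXw⟩ := hX
    obtain ⟨n, hn, hlen, hdec⟩ := hw
    rw [Set.mem_iUnion]
    refine ⟨n - (k + 2), ?_⟩
    have hn2 : k + 2 + (n - (k + 2)) = n := by omega
    rw [hn2]
    have hg := hP.gap n
    have hpre : ((List.range (s n)).map fun i => w.getD i false) = pre X (s n) :=
      z6_pre fun j hj => z6_cy hXw (by omega)
    have hs1 : ((List.range (L n)).map fun i => w.getD (s n + 1 + i) false) = seg X (s n + 1) (L n) :=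
      z6_seg fun j hj => z6_cy hXw (by omega)
    have hs2 : ((List.range (L n)).map fun i => w.getD (t n + i) false) = seg X (t n) (L n) :=
      z6_seg fun j hj => z6_cy hXw (by omega)
    have hh : w.getD (s n) false = X (s n) := z6_cy hXw (by omega)
    rw [hpre, hs1, hs2, hh] at hdec
    rcases hdec with h1 | h1
    · exact Or.inl h1
    · exact Or.inr h1
  refine (measure_mono hsub).trans ((measure_iUnion_le _).trans ?_)
  have h1 : ∀ j : ℕ, ν (ER1 m d (k + 2 + j + 1) (s (k + 2 + j)) (L (k + 2 + j)) ∪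
        ER2 m d (k + 2 + j + 1) (s (k + 2 + j)) (L (k + 2 + j)) (t (k + 2 + j))) ≤
      2 * (2⁻¹ : ENNReal) ^ (k + 2) * (2⁻¹ : ENNReal) ^ j := by
    intro j
    refine (measure_union_le _ _).trans ?_
    refine (add_le_add (h (k + 2 + j)).1 (h (k + 2 + j)).2).trans (le_of_eq ?_)
    rw [← two_mul, mul_assoc, ← pow_add]
  refine (ENNReal.tsum_le_tsum h1).trans ?_
  rw [ENNReal.tsum_mul_left, ENNReal.tsum_geometric, ENNReal.one_sub_inv_two, inv_inv]
  have h3 : (2 : ENNReal) * 2⁻¹ = 1 := ENNReal.mul_inv_cancel (by norm_num) (by norm_num)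
  refine le_of_eq ?_
  calc (2 : ENNReal) * (2⁻¹ : ENNReal) ^ (k + 2) * 2
      = (2 * 2⁻¹) * (2 * 2⁻¹) * (2⁻¹ : ENNReal) ^ k := by ring
    _ = (2⁻¹ : ENNReal) ^ k := by rw [h3, one_mul, one_mul]

/-- Z6b. For a random `X` there is a `k` with `X ∉ Op (WE k)`; then for `n ≥ k + 2` the decision is right (compare
`random_dec` in TI). -/
theorem random_dec3 [IsProbabilityMeasure ν] (hm : Computable m) (hd : Computable d)
    (hs : Computable s) (ht : Computable t) (hL : Computable L) (hP : Plan0 s t L)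
    (h : ∀ n, ν (ER1 m d (n + 1) (s n) (L n)) ≤ (2⁻¹ : ENNReal) ^ n ∧
      ν (ER2 m d (n + 1) (s n) (L n) (t n)) ≤ (2⁻¹ : ENNReal) ^ n)
    (X : ℕ → Bool) (hX : Random ν X) : ∀ᶠ n in atTop, D3 m d s t L X n = X (s n) := by
  obtain ⟨k, hk⟩ := hX (WE m d s t L)
    ⟨re_WE hm hd hs ht hL, fun k => measure_WE hP h k⟩
  rw [eventually_atTop]
  refine ⟨k + 2, fun n hn => ?_⟩
  have hg := hP.gap n
  have hlen : (pre X (t n + L n)).length = t n + L n := by
    unfold pre
    rw [List.length_ofFn]
  have hmem : X ∈ Cy (pre X (t n + L n)) := by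
    show pre X (pre X (t n + L n)).length = pre X (t n + L n)
    rw [hlen]
  have hnot : pre X (t n + L n) ∉ WE m d s t L k := by
    intro h
    apply hk
    unfold Op
    rw [Set.mem_iUnion₂]
    exact ⟨_, h, hmem⟩
  have hpre : ((List.range (s n)).map fun i => (pre X (t n + L n)).getD i false) = pre X (s n) :=
    z6_pre fun j hj => z6_getD X (by omega)
  have hs1 : ((List.range (L n)).map fun i => (pre X (t n + L n)).getD (s n + 1 + i) false) =
      seg X (s n + 1) (L n) := z6_seg fun j hj => z6_getD X (by omega)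
  have hs2 : ((List.range (L n)).map fun i => (pre X (t n + L n)).getD (t n + i) false) =
      seg X (t n) (L n) := z6_seg fun j hj => z6_getD X (by omega)
  have hh : (pre X (t n + L n)).getD (s n) false = X (s n) := z6_getD X (by omega)
  unfold D3
  cases hx : X (s n) with
  | true =>
    rw [if_pos rfl]
    by_contra hcon
    rw [Bool.not_eq_true] at hcon
    refine hnot ⟨n, hn, hlen.ge, Or.inl ⟨hh.trans hx, ?_⟩⟩
    rw [hpre, hs1]
    exact hcon
  | false =>
    rw [if_neg Bool.false_ne_true]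
    by_contra hcon
    rw [Bool.not_eq_false] at hcon
    refine hnot ⟨n, hn, hlen.ge, Or.inr ⟨hh.trans hx, ?_⟩⟩
    rw [hpre, hs2]
    exact hcon

end H48K
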