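import Pool.Agent.Lib.H48K.F7
import Pool.Agent.Lib.H48K.Z1
import Pool.Agent.Lib.H48K.Z2
import Pool.Agent.Lib.H48K.Z3
import Pool.Agent.Lib.H48K.Z4
import Pool.Agent.Lib.H48K.Z6

/-!
# H48K, chunk F8: singular computable measures, real values
-/

open MeasureTheory Set Filter H69K

namespace H48K

variable {ν : Measure (ℕ → Bool)}

theorem Sr_mono (ν ν' : Measure (ℕ → Bool)) (h : ∀ w : List Bool, ν (Cy w) ≤ 4 * ν' (Cy w)) :
    Sr ν ⊆ Sr ν' := by
  intro X hX C
  filter_upwards [hX (4 * C)] with n hn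
  have h1 := hn.trans_le (h (pre X n))
  have h2 : ((4 * C : ℕ) : ENNReal) * (2⁻¹ : ENNReal) ^ n = 4 * ((C : ENNReal) * (2⁻¹ : ENNReal) ^ n) := by
    push_cast
    ring
  rw [h2] at h1
  exact lt_of_mul_lt_mul_left' h1

theorem singular_real [IsProbabilityMeasure ν] (hν : CompReal ν) (hs : ν ⟂ₘ mu fair)
    (hKL : ∀ᵐ X ∂ν, KLStochastic X) :
    ∃ f g : List Bool → ℕ × Bool, Computable f ∧ Computable g ∧
      ∀ X, Random ν X → KLStochastic X →
        ∃ B C : ℕ → Bool, Sel (fun v => Part.some (f v)) X B ∧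
          Sel (fun v => Part.some (g v)) B C ∧ ∀ᶠ j in atTop, C j = true := by
  obtain ⟨ν', m, d, hp, hc, -, hw⟩ := exists_dom ν hν
  obtain ⟨r, hrc, hr⟩ := hν
  have hS : ν (Sr ν')ᶜ = 0 := by
    have h1 : ∀ᵐ X ∂ν, X ∈ Sr ν' := by
      filter_upwards [ae_ratio ν hs] with X hX
      exact Sr_mono ν ν' hw hX
    exact h1
  have hG : ν GGᶜ = 0 := by
    have h1 : ∀ᵐ X ∂ν, X ∈ GG := by
      filter_upwards [hKL] with X hX
      exact mem_GG X hX.toT
    exact h1
  have hlt : ∀ n : ℕ, ∃ δ : ENNReal, (2⁻¹ : ENNReal) ^ (n + 1) < δ ∧ δ < (2⁻¹ : ENNReal) ^ n := by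
    intro n
    apply exists_between
    rw [← ENNReal.inv_pow, ← ENNReal.inv_pow, ENNReal.inv_lt_inv]
    have h1 : (2 : ℕ) ^ n < 2 ^ (n + 1) := Nat.pow_lt_pow_right (by norm_num) (Nat.lt_succ_self n)
    exact_mod_cast h1
  have hex : ∀ n s, ∃ L t k, okR r m d n s L t k = true := by
    intro n s
    obtain ⟨δ, h1, h2⟩ := hlt n
    have hpos : (0 : ENNReal) < δ := lt_of_le_of_lt bot_le h1
    obtain ⟨L, hL⟩ := exists_L2 (ν := ν) hc δ (by rw [hS]; exact hpos) (n + 1) s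
    obtain ⟨t, ht, ht2⟩ := exists_t2 (ν := ν) hc δ n (by rw [hG, zero_add]; exact h1) s L (s + 1 + L)
    obtain ⟨k, hk⟩ := okR_exists hr ht (hL.trans_lt h2) (ht2.trans_lt h2)
    exact ⟨L, t, k, hk⟩
  obtain ⟨s, t, L, hsc, htc, hLc, hP, hok⟩ := exists_plan4 hrc hc.cm hc.cd hex
  have herr : ∀ n, ν (ER1 m d (n + 1) (s n) (L n)) ≤ (2⁻¹ : ENNReal) ^ n ∧
      ν (ER2 m d (n + 1) (s n) (L n) (t n)) ≤ (2⁻¹ : ENNReal) ^ n := by
    intro n
    obtain ⟨k, hk⟩ := hok n
    exact (okR_sound hr hk).2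
  have hmono : StrictMono s := by
    apply strictMono_nat_of_lt_succ
    intro n
    have h3 := hP.gap n
    have h4 := hP.succ n
    omega
  refine ⟨f3 s t L, g3 m d s t L, computable_f3 hsc htc hLc,
    computable_g3 hc.cm hc.cd hsc htc hLc, ?_⟩
  intro X hX1 hX3
  have hev : ∀ᶠ n in atTop, D3 m d s t L X n = X (s n) :=
    random_dec3 hc.cm hc.cd hsc htc hLc hP herr X hX1
  have hX4 := infinite_headers hsc hmono.injective X hX3
  obtain ⟨N, hN⟩ := eventually_atTop.1 hev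
  have hinf : Set.Infinite {n | D3 m d s t L X n = true} := by
    intro hfin
    apply hX4
    refine (hfin.union (Set.finite_lt_nat N)).subset ?_
    intro n hn
    by_cases h : n < N
    · exact Or.inr h
    · left
      have h1 := hN n (not_lt.1 h)
      show D3 m d s t L X n = true
      rw [h1]
      exact hn
  refine ⟨B3 s t L X, _, sel_f3' hP X, sel_g3' hP X hinf, ?_⟩
  filter_upwards [eventually_ge_atTop N] with j hj
  have h3 := Nat.nth_mem_of_infinite hinf j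
  have h4 : N ≤ Nat.nth (fun n => D3 m d s t L X n = true) j :=
    hj.trans ((Nat.nth_strictMono hinf).id_le j)
  rw [← hN _ h4]
  exact h3

end H48K
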