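import Pool.Agent.Lib.H48K.Defs3
import Pool.Agent.Lib.H48K.K

/-!
# H48K, chunk Q1: product measures with computable real biases are dominated by rational ones
-/

open MeasureTheory Set Filter H69K

namespace H48K

private theorem Q1_Cy_E (v : List Bool) : Cy v = E v.length {fun i : Fin v.length => v.get i} := by
  ext X
  show pre X v.length = v ↔ (fun i : Fin v.length => X i) = fun i : Fin v.length => v.get i
  constructor
  · intro h
    funext i
    have h2 : (pre X v.length)[(i : ℕ)]? = v[(i : ℕ)]? := by rw [h]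
    have h3 : (pre X v.length)[(i : ℕ)]? = some (X i) := by
      unfold pre
      rw [List.getElem?_ofFn]
      rw [dif_pos i.2]
    have h4 : v[(i : ℕ)]? = some (v.get i) := by
      rw [List.getElem?_eq_getElem i.2]
      rfl
    rw [h3, h4] at h2
    exact Option.some.inj h2
  · intro h
    unfold pre
    rw [h]
    exact List.ofFn_get v

/-- Q1a. The measure of a cylinder under a product measure (from `mu_E` in K, compare the private `w1_Cy` in W1). -/
theorem mu_Cy (p : ℕ → unitInterval) (w : List Bool) :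
    mu p (Cy w) = ENNReal.ofReal (∏ i ∈ Finset.range w.length, q (p i) (w.getD i false)) := by
  classical
  rw [Q1_Cy_E, mu_E]
  congr 1
  rw [Finset.sum_eq_single (fun i : Fin w.length => w.get i)]
  · rw [if_pos (Set.mem_singleton _), Finset.prod_range]
    refine Finset.prod_congr rfl fun i _ => ?_
    congr 1
    rw [List.getD_eq_getElem _ _ i.2]
    rfl
  · intro v _ hv
    rw [if_neg]
    intro h
    exact hv (Set.mem_singleton_iff.1 h)
  · intro h
    exact absurd (Finset.mem_univ _) h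

private theorem Q1_pow : Primrec fun n : ℕ => 2 ^ n := by
  have h : Primrec₂ ((· ^ ·) : ℕ → ℕ → ℕ) := Primrec₂.unpaired'.1 Nat.Primrec.pow
  exact h.comp (Primrec.const 2) Primrec.id

/-- the numerator -/
private def Q1_a (r : ℕ → ℕ → ℕ) (n : ℕ) : ℕ :=
  2 * min (r n (n + 4)) (2 ^ (n + 4)) * (2 ^ (n + 2) - 1) + 2 ^ (n + 4)

/-- the denominator -/
private def Q1_b (n : ℕ) : ℕ := 2 ^ (2 * n + 7)

private theorem Q1_compa (r : ℕ → ℕ → ℕ) (hrc : Computable₂ r) : Computable (Q1_a r) := by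
  have h4 : Computable fun n : ℕ => n + 4 := (Primrec.nat_add.comp Primrec.id (Primrec.const 4)).to_comp
  have h2 : Computable fun n : ℕ => n + 2 := (Primrec.nat_add.comp Primrec.id (Primrec.const 2)).to_comp
  have p4 : Computable fun n : ℕ => 2 ^ (n + 4) := Q1_pow.to_comp.comp h4
  have p2 : Computable fun n : ℕ => 2 ^ (n + 2) := Q1_pow.to_comp.comp h2
  have hr : Computable fun n : ℕ => r n (n + 4) := hrc.comp Computable.id h4
  have hm : Computable fun n : ℕ => min (r n (n + 4)) (2 ^ (n + 4)) := Primrec.nat_min.to_comp.comp hr p4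
  have h2m : Computable fun n : ℕ => 2 * min (r n (n + 4)) (2 ^ (n + 4)) :=
    Primrec.nat_mul.to_comp.comp (Computable.const 2) hm
  have hs : Computable fun n : ℕ => 2 ^ (n + 2) - 1 := Primrec.nat_sub.to_comp.comp p2 (Computable.const 1)
  have hp : Computable fun n : ℕ => 2 * min (r n (n + 4)) (2 ^ (n + 4)) * (2 ^ (n + 2) - 1) :=
    Primrec.nat_mul.to_comp.comp h2m hs
  exact Primrec.nat_add.to_comp.comp hp p4

private theorem Q1_compb : Computable Q1_b := by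
  have h : Primrec fun n : ℕ => 2 * n + 7 :=
    Primrec.nat_add.comp (Primrec.nat_mul.comp (Primrec.const 2) Primrec.id) (Primrec.const 7)
  exact (Q1_pow.comp h).to_comp

/-- the new bias -/
private noncomputable def Q1_x (r : ℕ → ℕ → ℕ) (n : ℕ) : ℝ := (min (r n (n + 4)) (2 ^ (n + 4)) : ℕ) / 2 ^ (n + 4)

private theorem Q1_quot (r : ℕ → ℕ → ℕ) (n : ℕ) :
    (Q1_a r n : ℝ) / Q1_b n = (1 - (1 / 2) ^ (n + 2)) * Q1_x r n + (1 / 2) ^ (n + 3) := by
  have h1 : 1 ≤ 2 ^ (n + 2) := Nat.one_le_two_pow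
  have h2 : (0 : ℝ) < 2 ^ n := by positivity
  unfold Q1_a Q1_b Q1_x
  rw [Nat.cast_add, Nat.cast_mul, Nat.cast_mul, Nat.cast_sub h1]
  push_cast
  rw [one_div, inv_pow, inv_pow]
  have e1 : (2 : ℝ) ^ (2 * n + 7) = 2 ^ n * 2 ^ n * 128 := by
    rw [pow_add, two_mul, pow_add]
    norm_num
  have e2 : (2 : ℝ) ^ (n + 2) = 2 ^ n * 4 := by
    rw [pow_add]
    norm_num
  have e3 : (2 : ℝ) ^ (n + 3) = 2 ^ n * 8 := by
    rw [pow_add]
    norm_num
  have e4 : (2 : ℝ) ^ (n + 4) = 2 ^ n * 16 := by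
    rw [pow_add]
    norm_num
  rw [e1, e2, e3, e4]
  field_simp
  ring

private theorem Q1_ab (r : ℕ → ℕ → ℕ) (n : ℕ) : Q1_a r n ≤ Q1_b n := by
  have h1 : 1 ≤ 2 ^ (n + 2) := Nat.one_le_two_pow
  have h2 : min (r n (n + 4)) (2 ^ (n + 4)) ≤ 2 ^ (n + 4) := min_le_right _ _
  unfold Q1_a Q1_b
  have h3 : 2 * min (r n (n + 4)) (2 ^ (n + 4)) * (2 ^ (n + 2) - 1) ≤ 2 * 2 ^ (n + 4) * (2 ^ (n + 2) - 1) :=
    Nat.mul_le_mul_right _ (Nat.mul_le_mul_left _ h2)
  refine (Nat.add_le_add_right h3 _).trans ?_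
  obtain ⟨c, hc⟩ : ∃ c, 2 ^ (n + 2) = c + 1 := ⟨2 ^ (n + 2) - 1, by omega⟩
  have e1 : 2 ^ (2 * n + 7) = 2 * 2 ^ (n + 4) * 2 ^ (n + 2) := by ring
  rw [e1, hc, Nat.add_sub_cancel]
  have h5 : 2 ^ (n + 4) ≤ 2 * 2 ^ (n + 4) := by omega
  calc 2 * 2 ^ (n + 4) * c + 2 ^ (n + 4) ≤ 2 * 2 ^ (n + 4) * c + 2 * 2 ^ (n + 4) := Nat.add_le_add_left h5 _
    _ = 2 * 2 ^ (n + 4) * (c + 1) := by ring

private theorem Q1_close {p : ℕ → unitInterval} {r : ℕ → ℕ → ℕ}
    (hr : ∀ n k, |(p n : ℝ) - (r n k : ℝ) / 2 ^ k| ≤ 1 / 2 ^ k) (n : ℕ) :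
    |(p n : ℝ) - Q1_x r n| ≤ (1 / 2) ^ (n + 4) := by
  have h0 := hr n (n + 4)
  have h1 : (0 : ℝ) < 2 ^ (n + 4) := by positivity
  rw [one_div_pow]
  unfold Q1_x
  rcases le_total (r n (n + 4)) (2 ^ (n + 4)) with h | h
  · rw [min_eq_left h]
    exact h0
  · rw [min_eq_right h, Nat.cast_pow, Nat.cast_ofNat, div_self h1.ne']
    have h2 : (1 : ℝ) ≤ (r n (n + 4) : ℝ) / 2 ^ (n + 4) := by
      rw [le_div_iff₀ h1, one_mul]
      exact_mod_cast h
    have h3 : (p n : ℝ) ≤ 1 := (p n).2.2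
    rw [abs_le] at h0 ⊢
    constructor
    · linarith [h0.1]
    · have : (0 : ℝ) < 1 / 2 ^ (n + 4) := by positivity
      linarith

private theorem Q1_prod (m : ℕ) :
    (1 : ℝ) / 2 + (1 / 2) ^ (m + 1) ≤ ∏ i ∈ Finset.range m, (1 - ((1 : ℝ) / 2) ^ (i + 2)) := by
  induction m with
  | zero => norm_num
  | succ m ih =>
    rw [Finset.prod_range_succ]
    have h1 : (0 : ℝ) < (1 / 2) ^ m := by positivity
    have h2 : ((1 : ℝ) / 2) ^ m ≤ 1 := pow_le_one₀ (by norm_num) (by norm_num)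
    have e1 : ((1 : ℝ) / 2) ^ (m + 1) = (1 / 2) ^ m * (1 / 2) := pow_succ _ _
    have e2 : ((1 : ℝ) / 2) ^ (m + 2) = (1 / 2) ^ m * (1 / 4) := by
      rw [pow_add]
      norm_num
    have e3 : ((1 : ℝ) / 2) ^ (m + 1 + 1) = (1 / 2) ^ m * (1 / 4) := e2
    rw [e3]
    rw [e1] at ih
    have h3 : (0 : ℝ) ≤ 1 - (1 / 2) ^ m * (1 / 4) := by linarith
    have h4 := mul_le_mul_of_nonneg_right ih h3
    nlinarith

/-- Q1b. With `k = n + 4` let `a n = 2 * min (r n k) (2^k) * (2^(n+2) - 1) + 2^k`, `b n = 2^(k + n + 3)`, i.e.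
`p' n = (1 - 2^(-n-2)) * min (r n k/2^k) 1 + 2^(-n-3)`. Then `p' n ≥ (1 - 2^(-n-2)) p n`, `1 - p' n ≥ (1 - 2^(-n-2)) (1 - p n)`
(as `|r n k/2^k - p n| ≤ 2^(-n-4)`) and `|p' n - p n| ≤ 2^(-n)`; `∏ (1 - 2^(-n-2)) ≥ 1/2`. -/
theorem exists_prod (p : ℕ → unitInterval) (r : ℕ → ℕ → ℕ) (hrc : Computable₂ r)
    (hr : ∀ n k, |(p n : ℝ) - (r n k : ℝ) / 2 ^ k| ≤ 1 / 2 ^ k) :
    ∃ (a b : ℕ → ℕ) (p' : ℕ → unitInterval), Computable a ∧ Computable b ∧ (∀ n, a n ≤ b n) ∧
      (∀ n, 0 < b n) ∧ (∀ n, (p' n : ℝ) = (a n : ℝ) / b n) ∧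
      (∀ n, |(p' n : ℝ) - p n| ≤ (1 / 2) ^ n) ∧ ∀ w : List Bool, mu p (Cy w) ≤ 4 * mu p' (Cy w) := by
  have hb0 : ∀ n, 0 < Q1_b n := fun n => by
    unfold Q1_b
    positivity
  have hq0 : ∀ n, (0 : ℝ) ≤ (Q1_a r n : ℝ) / Q1_b n := fun n => by positivity
  have hq1 : ∀ n, (Q1_a r n : ℝ) / Q1_b n ≤ 1 := by
    intro n
    have h1 : (0 : ℝ) < Q1_b n := by exact_mod_cast hb0 n
    rw [div_le_one h1]
    exact_mod_cast Q1_ab r n
  refine ⟨Q1_a r, Q1_b, fun n => ⟨(Q1_a r n : ℝ) / Q1_b n, hq0 n, hq1 n⟩, Q1_compa r hrc, Q1_compb, Q1_ab r, hb0,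
    fun n => rfl, ?_, ?_⟩
  · intro n
    show |(Q1_a r n : ℝ) / Q1_b n - p n| ≤ (1 / 2) ^ n
    rw [Q1_quot]
    have h1 := Q1_close hr n
    rw [abs_le] at h1
    have hp0 : (0 : ℝ) ≤ (p n : ℝ) := (p n).2.1
    have hp1 : (p n : ℝ) ≤ 1 := (p n).2.2
    have h0 : (0 : ℝ) < (1 / 2) ^ n := by positivity
    have h2 : ((1 : ℝ) / 2) ^ n ≤ 1 := pow_le_one₀ (by norm_num) (by norm_num)
    have e2 : ((1 : ℝ) / 2) ^ (n + 2) = (1 / 2) ^ n * (1 / 4) := by
      rw [pow_add]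
      norm_num
    have e3 : ((1 : ℝ) / 2) ^ (n + 3) = (1 / 2) ^ n * (1 / 8) := by
      rw [pow_add]
      norm_num
    have e4 : ((1 : ℝ) / 2) ^ (n + 4) = (1 / 2) ^ n * (1 / 16) := by
      rw [pow_add]
      norm_num
    rw [e4] at h1
    rw [e2, e3]
    set x := Q1_x r n
    set t := ((1 : ℝ) / 2) ^ n
    have ht : 0 ≤ t * (1 / 4) := by positivity
    rw [abs_le]
    constructor
    · nlinarith [mul_nonneg ht hp0, mul_nonneg ht (sub_nonneg.2 hp1), h1.1, h1.2]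
    · nlinarith [mul_nonneg ht hp0, mul_nonneg ht (sub_nonneg.2 hp1), h1.1, h1.2]
  · intro w
    rw [mu_Cy, mu_Cy]
    have hfac : ∀ (n : ℕ) (c : Bool), (1 - ((1 : ℝ) / 2) ^ (n + 2)) * q (p n) c ≤
        q (⟨(Q1_a r n : ℝ) / Q1_b n, hq0 n, hq1 n⟩ : unitInterval) c := by
      intro n c
      have h1 := Q1_close hr n
      rw [abs_le] at h1
      have h0 : (0 : ℝ) < (1 / 2) ^ n := by positivity
      have h2 : ((1 : ℝ) / 2) ^ n ≤ 1 := pow_le_one₀ (by norm_num) (by norm_num)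
      have e2 : ((1 : ℝ) / 2) ^ (n + 2) = (1 / 2) ^ n * (1 / 4) := by
        rw [pow_add]
        norm_num
      have e3 : ((1 : ℝ) / 2) ^ (n + 3) = (1 / 2) ^ n * (1 / 8) := by
        rw [pow_add]
        norm_num
      have e4 : ((1 : ℝ) / 2) ^ (n + 4) = (1 / 2) ^ n * (1 / 16) := by
        rw [pow_add]
        norm_num
      rw [e4] at h1
      have hv : ((⟨(Q1_a r n : ℝ) / Q1_b n, hq0 n, hq1 n⟩ : unitInterval) : ℝ) =
          (1 - (1 / 2) ^ (n + 2)) * Q1_x r n + (1 / 2) ^ (n + 3) := Q1_quot r n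
      unfold q
      rw [hv, e2, e3]
      set x := Q1_x r n
      set t := ((1 : ℝ) / 2) ^ n
      have hs : 0 ≤ 1 - t * (1 / 4) := by linarith
      have hs1 : 1 - t * (1 / 4) ≤ 1 := by linarith
      have ha := mul_le_mul_of_nonneg_left h1.1 hs
      have hb := mul_le_mul_of_nonneg_left h1.2 hs
      have ht : 0 ≤ t * t := by positivity
      cases c
      · simp only [Bool.false_eq_true, if_false]
        nlinarith
      · simp only [if_true]
        nlinarith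
    have hP : ∏ i ∈ Finset.range w.length, q (p i) (w.getD i false) ≤
        2 * ∏ i ∈ Finset.range w.length,
          q (⟨(Q1_a r i : ℝ) / Q1_b i, hq0 i, hq1 i⟩ : unitInterval) (w.getD i false) := by
      have hqn : ∀ (x : unitInterval) (c : Bool), 0 ≤ q x c := by
        intro x c
        unfold q
        cases c
        · simp only [Bool.false_eq_true, if_false]
          linarith [x.2.2]
        · simp only [if_true]
          exact x.2.1
      have h1 : ∏ i ∈ Finset.range w.length, ((1 - ((1 : ℝ) / 2) ^ (i + 2)) * q (p i) (w.getD i false)) ≤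
          ∏ i ∈ Finset.range w.length,
            q (⟨(Q1_a r i : ℝ) / Q1_b i, hq0 i, hq1 i⟩ : unitInterval) (w.getD i false) := by
        refine Finset.prod_le_prod (fun i _ => ?_) fun i _ => hfac i _
        refine mul_nonneg ?_ (hqn _ _)
        have h2 : ((1 : ℝ) / 2) ^ (i + 2) ≤ 1 := pow_le_one₀ (by norm_num) (by norm_num)
        linarith
      rw [Finset.prod_mul_distrib] at h1
      have h2 := Q1_prod w.length
      have h3 : (0 : ℝ) < (1 / 2) ^ (w.length + 1) := by positivity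
      have h4 : (0 : ℝ) ≤ ∏ i ∈ Finset.range w.length, q (p i) (w.getD i false) :=
        Finset.prod_nonneg fun i _ => hqn _ _
      have h5 : (1 : ℝ) / 2 * ∏ i ∈ Finset.range w.length, q (p i) (w.getD i false) ≤
          (∏ i ∈ Finset.range w.length, (1 - ((1 : ℝ) / 2) ^ (i + 2))) *
            ∏ i ∈ Finset.range w.length, q (p i) (w.getD i false) :=
        mul_le_mul_of_nonneg_right (by linarith) h4
      linarith
    calc ENNReal.ofReal (∏ i ∈ Finset.range w.length, q (p i) (w.getD i false))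
        ≤ ENNReal.ofReal (2 * ∏ i ∈ Finset.range w.length,
          q (⟨(Q1_a r i : ℝ) / Q1_b i, hq0 i, hq1 i⟩ : unitInterval) (w.getD i false)) :=
          ENNReal.ofReal_le_ofReal hP
      _ = 2 * ENNReal.ofReal (∏ i ∈ Finset.range w.length,
          q (⟨(Q1_a r i : ℝ) / Q1_b i, hq0 i, hq1 i⟩ : unitInterval) (w.getD i false)) := by
          rw [ENNReal.ofReal_mul (by norm_num)]
          norm_num
      _ ≤ 4 * ENNReal.ofReal (∏ i ∈ Finset.range w.length,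
          q (⟨(Q1_a r i : ℝ) / Q1_b i, hq0 i, hq1 i⟩ : unitInterval) (w.getD i false)) := by
          gcongr
          norm_num

end H48K
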