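import Pool.Agent.Lib.H48K.Defs3
import Pool.Agent.Lib.H48K.O

/-!
# H48K, chunk Q2: domination on cylinders, random sequences and sums
-/

open MeasureTheory Set Filter H69K

namespace H48K

private theorem q2_open (W : Set (List Bool)) : IsOpen (Op W) := by
  unfold Op
  refine isOpen_biUnion fun w _ => ?_
  have hc : Continuous (fun X : ℕ → Bool => (fun i : Fin w.length => X i)) := by fun_prop
  have h1 : Cy w = (fun X : ℕ → Bool => (fun i : Fin w.length => X i)) ⁻¹'
      {u | List.ofFn u = w} := rfl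
  rw [h1]
  exact (isOpen_discrete _).preimage hc

private theorem q2_E {ν ν' : Measure (ℕ → Bool)}
    (h : ∀ w : List Bool, ν (Cy w) ≤ 4 * ν' (Cy w)) (m : ℕ) (V : Set (Fin m → Bool)) :
    ν (E m V) ≤ 4 * ν' (E m V) := by
  have hcy : ∀ (m : ℕ) (v : Fin m → Bool), E m {v} = Cy (List.ofFn v) := by
    intro m v
    ext X
    have h1 : (List.ofFn v).length = m := List.length_ofFn
    have h2 : pre X (List.ofFn v).length = pre X m := by rw [h1]
    show (fun i : Fin m => X i) ∈ ({v} : Set (Fin m → Bool)) ↔ pre X (List.ofFn v).length = List.ofFn v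
    rw [h2, Set.mem_singleton_iff, pre, List.ofFn_inj]
  have hsum : ∀ (μ : Measure (ℕ → Bool)) (m : ℕ) (V : Set (Fin m → Bool)),
      μ (E m V) = ∑ v ∈ V.toFinite.toFinset, μ (E m {v}) := by
    intro μ m V
    have h1 : E m V = ⋃ v ∈ V.toFinite.toFinset, E m {v} := by
      ext X
      simp [E]
    rw [h1, measure_biUnion_finset]
    · intro v _ v' _ hne
      rw [Function.onFun, Set.disjoint_left]
      intro X hX hX'
      have e1 : (fun i : Fin m => X i) = v := hX
      have e2 : (fun i : Fin m => X i) = v' := hX'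
      exact hne (e1.symm.trans e2)
    · intro v _
      exact measurableSet_E m {v}
  rw [hsum ν, hsum ν', Finset.mul_sum]
  refine Finset.sum_le_sum fun v _ => ?_
  rw [hcy m v]
  exact h _

/-- Q2a. Domination on open sets (prefix-minimal words, compare `w1_min`, `w1_disj` in W1 or TF; or monotone unions of the sets
`E m V`, compare `sq_Op` in TD and `ac_of_cyl` in Y3). -/
theorem Op_le {ν ν' : Measure (ℕ → Bool)} [IsProbabilityMeasure ν] [IsProbabilityMeasure ν']
    (h : ∀ w : List Bool, ν (Cy w) ≤ 4 * ν' (Cy w)) (V : Set (List Bool)) :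
    ν (Op V) ≤ 4 * ν' (Op V) := by
  obtain ⟨U, hU, hV⟩ := open_cyl (Op V) (q2_open V)
  rw [hV, hU.measure_iUnion]
  apply iSup_le
  intro m
  refine (q2_E h m (U m)).trans ?_
  gcongr
  exact Set.subset_iUnion (fun m => E m (U m)) m

/-- Q2b. For a test `W` of `ν'` the sets `W (m + 2)` are a test of `ν`. -/
theorem random_of_le {ν ν' : Measure (ℕ → Bool)} [IsProbabilityMeasure ν] [IsProbabilityMeasure ν']
    (h : ∀ w : List Bool, ν (Cy w) ≤ 4 * ν' (Cy w)) {X : ℕ → Bool} (hX : Random ν X) :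
    Random ν' X := by
  intro W hW
  have hT : Test ν (fun m => W (m + 2)) := by
    refine ⟨?_, fun m => ?_⟩
    · have hf : Computable (fun x : ℕ × List Bool => ((x.1 + 2, x.2) : ℕ × List Bool)) := by
        have h : Primrec (fun x : ℕ × List Bool => ((x.1 + 2, x.2) : ℕ × List Bool)) :=
          Primrec.pair (Primrec.nat_add.comp Primrec.fst (Primrec.const 2)) Primrec.snd
        exact h.to_comp
      exact Partrec.comp hW.1 hf
    · calc ν (Op (W (m + 2))) ≤ 4 * ν' (Op (W (m + 2))) := Op_le h _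
        _ ≤ 4 * (2⁻¹ : ENNReal) ^ (m + 2) := by
          gcongr
          exact hW.2 _
        _ = (2⁻¹ : ENNReal) ^ m * (2 * 2⁻¹) ^ 2 := by
          rw [mul_pow, pow_add]
          norm_num
          ring
        _ = (2⁻¹ : ENNReal) ^ m := by
          rw [ENNReal.mul_inv_cancel (by norm_num) (by norm_num), one_pow, mul_one]
  obtain ⟨m, hm⟩ := hX _ hT
  exact ⟨m + 2, hm⟩

private theorem q2_sum {p p' : ℕ → unitInterval} (h : ∀ n, |(p' n : ℝ) - p n| ≤ (1 / 2) ^ n)
    (hs : Summable fun n => ((p n : ℝ) - 1 / 2) ^ 2) :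
    Summable fun n => ((p' n : ℝ) - 1 / 2) ^ 2 := by
  have h1 : Summable fun n : ℕ => 2 * ((p n : ℝ) - 1 / 2) ^ 2 + 2 * (1 / 2 : ℝ) ^ n :=
    (hs.mul_left 2).add
      ((summable_geometric_of_lt_one (r := (1 / 2 : ℝ)) (by norm_num) (by norm_num)).mul_left 2)
  refine Summable.of_nonneg_of_le (fun n => sq_nonneg _) (fun n => ?_) h1
  have h2 : ((p' n : ℝ) - p n) ^ 2 ≤ (1 / 2) ^ n := by
    have h3 : ((p' n : ℝ) - p n) ^ 2 ≤ ((1 / 2 : ℝ) ^ n) ^ 2 := by
      rw [← sq_abs]
      exact pow_le_pow_left₀ (abs_nonneg _) (h n) 2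
    have h4 : (1 / 2 : ℝ) ^ n ≤ 1 := pow_le_one₀ (by norm_num) (by norm_num)
    have h5 : (0 : ℝ) ≤ (1 / 2 : ℝ) ^ n := by positivity
    nlinarith
  nlinarith [sq_nonneg (((p n : ℝ) - 1 / 2) - ((p' n : ℝ) - p n))]

/-- Q2c. Two sequences of reals in `[0,1]` with `|p' n - p n| ≤ 2^(-n)`. -/
theorem summable_iff {p p' : ℕ → unitInterval} (h : ∀ n, |(p' n : ℝ) - p n| ≤ (1 / 2) ^ n) :
    (Summable fun n => ((p' n : ℝ) - 1 / 2) ^ 2) ↔ Summable fun n => ((p n : ℝ) - 1 / 2) ^ 2 := by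
  have h' : ∀ n, |(p n : ℝ) - p' n| ≤ (1 / 2) ^ n := fun n => by
    rw [abs_sub_comm]
    exact h n
  exact ⟨q2_sum h', q2_sum h⟩

theorem tendsto_iff {p p' : ℕ → unitInterval} (h : ∀ n, |(p' n : ℝ) - p n| ≤ (1 / 2) ^ n) :
    Tendsto (fun n => (p' n : ℝ)) atTop (nhds (1 / 2)) ↔
      Tendsto (fun n => (p n : ℝ)) atTop (nhds (1 / 2)) := by
  have h0 : Tendsto (fun n => (p' n : ℝ) - p n) atTop (nhds 0) := by
    refine squeeze_zero_norm (fun n => ?_)
      (tendsto_pow_atTop_nhds_zero_of_lt_one (r := (1 / 2 : ℝ)) (by norm_num) (by norm_num))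
    rw [Real.norm_eq_abs]
    exact h n
  constructor
  · intro h1
    have h2 := h1.sub h0
    simp only [sub_sub_cancel, sub_zero] at h2
    exact h2
  · intro h1
    have h2 := h1.add h0
    simp only [add_sub_cancel, add_zero] at h2
    exact h2

end H48K
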