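import Pool.Agent.Lib.H48K.F4
import Pool.Agent.Lib.H48K.Q1
import Pool.Agent.Lib.H48K.Q2

/-!
# H48K, chunk F9: product measures with computable real biases
-/

open MeasureTheory Set Filter H69K

namespace H48K

theorem final_real (p : ℕ → unitInterval) (r : ℕ → ℕ → ℕ) (hrc : Computable₂ r)
    (hr : ∀ n k, |(p n : ℝ) - (r n k : ℝ) / 2 ^ k| ≤ 1 / 2 ^ k) (X : ℕ → Bool)
    (hX : Random (mu p) X) :
    (Random (mu fair) X ↔ Summable fun n => ((p n : ℝ) - 1 / 2) ^ 2) ∧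
    (Random (mu fair) X ↔ Clo2 X) ∧
    (Random (mu fair) X ↔ ∀ B : ℕ → Bool, Step X B → KLStochastic B) ∧
    (Random (mu fair) X ↔ ∀ B : ℕ → Bool, Relation.ReflTransGen Step X B → KLStochastic B) := by
  obtain ⟨a, b, p', ha, hb, hab, hb0, hp', hd, hle⟩ := exists_prod p r hrc hr
  obtain ⟨h1, h2, h3, h4⟩ := final ha hb hab hb0 hp' X (random_of_le hle hX)
  exact ⟨h1.trans (summable_iff hd), h2, h3, h4⟩

theorem rules_real (p : ℕ → unitInterval) (r : ℕ → ℕ → ℕ) (hrc : Computable₂ r)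
    (hr : ∀ n k, |(p n : ℝ) - (r n k : ℝ) / 2 ^ k| ≤ 1 / 2 ^ k)
    (hlim : Tendsto (fun n => (p n : ℝ)) atTop (nhds (1 / 2)))
    (hns : ¬ Summable fun n => ((p n : ℝ) - 1 / 2) ^ 2) :
    ∃ f g : List Bool → ℕ × Bool, Computable f ∧ Computable g ∧
      (∀ v x, (f v).2 = true ∧ (f v).1 < (f (v ++ [x])).1) ∧
      ∀ X, Random (mu p) X → KLStochastic X ∧
        ∃ B C : ℕ → Bool, Sel (fun v => Part.some (f v)) X B ∧
          Sel (fun v => Part.some (g v)) B C ∧ ∀ᶠ j in atTop, C j = true := by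
  obtain ⟨a, b, p', ha, hb, hab, hb0, hp', hd, hle⟩ := exists_prod p r hrc hr
  obtain ⟨f, g, hf, hg, hm, hfg⟩ := rules ha hb hab hb0 hp' ((tendsto_iff hd).2 hlim)
    (fun h => hns ((summable_iff hd).1 h))
  exact ⟨f, g, hf, hg, hm, fun X hX => ⟨random_KL p hlim X hX, hfg X (random_of_le hle hX)⟩⟩

end H48K
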