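import Pool.Agent.Lib.H48K.Defs2

/-!
# H48K, chunk H3: the biases tend to zero and the sum of their squares diverges
-/

open Filter

namespace H48K

private theorem I_mono {h I : ℕ → ℕ} (hI : Starts h I) : StrictMono I := by
  refine strictMono_nat_of_lt_succ fun k => ?_
  have h1 := hI.gap k
  have h2 : 0 < (k + 1) ^ 2 := by positivity
  omega

/-- H3a. In the block `k` the number `KK` is `k + 1`. -/
theorem KK_eq {h I : ℕ → ℕ} (hI : Starts h I) {k n : ℕ} (h1 : I k ≤ n) (h2 : n < I (k + 1)) :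
    KK I n = k + 1 := by
  have hm := I_mono hI
  have h3 : (Finset.range (n + 1)).filter (fun j => I j ≤ n) = Finset.range (k + 1) := by
    ext j
    rw [Finset.mem_filter, Finset.mem_range, Finset.mem_range]
    constructor
    · rintro ⟨_, h4⟩
      by_contra h5
      have h6 : I (k + 1) ≤ I j := hm.monotone (by omega)
      omega
    · intro h4
      have h5 : I j ≤ I k := hm.monotone (by omega)
      have h6 : j ≤ I j := hm.le_apply
      exact ⟨by omega, by omega⟩
  unfold KK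
  rw [h3, Finset.card_range]

/-- H3b. Before the first block the number `KK` is `0`. -/
theorem KK_zero {h I : ℕ → ℕ} (hI : Starts h I) {n : ℕ} (h1 : n < I 0) : KK I n = 0 := by
  have hm := I_mono hI
  unfold KK
  rw [Finset.card_eq_zero, Finset.filter_eq_empty_iff]
  intro j _ h2
  have h3 : I 0 ≤ I j := hm.monotone (Nat.zero_le j)
  omega

theorem aa_pos (I : ℕ → ℕ) (n : ℕ) : 0 < aa I n := by
  unfold aa
  split_ifs <;> omega

theorem aa_lt (I : ℕ → ℕ) (n : ℕ) : aa I n < bb I n := by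
  unfold aa bb
  split_ifs <;> omega

private theorem le_KK {h I : ℕ → ℕ} (hI : Starts h I) {k n : ℕ} (h1 : I k ≤ n) : k + 1 ≤ KK I n := by
  have hm := I_mono hI
  unfold KK
  rw [← Finset.card_range (k + 1)]
  refine Finset.card_le_card ?_
  intro j hj
  rw [Finset.mem_range] at hj
  rw [Finset.mem_filter, Finset.mem_range]
  have h5 : I j ≤ I k := hm.monotone (by omega)
  have h6 : j ≤ I j := hm.le_apply
  exact ⟨by omega, by omega⟩

private theorem dev_in {I : ℕ → ℕ} {n K : ℕ} (hK : KK I n = K) (h0 : K ≠ 0)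
    (h1 : n < I (K - 1) + K ^ 2) : (aa I n : ℝ) / bb I n - 1 / 2 = 1 / (4 * K) := by
  have hK0 : (K : ℝ) ≠ 0 := by exact_mod_cast h0
  unfold aa bb
  rw [hK, if_neg h0, if_neg h0, if_pos h1, if_pos h1]
  push_cast
  field_simp
  ring

private theorem dev_le {I : ℕ → ℕ} {n : ℕ} (h0 : KK I n ≠ 0) :
    |(aa I n : ℝ) / bb I n - 1 / 2| ≤ 1 / (4 * KK I n) := by
  have h2 : (0 : ℝ) ≤ 1 / (4 * (KK I n : ℝ)) := by positivity
  by_cases h1 : n < I (KK I n - 1) + KK I n ^ 2
  · rw [dev_in rfl h0 h1, abs_of_nonneg h2]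
  · unfold aa bb
    rw [if_neg h0, if_neg h0, if_neg h1, if_neg h1]
    have h3 : ((1 : ℕ) : ℝ) / ((2 : ℕ) : ℝ) - 1 / 2 = 0 := by norm_num
    rw [h3, abs_zero]
    exact h2

/-- H3c. `|aa/bb - 1/2| ≤ 1/(4 KK)` and `KK → ∞`. -/
theorem tendsto_ab {h I : ℕ → ℕ} (hI : Starts h I) :
    Tendsto (fun n => (aa I n : ℝ) / bb I n) atTop (nhds (1 / 2)) := by
  rw [Metric.tendsto_atTop]
  intro ε hε
  obtain ⟨k, hk⟩ := exists_nat_one_div_lt hε
  refine ⟨I k, fun n hn => ?_⟩
  have h1 := le_KK hI (ge_iff_le.1 hn)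
  have h2 : (k : ℝ) + 1 ≤ KK I n := by exact_mod_cast h1
  have hk0 : (0 : ℝ) < (k : ℝ) + 1 := by positivity
  rw [Real.dist_eq]
  refine lt_of_le_of_lt (dev_le (by omega)) (lt_of_le_of_lt ?_ hk)
  refine one_div_le_one_div_of_le hk0 ?_
  linarith

/-- H3d. Every block contributes `1/16`. -/
theorem not_summable_ab {h I : ℕ → ℕ} (hI : Starts h I) :
    ¬ Summable fun n => ((aa I n : ℝ) / bb I n - 1 / 2) ^ 2 := by
  intro hs
  have hm := I_mono hI
  have hblock : ∀ m, ((m : ℕ) : ℝ) / 16 ≤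
      ∑ n ∈ Finset.range (I m), ((aa I n : ℝ) / bb I n - 1 / 2) ^ 2 := by
    intro m
    induction m with
    | zero =>
      rw [Nat.cast_zero, zero_div]
      exact Finset.sum_nonneg fun n _ => sq_nonneg _
    | succ m ih =>
      have hle : I m ≤ I (m + 1) := hm.monotone (Nat.le_succ m)
      rw [← Finset.sum_range_add_sum_Ico _ hle]
      have h1 : Finset.Ico (I m) (I m + (m + 1) ^ 2) ⊆ Finset.Ico (I m) (I (m + 1)) :=
        Finset.Ico_subset_Ico le_rfl (hI.gap m)
      have h2 := Finset.sum_le_sum_of_subset_of_nonneg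
        (f := fun n => ((aa I n : ℝ) / bb I n - 1 / 2) ^ 2) h1 (fun n _ _ => sq_nonneg _)
      have h3 : ∑ n ∈ Finset.Ico (I m) (I m + (m + 1) ^ 2), ((aa I n : ℝ) / bb I n - 1 / 2) ^ 2 =
          1 / 16 := by
        have h4 : ∀ n ∈ Finset.Ico (I m) (I m + (m + 1) ^ 2),
            ((aa I n : ℝ) / bb I n - 1 / 2) ^ 2 = (1 / (4 * ((m + 1 : ℕ) : ℝ))) ^ 2 := by
          intro n hn
          rw [Finset.mem_Ico] at hn
          have h5 : KK I n = m + 1 := KK_eq hI hn.1 (lt_of_lt_of_le hn.2 (hI.gap m))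
          rw [dev_in h5 (by omega) (by rw [Nat.add_sub_cancel]; exact hn.2)]
        rw [Finset.sum_congr rfl h4, Finset.sum_const, Nat.card_Ico, Nat.add_sub_cancel_left,
          nsmul_eq_mul]
        push_cast
        have h6 : ((m : ℝ) + 1) ≠ 0 := by positivity
        field_simp
        norm_num
      rw [h3] at h2
      push_cast
      linarith
  obtain ⟨m, hmT⟩ := exists_nat_gt (16 * ∑' n, ((aa I n : ℝ) / bb I n - 1 / 2) ^ 2)
  have h1 := hblock m
  have h2 := hs.sum_le_tsum (Finset.range (I m)) (fun n _ => sq_nonneg _)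
  linarith

end H48K
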