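import Pool.Agent.Lib.H48K.Defs

/-!
# H48K, chunk P: existence of a computable plan
-/

open MeasureTheory Set Filter

namespace H48K

variable {a b : ℕ → ℕ}

/-- P1. The bias is `e / (2 b)`. -/
theorem e_eq (hb0 : ∀ n, 0 < b n) (i : ℕ) :
    (e a b i : ℝ) = 2 * (b i : ℝ) * |(a i : ℝ) / b i - 1 / 2| := by
  have hb : (0 : ℝ) < b i := by exact_mod_cast hb0 i
  have h1 : 2 * (b i : ℝ) * |(a i : ℝ) / b i - 1 / 2| = |2 * (a i : ℝ) - b i| := by
    have h2 : 2 * (a i : ℝ) - b i = 2 * (b i : ℝ) * ((a i : ℝ) / b i - 1 / 2) := by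
      field_simp
    rw [h2, abs_mul, abs_of_pos (by positivity : (0 : ℝ) < 2 * (b i : ℝ))]
  rw [h1]
  unfold e
  rcases le_total (2 * a i) (b i) with h | h
  · have h3 : 2 * a i - b i = 0 := Nat.sub_eq_zero_of_le h
    have h4 : (2 * (a i : ℝ)) ≤ b i := by exact_mod_cast h
    rw [h3, zero_add, Nat.cast_sub h, abs_of_nonpos (by linarith)]
    push_cast
    ring
  · have h3 : b i - 2 * a i = 0 := Nat.sub_eq_zero_of_le h
    have h4 : (b i : ℝ) ≤ 2 * (a i : ℝ) := by exact_mod_cast h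
    rw [h3, add_zero, Nat.cast_sub h, abs_of_nonneg (by linarith)]
    push_cast
    ring

private theorem scaled (hb0 : ∀ n, 0 < b n) (M i : ℕ) :
    ((2 ^ M * e a b i : ℕ) : ℝ) / ((2 * b i : ℕ) : ℝ) = 2 ^ M * |(a i : ℝ) / b i - 1 / 2| := by
  have hb : (0 : ℝ) < b i := by exact_mod_cast hb0 i
  push_cast
  rw [e_eq hb0 i]
  field_simp

/-- P2. The weight is at most `2^M |bias|`. -/
theorem w_le (hb0 : ∀ n, 0 < b n) (M i : ℕ) :
    (w a b M i : ℝ) ≤ 2 ^ M * |(a i : ℝ) / b i - 1 / 2| := by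
  rw [← scaled hb0 M i]
  unfold w
  exact Nat.cast_div_le

/-- P3. The weight is more than `2^M |bias| - 1`. -/
theorem lt_w (hb0 : ∀ n, 0 < b n) (M i : ℕ) :
    2 ^ M * |(a i : ℝ) / b i - 1 / 2| < w a b M i + 1 := by
  rw [← scaled hb0 M i]
  have hb : 0 < 2 * b i := by have := hb0 i; omega
  have hb' : (0 : ℝ) < ((2 * b i : ℕ) : ℝ) := by exact_mod_cast hb
  rw [div_lt_iff₀ hb']
  unfold w
  have h := Nat.lt_mul_div_succ (2 ^ M * e a b i) hb
  have h' : ((2 ^ M * e a b i : ℕ) : ℝ) <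
      (((2 * b i) * (2 ^ M * e a b i / (2 * b i) + 1) : ℕ) : ℝ) := by exact_mod_cast h
  rw [Nat.cast_mul (2 * b i), Nat.cast_add, Nat.cast_one] at h'
  linarith [mul_comm ((2 * b i : ℕ) : ℝ) (((2 ^ M * e a b i / (2 * b i) : ℕ) : ℝ) + 1)]

/-- P4. Large sums of squares of weights exist at every place: choose `L` with
`∑_(i<L) bias^2 ≥ C + 1` (not summable, also after a shift), then `M` with `2^M ≥ L`:
`w^2 ≥ 4^M bias^2 - 2^M` as `|bias| ≤ 1/2`, so the sum is at least `4^M (C+1) - L 2^M ≥ C 4^M`. -/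
theorem exists_big (hab : ∀ n, a n ≤ b n) (hb0 : ∀ n, 0 < b n)
    (hns : ¬ Summable fun n => ((a n : ℝ) / b n - 1 / 2) ^ 2) (r C : ℕ) :
    ∃ M L : ℕ, C * 4 ^ M ≤ SS a b M r L := by
  have hns' : ¬ Summable fun n => ((a (n + r) : ℝ) / b (n + r) - 1 / 2) ^ 2 := by
    intro hs
    exact hns ((summable_nat_add_iff (f := fun n => ((a n : ℝ) / b n - 1 / 2) ^ 2) r).1 hs)
  have ht := (not_summable_iff_tendsto_nat_atTop_of_nonneg
    (fun n => sq_nonneg ((a (n + r) : ℝ) / b (n + r) - 1 / 2))).1 hns'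
  obtain ⟨L, hL⟩ := (ht.eventually_ge_atTop ((C : ℝ) + 1)).exists
  refine ⟨L, L, ?_⟩
  have hpow : (L : ℝ) ≤ 2 ^ L := by exact_mod_cast Nat.lt_two_pow_self.le
  have hpos : (0 : ℝ) < 2 ^ L := by positivity
  have key : ∀ i : ℕ, (4 : ℝ) ^ L * ((a (i + r) : ℝ) / b (i + r) - 1 / 2) ^ 2 - 2 ^ L ≤
      ((w a b L (r + i) : ℕ) : ℝ) ^ 2 := by
    intro i
    have hb : (0 : ℝ) < b (r + i) := by exact_mod_cast hb0 (r + i)
    have ha0 : (0 : ℝ) ≤ a (r + i) := Nat.cast_nonneg _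
    have hab' : (a (r + i) : ℝ) ≤ b (r + i) := by exact_mod_cast hab (r + i)
    have h0 : (0 : ℝ) ≤ (a (r + i) : ℝ) / b (r + i) := by positivity
    have h1 : (a (r + i) : ℝ) / b (r + i) ≤ 1 := by
      rw [div_le_one hb]
      exact hab'
    have hlt := lt_w (a := a) (b := b) hb0 L (r + i)
    rw [add_comm i r]
    have hd : |(a (r + i) : ℝ) / b (r + i) - 1 / 2| ≤ 1 / 2 := by
      rw [abs_le]
      constructor <;> linarith
    have hd0 : 0 ≤ |(a (r + i) : ℝ) / b (r + i) - 1 / 2| := abs_nonneg _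
    have h4 : (4 : ℝ) ^ L = 2 ^ L * 2 ^ L := by
      rw [← mul_pow]
      norm_num
    rw [← sq_abs ((a (r + i) : ℝ) / b (r + i) - 1 / 2)]
    set d : ℝ := |(a (r + i) : ℝ) / b (r + i) - 1 / 2| with hdd
    have hw0 : (0 : ℝ) ≤ ((w a b L (r + i) : ℕ) : ℝ) := Nat.cast_nonneg _
    set W : ℝ := ((w a b L (r + i) : ℕ) : ℝ) with hW
    have hx0 : 0 ≤ 2 ^ L * d := by positivity
    have hx1 : 2 * (2 ^ L * d) ≤ 2 ^ L := by nlinarith
    have h5 : (4 : ℝ) ^ L * d ^ 2 = (2 ^ L * d) ^ 2 := by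
      rw [h4]
      ring
    rw [h5]
    set x : ℝ := 2 ^ L * d with hx
    rcases le_total x 1 with hx2 | hx2
    · nlinarith
    · have h6 : (x - 1) ^ 2 ≤ W ^ 2 := by
        apply pow_le_pow_left₀
        · linarith
        · linarith
      nlinarith
  have hsum : (4 : ℝ) ^ L * (∑ i ∈ Finset.range L, ((a (i + r) : ℝ) / b (i + r) - 1 / 2) ^ 2)
      - L * 2 ^ L ≤ ((SS a b L r L : ℕ) : ℝ) := by
    unfold SS
    push_cast
    calc (4 : ℝ) ^ L * (∑ i ∈ Finset.range L, ((a (i + r) : ℝ) / b (i + r) - 1 / 2) ^ 2)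
        - L * 2 ^ L
        = ∑ i ∈ Finset.range L, ((4 : ℝ) ^ L * ((a (i + r) : ℝ) / b (i + r) - 1 / 2) ^ 2
            - 2 ^ L) := by
          rw [Finset.sum_sub_distrib, Finset.mul_sum, Finset.sum_const, Finset.card_range,
            nsmul_eq_mul]
      _ ≤ ∑ i ∈ Finset.range L, ((w a b L (r + i) : ℕ) : ℝ) ^ 2 :=
          Finset.sum_le_sum fun i _ => key i
  have h4 : (4 : ℝ) ^ L = 2 ^ L * 2 ^ L := by
    rw [← mul_pow]
    norm_num
  have h4pos : (0 : ℝ) < 4 ^ L := by positivity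
  have hfin : (C : ℝ) * 4 ^ L ≤ ((SS a b L r L : ℕ) : ℝ) := by
    have h7 : (4 : ℝ) ^ L * ((C : ℝ) + 1) ≤
        4 ^ L * (∑ i ∈ Finset.range L, ((a (i + r) : ℝ) / b (i + r) - 1 / 2) ^ 2) :=
      mul_le_mul_of_nonneg_left hL h4pos.le
    have h8 : (L : ℝ) * 2 ^ L ≤ 4 ^ L := by
      rw [h4]
      exact mul_le_mul_of_nonneg_right hpow hpos.le
    nlinarith
  exact_mod_cast hfin

/-- P5. A region with small biases exists arbitrarily far out. -/
theorem exists_small (hb0 : ∀ n, 0 < b n)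
    (hlim : Tendsto (fun n => (a n : ℝ) / b n) atTop (nhds (1 / 2))) (M L r : ℕ) :
    ∃ t : ℕ, r ≤ t ∧ ∀ i < L, e a b (t + i) * 2 ^ (M + 1) ≤ b (t + i) := by
  have hε : (0 : ℝ) < 1 / 2 ^ (M + 2) := by positivity
  obtain ⟨N, hN⟩ := (Metric.tendsto_atTop.1 hlim) _ hε
  refine ⟨max r N, le_max_left _ _, ?_⟩
  intro i _
  have h1 := hN (max r N + i) (le_trans (le_max_right r N) (Nat.le_add_right _ _))
  rw [Real.dist_eq] at h1
  have hb : (0 : ℝ) < b (max r N + i) := by exact_mod_cast hb0 (max r N + i)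
  have h2 : ((e a b (max r N + i) : ℕ) : ℝ) * 2 ^ (M + 1) ≤ b (max r N + i) := by
    rw [e_eq hb0]
    have h3 : |(a (max r N + i) : ℝ) / b (max r N + i) - 1 / 2| * 2 ^ (M + 2) ≤ 1 := by
      rw [← le_div_iff₀ (by positivity)]
      exact h1.le
    have h4 : 2 * (b (max r N + i) : ℝ) *
        |(a (max r N + i) : ℝ) / b (max r N + i) - 1 / 2| * 2 ^ (M + 1) =
        b (max r N + i) * (|(a (max r N + i) : ℝ) / b (max r N + i) - 1 / 2| * 2 ^ (M + 2)) := by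
      ring
    rw [h4]
    nlinarith
  exact_mod_cast h2

end H48K
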