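import Pool.Agent.Lib.H48K.Defs

/-!
# H48K, chunk R: the runs of the two rules
-/

open MeasureTheory Set Filter

namespace H48K

variable {a b s t M L : ℕ → ℕ}

private theorem r_u_succ (L : ℕ → ℕ) (n : ℕ) : u L (n + 1) = u L n + (L n + 1) := by
  unfold u
  rw [Finset.sum_range_succ]

private theorem r_u_mono (L : ℕ → ℕ) : StrictMono (u L) := by
  apply strictMono_nat_of_lt_succ
  intro n
  rw [r_u_succ]
  omega

private theorem r_u_ge (L : ℕ → ℕ) (n : ℕ) : n ≤ u L n := (r_u_mono L).id_le n

private theorem r_blk_eq (L : ℕ → ℕ) {n k : ℕ} (h1 : u L n ≤ k) (h2 : k < u L (n + 1)) :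
    blk L k = n := by
  have h : (Finset.range k).filter (fun m => u L (m + 1) ≤ k) = Finset.range n := by
    ext m
    rw [Finset.mem_filter, Finset.mem_range, Finset.mem_range]
    constructor
    · rintro ⟨_, h3⟩
      by_contra hc
      have h4 : u L (n + 1) ≤ u L (m + 1) := (r_u_mono L).monotone (by omega)
      omega
    · intro hm
      have h4 : u L (m + 1) ≤ u L n := (r_u_mono L).monotone (by omega)
      have h5 := r_u_ge L n
      exact ⟨by omega, by omega⟩
  unfold blk
  rw [h, Finset.card_range]

/-- R1. The block of `k` is the unique `n` with `u n ≤ k < u (n+1)`. -/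
theorem blk_spec (L : ℕ → ℕ) (k : ℕ) : u L (blk L k) ≤ k ∧ k < u L (blk L k + 1) := by
  classical
  have hex : ∃ n, k < u L (n + 1) := ⟨k, by have := r_u_ge L (k + 1); omega⟩
  have h2 : k < u L (Nat.find hex + 1) := Nat.find_spec hex
  have h1 : u L (Nat.find hex) ≤ k := by
    rcases Nat.eq_zero_or_pos (Nat.find hex) with h | h
    · rw [h]
      unfold u
      simp
    · have h3 : ¬ k < u L ((Nat.find hex - 1) + 1) := Nat.find_min hex (by omega)
      have h4 : (Nat.find hex - 1) + 1 = Nat.find hex := by omega
      rw [h4] at h3
      omega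
  rw [r_blk_eq L h1 h2]
  exact ⟨h1, h2⟩

theorem blk_eq (L : ℕ → ℕ) {n k : ℕ} (h1 : u L n ≤ k) (h2 : k < u L (n + 1)) : blk L k = n :=
  r_blk_eq L h1 h2

/-- R2. The run of the first rule: all places are different (in fact increasing), everything is selected,
the selected sequence is `BB`. -/
theorem sel_f1 (hP : Plan a b s t M L) (X : ℕ → Bool) :
    Sel (fun v => Part.some (f1 s t L v)) X (BB s t L X) := by
  classical
  obtain ⟨pos, hpos⟩ : ∃ pos : ℕ → ℕ, ∀ k, pos k =
      if k = u L (blk L k) then s (blk L k)
      else if X (s (blk L k)) then s (blk L k) + (k - u L (blk L k))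
      else t (blk L k) + (k - u L (blk L k)) - 1 := ⟨_, fun _ => rfl⟩
  have hhead : ∀ n, pos (u L n) = s n := by
    intro n
    have hb : blk L (u L n) = n := r_blk_eq L le_rfl (r_u_mono L (Nat.lt_succ_self n))
    rw [hpos, hb, if_pos rfl]
  refine ⟨pos, fun _ => true, ?_, ?_, ?_, ?_⟩
  · intro k
    have hlen : (List.ofFn (fun i : Fin k => X (pos i))).length = k := List.length_ofFn
    have hb := blk_spec L k
    refine congrArg Part.some ?_
    unfold f1
    rw [hlen, hpos]
    by_cases h : k = u L (blk L k)
    · rw [if_pos h, if_pos h]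
    · rw [if_neg h, if_neg h]
      have hik : u L (blk L k) < k := by omega
      have hg : (List.ofFn (fun i : Fin k => X (pos i))).getD (u L (blk L k)) false
          = X (s (blk L k)) := by
        rw [List.getD_eq_getElem _ _ (by rw [hlen]; exact hik), List.getElem_ofFn]
        show X (pos (u L (blk L k))) = _
        rw [hhead]
      rw [hg]
      by_cases hX : X (s (blk L k)) = true
      · rw [if_pos hX, if_pos hX]
      · rw [if_neg hX, if_neg hX]
  · apply StrictMono.injective
    apply strictMono_nat_of_lt_succ
    intro k
    obtain ⟨n, hn⟩ : ∃ n, n = blk L k := ⟨_, rfl⟩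
    have hb := blk_spec L k
    have hs := r_u_succ L (blk L k)
    have hle := hP.le (blk L k)
    have hsu := hP.succ (blk L k)
    rw [← hn] at hb hs hle hsu
    by_cases hk : k + 1 < u L (n + 1)
    · have hb' : blk L (k + 1) = n := r_blk_eq L (by omega) hk
      rw [hpos k, hpos (k + 1), hb', ← hn]
      by_cases hX : X (s n) = true
      · simp only [hX, if_true]
        by_cases h : k = u L n
        · rw [if_pos h, if_neg (by omega)]
          omega
        · rw [if_neg h, if_neg (by omega)]
          omega
      · simp only [if_neg hX]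
        by_cases h : k = u L n
        · rw [if_pos h, if_neg (by omega)]
          omega
        · rw [if_neg h, if_neg (by omega)]
          omega
    · have hk1 : k + 1 = u L (n + 1) := by omega
      have h2 : pos (k + 1) = s (n + 1) := by rw [hk1]; exact hhead (n + 1)
      rw [h2, hpos k, ← hn, hsu]
      by_cases hX : X (s n) = true
      · simp only [hX, if_true]
        by_cases h : k = u L n
        · rw [if_pos h]
          omega
        · rw [if_neg h]
          omega
      · simp only [if_neg hX]
        by_cases h : k = u L n
        · rw [if_pos h]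
          omega
        · rw [if_neg h]
          omega
  · simp only [Set.setOf_true]
    exact Set.infinite_univ
  · intro j
    have hn : Nat.nth (fun _ : ℕ => (true : Bool) = true) j = j := by
      simp
    show BB s t L X j = X (pos (Nat.nth (fun _ : ℕ => (true : Bool) = true) j))
    rw [hn, hpos]
    unfold BB
    by_cases h : j = u L (blk L j)
    · rw [if_pos h, if_pos h]
    · rw [if_neg h, if_neg h]
      by_cases hX : X (s (blk L j)) = true
      · rw [if_pos hX, if_pos hX]
      · rw [if_neg hX, if_neg hX]

end H48K
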