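import Pool.Agent.Lib.H48K.E4

/-!
# H48K, chunk TE: the probability that a word is selected
-/

open MeasureTheory Set Filter H69K

namespace H48K

open Classical in
/-- The exponent used in `word_le`. -/
private noncomputable def tephi (g : List Bool → ℕ) (c : List Bool → Bool) (v : List Bool)
    (θ : ℝ) (r : List Bool) (b : Bool) : ℝ :=
  if g r ∉ used g r ∧ c r = true ∧ cnt c r < v.length then
    (if b = v.getD (cnt c r) false then Real.log (2 - θ) else Real.log θ) else 0

private theorem te_q (n : ℕ) (b : Bool) : q (fair n) b = 1 / 2 := by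
  unfold q fair
  cases b
  · simp only [Bool.false_eq_true, if_false]
    norm_num
  · simp only [if_true]

private theorem te_good (g : List Bool → ℕ) (c : List Bool → Bool) (v : List Bool)
    (θ : ℝ) (h0 : 0 < θ) (h1 : θ < 1) : Good fair g (tephi g c v θ) := by
  intro r
  by_cases h : g r ∉ used g r ∧ c r = true ∧ cnt c r < v.length
  · left
    refine ⟨h.1, ?_⟩
    unfold tephi
    rw [if_pos h, if_pos h, te_q, te_q]
    have h2 : (0 : ℝ) < 2 - θ := by linarith
    cases hw : v.getD (cnt c r) false
    · rw [if_neg (by decide), if_pos rfl, Real.exp_log h0, Real.exp_log h2]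
      linarith
    · rw [if_pos rfl, if_neg (by decide), Real.exp_log h0, Real.exp_log h2]
      linarith
  · right
    unfold tephi
    exact ⟨if_neg h, if_neg h⟩

private theorem te_const (g : List Bool → ℕ) (c : List Bool → Bool) (v : List Bool) (θ : ℝ)
    (X : ℕ → Bool) {K k : ℕ} (hK : cnt c (hist g X K) = v.length) (hk : K ≤ k) :
    FF (tephi g c v θ) (hist g X k) = FF (tephi g c v θ) (hist g X K) := by
  induction k, hk using Nat.le_induction with
  | base => rfl
  | succ k hk ih =>
    rw [hist, FF, ih]
    have h1 := cnt_mono g c X hk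
    unfold tephi
    rw [if_neg fun h => by have := h.2.2; omega, add_zero]

/-- A bit of the prefix. -/
private theorem te_pre (X : ℕ → Bool) (n i : ℕ) (h : i < n) : (pre X n).getD i false = X i := by
  unfold pre
  rw [List.getD_eq_getElem?_getD, List.getElem?_ofFn, dif_pos h]
  rfl

private theorem te_FF (f : List Bool →. ℕ × Bool) (v : List Bool) (θ : ℝ) (X : ℕ → Bool) (n : ℕ)
    (k : ℕ) : ∀ l ∈ run f (pre X n) k, (∃ u, sw (pre X n) l ++ u = v) →
    FF (tephi (gf f) (cf f) v θ) (hist (gf f) X k) = (nsel l : ℝ) * Real.log (2 - θ) := by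
  induction k with
  | zero =>
    intro l hl _
    have h : l = [] := by
      rw [run] at hl
      exact Part.mem_some_iff.1 hl
    subst h
    simp [hist, FF, nsel]
  | succ k ih =>
    intro l hl hu
    have hH := run_hist f X n (k + 1) l hl
    rw [run] at hl
    obtain ⟨l', hl', hl2⟩ := Part.mem_bind_iff.1 hl
    obtain ⟨x, hx, hl3⟩ := Part.mem_bind_iff.1 hl2
    have hH' := run_hist f X n k l' hl'
    have hc' := run_cnt f X n k l' hl'
    have hlx : l = x :: l' := by
      unfold nxt at hl3
      by_cases hc : x.1 < (pre X n).length ∧ ∀ y ∈ l', y.1 ≠ x.1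
      · rw [if_pos hc] at hl3
        exact Part.mem_some_iff.1 hl3
      · rw [if_neg hc] at hl3
        exact absurd hl3 (Part.notMem_none _)
    subst hlx
    have hxn : x.1 < n := hH.2.2.2.2 x List.mem_cons_self
    have hrd : rd (pre X n) l' = (hist (gf f) X k).reverse := by
      rw [hH'.2.1]
      unfold rd
      congr 1
      apply List.map_congr_left
      intro y hy
      exact te_pre X n y.1 (hH'.2.2.2.2 y hy)
    have htot : tot f (hist (gf f) X k).reverse = x := by
      rw [← hrd]
      exact tot_eq (Part.eq_some_iff.2 hx)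
    have hg : gf f (hist (gf f) X k) = x.1 := by
      unfold gf at htot ⊢
      rw [htot]
    have hcx : cf f (hist (gf f) X k) = x.2 := by
      unfold cf
      rw [htot]
    obtain ⟨u, hu⟩ := hu
    rw [hist, FF]
    by_cases hs : x.2 = true
    · have hsw : sw (pre X n) (x :: l') = sw (pre X n) l' ++ [X x.1] := by
        unfold sw
        rw [List.filter_cons_of_pos (by simpa using hs), List.map_cons, List.reverse_cons,
          te_pre X n x.1 hxn]
      have hns : nsel (x :: l') = nsel l' + 1 := by
        unfold nsel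
        rw [List.filter_cons_of_pos (by simpa using hs), List.length_cons]
      have hswl : (sw (pre X n) l').length = nsel l' := by
        unfold sw nsel
        rw [List.length_reverse, List.length_map]
      rw [hsw, List.append_assoc] at hu
      rw [ih l' hl' ⟨_, hu⟩]
      have hlen : nsel l' < v.length := by
        rw [← hu, List.length_append, hswl]
        simp
      have hget : v.getD (nsel l') false = X x.1 := by
        rw [← hu, List.getD_append_right _ _ _ _ (by rw [hswl]), hswl]
        simp
      unfold tephi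
      rw [if_pos ⟨hH.2.2.1 k (by omega), by rw [hcx]; exact hs, by rw [hc'.1]; exact hlen⟩,
        hg, hc'.1, if_pos hget.symm, hns]
      push_cast
      ring
    · have hsw : sw (pre X n) (x :: l') = sw (pre X n) l' := by
        unfold sw
        rw [List.filter_cons_of_neg (by simpa using hs)]
      have hns : nsel (x :: l') = nsel l' := by
        unfold nsel
        rw [List.filter_cons_of_neg (by simpa using hs)]
      rw [hsw] at hu
      rw [ih l' hl' ⟨u, hu⟩, hns]
      unfold tephi
      rw [if_neg (fun h => hs (by rw [← hcx]; exact h.2.1)), add_zero]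

/-- TE. Compare the proof of `sel_word` in `Lib/H48K/S1.lean` (proved; same exponent `φ`, the event now speaks only
about the first `k` steps; use `run_hist`, `run_cnt`; the exponential functional is constant after
`v.length` selected bits). -/
theorem word_le (f : List Bool →. ℕ × Bool) (v : List Bool) :
    mu fair {X | ∃ n k, ∃ l ∈ run f (pre X n) k, sw (pre X n) l = v} ≤
      (2⁻¹ : ENNReal) ^ v.length := by
  classical
  have key : ∀ θ : ℝ, 0 < θ → θ < 1 →
      mu fair {X | ∃ n k, ∃ l ∈ run f (pre X n) k, sw (pre X n) l = v} ≤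
        ENNReal.ofReal ((2 - θ)⁻¹ ^ v.length) := by
    intro θ h0 h1
    set E : ℕ → Set (ℕ → Bool) :=
      fun k => {X | (v.length : ℝ) * Real.log (2 - θ) ≤
        FF (tephi (gf f) (cf f) v θ) (hist (gf f) X k)} with hE
    have hsub : {X | ∃ n k, ∃ l ∈ run f (pre X n) k, sw (pre X n) l = v} ⊆
        ⋃ K, ⋂ k ∈ Set.Ici K, E k := by
      rintro X ⟨n, K, l, hl, hv⟩
      rw [Set.mem_iUnion]
      refine ⟨K, ?_⟩
      rw [Set.mem_iInter₂]
      intro k hk
      have hns : nsel l = v.length := by
        rw [← hv]
        unfold sw nsel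
        rw [List.length_reverse, List.length_map]
      show (v.length : ℝ) * Real.log (2 - θ) ≤ FF (tephi (gf f) (cf f) v θ) (hist (gf f) X k)
      rw [te_const (gf f) (cf f) v θ X (by rw [(run_cnt f X n K l hl).1, hns]) hk,
        te_FF f v θ X n K l hl ⟨[], by rw [List.append_nil, hv]⟩, hns]
    have hmono : Monotone fun K => ⋂ k ∈ Set.Ici K, E k := by
      intro a b hab X hX
      rw [Set.mem_iInter₂] at hX ⊢
      intro k hk
      exact hX k (le_trans hab hk)
    have h2 : (0 : ℝ) < 2 - θ := by linarith
    have hexp : Real.exp (-((v.length : ℝ) * Real.log (2 - θ))) = (2 - θ)⁻¹ ^ v.length := by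
      rw [← mul_neg, Real.exp_nat_mul, Real.exp_neg, Real.exp_log h2]
    calc mu fair {X | ∃ n k, ∃ l ∈ run f (pre X n) k, sw (pre X n) l = v}
        ≤ mu fair (⋃ K, ⋂ k ∈ Set.Ici K, E k) := measure_mono hsub
      _ = ⨆ K, mu fair (⋂ k ∈ Set.Ici K, E k) := hmono.measure_iUnion
      _ ≤ ENNReal.ofReal (Real.exp (-((v.length : ℝ) * Real.log (2 - θ)))) := by
          refine iSup_le fun K => ?_
          refine le_trans (measure_mono (Set.iInter₂_subset K (Set.mem_Ici.2 le_rfl))) ?_
          exact markov fair (gf f) _ (te_good (gf f) (cf f) v θ h0 h1) K _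
      _ = ENNReal.ofReal ((2 - θ)⁻¹ ^ v.length) := by rw [hexp]
  have hlim : Tendsto (fun θ : ℝ => ENNReal.ofReal ((2 - θ)⁻¹ ^ v.length))
      (nhdsWithin 0 (Set.Ioi 0)) (nhds (ENNReal.ofReal ((2 - 0)⁻¹ ^ v.length))) := by
    apply ENNReal.tendsto_ofReal
    have hc : ContinuousAt (fun θ : ℝ => (2 - θ)⁻¹ ^ v.length) 0 := by
      apply ContinuousAt.pow
      apply ContinuousAt.inv₀
      · exact continuousAt_const.sub continuousAt_id
      · norm_num
    exact hc.tendsto.mono_left nhdsWithin_le_nhds
  have hval : ENNReal.ofReal ((2 - 0 : ℝ)⁻¹ ^ v.length) = (2⁻¹ : ENNReal) ^ v.length := by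
    rw [sub_zero, ENNReal.ofReal_pow (by norm_num), ENNReal.ofReal_inv_of_pos (by norm_num)]
    norm_num
  rw [← hval]
  refine ge_of_tendsto hlim ?_
  have h3 : Set.Ioo (0 : ℝ) 1 ∈ nhdsWithin (0 : ℝ) (Set.Ioi 0) :=
    Ioo_mem_nhdsGT (by norm_num)
  filter_upwards [h3] with θ hθ
  exact key θ hθ.1 hθ.2

end H48K
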