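import Pool.Agent.Lib.H48K.E2
import Pool.Agent.Lib.H48K.C2

/-!
# H48K, chunk TH: the test for the decisions is recursively enumerable
-/

open Set Filter

namespace H48K

variable {a b s t M L : ℕ → ℕ}

section

variable {α : Type*} [Primcodable α]

private theorem th_add {f g : α → ℕ} (hf : Computable f) (hg : Computable g) :
    Computable fun x => f x + g x :=
  Primrec.nat_add.to_comp.comp hf hg

private theorem th_sub {f g : α → ℕ} (hf : Computable f) (hg : Computable g) :
    Computable fun x => f x - g x :=
  Primrec.nat_sub.to_comp.comp hf hg

private theorem th_mul {f g : α → ℕ} (hf : Computable f) (hg : Computable g) :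
    Computable fun x => f x * g x :=
  Primrec.nat_mul.to_comp.comp hf hg

private theorem th_div {f g : α → ℕ} (hf : Computable f) (hg : Computable g) :
    Computable fun x => f x / g x :=
  Primrec.nat_div.to_comp.comp hf hg

private theorem th_pow {f g : α → ℕ} (hf : Computable f) (hg : Computable g) :
    Computable fun x => f x ^ g x := by
  have h : Primrec₂ ((· ^ ·) : ℕ → ℕ → ℕ) := Primrec₂.unpaired'.1 Nat.Primrec.pow
  exact h.to_comp.comp hf hg

private theorem th_lt {f g : α → ℕ} (hf : Computable f) (hg : Computable g) :
    Computable fun x => decide (f x < g x) :=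
  Primrec.nat_lt.decide.to_comp.comp hf hg

private theorem th_beq {f g : α → Bool} (hf : Computable f) (hg : Computable g) :
    Computable fun x => decide (f x = g x) :=
  (Primrec.eq (α := Bool)).decide.to_comp.comp hf hg

private theorem th_ite {β : Type*} [Primcodable β] {p : α → Prop} [DecidablePred p] {f g : α → β}
    (hp : Computable fun x => decide (p x)) (hf : Computable f) (hg : Computable g) :
    Computable fun x => if p x then f x else g x := by
  refine (Computable.cond hp hf hg).of_eq fun x => ?_
  by_cases h : p x <;> simp [h]

private theorem th_e (ha : Computable a) (hb : Computable b) {i : α → ℕ} (hi : Computable i) :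
    Computable fun x => e a b (i x) := by
  unfold e
  exact th_add (th_sub (th_mul (Computable.const 2) (ha.comp hi)) (hb.comp hi))
    (th_sub (hb.comp hi) (th_mul (Computable.const 2) (ha.comp hi)))

private theorem th_w (ha : Computable a) (hb : Computable b) {m i : α → ℕ} (hm : Computable m)
    (hi : Computable i) : Computable fun x => w a b (m x) (i x) := by
  unfold w
  exact th_div (th_mul (th_pow (Computable.const 2) hm) (th_e ha hb hi))
    (th_mul (Computable.const 2) (hb.comp hi))

private theorem th_SS (ha : Computable a) (hb : Computable b) {m r l : α → ℕ} (hm : Computable m)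
    (hr : Computable r) (hl : Computable l) : Computable fun x => SS a b (m x) (r x) (l x) := by
  unfold SS
  refine computable_sum (F := fun x i => w a b (m x) (r x + i) ^ 2) ?_ hl
  exact th_pow (α := α × ℕ) (th_w ha hb (hm.comp Computable.fst)
    (th_add (hr.comp Computable.fst) Computable.snd)) (Computable.const 2)

private theorem th_WW (ha : Computable a) (hb : Computable b) {m r l : α → ℕ} (hm : Computable m)
    (hr : Computable r) (hl : Computable l) : Computable fun x => WW a b (m x) (r x) (l x) := by
  unfold WW
  refine computable_sum (F := fun x i => w a b (m x) (r x + i)) ?_ hl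
  exact th_w (α := α × ℕ) ha hb (hm.comp Computable.fst)
    (th_add (hr.comp Computable.fst) Computable.snd)

private theorem th_AG (ha : Computable a) (hb : Computable b) {m r l : α → ℕ} (hm : Computable m)
    (hr : Computable r) (hl : Computable l) {y : α → ℕ → Bool} (hy : Computable₂ y) :
    Computable fun x => AG a b (m x) (r x) (l x) (y x) := by
  unfold AG
  refine computable_sum (F := fun x i =>
    if y x i = decide (b (r x + i) < 2 * a (r x + i)) then w a b (m x) (r x + i) else 0) ?_ hl
  have hri : Computable fun p : α × ℕ => r p.1 + p.2 :=
    th_add (hr.comp Computable.fst) Computable.snd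
  exact th_ite (α := α × ℕ) (th_beq hy (th_lt (hb.comp hri)
    (th_mul (Computable.const 2) (ha.comp hri)))) (th_w ha hb (hm.comp Computable.fst) hri)
    (Computable.const 0)

private theorem th_dec (ha : Computable a) (hb : Computable b) {m r l : α → ℕ} (hm : Computable m)
    (hr : Computable r) (hl : Computable l) {y : α → ℕ → Bool} (hy : Computable₂ y) :
    Computable fun x => dec a b (m x) (r x) (l x) (y x) := by
  unfold dec
  exact th_lt (th_add (th_SS ha hb hm hr hl)
    (th_mul (th_pow (Computable.const 2) hm) (th_WW ha hb hm hr hl)))
    (th_mul (th_pow (Computable.const 2) (th_add hm (Computable.const 1)))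
      (th_AG ha hb hm hr hl hy))

end

private theorem th_le {α : Type*} [Primcodable α] {f g : α → ℕ} (hf : Computable f)
    (hg : Computable g) : Computable fun x => decide (f x ≤ g x) :=
  Primrec.nat_le.decide.to_comp.comp hf hg

/-- TH. `re_exists` with a computable predicate (the private lemmas of `C2.lean` show that the decision is
computable; copy or export them). -/
theorem re_WD (ha : Computable a) (hb : Computable b) (hs : Computable s) (ht : Computable t)
    (hM : Computable M) (hL : Computable L) :
    REPred fun x : ℕ × List Bool => x.2 ∈ WD a b s t M L x.1 := by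
  let g : (ℕ × List Bool) × ℕ → Bool := fun q =>
    (decide (q.1.1 + 2 ≤ q.2) && decide (t q.2 + L q.2 ≤ q.1.2.length)) &&
      (!(dec a b (M q.2) (s q.2 + 1) (L q.2) (fun i => q.1.2.getD (s q.2 + 1 + i) false)) ||
        dec a b (M q.2) (s q.2 + 1) (L q.2) (fun i => q.1.2.getD (t q.2 + i) false))
  have hn : Computable fun q : (ℕ × List Bool) × ℕ => q.2 := Computable.snd
  have hw : Computable fun q : (ℕ × List Bool) × ℕ => q.1.2 := Computable.snd.comp Computable.fst
  have hm : Computable fun q : (ℕ × List Bool) × ℕ => q.1.1 := Computable.fst.comp Computable.fst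
  have hlen : Computable fun q : (ℕ × List Bool) × ℕ => q.1.2.length :=
    (Primrec.list_length.to_comp : Computable fun v : List Bool => v.length).comp hw
  have hs1 : Computable fun q : (ℕ × List Bool) × ℕ => s q.2 + 1 :=
    th_add (hs.comp hn) (Computable.const 1)
  have hy1 : Computable₂ fun (q : (ℕ × List Bool) × ℕ) (i : ℕ) =>
      q.1.2.getD (s q.2 + 1 + i) false := by
    have h1 : Computable fun p : ((ℕ × List Bool) × ℕ) × ℕ => s p.1.2 + 1 + p.2 :=
      th_add (hs1.comp Computable.fst) Computable.snd
    exact (Primrec.list_getD false).to_comp.comp (hw.comp Computable.fst) h1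
  have hy2 : Computable₂ fun (q : (ℕ × List Bool) × ℕ) (i : ℕ) =>
      q.1.2.getD (t q.2 + i) false := by
    have h1 : Computable fun p : ((ℕ × List Bool) × ℕ) × ℕ => t p.1.2 + p.2 :=
      th_add ((ht.comp hn).comp Computable.fst) Computable.snd
    exact (Primrec.list_getD false).to_comp.comp (hw.comp Computable.fst) h1
  have hd1 := th_dec ha hb (hM.comp hn) hs1 (hL.comp hn) hy1
  have hd2 := th_dec ha hb (hM.comp hn) hs1 (hL.comp hn) hy2
  have hg : Computable g :=
    Primrec.and.to_comp.comp
      (Primrec.and.to_comp.comp (th_le (th_add hm (Computable.const 2)) hn)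
        (th_le (th_add (ht.comp hn) (hL.comp hn)) hlen))
      (Primrec.or.to_comp.comp (Primrec.not.to_comp.comp hd1) hd2)
  have hP : REPred fun q : (ℕ × List Bool) × ℕ => g q = true :=
    (ComputablePred.computable_iff.2 ⟨g, hg, rfl⟩).to_re
  refine (re_exists hP).of_eq fun x => ?_
  simp only [WD, Set.mem_ofPred_eq, g, Bool.and_eq_true, Bool.or_eq_true, decide_eq_true_eq,
    Bool.not_eq_true', and_assoc]

end H48K
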