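import Pool.Agent.Lib.H48K.Defs3
import Pool.Agent.Lib.H48K.C

/-!
# H48K, chunk U1: places with a large bias
-/

open MeasureTheory Set Filter H69K

namespace H48K

/-- The probability of the value `c` at the place `n` is at least `1/2 + 1/(j+1)`. -/
def likely (a b : ℕ → ℕ) (j : ℕ) (c : Bool) (n : ℕ) : Bool :=
  decide ((j + 3) * b n ≤ 2 * (j + 1) * (if c then a n else b n - a n))

/-- The rule which reads all places in their order and selects the likely ones. -/
def fl (a b : ℕ → ℕ) (j : ℕ) (c : Bool) (v : List Bool) : ℕ × Bool :=
  (v.length, likely a b j c v.length)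

/-- The words of the test: many bits have been selected, and the portion of the value `c` is at most
`1/2 + 1/(2(j+1))`. -/
def WU (a b : ℕ → ℕ) (j : ℕ) (c : Bool) (N m : ℕ) : Set (List Bool) :=
  {w | ∃ k, ∃ l ∈ run (fun v => Part.some (fl a b j c v)) w k, N * (m + 1) ≤ nsel l ∧
    2 * (j + 1) * nval w l c ≤ (j + 2) * nsel l}

variable {a b : ℕ → ℕ}

/-- U1a. If the probabilities do not tend to `1/2`, infinitely many places are likely for some `j` and some
value. -/
theorem exists_likely (hab : ∀ n, a n ≤ b n) (hb0 : ∀ n, 0 < b n)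
    (h : ¬ Tendsto (fun n => (a n : ℝ) / b n) atTop (nhds (1 / 2))) :
    ∃ (j : ℕ) (c : Bool), Set.Infinite {n | likely a b j c n = true} := by
  rw [Metric.tendsto_atTop] at h
  push Not at h
  obtain ⟨ε, hε, hN⟩ := h
  obtain ⟨j, hj⟩ := exists_nat_one_div_lt hε
  have hlik : ∀ n, ε ≤ dist ((a n : ℝ) / b n) (1 / 2) →
      likely a b j true n = true ∨ likely a b j false n = true := by
    intro n hn
    have hbn : (0 : ℝ) < b n := by exact_mod_cast hb0 n
    have hj0 : (0 : ℝ) < (j : ℝ) + 1 := by positivity
    have h1 : 1 / ((j : ℝ) + 1) ≤ |(a n : ℝ) / b n - 1 / 2| := by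
      rw [Real.dist_eq] at hn
      exact hj.le.trans hn
    rcases le_abs.1 h1 with h2 | h2
    · left
      unfold likely
      rw [decide_eq_true_eq, if_pos rfl]
      have h3 : ((j : ℝ) + 3) * b n ≤ 2 * (j + 1) * a n := by
        have h4 : (1 / ((j : ℝ) + 1) + 1 / 2) * (2 * (j + 1) * b n) ≤ (a n : ℝ) / b n * (2 * (j + 1) * b n) :=
          mul_le_mul_of_nonneg_right (by linarith) (by positivity)
        have h5 : (1 / ((j : ℝ) + 1) + 1 / 2) * (2 * (j + 1) * b n) = ((j : ℝ) + 3) * b n := by
          field_simp
          ring
        have h6 : (a n : ℝ) / b n * (2 * (j + 1) * b n) = 2 * (j + 1) * a n := by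
          field_simp
        linarith
      exact_mod_cast h3
    · right
      unfold likely
      rw [decide_eq_true_eq, if_neg (by decide)]
      have h3 : ((j : ℝ) + 3) * b n ≤ 2 * (j + 1) * (b n - a n) := by
        have h4 : (1 / ((j : ℝ) + 1) + 1 / 2) * (2 * (j + 1) * b n) ≤
            (1 - (a n : ℝ) / b n) * (2 * (j + 1) * b n) :=
          mul_le_mul_of_nonneg_right (by linarith) (by positivity)
        have h5 : (1 / ((j : ℝ) + 1) + 1 / 2) * (2 * (j + 1) * b n) = ((j : ℝ) + 3) * b n := by
          field_simp
          ring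
        have h6 : (1 - (a n : ℝ) / b n) * (2 * (j + 1) * b n) = 2 * (j + 1) * (b n - a n) := by
          field_simp
        linarith
      have h7 : ((b n - a n : ℕ) : ℝ) = (b n : ℝ) - a n := by
        rw [Nat.cast_sub (hab n)]
      rw [← h7] at h3
      exact_mod_cast h3
  have hfr : ∃ᶠ n in atTop, likely a b j true n = true ∨ likely a b j false n = true := by
    rw [frequently_atTop]
    intro N
    obtain ⟨n, hn, hd⟩ := hN N
    exact ⟨n, hn, hlik n hd⟩
  rw [frequently_or_distrib] at hfr
  rcases hfr with h1 | h1
  · exact ⟨j, true, Nat.frequently_atTop_iff_infinite.1 h1⟩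
  · exact ⟨j, false, Nat.frequently_atTop_iff_infinite.1 h1⟩

/-- U1b. The rule is computable. -/
theorem computable_fl (ha : Computable a) (hb : Computable b) (j : ℕ) (c : Bool) :
    Computable (fl a b j c) := by
  have hlen : Computable (fun v : List Bool => v.length) := Primrec.list_length.to_comp
  have hA : Computable (fun v : List Bool => a v.length) := ha.comp hlen
  have hB : Computable (fun v : List Bool => b v.length) := hb.comp hlen
  have hBA : Computable (fun v : List Bool => b v.length - a v.length) :=
    Primrec.nat_sub.to_comp.comp hB hA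
  have hC : Computable (fun v : List Bool => if c then a v.length else b v.length - a v.length) := by
    cases c
    · simpa using hBA
    · simpa using hA
  have h1 : Computable (fun v : List Bool => (j + 3) * b v.length) :=
    Primrec.nat_mul.to_comp.comp (Computable.const (j + 3)) hB
  have h2 : Computable (fun v : List Bool =>
      2 * (j + 1) * (if c then a v.length else b v.length - a v.length)) :=
    Primrec.nat_mul.to_comp.comp (Computable.const (2 * (j + 1))) hC
  exact hlen.pair (Primrec.nat_le.decide.to_comp.comp h1 h2)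

end H48K
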