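import Pool.Agent.Lib.H48K.U1
import Pool.Agent.Lib.H48K.E4
import Pool.Agent.Lib.H48K.M1

/-!
# H48K, chunk U2: the measure of the test of the likely places
-/

open MeasureTheory Set Filter H69K

namespace H48K

variable {a b : ℕ → ℕ} {p : ℕ → unitInterval}

private theorem u2_succ {f : List Bool →. ℕ × Bool} {w : List Bool} {k : ℕ} {l' : List (ℕ × Bool)}
    (h : l' ∈ run f w (k + 1)) : ∃ l ∈ run f w k, ∃ x ∈ f (rd w l), l' = x :: l := by
  have h' : l' ∈ (run f w k).bind fun l => (f (rd w l)).bind fun x => (nxt w l x : Part (List (ℕ × Bool))) := h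
  obtain ⟨l, hl, h1⟩ := Part.mem_bind_iff.1 h'
  obtain ⟨x, hx, h2⟩ := Part.mem_bind_iff.1 h1
  have h3 : l' ∈ nxt w l x := Part.mem_ofOption.1 h2
  unfold nxt at h3
  split_ifs at h3 with hc
  · exact ⟨l, hl, x, hx, (Option.mem_some_iff.1 h3).symm⟩
  · exact absurd h3 (by simp)

/-- The decisions of the rule in a trace. -/
private theorem u2_trace (a b : ℕ → ℕ) (j : ℕ) (c : Bool) (w : List Bool) (k : ℕ) :
    ∀ l ∈ run (fun v => Part.some (fl a b j c v)) w k, ∀ x ∈ l, x.2 = likely a b j c x.1 := by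
  induction k with
  | zero =>
    intro l hl x hx
    have h0 : l = [] := Part.mem_some_iff.1 hl
    rw [h0] at hx
    simp at hx
  | succ k ih =>
    intro l' hl' x hx
    obtain ⟨l, hl, y, hy, rfl⟩ := u2_succ hl'
    rcases List.mem_cons.1 hx with rfl | h
    · have hy' : x = fl a b j c (rd w l) := Part.mem_some_iff.1 hy
      rw [hy']
      rfl
    · exact ih l hl x h

/-- Sums over the selected places, lower bound. -/
private theorem u2_sum_ge (p : ℕ → unitInterval) (t : ℝ) (l : List (ℕ × Bool))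
    (h : ∀ x ∈ l, x.2 = true → t ≤ (p x.1 : ℝ)) :
    t * nsel l ≤ ((l.filter fun x => x.2).map fun x => (p x.1 : ℝ)).sum := by
  induction l with
  | nil => simp [nsel]
  | cons x l ih =>
    have ih' := ih fun y hy => h y (List.mem_cons_of_mem _ hy)
    unfold nsel at ih' ⊢
    rw [List.filter_cons]
    by_cases hb : x.2 = true
    · have h1 := h x (List.mem_cons_self) hb
      rw [if_pos hb, List.map_cons, List.sum_cons, List.length_cons]
      push_cast
      linarith
    · rw [if_neg hb]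
      exact ih'

/-- Sums over the selected places, upper bound. -/
private theorem u2_sum_le (p : ℕ → unitInterval) (t : ℝ) (l : List (ℕ × Bool))
    (h : ∀ x ∈ l, x.2 = true → (p x.1 : ℝ) ≤ t) :
    ((l.filter fun x => x.2).map fun x => (p x.1 : ℝ)).sum ≤ t * nsel l := by
  induction l with
  | nil => simp [nsel]
  | cons x l ih =>
    have ih' := ih fun y hy => h y (List.mem_cons_of_mem _ hy)
    unfold nsel at ih' ⊢
    rw [List.filter_cons]
    by_cases hb : x.2 = true
    · have h1 := h x (List.mem_cons_self) hb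
      rw [if_pos hb, List.map_cons, List.sum_cons, List.length_cons]
      push_cast
      linarith
    · rw [if_neg hb]
      exact ih'

/-- The union of the deviation events from some place on. -/
theorem u2_union (p : ℕ → unitInterval) (g : List Bool → ℕ) (c : List Bool → Bool) (l : ℝ)
    (hl : |l| ≤ 1) (hl0 : l ≠ 0) :
    ∃ N : ℕ, ∀ m, mu p (⋃ i : ℕ, EvL p g c l (N * (m + 1) + i)) ≤ (2⁻¹ : ENNReal) ^ m := by
  set r : ℝ := Real.exp (-(l ^ 2)) with hr
  have hr0 : 0 < r := Real.exp_pos _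
  have hr1 : r < 1 := by
    rw [hr, Real.exp_lt_one_iff]
    have : 0 < l ^ 2 := by positivity
    linarith
  obtain ⟨N, hN⟩ := exists_pow_lt_of_lt_one (show (0 : ℝ) < (1 - r) / 2 by linarith) hr1
  refine ⟨N, fun m => ?_⟩
  have hpow : ∀ n : ℕ, Real.exp (-(l ^ 2 * n)) = r ^ n := by
    intro n
    rw [hr, ← Real.exp_nat_mul]
    congr 1
    ring
  have hgeo : HasSum (fun i : ℕ => r ^ (N * (m + 1) + i)) (r ^ (N * (m + 1)) * (1 - r)⁻¹) := by
    have := (hasSum_geometric_of_lt_one hr0.le hr1).mul_left (r ^ (N * (m + 1)))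
    simpa [pow_add] using this
  have hfin : r ^ (N * (m + 1)) * (1 - r)⁻¹ ≤ (2⁻¹ : ℝ) ^ m := by
    have h1 : r ^ (N * (m + 1)) = (r ^ N) ^ m * r ^ N := by
      rw [← pow_mul, ← pow_add]
      congr 1
    have h2 : (r ^ N) ^ m ≤ (2⁻¹ : ℝ) ^ m := by
      apply pow_le_pow_left₀ (by positivity)
      linarith
    have h3 : (0 : ℝ) < 1 - r := by linarith
    rw [h1, mul_assoc]
    have h4 : r ^ N * (1 - r)⁻¹ ≤ 1 := by
      rw [← div_eq_mul_inv, div_le_one h3]
      linarith
    calc (r ^ N) ^ m * (r ^ N * (1 - r)⁻¹) ≤ (r ^ N) ^ m * 1 :=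
          mul_le_mul_of_nonneg_left h4 (by positivity)
      _ ≤ (2⁻¹ : ℝ) ^ m := by rw [mul_one]; exact h2
  calc mu p (⋃ i : ℕ, EvL p g c l (N * (m + 1) + i))
      ≤ ∑' i : ℕ, mu p (EvL p g c l (N * (m + 1) + i)) := measure_iUnion_le _
    _ ≤ ∑' i : ℕ, ENNReal.ofReal (r ^ (N * (m + 1) + i)) := by
        refine ENNReal.tsum_le_tsum fun i => ?_
        rw [← hpow]
        exact measure_EvL_le p g c l hl _
    _ = ENNReal.ofReal (∑' i : ℕ, r ^ (N * (m + 1) + i)) :=
        (ENNReal.ofReal_tsum_of_nonneg (fun i => by positivity) hgeo.summable).symm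
    _ = ENNReal.ofReal (r ^ (N * (m + 1)) * (1 - r)⁻¹) := by rw [hgeo.tsum_eq]
    _ ≤ ENNReal.ofReal ((2⁻¹ : ℝ) ^ m) := ENNReal.ofReal_le_ofReal hfin
    _ = (2⁻¹ : ENNReal) ^ m := by
        rw [ENNReal.ofReal_pow (by norm_num), ENNReal.ofReal_inv_of_pos (by norm_num)]
        norm_num

/-- U2. As `exists_WL` (chunk TA), but simpler: all selected places have probability `≥ 1/2 + ε` of the value `c`,
`ε = 1/(j+1)`, and the portion of `c` is `≤ 1/2 + ε/2`, so (for `c = true`) `DD ≤ - ε n/2`, `n = nsel l`, and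
`X ∈ EvL p .. (- ε/4) n` (as `2 l^2 n = ε^2 n/8 = l (- ε n/2)`); for `c = false`: `DD ≥ ε n/2`, `l = ε/4`. Sum
`measure_EvL_le` over `n ≥ N (m+1)`. (The selected places of a trace are likely: induction on `k`.) -/
theorem exists_WU (hab : ∀ n, a n ≤ b n) (hb0 : ∀ n, 0 < b n)
    (hp : ∀ n, (p n : ℝ) = (a n : ℝ) / b n) (j : ℕ) (c : Bool) :
    ∃ N : ℕ, ∀ m, mu p (Op (WU a b j c N m)) ≤ (2⁻¹ : ENNReal) ^ m := by
  set f : List Bool →. ℕ × Bool := fun v => Part.some (fl a b j c v) with hf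
  set ε : ℝ := 1 / ((j : ℝ) + 1) with hε
  have hj : (0 : ℝ) < (j : ℝ) + 1 := by positivity
  have hε0 : 0 < ε := by positivity
  have hε1 : ε ≤ 1 := by
    rw [hε, div_le_one hj]
    have : (0 : ℝ) ≤ j := Nat.cast_nonneg j
    linarith
  have hεj : ε * ((j : ℝ) + 1) = 1 := by
    rw [hε]
    field_simp
  -- probabilities of the likely places
  have hlik : ∀ n, likely a b j c n = true →
      ((c = true → 1 / 2 + ε ≤ (p n : ℝ)) ∧ (c = false → (p n : ℝ) ≤ 1 / 2 - ε)) := by
    intro n hn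
    unfold likely at hn
    have hn' := of_decide_eq_true hn
    have hbn : (0 : ℝ) < b n := by exact_mod_cast hb0 n
    constructor
    · intro hc
      rw [if_pos hc] at hn'
      have h1 : ((j : ℝ) + 3) * b n ≤ 2 * ((j : ℝ) + 1) * a n := by exact_mod_cast hn'
      rw [hp n, le_div_iff₀ hbn]
      have h2 : ε * (((j : ℝ) + 3) * b n) ≤ ε * (2 * ((j : ℝ) + 1) * a n) :=
        mul_le_mul_of_nonneg_left h1 hε0.le
      have h3 : ε * (2 * ((j : ℝ) + 1) * a n) = 2 * a n := by
        calc ε * (2 * ((j : ℝ) + 1) * a n) = (ε * ((j : ℝ) + 1)) * (2 * a n) := by ring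
          _ = 2 * a n := by rw [hεj, one_mul]
      have h4 : ε * (((j : ℝ) + 3) * b n) = b n + 2 * ε * b n := by
        calc ε * (((j : ℝ) + 3) * b n) = (ε * ((j : ℝ) + 1)) * b n + 2 * ε * b n := by ring
          _ = b n + 2 * ε * b n := by rw [hεj, one_mul]
      rw [h3, h4] at h2
      linarith
    · intro hc
      rw [if_neg (by rw [hc]; decide)] at hn'
      have h0 : ((b n - a n : ℕ) : ℝ) = (b n : ℝ) - a n := Nat.cast_sub (hab n)
      have h1 : ((j : ℝ) + 3) * b n ≤ 2 * ((j : ℝ) + 1) * ((b n : ℝ) - a n) := by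
        rw [← h0]
        exact_mod_cast hn'
      rw [hp n, div_le_iff₀ hbn]
      have h2 : ε * (((j : ℝ) + 3) * b n) ≤ ε * (2 * ((j : ℝ) + 1) * ((b n : ℝ) - a n)) :=
        mul_le_mul_of_nonneg_left h1 hε0.le
      have h3 : ε * (2 * ((j : ℝ) + 1) * ((b n : ℝ) - a n)) = 2 * ((b n : ℝ) - a n) := by
        calc ε * (2 * ((j : ℝ) + 1) * ((b n : ℝ) - a n))
            = (ε * ((j : ℝ) + 1)) * (2 * ((b n : ℝ) - a n)) := by ring
          _ = 2 * ((b n : ℝ) - a n) := by rw [hεj, one_mul]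
      have h4 : ε * (((j : ℝ) + 3) * b n) = b n + 2 * ε * b n := by
        calc ε * (((j : ℝ) + 3) * b n) = (ε * ((j : ℝ) + 1)) * b n + 2 * ε * b n := by ring
          _ = b n + 2 * ε * b n := by rw [hεj, one_mul]
      rw [h3, h4] at h2
      linarith
  -- the parameter of the deviation event
  set s : ℝ := if c = true then -(ε / 4) else ε / 4 with hs
  have hs0 : s ≠ 0 := by
    rw [hs]
    split_ifs
    · have : (0 : ℝ) < ε / 4 := by positivity
      linarith
    · positivity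
  have hs1 : |s| ≤ 1 := by
    rw [hs]
    split_ifs
    · rw [abs_neg, abs_of_pos (by positivity)]
      linarith
    · rw [abs_of_pos (by positivity)]
      linarith
  have hs2 : s ^ 2 = ε ^ 2 / 16 := by
    rw [hs]
    split_ifs <;> ring
  obtain ⟨N, hN⟩ := u2_union p (gf f) (cf f) s hs1 hs0
  refine ⟨N, fun m => le_trans (measure_mono ?_) (hN m)⟩
  intro X hX
  unfold Op at hX
  rw [Set.mem_iUnion₂] at hX
  obtain ⟨w, ⟨k, l, hl, h1, h2⟩, hw⟩ := hX
  have hw' : pre X w.length = w := hw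
  rw [← hw'] at hl h2
  set n := w.length with hn
  clear_value n
  have htr := u2_trace a b j c (pre X n) k l hl
  obtain ⟨q1, q2, q3, q4, q5⟩ := run_hist f X n k l hl
  obtain ⟨c1, c2⟩ := run_cnt f X n k l hl
  have hD := run_DD p f X n k l hl
  rw [Set.mem_iUnion]
  refine ⟨nsel l - N * (m + 1), ?_⟩
  have he : N * (m + 1) + (nsel l - N * (m + 1)) = nsel l := by omega
  rw [he]
  refine ⟨k, c1, q3, ?_⟩
  rw [hD]
  -- the inequality
  have h2' : 2 * ((j : ℝ) + 1) * nval (pre X n) l c ≤ ((j : ℝ) + 2) * nsel l := by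
    exact_mod_cast h2
  have h3 : 2 * (nval (pre X n) l c : ℝ) ≤ (1 + ε) * nsel l := by
    have h4 : ε * (2 * ((j : ℝ) + 1) * nval (pre X n) l c) ≤ ε * (((j : ℝ) + 2) * nsel l) :=
      mul_le_mul_of_nonneg_left h2' hε0.le
    have h5 : ε * (2 * ((j : ℝ) + 1) * nval (pre X n) l c) = 2 * nval (pre X n) l c := by
      calc ε * (2 * ((j : ℝ) + 1) * nval (pre X n) l c)
          = (ε * ((j : ℝ) + 1)) * (2 * nval (pre X n) l c) := by ring
        _ = 2 * nval (pre X n) l c := by rw [hεj, one_mul]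
    have h6 : ε * (((j : ℝ) + 2) * nsel l) = (1 + ε) * nsel l := by
      calc ε * (((j : ℝ) + 2) * nsel l) = (ε * ((j : ℝ) + 1)) * nsel l + ε * nsel l := by ring
        _ = (1 + ε) * nsel l := by rw [hεj]; ring
    rw [h5, h6] at h4
    exact h4
  have hns : (0 : ℝ) ≤ nsel l := Nat.cast_nonneg _
  rw [hs2]
  by_cases hc : c = true
  · have hs' : s = -(ε / 4) := by rw [hs, if_pos hc]
    have hsum := u2_sum_ge p (1 / 2 + ε) l (fun x hx hx2 =>
      (hlik x.1 ((htr x hx).symm.trans hx2)).1 hc)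
    rw [hc] at h3
    rw [hs']
    have h7 : (nval (pre X n) l true : ℝ) -
        ((l.filter fun x => x.2).map fun x => (p x.1 : ℝ)).sum ≤ -(ε / 2 * nsel l) := by
      linarith
    have h8 := mul_le_mul_of_nonneg_left h7 (show (0 : ℝ) ≤ ε / 4 by positivity)
    nlinarith [h8]
  · have hc' : c = false := by simpa using hc
    have hs' : s = ε / 4 := by rw [hs, if_neg hc]
    have hsum := u2_sum_le p (1 / 2 - ε) l (fun x hx hx2 =>
      (hlik x.1 ((htr x hx).symm.trans hx2)).2 hc')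
    rw [hc'] at h3
    rw [hs']
    have c2' : (nsel l : ℝ) = nval (pre X n) l true + nval (pre X n) l false := by
      exact_mod_cast c2
    have h7 : ε / 2 * nsel l ≤ (nval (pre X n) l true : ℝ) -
        ((l.filter fun x => x.2).map fun x => (p x.1 : ℝ)).sum := by
      linarith
    have h8 := mul_le_mul_of_nonneg_left h7 (show (0 : ℝ) ≤ ε / 4 by positivity)
    nlinarith [h8]

end H48K
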