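import Pool.Agent.Lib.H48K.Defs2

/-!
# H48K, chunk V1: nonnegative supermartingales of a product measure are bounded almost surely
-/

open MeasureTheory Set Filter H69K

namespace H48K

/-- The supermartingale stopped at the level `c`. -/
private noncomputable def v1St (M : List Bool → ℝ) (c : ℝ) : List Bool → ℝ
  | [] => M []
  | b :: r => if c ≤ v1St M c r then v1St M c r else M (b :: r)

private theorem v1_used (r : List Bool) : ∀ n ∈ used List.length r, n < r.length := by
  induction r with
  | nil => simp [used]
  | cons b r ih =>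
    intro n hn
    rw [used, Finset.mem_insert] at hn
    rw [List.length_cons]
    rcases hn with rfl | hn
    · exact Nat.lt_succ_self _
    · exact (ih n hn).trans (Nat.lt_succ_self _)

private theorem v1_fresh (r : List Bool) : r.length ∉ used List.length r := fun h =>
  lt_irrefl _ (v1_used r _ h)

private theorem v1_eq (M : List Bool → ℝ) (c : ℝ) (r : List Bool) (h : ¬ c ≤ v1St M c r) :
    v1St M c r = M r := by
  cases r with
  | nil => rfl
  | cons b r =>
    unfold v1St at h ⊢
    by_cases h1 : c ≤ v1St M c r
    · rw [if_pos h1] at h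
      exact (h h1).elim
    · rw [if_neg h1]

private theorem v1_nonneg (M : List Bool → ℝ) (h0 : ∀ r, 0 ≤ M r) (c : ℝ) (r : List Bool) :
    0 ≤ v1St M c r := by
  induction r with
  | nil => exact h0 _
  | cons b r ih =>
    unfold v1St
    split_ifs
    · exact ih
    · exact h0 _

private theorem v1_sum (p : ℕ → unitInterval) (M : List Bool → ℝ)
    (h : ∀ r : List Bool, q (p r.length) true * M (true :: r) +
      q (p r.length) false * M (false :: r) ≤ M r) (c : ℝ) (k : ℕ) :
    ∑ r ∈ lists k, V p List.length r * v1St M c r ≤ M [] := by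
  induction k with
  | zero => simp [lists, v1St, V_nil]
  | succ k ih =>
    rw [sum_lists]
    refine le_trans (Finset.sum_le_sum fun r _ => ?_) ih
    by_cases hc : c ≤ v1St M c r
    · have e1 : ∀ b, v1St M c (b :: r) = v1St M c r := by
        intro b
        conv_lhs => unfold v1St
        rw [if_pos hc]
      rw [e1, e1, ← add_mul, V_add]
    · have e1 : ∀ b, v1St M c (b :: r) = M (b :: r) := by
        intro b
        conv_lhs => unfold v1St
        rw [if_neg hc]
      rw [e1, e1, V_fresh p List.length r (v1_fresh r), V_fresh p List.length r (v1_fresh r),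
        v1_eq M c r hc]
      have h2 : V p List.length r * q (p r.length) true * M (true :: r) +
          V p List.length r * q (p r.length) false * M (false :: r) =
          V p List.length r * (q (p r.length) true * M (true :: r) +
            q (p r.length) false * M (false :: r)) := by ring
      rw [h2]
      exact mul_le_mul_of_nonneg_left (h r) (V_nonneg p _ r)

private theorem v1_meas (p : ℕ → unitInterval) (M : List Bool → ℝ) (h0 : ∀ r, 0 ≤ M r)
    (h : ∀ r : List Bool, q (p r.length) true * M (true :: r) +
      q (p r.length) false * M (false :: r) ≤ M r) {c : ℝ} (hc : 0 < c) (k : ℕ) :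
    mu p {X | c ≤ v1St M c (hist List.length X k)} ≤ ENNReal.ofReal (M [] / c) := by
  classical
  have h1 : {X | c ≤ v1St M c (hist List.length X k)} ⊆
      ⋃ r ∈ (lists k).filter (fun r => c ≤ v1St M c r), cyl List.length r := by
    intro X hX
    rw [Set.mem_iUnion₂]
    have h2 := length_hist List.length X k
    refine ⟨hist List.length X k, ?_, ?_⟩
    · rw [Finset.mem_filter]
      refine ⟨?_, hX⟩
      have h3 := mem_lists (hist List.length X k)
      rwa [h2] at h3
    · rw [mem_cyl_iff, h2]
  have h5 : ∀ r, mu p (cyl List.length r) = ENNReal.ofReal (V p List.length r) := by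
    intro r
    unfold V
    rw [ofReal_measureReal]
  calc mu p {X | c ≤ v1St M c (hist List.length X k)}
      ≤ mu p (⋃ r ∈ (lists k).filter (fun r => c ≤ v1St M c r), cyl List.length r) :=
        measure_mono h1
    _ ≤ ∑ r ∈ (lists k).filter (fun r => c ≤ v1St M c r), mu p (cyl List.length r) :=
        measure_biUnion_finset_le _ _
    _ = ∑ r ∈ (lists k).filter (fun r => c ≤ v1St M c r), ENNReal.ofReal (V p List.length r) :=
        Finset.sum_congr rfl fun r _ => h5 r
    _ = ENNReal.ofReal (∑ r ∈ (lists k).filter (fun r => c ≤ v1St M c r), V p List.length r) := by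
        rw [ENNReal.ofReal_sum_of_nonneg fun r _ => V_nonneg p _ r]
    _ ≤ ENNReal.ofReal (M [] / c) := by
        apply ENNReal.ofReal_le_ofReal
        rw [le_div_iff₀ hc, Finset.sum_mul]
        refine le_trans ?_ (v1_sum p M h c k)
        refine le_trans (Finset.sum_le_sum (g := fun r => V p List.length r * v1St M c r)
          fun r hr => ?_) ?_
        · exact mul_le_mul_of_nonneg_left (Finset.mem_filter.1 hr).2 (V_nonneg p _ r)
        · exact Finset.sum_le_sum_of_subset_of_nonneg (Finset.filter_subset _ _)
            fun r _ _ => mul_nonneg (V_nonneg p _ r) (v1_nonneg M h0 c r)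

/-- V1 (Ville). `hist List.length X n` is the reversed list of the first `n` bits.
Proof: for `c > 0` let `St [] = M []`, `St (b :: r) = if c ≤ St r then St r else M (b :: r)`. Then
`∑_(r ∈ lists k) V p List.length r * St r ≤ M []` (induction, `H69K.sum_lists`, `H69K.V_fresh`, `H69K.V_add`), so
`μ {c ≤ St (hist k)} ≤ M [] / c` (as in `H69K.markov`); these events increase with `k` and contain
`{∃ n ≤ k, c ≤ M (hist n)}`. Let `c → ∞`. (`List.length r ∉ used List.length r`.) -/
theorem ville (p : ℕ → unitInterval) (M : List Bool → ℝ) (h0 : ∀ r, 0 ≤ M r)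
    (h : ∀ r : List Bool, q (p r.length) true * M (true :: r) +
      q (p r.length) false * M (false :: r) ≤ M r) :
    ∀ᵐ X ∂(mu p), ∃ C : ℝ, ∀ n, M (hist List.length X n) ≤ C := by
  have key : ∀ c : ℝ, 0 < c → mu p {X | ∃ n, c ≤ M (hist List.length X n)} ≤
      ENNReal.ofReal (M [] / c) := by
    intro c hc
    have hmono : Monotone fun k => {X : ℕ → Bool | c ≤ v1St M c (hist List.length X k)} := by
      apply monotone_nat_of_le_succ
      intro k X hX
      have hX' : c ≤ v1St M c (hist List.length X k) := hX
      show c ≤ v1St M c (hist List.length X (k + 1))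
      rw [hist]
      unfold v1St
      rw [if_pos hX']
      exact hX'
    have hsub : {X | ∃ n, c ≤ M (hist List.length X n)} ⊆
        ⋃ k, {X : ℕ → Bool | c ≤ v1St M c (hist List.length X k)} := by
      rintro X ⟨n, hn⟩
      rw [Set.mem_iUnion]
      refine ⟨n, ?_⟩
      show c ≤ v1St M c (hist List.length X n)
      by_contra hcon
      have := v1_eq M c _ hcon
      rw [this] at hcon
      exact hcon hn
    calc mu p {X | ∃ n, c ≤ M (hist List.length X n)}
        ≤ mu p (⋃ k, {X : ℕ → Bool | c ≤ v1St M c (hist List.length X k)}) := measure_mono hsub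
      _ = ⨆ k, mu p {X : ℕ → Bool | c ≤ v1St M c (hist List.length X k)} := hmono.measure_iUnion
      _ ≤ ENNReal.ofReal (M [] / c) := iSup_le fun k => v1_meas p M h0 h hc k
  rw [ae_iff]
  have hle : ∀ c : ℝ, 0 < c → mu p {X | ¬ ∃ C : ℝ, ∀ n, M (hist List.length X n) ≤ C} ≤
      ENNReal.ofReal (M [] / c) := by
    intro c hc
    refine le_trans (measure_mono ?_) (key c hc)
    intro X hX
    by_contra hcon
    apply hX
    refine ⟨c, fun n => ?_⟩
    by_contra h1
    exact hcon ⟨n, (not_le.1 h1).le⟩
  have hlim : Tendsto (fun c : ℝ => ENNReal.ofReal (M [] / c)) atTop (nhds 0) := by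
    rw [← ENNReal.ofReal_zero]
    exact ENNReal.tendsto_ofReal (tendsto_const_nhds.div_atTop tendsto_id)
  refine le_antisymm (ge_of_tendsto hlim ?_) bot_le
  filter_upwards [eventually_gt_atTop (0 : ℝ)] with c hc
  exact hle c hc

end H48K
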