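import Pool.Agent.Lib.H48K.Defs5

/-!
# H48K, chunk W2: the frequencies of the blocks of a KL-stochastic sequence
-/

open MeasureTheory Set Filter H69K

namespace H48K

private theorem w2_seg_succ (X : ℕ → Bool) (a l : ℕ) : seg X a (l + 1) = seg X a l ++ [X (a + l)] := by
  unfold seg
  rw [List.ofFn_succ', List.concat_eq_append]
  rfl

private theorem w2_seg_len (X : ℕ → Bool) (a l : ℕ) : (seg X a l).length = l := List.length_ofFn

/-- The rule: it reads all places in their order and selects the place `t + i L + |w|` after `w`. -/
private def w2f (t L : ℕ) (w : List Bool) (v : List Bool) : ℕ × Bool :=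
  (v.length, decide (t ≤ v.length) &&
    (decide ((v.length - t) % L = w.length) && decide (v.drop (v.length - w.length) = w)))

private theorem w2f_comp (t L : ℕ) (w : List Bool) : Computable (w2f t L w) := by
  have hlen : Computable (fun v : List Bool => v.length) := Computable.list_length
  have hlenP : Primrec (fun v : List Bool => v.length) := Primrec.list_length
  have h1 : Computable (fun v : List Bool => decide (t ≤ v.length)) :=
    Primrec.nat_le.decide.to_comp.comp (Computable.const t) hlen
  have h2 : Computable (fun v : List Bool => decide ((v.length - t) % L = w.length)) :=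
    Primrec.eq.decide.to_comp.comp
      (Primrec.nat_mod.comp (Primrec.nat_sub.comp hlenP (Primrec.const t)) (Primrec.const L)).to_comp
      (Computable.const w.length)
  have h3 : Computable (fun v : List Bool => decide (v.drop (v.length - w.length) = w)) :=
    Primrec.eq.decide.to_comp.comp
      (Primrec.list_drop.comp (Primrec.nat_sub.comp hlenP (Primrec.const w.length)) Primrec.id).to_comp
      (Computable.const w)
  exact hlen.pair (Primrec.and.to_comp.comp h1 (Primrec.and.to_comp.comp h2 h3))

private theorem w2_drop (X : ℕ → Bool) (a l : ℕ) :
    (List.ofFn (fun i : Fin (a + l) => X i)).drop (a + l - l) = seg X a l := by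
  rw [Nat.add_sub_cancel]
  apply List.ext_getElem
  · rw [List.length_drop, List.length_ofFn, w2_seg_len]
    omega
  · intro i h1 h2
    unfold seg
    rw [List.getElem_drop, List.getElem_ofFn, List.getElem_ofFn]

private theorem w2_count (S : ℕ → Prop) [DecidablePred S] (Y : ℕ → Bool) (M : ℕ) :
    ((Finset.range M).filter (fun i => S i ∧ Y i = true)).card =
      ((Finset.range (Nat.count S M)).filter (fun j => Y (Nat.nth S j) = true)).card := by
  induction M with
  | zero =>
    rw [Nat.count_zero, Finset.range_zero, Finset.filter_empty, Finset.filter_empty]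
  | succ M ih =>
    rw [Finset.range_add_one, Finset.filter_insert, Nat.count_succ]
    by_cases hS : S M
    · rw [if_pos hS, Finset.range_add_one, Finset.filter_insert, Nat.nth_count hS]
      by_cases hY : Y M = true
      · rw [if_pos ⟨hS, hY⟩, if_pos hY, Finset.card_insert_of_notMem (by simp),
          Finset.card_insert_of_notMem (by simp), ih]
      · rw [if_neg (fun h => hY h.2), if_neg hY, ih]
    · rw [if_neg (fun h => hS h.1), if_neg hS, add_zero, ih]

private theorem w2_inf {S : ℕ → Prop} [DecidablePred S] {c : ℝ} (hc : 0 < c)
    (h : Tendsto (fun M : ℕ => (((Finset.range M).filter S).card : ℝ) / (M : ℝ)) atTop (nhds c)) :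
    {i | S i}.Infinite := by
  intro hfin
  have h1 : Tendsto (fun M : ℕ => (((Finset.range M).filter S).card : ℝ) / (M : ℝ)) atTop (nhds 0) := by
    have h2 : Tendsto (fun M : ℕ => ((hfin.toFinset.card : ℕ) : ℝ) / (M : ℝ)) atTop (nhds 0) :=
      tendsto_const_div_atTop_nhds_zero_nat _
    refine tendsto_of_tendsto_of_tendsto_of_le_of_le tendsto_const_nhds h2 (fun M => ?_) (fun M => ?_)
    · positivity
    · refine div_le_div_of_nonneg_right ?_ (Nat.cast_nonneg M)
      have h3 : ((Finset.range M).filter S).card ≤ hfin.toFinset.card := by
        refine Finset.card_le_card fun i hi => ?_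
        rw [Finite.mem_toFinset]
        exact (Finset.mem_filter.1 hi).2
      exact Nat.cast_le.2 h3
  exact absurd (tendsto_nhds_unique h h1) hc.ne'

/-- The step for a word followed by `true`. -/
private theorem w2_true (X : ℕ → Bool) (hX : KLT X) (t L : ℕ) (w : List Bool) (hw : w.length < L)
    (h : Tendsto (fun M : ℕ => (((Finset.range M).filter
      (fun i => seg X (t + i * L) w.length = w)).card : ℝ) / (M : ℝ)) atTop (nhds ((1 / 2) ^ w.length))) :
    Tendsto (fun M : ℕ => (((Finset.range M).filter
      (fun i => seg X (t + i * L) w.length = w ∧ X (t + i * L + w.length) = true)).card : ℝ) / (M : ℝ)) atTop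
        (nhds ((1 / 2) ^ (w.length + 1))) := by
  have hc : (0 : ℝ) < (1 / 2) ^ w.length := by positivity
  have hinf := w2_inf hc h
  set S : ℕ → Prop := fun i => seg X (t + i * L) w.length = w with hSdef
  letI hSd : DecidablePred S := fun i => inferInstanceAs (Decidable (seg X (t + i * L) w.length = w))
  let g : ℕ → ℕ := fun i => t + i * L + w.length
  have hg : StrictMono g := by
    intro i j hij
    have h1 : i * L < j * L := Nat.mul_lt_mul_of_pos_right hij (by omega)
    show t + i * L + w.length < t + j * L + w.length
    omega
  let sel : ℕ → Bool := fun k => (w2f t L w (List.ofFn (fun i : Fin k => X i))).2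
  have hsel : ∀ k, sel k = true ↔ t ≤ k ∧ (k - t) % L = w.length ∧
      (List.ofFn (fun i : Fin k => X i)).drop (k - w.length) = w := by
    intro k
    show (decide (t ≤ (List.ofFn (fun i : Fin k => X i)).length) &&
      (decide (((List.ofFn (fun i : Fin k => X i)).length - t) % L = w.length) &&
        decide ((List.ofFn (fun i : Fin k => X i)).drop
          ((List.ofFn (fun i : Fin k => X i)).length - w.length) = w))) = true ↔ _
    rw [List.length_ofFn, Bool.and_eq_true, Bool.and_eq_true, decide_eq_true_iff, decide_eq_true_iff,
      decide_eq_true_iff]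
  have hselg : ∀ i, sel (g i) = true ↔ S i := by
    intro i
    rw [hsel]
    show (t ≤ t + i * L + w.length ∧ (t + i * L + w.length - t) % L = w.length ∧
      (List.ofFn (fun j : Fin (t + i * L + w.length) => X j)).drop (t + i * L + w.length - w.length) = w) ↔
        seg X (t + i * L) w.length = w
    rw [w2_drop]
    constructor
    · exact fun h => h.2.2
    · intro h
      refine ⟨by omega, ?_, h⟩
      have h1 : t + i * L + w.length - t = w.length + i * L := by omega
      rw [h1, Nat.add_mul_mod_self_right, Nat.mod_eq_of_lt hw]
  have hrange : ∀ k, sel k = true → k ∈ Set.range g := by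
    intro k hk
    obtain ⟨h1, h2, -⟩ := (hsel k).1 hk
    refine ⟨(k - t) / L, ?_⟩
    show t + (k - t) / L * L + w.length = k
    have h3 := Nat.div_add_mod (k - t) L
    rw [h2, mul_comm] at h3
    omega
  have hselinf : Set.Infinite {k : ℕ | sel k = true} := by
    have h1 : (g '' {i | S i}).Infinite := hinf.image hg.injective.injOn
    refine h1.mono ?_
    rintro k ⟨i, hi, rfl⟩
    exact (hselg i).2 hi
  have hnth : ∀ j, Nat.nth (fun k => sel k = true) j = g (Nat.nth S j) := by
    intro j
    have h1 := Nat.nth_comp_of_strictMono (p := fun k => sel k = true) (n := j) hg hrange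
      (fun hfi => absurd hfi hselinf)
    rw [← h1]
    have h2 : (fun i => sel (g i) = true) = S := funext fun i => propext (hselg i)
    rw [h2]
  have hSel : Sel (fun v => Part.some (w2f t L w v)) X (fun j => X (Nat.nth (fun k => sel k = true) j)) :=
    ⟨fun k => k, sel, fun k => by
      show Part.some (w2f t L w (List.ofFn fun i : Fin k => X i)) = Part.some (k, sel k)
      congr 1
      refine Prod.ext ?_ rfl
      show (List.ofFn fun i : Fin k => X i).length = k
      exact List.length_ofFn, fun i j hij => hij, hselinf, fun j => rfl⟩
  have hLLN : LLN (fun j => X (Nat.nth (fun k => sel k = true) j)) := hX _ (w2f_comp t L w) _ hSel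
  have hN : Tendsto (fun M => Nat.count S M) atTop atTop := by
    refine tendsto_atTop_atTop_of_monotone (Nat.count_monotone S) fun b => ⟨Nat.nth S b, ?_⟩
    exact (Nat.count_nth_of_infinite hinf b).ge
  have h1 := (hLLN.comp hN).mul h
  have h2 : (1 / 2 : ℝ) * (1 / 2) ^ w.length = (1 / 2) ^ (w.length + 1) := by
    rw [pow_succ, mul_comm]
  rw [h2] at h1
  refine h1.congr fun M => ?_
  show (((Finset.range (Nat.count S M)).filter
      (fun j => X (Nat.nth (fun k => sel k = true) j) = true)).card : ℝ) / ((Nat.count S M : ℕ) : ℝ) *
      ((((Finset.range M).filter S).card : ℝ) / (M : ℝ)) =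
      (((Finset.range M).filter (fun i => S i ∧ X (g i) = true)).card : ℝ) / (M : ℝ)
  have h3 : ((Finset.range M).filter S).card = Nat.count S M := (Nat.count_eq_card_filter_range S M).symm
  have h4 : (Finset.range (Nat.count S M)).filter (fun j => X (Nat.nth (fun k => sel k = true) j) = true) =
      (Finset.range (Nat.count S M)).filter (fun j => X (g (Nat.nth S j)) = true) := by
    refine Finset.filter_congr fun j _ => ?_
    rw [hnth]
  have h5 := w2_count S (fun i => X (g i)) M
  rw [h3, h4, h5]
  by_cases h0 : Nat.count S M = 0
  · rw [h0, Finset.range_zero, Finset.filter_empty, Finset.card_empty]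
    simp
  · have h6 : ((Nat.count S M : ℕ) : ℝ) ≠ 0 := by exact_mod_cast h0
    field_simp

/-- W2a. For `l < L` and a word `w` of length `l` the frequency of the `i` for which the block
`X (t + i L), ..` of length `l` is `w` tends to `2^(-l)`. Induction on `l`: for `w` of length `l` consider the rule
which reads all places in their order and selects the place `t + i L + l` iff the `l` bits before it are `w` (total
computable: `k = v.length`, `t ≤ k`, `(k - t) % L = l`, `v.drop (k - l) = w`); by induction infinitely many bits are
selected, and by the law of large numbers half of them are `true`. -/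
theorem freq_pre (X : ℕ → Bool) (hX : KLT X) (t L : ℕ) (w : List Bool) (hw : w.length ≤ L)
    (hL : 0 < L) :
    Tendsto (fun M : ℕ => (((Finset.range M).filter
      (fun i => seg X (t + i * L) w.length = w)).card : ℝ) / (M : ℝ)) atTop
        (nhds ((1 / 2) ^ w.length)) := by
  induction w using List.reverseRecOn with
  | nil =>
    have h1 : Tendsto (fun _ : ℕ => (1 : ℝ)) atTop (nhds ((1 / 2) ^ (List.length ([] : List Bool)))) := by
      rw [List.length_nil, pow_zero]
      exact tendsto_const_nhds
    refine h1.congr' ?_
    filter_upwards [eventually_gt_atTop 0] with M hM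
    have h2 : (Finset.range M).filter (fun i => seg X (t + i * L) (List.length ([] : List Bool)) = []) =
        Finset.range M := by
      refine Finset.filter_true_of_mem fun i _ => ?_
      exact List.eq_nil_of_length_eq_zero (w2_seg_len X _ _)
    rw [h2, Finset.card_range, div_self]
    exact_mod_cast hM.ne'
  | append_singleton w c ih =>
    rw [List.length_append, List.length_singleton] at hw
    have hl : (w ++ [c]).length = w.length + 1 := by
      rw [List.length_append, List.length_singleton]
    have h := ih (by omega)
    have h1 := w2_true X hX t L w (by omega) h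
    have hset : ∀ i, seg X (t + i * L) (w ++ [c]).length = w ++ [c] ↔
        (seg X (t + i * L) w.length = w ∧ X (t + i * L + w.length) = c) := by
      intro i
      rw [hl, w2_seg_succ]
      constructor
      · intro h2
        have h3 := List.append_inj' h2 rfl
        exact ⟨h3.1, List.head_eq_of_cons_eq h3.2⟩
      · rintro ⟨h2, h3⟩
        rw [h2, h3]
    have hfil : ∀ M : ℕ, (Finset.range M).filter (fun i => seg X (t + i * L) (w ++ [c]).length = w ++ [c]) =
        (Finset.range M).filter (fun i => seg X (t + i * L) w.length = w ∧ X (t + i * L + w.length) = c) :=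
      fun M => Finset.filter_congr fun i _ => hset i
    rw [hl]
    rcases Bool.eq_false_or_eq_true c with hc | hc
    · refine h1.congr fun M => ?_
      rw [← hl, hfil, hc]
    · have h2 := h.sub h1
      have h3 : (1 / 2 : ℝ) ^ w.length - (1 / 2) ^ (w.length + 1) = (1 / 2) ^ (w.length + 1) := by
        rw [pow_succ]
        ring
      rw [h3] at h2
      refine h2.congr fun M => ?_
      have h4 : ((Finset.range M).filter (fun i => seg X (t + i * L) w.length = w)).card =
          ((Finset.range M).filter
            (fun i => seg X (t + i * L) w.length = w ∧ X (t + i * L + w.length) = true)).card +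
          ((Finset.range M).filter
            (fun i => seg X (t + i * L) w.length = w ∧ X (t + i * L + w.length) = false)).card := by
        have h5 := Finset.card_filter_add_card_filter_not
          (s := (Finset.range M).filter (fun i => seg X (t + i * L) w.length = w))
          (fun i => X (t + i * L + w.length) = true)
        rw [Finset.filter_filter, Finset.filter_filter] at h5
        rw [← h5]
        congr 2
        refine Finset.filter_congr fun i _ => ?_
        rw [Bool.not_eq_true]
      rw [← sub_div, ← hl, hfil, hc, h4]
      congr 1
      push_cast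
      ring

/-- W2b. For a set of words of length `L` (sum over its elements). -/
theorem freq_set (X : ℕ → Bool) (hX : KLT X) (t L : ℕ) (hL : 0 < L)
    (T : Finset (List Bool)) (hT : ∀ w ∈ T, w.length = L) :
    Tendsto (fun M : ℕ => (((Finset.range M).filter
      (fun i => seg X (t + i * L) L ∈ T)).card : ℝ) / (M : ℝ)) atTop
        (nhds ((T.card : ℝ) * (1 / 2) ^ L)) := by
  have h1 : Tendsto (fun M : ℕ => ∑ w ∈ T, (((Finset.range M).filter
      (fun i => seg X (t + i * L) w.length = w)).card : ℝ) / (M : ℝ)) atTop
        (nhds (∑ w ∈ T, (1 / 2 : ℝ) ^ w.length)) :=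
    tendsto_finset_sum _ fun w hw => freq_pre X hX t L w (hT w hw).le hL
  have h2 : ∑ w ∈ T, (1 / 2 : ℝ) ^ w.length = (T.card : ℝ) * (1 / 2) ^ L := by
    rw [Finset.sum_congr rfl fun w hw => by rw [hT w hw], Finset.sum_const, nsmul_eq_mul]
  rw [h2] at h1
  refine h1.congr fun M => ?_
  rw [← Finset.sum_div]
  congr 1
  have h3 : ((Finset.range M).filter (fun i => seg X (t + i * L) L ∈ T)).card =
      ∑ w ∈ T, (((Finset.range M).filter (fun i => seg X (t + i * L) L ∈ T)).filter
        (fun i => seg X (t + i * L) L = w)).card :=
    Finset.card_eq_sum_card_fiberwise fun i hi => (Finset.mem_filter.1 hi).2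
  rw [h3]
  push_cast
  refine Finset.sum_congr rfl fun w hw => ?_
  congr 2
  rw [Finset.filter_filter]
  refine Finset.filter_congr fun i _ => ?_
  rw [hT w hw]
  constructor
  · intro h
    exact ⟨h ▸ hw, h⟩
  · exact fun h => h.2

end H48K
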