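import Pool.Agent.Lib.H48K.Defs5

/-!
# H48K, chunk W9: the run of the first rule
-/

open MeasureTheory Set Filter

namespace H48K

variable {m : List Bool → ℕ} {d s t L : ℕ → ℕ}

/-- W9a. The stages are intervals. -/
theorem plan2_lt (hP : Plan2 m d s t L) (n : ℕ) : s n + 1 + L n ≤ t n ∧ s n < s (n + 1) := by
  have h1 := hP.ok n
  have h2 := hP.succ n
  unfold okP at h1
  rw [Bool.and_eq_true, decide_eq_true_eq] at h1
  have h3 := h1.1
  exact ⟨h3, by omega⟩

private theorem w9_mono (hP : Plan2 m d s t L) : StrictMono s :=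
  strictMono_nat_of_lt_succ fun n => (plan2_lt hP n).2

private theorem w9_ex (hP : Plan2 m d s t L) (k : ℕ) : ∃ N, s N ≤ k ∧ k < s (N + 1) := by
  induction k with
  | zero =>
    refine ⟨0, hP.zero.le, ?_⟩
    have h1 := (plan2_lt hP 0).2
    omega
  | succ k ih =>
    obtain ⟨N, h1, h2⟩ := ih
    by_cases h : k + 1 < s (N + 1)
    · exact ⟨N, by omega, h⟩
    · have h3 := (plan2_lt hP (N + 1)).2
      exact ⟨N + 1, by omega, by omega⟩

private theorem w9_eq (hP : Plan2 m d s t L) {n k : ℕ} (h1 : s n ≤ k) (h2 : k < s (n + 1)) :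
    bk s k = n := by
  have hm := w9_mono hP
  have h3 : (Finset.range k).filter (fun j => s (j + 1) ≤ k) = Finset.range n := by
    ext j
    rw [Finset.mem_filter, Finset.mem_range, Finset.mem_range]
    constructor
    · rintro ⟨_, h4⟩
      by_contra h5
      have h6 : s (n + 1) ≤ s (j + 1) := hm.monotone (by omega)
      omega
    · intro h4
      have h5 : s (j + 1) ≤ s n := hm.monotone (by omega)
      have h6 : j + 1 ≤ s (j + 1) := hm.le_apply
      exact ⟨by omega, by omega⟩
  unfold bk
  rw [h3, Finset.card_range]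

theorem bk_spec (hP : Plan2 m d s t L) (k : ℕ) : s (bk s k) ≤ k ∧ k < s (bk s k + 1) := by
  obtain ⟨N, h1, h2⟩ := w9_ex hP k
  rw [w9_eq hP h1 h2]
  exact ⟨h1, h2⟩

theorem bk_eq (hP : Plan2 m d s t L) {n k : ℕ} (h1 : s n ≤ k) (h2 : k < s (n + 1)) : bk s k = n :=
  w9_eq hP h1 h2

/-- the place read at step `k` -/
private def w9_pos (s t L : ℕ → ℕ) (X : ℕ → Bool) (k : ℕ) : ℕ :=
  if k = s (bk s k) ∨ X (s (bk s k)) = true then k
  else if k < s (bk s k) + 1 + L (bk s k) then t (bk s k) + (k - s (bk s k) - 1)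
  else k - L (bk s k)

private theorem w9_pos_head (hP : Plan2 m d s t L) (X : ℕ → Bool) (n : ℕ) :
    w9_pos s t L X (s n) = s n := by
  have h1 : bk s (s n) = n := bk_eq hP (le_refl _) (plan2_lt hP n).2
  unfold w9_pos
  rw [h1, if_pos (Or.inl rfl)]

private theorem w9_bk_pos (hP : Plan2 m d s t L) (X : ℕ → Bool) (k : ℕ) :
    bk s (w9_pos s t L X k) = bk s k := by
  obtain ⟨h1, h2⟩ := bk_spec hP k
  obtain ⟨h3, h4⟩ := plan2_lt hP (bk s k)
  have h5 := hP.succ (bk s k)
  apply bk_eq hP
  · unfold w9_pos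
    split_ifs <;> omega
  · unfold w9_pos
    split_ifs <;> omega

private theorem w9_inj (hP : Plan2 m d s t L) (X : ℕ → Bool) :
    Function.Injective (w9_pos s t L X) := by
  intro k l h
  have hkl : bk s k = bk s l := by
    rw [← w9_bk_pos hP X k, h, w9_bk_pos hP X l]
  obtain ⟨h1, h2⟩ := bk_spec hP k
  obtain ⟨h1', h2'⟩ := bk_spec hP l
  obtain ⟨h3, h4⟩ := plan2_lt hP (bk s k)
  have h5 := hP.succ (bk s k)
  unfold w9_pos at h
  rw [← hkl] at h h1' h2'
  by_cases hX : X (s (bk s k)) = true
  · rw [if_pos (Or.inr hX), if_pos (Or.inr hX)] at h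
    exact h
  · have e1 : ∀ j : ℕ, (j = s (bk s k) ∨ X (s (bk s k)) = true) ↔ j = s (bk s k) := fun j =>
      ⟨fun h6 => h6.elim id fun h7 => absurd h7 hX, Or.inl⟩
    rw [if_congr (e1 k) rfl rfl, if_congr (e1 l) rfl rfl] at h
    split_ifs at h <;> omega

/-- W9b. The first rule inspects all places (each stage is permuted), everything is selected. -/
theorem sel_f3 (hP : Plan2 m d s t L) (X : ℕ → Bool) :
    Sel (fun v => Part.some (f3 s t L v)) X (B3 s t L X) := by
  refine ⟨w9_pos s t L X, fun _ => true, fun k => ?_, w9_inj hP X, ?_, fun j => ?_⟩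
  · have hlen : (List.ofFn (fun i : Fin k => X (w9_pos s t L X i))).length = k := by
      rw [List.length_ofFn]
    have h1 := (bk_spec hP k).1
    have hget : s (bk s k) < k →
        (List.ofFn (fun i : Fin k => X (w9_pos s t L X i))).getD (s (bk s k)) false =
          X (s (bk s k)) := by
      intro h2
      rw [List.getD_eq_getElem _ _ (by rw [hlen]; exact h2), List.getElem_ofFn]
      show X (w9_pos s t L X (s (bk s k))) = X (s (bk s k))
      rw [w9_pos_head hP X]
    have hiff : (k = s (bk s k) ∨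
        (List.ofFn (fun i : Fin k => X (w9_pos s t L X i))).getD (s (bk s k)) false = true) ↔
        (k = s (bk s k) ∨ X (s (bk s k)) = true) := by
      by_cases h2 : k = s (bk s k)
      · exact ⟨fun _ => Or.inl h2, fun _ => Or.inl h2⟩
      · rw [hget (by omega)]
    have hf : f3 s t L (List.ofFn (fun i : Fin k => X (w9_pos s t L X i))) =
        (w9_pos s t L X k, true) := by
      unfold f3
      rw [hlen, if_congr hiff rfl rfl]
      generalize hg : w9_pos s t L X k = y
      unfold w9_pos at hg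
      rw [← hg]
      split_ifs <;> rfl
    show Part.some (f3 s t L (List.ofFn (fun i : Fin k => X (w9_pos s t L X i)))) =
      Part.some (w9_pos s t L X k, true)
    rw [hf]
  · have h1 : {k : ℕ | (fun _ : ℕ => true) k = true} = Set.univ := by
      ext k
      simp
    rw [h1]
    exact Set.infinite_univ
  · have h1 : (fun k : ℕ => (fun _ : ℕ => true) k = true) = fun _ => True := by
      funext k
      simp
    rw [h1, Nat.nth_true]
    unfold B3 w9_pos
    split_ifs <;> rfl

end H48K
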