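import Pool.Agent.Lib.H48K.Defs8
import Pool.Agent.Lib.H48K.E2
import Pool.Agent.Lib.H48K.W6

/-!
# H48K, chunk Z5: the test for the errors is recursively enumerable
-/

open MeasureTheory Set Filter H69K

namespace H48K

/-- The words which show an error in a stage `n ≥ k + 2`. -/
def WE (m : List Bool → ℕ) (d s t L : ℕ → ℕ) (k : ℕ) : Set (List Bool) :=
  {w | ∃ n, k + 2 ≤ n ∧ t n + L n ≤ w.length ∧
    ((w.getD (s n) false = true ∧
        ps m d (n + 1) ((List.range (s n)).map fun i => w.getD i false)
          ((List.range (L n)).map fun i => w.getD (s n + 1 + i) false) = false) ∨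
      (w.getD (s n) false = false ∧
        ps m d (n + 1) ((List.range (s n)).map fun i => w.getD i false)
          ((List.range (L n)).map fun i => w.getD (t n + i) false) = true))}

variable {m : List Bool → ℕ} {d s t L : ℕ → ℕ}

section

variable {α : Type*} [Primcodable α]

private theorem z5_add {f g : α → ℕ} (hf : Computable f) (hg : Computable g) :
    Computable fun x => f x + g x :=
  Primrec.nat_add.to_comp.comp hf hg

private theorem z5_le {f g : α → ℕ} (hf : Computable f) (hg : Computable g) :
    Computable fun x => decide (f x ≤ g x) :=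
  Primrec.nat_le.decide.to_comp.comp hf hg

private theorem z5_getD {v : α → List Bool} {i : α → ℕ} (hv : Computable v) (hi : Computable i) :
    Computable fun x => (v x).getD (i x) false :=
  (Primrec.list_getD false).to_comp.comp hv hi

/-- The list of the values of a computable function is computable. -/
private theorem z5_map {β : Type*} [Primcodable β] {F : α → ℕ → β} {n : α → ℕ}
    (hF : Computable₂ F) (hn : Computable n) :
    Computable fun x => (List.range (n x)).map (F x) := by
  have hh : Computable₂ (fun (x : α) (p : ℕ × List β) => p.2 ++ [F x p.1]) := by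
    have h1 : Computable (fun q : α × (ℕ × List β) => q.2.2) := Computable.snd.comp Computable.snd
    have h2 : Computable (fun q : α × (ℕ × List β) => F q.1 q.2.1) :=
      hF.comp Computable.fst (Computable.fst.comp Computable.snd)
    exact (Primrec.list_concat.to_comp.comp h1 h2 :
      Computable (fun q : α × (ℕ × List β) => q.2.2 ++ [F q.1 q.2.1])).to₂
  have h3 := Computable.nat_rec hn (Computable.const (α := α) ([] : List β)) hh
  refine h3.of_eq fun x => ?_
  generalize n x = k
  induction k with
  | zero => simp
  | succ k ih =>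
    rw [List.range_succ, List.map_append, ← ih]
    rfl

end

/-- Z5. `re_exists` (E2) with a computable predicate (compare `re_WD` in TH, and the private lemmas `w8_map`, `w8_getD`
of W8; use `computable_ps` in two steps: `have h2 := (computable_ps hm hd).comp h1; exact h2`). -/
theorem re_WE (hm : Computable m) (hd : Computable d) (hs : Computable s) (ht : Computable t)
    (hL : Computable L) : REPred fun x : ℕ × List Bool => x.2 ∈ WE m d s t L x.1 := by
  let g : (ℕ × List Bool) × ℕ → Bool := fun q =>
    (decide (q.1.1 + 2 ≤ q.2) && decide (t q.2 + L q.2 ≤ q.1.2.length)) &&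
      ((q.1.2.getD (s q.2) false &&
        !(ps m d (q.2 + 1) ((List.range (s q.2)).map fun i => q.1.2.getD i false)
          ((List.range (L q.2)).map fun i => q.1.2.getD (s q.2 + 1 + i) false))) ||
      ((!(q.1.2.getD (s q.2) false)) &&
        ps m d (q.2 + 1) ((List.range (s q.2)).map fun i => q.1.2.getD i false)
          ((List.range (L q.2)).map fun i => q.1.2.getD (t q.2 + i) false)))
  have hn : Computable fun q : (ℕ × List Bool) × ℕ => q.2 := Computable.snd
  have hw : Computable fun q : (ℕ × List Bool) × ℕ => q.1.2 := Computable.snd.comp Computable.fst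
  have hk : Computable fun q : (ℕ × List Bool) × ℕ => q.1.1 := Computable.fst.comp Computable.fst
  have hlen : Computable fun q : (ℕ × List Bool) × ℕ => q.1.2.length :=
    (Primrec.list_length.to_comp : Computable fun v : List Bool => v.length).comp hw
  have hs0 : Computable fun q : (ℕ × List Bool) × ℕ => s q.2 := hs.comp hn
  have ht0 : Computable fun q : (ℕ × List Bool) × ℕ => t q.2 := ht.comp hn
  have hL0 : Computable fun q : (ℕ × List Bool) × ℕ => L q.2 := hL.comp hn
  have hs1 : Computable fun q : (ℕ × List Bool) × ℕ => s q.2 + 1 :=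
    z5_add hs0 (Computable.const 1)
  have hn1 : Computable fun q : (ℕ × List Bool) × ℕ => q.2 + 1 :=
    z5_add hn (Computable.const 1)
  have hw' : Computable fun p : ((ℕ × List Bool) × ℕ) × ℕ => p.1.1.2 := hw.comp Computable.fst
  have hy0 : Computable₂ fun (q : (ℕ × List Bool) × ℕ) (i : ℕ) => q.1.2.getD i false :=
    (z5_getD hw' Computable.snd :
      Computable fun p : ((ℕ × List Bool) × ℕ) × ℕ => p.1.1.2.getD p.2 false).to₂
  have hy1 : Computable₂ fun (q : (ℕ × List Bool) × ℕ) (i : ℕ) =>
      q.1.2.getD (s q.2 + 1 + i) false := by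
    have h1 : Computable fun p : ((ℕ × List Bool) × ℕ) × ℕ => s p.1.2 + 1 + p.2 :=
      z5_add (hs1.comp Computable.fst) Computable.snd
    exact (z5_getD hw' h1 :
      Computable fun p : ((ℕ × List Bool) × ℕ) × ℕ => p.1.1.2.getD (s p.1.2 + 1 + p.2) false).to₂
  have hy2 : Computable₂ fun (q : (ℕ × List Bool) × ℕ) (i : ℕ) =>
      q.1.2.getD (t q.2 + i) false := by
    have h1 : Computable fun p : ((ℕ × List Bool) × ℕ) × ℕ => t p.1.2 + p.2 :=
      z5_add (ht0.comp Computable.fst) Computable.snd
    exact (z5_getD hw' h1 :
      Computable fun p : ((ℕ × List Bool) × ℕ) × ℕ => p.1.1.2.getD (t p.1.2 + p.2) false).to₂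
  have hp : Computable fun q : (ℕ × List Bool) × ℕ =>
      (List.range (s q.2)).map fun i => q.1.2.getD i false := z5_map hy0 hs0
  have ha1 : Computable fun q : (ℕ × List Bool) × ℕ =>
      (List.range (L q.2)).map fun i => q.1.2.getD (s q.2 + 1 + i) false := z5_map hy1 hL0
  have ha2 : Computable fun q : (ℕ × List Bool) × ℕ =>
      (List.range (L q.2)).map fun i => q.1.2.getD (t q.2 + i) false := z5_map hy2 hL0
  have hd1 : Computable fun q : (ℕ × List Bool) × ℕ =>
      ps m d (q.2 + 1) ((List.range (s q.2)).map fun i => q.1.2.getD i false)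
        ((List.range (L q.2)).map fun i => q.1.2.getD (s q.2 + 1 + i) false) := by
    have h2 := (computable_ps hm hd).comp (hn1.pair (hp.pair ha1))
    exact h2
  have hd2 : Computable fun q : (ℕ × List Bool) × ℕ =>
      ps m d (q.2 + 1) ((List.range (s q.2)).map fun i => q.1.2.getD i false)
        ((List.range (L q.2)).map fun i => q.1.2.getD (t q.2 + i) false) := by
    have h2 := (computable_ps hm hd).comp (hn1.pair (hp.pair ha2))
    exact h2
  have hb : Computable fun q : (ℕ × List Bool) × ℕ => q.1.2.getD (s q.2) false :=
    z5_getD hw hs0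
  have hg : Computable g :=
    Primrec.and.to_comp.comp
      (Primrec.and.to_comp.comp (z5_le (z5_add hk (Computable.const 2)) hn)
        (z5_le (z5_add ht0 hL0) hlen))
      (Primrec.or.to_comp.comp
        (Primrec.and.to_comp.comp hb (Primrec.not.to_comp.comp hd1))
        (Primrec.and.to_comp.comp (Primrec.not.to_comp.comp hb) hd2))
  have hP : REPred fun q : (ℕ × List Bool) × ℕ => g q = true :=
    (ComputablePred.computable_iff.2 ⟨g, hg, rfl⟩).to_re
  refine (re_exists hP).of_eq fun x => ?_
  simp only [WE, Set.mem_ofPred_eq, g, Bool.and_eq_true, Bool.or_eq_true, decide_eq_true_eq,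
    Bool.not_eq_true', and_assoc]

end H48K
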